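import Pool.Agent.T2h95.GD.Closure

/-!
# The structures generated by a family, and the cases of the Gross-Deligne conjecture
-/

set_option autoImplicit false

open scoped TensorProduct

namespace Pool.Agent.T2h95.GDS

/-- The structure `P` is the direct sum of `M` and `N`, by the linear maps `i` and `j`. -/
structure IsDirectSum (M N P : HdR) (i : M.B →ₗ[ℚ] P.B) (j : N.B →ₗ[ℚ] P.B) : Prop where
  left : IsIn M P i
  right : IsIn N P j
  bij : Function.Bijective fun z : M.B × N.B => i z.1 + j z.2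

/-- The structure `P` is the tensor product of `M` and `N`, by the linear map `j`. -/
structure IsTensor (M N P : HdR) (j : M.B ⊗[ℚ] N.B →ₗ[ℚ] P.B) : Prop where
  weight : P.m = M.m + N.m
  bij : Function.Bijective j
  deRham : MapsProd j M.D N.D P.D
  hodge : ∀ p q : ℤ, MapsProd j (M.V p) (N.V q) (P.V (p + q))

/-- The class generated by the structures `𝓜 i`: the smallest class which contains the `𝓜 i` and is closed under
substructures (in particular, isomorphisms), direct sums of structures of the same weight, and tensor products. -/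
inductive Generated {ι : Type} (𝓜 : ι → HdR) : HdR → Prop
  | base (i : ι) : Generated 𝓜 (𝓜 i)
  | sub (M N : HdR) (j : M.B →ₗ[ℚ] N.B) (hN : Generated 𝓜 N) (h : IsIn M N j) : Generated 𝓜 M
  | sum (M N P : HdR) (i : M.B →ₗ[ℚ] P.B) (j : N.B →ₗ[ℚ] P.B) (hM : Generated 𝓜 M) (hN : Generated 𝓜 N)
    (h : IsDirectSum M N P i j) : Generated 𝓜 P
  | tensor (M N P : HdR) (j : M.B ⊗[ℚ] N.B →ₗ[ℚ] P.B) (hM : Generated 𝓜 M) (hN : Generated 𝓜 N)
    (h : IsTensor M N P j) : Generated 𝓜 P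

/-- A case of the conjecture: an admissible triple `T = (H, F, ι)` in a member `M` of the class, with `F` abelian, its
Hodge numbers `p(σ)`, and a reference embedding of `F` in `ℂ`. -/
structure Case (𝒞 : HdR → Prop) where
  M : HdR
  mem : 𝒞 M
  F : Type
  [fld : Field F]
  [nf : NumberField F]
  abelian : IsAbelian F
  T : Admissible M F
  p : (F →+* ℂ) → ℤ
  hodge : T.HodgeNumbers p
  emb : F →+* ℂ

attribute [instance] Case.fld Case.nf

variable {𝒞 : HdR → Prop}

/-- the Gross-Deligne conjecture for the triple of the case -/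
def Case.Holds (x : Case 𝒞) : Prop :=
  ∀ (d : ℕ) [NeZero d], IsConductor x.F d →
  ∀ (K : Type) [Field K] [NumberField K] [IsCyclotomicExtension {d} ℚ K] (e : x.F →+* K) (ζ : K)
    (t : (ZMod d)ˣ → K →+* ℂ), IsEmb ζ t →
  ∀ ε : ZMod d → ℚ, (∀ u : (ZMod d)ˣ, (d : ℚ) * x.p ((t u).comp e) = ∑ a, ε a * (((u : ZMod d) * a).val : ℚ)) →
  ∀ u : (ZMod d)ˣ, x.T.Period ((t u).comp e) (gam d ε u : ℂ)

/-- the conjugate `τ ∘ emb` of the reference embedding by an automorphism `τ` of `ℂ` -/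
def Case.conj (x : Case 𝒞) (τ : ℂ ≃+* ℂ) : x.F →+* ℂ := (τ : ℂ →+* ℂ).comp x.emb

/-- The case `x` depends on the cases `c 1, ..., c r`: there are integers `n ≠ 0` and `k 1, ..., k r` such that for all
automorphisms `τ` of `ℂ`, for the conjugates `σ`, `σ_1, ..., σ_r` by `τ` of the reference embeddings, one has
`n (2 p(σ) - m) = ∑_j k_j (2 p_j(σ_j) - m_j)` and `(P_σ² / π^m)^n ∼ ∏_j (P_(σ_j)² / π^(m_j))^(k_j)`. -/
def Case.DependsOn (x : Case 𝒞) {r : ℕ} (c : Fin r → Case 𝒞) : Prop :=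
  ∃ (n : ℤ) (k : Fin r → ℤ), n ≠ 0 ∧ ∀ τ : ℂ ≃+* ℂ,
    n * (2 * x.p (x.conj τ) - x.M.m) = ∑ j, k j * (2 * (c j).p ((c j).conj τ) - (c j).M.m) ∧
    ∀ (z : ℂ) (w : Fin r → ℂ), x.T.Period (x.conj τ) z → (∀ j, (c j).T.Period ((c j).conj τ) (w j)) →
      ∃ a ∈ Qb, a ≠ 0 ∧
        (z ^ 2 / (Real.pi : ℂ) ^ x.M.m) ^ n = a * ∏ j, ((w j) ^ 2 / (Real.pi : ℂ) ^ (c j).M.m) ^ k j

end Pool.Agent.T2h95.GDS
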