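import Pool.Agent.T2h95.GD.GDrel
import Pool.Agent.T2h95.GD.Powers

/-!
The cases of the conjecture and their dependence.
-/

set_option autoImplicit false

open Finset
open scoped TensorProduct

namespace Pool.Agent.T2h95.GD

lemma inO_of_isIn {M N : GDS.HdR} {j : M.B →ₗ[ℚ] N.B} (h : GDS.IsIn M N j) : InO M.toOld N.toOld j where
  weight := h.weight
  inj := h.inj
  deRham := fun x hx => (N.mem_sp _).mpr (h.deRham x ((M.mem_sp x).mp hx))
  hodge := fun p x hx => h.hodge p x hx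

theorem gen_of_generated {ι : Type} {𝓜 : ι → GDS.HdR} {M : GDS.HdR} (h : GDS.Generated 𝓜 M) :
    Gen (fun i => (𝓜 i).toOld) M.toOld := by
  induction h with
  | base i => exact Gen.base i
  | sub M N j _ h ih => exact Gen.sub _ _ j ih (inO_of_isIn h)
  | sum M N P i j _ _ h ihM ihN =>
    refine Gen.sum M.toOld N.toOld P.toOld i j ihM ihN (inO_of_isIn h.left) (inO_of_isIn h.right) ?_ ?_
    · intro (x : M.B) (y : N.B) hxy
      have h1 : (fun z : M.B × N.B => i z.1 + j z.2) (x, -y) = (fun z : M.B × N.B => i z.1 + j z.2) (0, 0) := by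
        change i x + j (-y) = i 0 + j 0
        have hxy' : i x = j y := hxy
        rw [map_neg, map_zero, map_zero, add_zero, hxy', add_neg_cancel]
      exact congrArg Prod.fst (h.bij.1 h1)
    · intro z
      obtain ⟨⟨x, y⟩, hxy⟩ := h.bij.2 z
      exact ⟨x, y, hxy.symm⟩
  | tensor M N P j _ _ h ihM ihN =>
    refine Gen.tens M.toOld N.toOld P.toOld j ihM ihN ⟨h.weight, h.bij, fun x hx y hy => ?_, fun p q x hx y hy => ?_⟩
    · exact (P.mem_sp _).mpr (h.deRham x ((M.mem_sp _).mp hx) y ((N.mem_sp _).mp hy))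
    · exact h.hodge p q x hx y hy

section

variable {ι : Type} {𝓜 : ι → GDS.HdR}

/-- the periods of a case -/
noncomputable def cP (x : GDS.Case (GDS.Generated 𝓜)) : (x.F →+* ℂ) → ℂ := (toLine x.T.toOld x.p x.hodge).choose_spec.choose

/-- the line of a case, with an embedding -/
noncomputable def item (x : GDS.Case (GDS.Generated 𝓜)) (σ : x.F →+* ℂ) : LItem (Gen (fun i => (𝓜 i).toOld)) :=
  ⟨x.M.toOld, gen_of_generated x.mem, x.F, (toLine x.T.toOld x.p x.hodge).choose, cP x, x.p,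
    (toLine x.T.toOld x.p x.hodge).choose_spec.choose_spec.1, σ⟩

lemma item_period (x : GDS.Case (GDS.Generated 𝓜)) (σ : x.F →+* ℂ) (z : ℂ) :
    x.T.Period σ z ↔ ∃ u ∈ Qb, u ≠ 0 ∧ cP x σ = u * z :=
  (GDS.period_toOld x.T σ z).symm.trans ((toLine x.T.toOld x.p x.hodge).choose_spec.choose_spec.2.2 σ z)

lemma item_R (x : GDS.Case (GDS.Generated 𝓜)) (σ : x.F →+* ℂ) (τ : ℂ ≃+* ℂ) :
    (item x σ).R τ = cP x ((τ : ℂ →+* ℂ).comp σ) ^ 2 / (Real.pi : ℂ) ^ x.M.m := rfl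

lemma item_w (x : GDS.Case (GDS.Generated 𝓜)) (σ : x.F →+* ℂ) (τ : ℂ ≃+* ℂ) :
    (item x σ).w τ = 2 * x.p ((τ : ℂ →+* ℂ).comp σ) - x.M.m := rfl

/-- the dependence of cases in terms of lines -/
lemma dependsOn_of {r : ℕ} (x : GDS.Case (GDS.Generated 𝓜)) (c : Fin r → GDS.Case (GDS.Generated 𝓜)) {n : ℤ}
    (hn : n ≠ 0) (k : Fin r → ℤ)
    (h : ∀ τ, n * (item x x.emb).w τ = ∑ j, k j * (item (c j) (c j).emb).w τ ∧
      (item x x.emb).R τ ^ n / ∏ j, (item (c j) (c j).emb).R τ ^ k j ∈ Qb) : x.DependsOn c := by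
  refine ⟨n, k, hn, fun τ => ⟨(h τ).1, fun z w hz hw => ?_⟩⟩
  obtain ⟨a, ha, ha0, h1⟩ := (item_period x _ z).mp hz
  choose b hb hb0 h2 using fun j => (item_period (c j) _ (w j)).mp (hw j)
  have hxR := (item x x.emb).R_ne τ
  have hcR := fun j => (item (c j) (c j).emb).R_ne τ
  have hpi : ∀ m : ℕ, (Real.pi : ℂ) ^ m ≠ 0 := fun m => pow_ne_zero _ pi_ne'
  have e1 : (item x x.emb).R τ = a ^ 2 * (z ^ 2 / (Real.pi : ℂ) ^ x.M.m) := by
    have h1' : cP x ((τ : ℂ →+* ℂ).comp x.emb) = a * z := h1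
    rw [item_R, h1']
    ring
  have e2 : ∀ j, (item (c j) (c j).emb).R τ = b j ^ 2 * ((w j) ^ 2 / (Real.pi : ℂ) ^ (c j).M.m) := by
    intro j
    have h2' : cP (c j) ((τ : ℂ →+* ℂ).comp (c j).emb) = b j * w j := h2 j
    rw [item_R, h2']
    ring
  have hz0 : z ^ 2 / (Real.pi : ℂ) ^ x.M.m ≠ 0 := fun h => hxR (by rw [e1, h, mul_zero])
  have hw0 : ∀ j, (w j) ^ 2 / (Real.pi : ℂ) ^ (c j).M.m ≠ 0 := fun j h => hcR j (by rw [e2, h, mul_zero])
  obtain ⟨q, hq⟩ : ∃ q, q = (item x x.emb).R τ ^ n / ∏ j, (item (c j) (c j).emb).R τ ^ k j := ⟨_, rfl⟩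
  have hq1 : q ∈ Qb := by rw [hq]; exact (h τ).2
  have hq0 : q ≠ 0 := by
    rw [hq]
    exact div_ne_zero (zpow_ne_zero _ hxR) (Finset.prod_ne_zero_iff.mpr fun j _ => zpow_ne_zero _ (hcR j))
  refine ⟨q * (∏ j, (b j ^ 2) ^ k j) / (a ^ 2) ^ n, ?_, ?_, ?_⟩
  · refine div_mem (mul_mem hq1 (prod_mem fun j _ => zpow_mem (pow_mem (hb j) 2) _)) (zpow_mem (pow_mem ha 2) _)
  · refine div_ne_zero (mul_ne_zero hq0 (Finset.prod_ne_zero_iff.mpr fun j _ => zpow_ne_zero _ (pow_ne_zero _ (hb0 j))))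
      (zpow_ne_zero _ (pow_ne_zero _ ha0))
  · have h3 : (item x x.emb).R τ ^ n = q * ∏ j, (item (c j) (c j).emb).R τ ^ k j := by
      rw [hq, div_mul_cancel₀]
      exact Finset.prod_ne_zero_iff.mpr fun j _ => zpow_ne_zero _ (hcR j)
    rw [e1, mul_zpow] at h3
    have h4 : ∏ j, (item (c j) (c j).emb).R τ ^ k j =
        (∏ j, (b j ^ 2) ^ k j) * ∏ j, ((w j) ^ 2 / (Real.pi : ℂ) ^ (c j).M.m) ^ k j := by
      rw [← Finset.prod_mul_distrib]
      exact Finset.prod_congr rfl fun j _ => by rw [e2 j, mul_zpow]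
    rw [h4] at h3
    have ha2 : (a ^ 2) ^ n ≠ 0 := zpow_ne_zero _ (pow_ne_zero _ ha0)
    rw [div_mul_eq_mul_div, eq_div_iff ha2, mul_comm, h3, mul_assoc]

/-- the conjecture for a case gives the functional form -/
theorem gdf_of_holds (x : GDS.Case (GDS.Generated 𝓜)) (h : x.Holds) (σ : x.F →+* ℂ) : GDF (item x σ) := by
  obtain ⟨d, hd⟩ := x.abelian
  obtain ⟨⟨hd0, s, hs⟩, hmin⟩ := hd
  have : NeZero d := ⟨hd0.ne'⟩
  obtain ⟨K, _, _, _, e, ζ, t, ht⟩ := exists_cyc s hs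
  obtain ⟨v, hv⟩ := ext_emb ht e σ
  by_cases h2 : 2 ≤ d
  · obtain ⟨ε, hε⟩ := exists_eps h2 x.M.m (fun u => x.p ((t u).comp e)) (fun u => by
      have h1 := ((item x σ).line.pol ((t u).comp e)).1
      have h3 : cj ((t u).comp e) = (t (-u)).comp e := by rw [← cj_t ht]; rfl
      exact (congrArg x.p h3).symm.trans h1)
    refine gdf_of_gd (item x σ) ht e hv (ε := ε) hε fun u => ?_
    exact (item_period x _ _).mp (h d ⟨⟨hd0, s, hs⟩, hmin⟩ K e ζ t ht ε hε u)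
  · have hd1 : d = 1 := by omega
    refine gdf_of_real _ fun σ' => ?_
    have hone : ∀ u : (ZMod d)ˣ, u = 1 := by
      intro u
      subst hd1
      exact Subsingleton.elim _ _
    obtain ⟨u, hu⟩ := ext_emb ht e σ'
    have h3 : cj ((t u).comp e) = (t (-u)).comp e := by rw [← cj_t ht]; rfl
    rw [hu]
    refine h3.trans ?_
    rw [hone (-u), hone u]

/-- the functional form gives the conjecture -/
theorem holds_of_gdf (x : GDS.Case (GDS.Generated 𝓜)) (h : ∀ σ, GDF (item x σ)) : x.Holds := by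
  intro d _ _ K _ _ _ e ζ t ht ε hε u
  rw [item_period]
  exact gd_of_gdf (item x ((t 1).comp e)) (h _) ht e rfl hε u

end

end Pool.Agent.T2h95.GD
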