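import Pool.Agent.T2h95.GD.Depend

/-!
The two forms of the definitions are equivalent.
-/

set_option autoImplicit false

open scoped TensorProduct

namespace Pool.Agent.T2h95.GDS

/-- the `ℚ̄`-span of a basis -/
noncomputable def HdR.sp (M : HdR) : Submodule Qb (ℂ ⊗[ℚ] M.B) :=
  Submodule.span Qb (Set.range (show Module.Basis (Fin (Module.finrank ℚ M.B)) ℂ (ℂ ⊗[ℚ] M.B) from M.form.choose))

lemma HdR.mem_sp (M : HdR) (x : ℂ ⊗[ℚ] M.B) : x ∈ M.sp ↔ (show Cx M.B from x) ∈ M.D := by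
  set b : Module.Basis (Fin (Module.finrank ℚ M.B)) ℂ (ℂ ⊗[ℚ] M.B) := M.form.choose with hb
  have h1 : x ∈ M.sp ↔ ∀ i, b.repr x i ∈ Set.range (algebraMap Qb ℂ) := b.mem_span_iff_repr_mem Qb x
  have h2 : M.D = {x | ∀ i, M.form.choose.repr x i ∈ Qb} := M.form.choose_spec
  rw [h1, h2]
  constructor
  · intro h i
    obtain ⟨y, hy⟩ := h i
    have : b.repr x i ∈ Qb := by rw [← hy]; exact y.2
    exact this
  · intro h i
    exact ⟨⟨_, h i⟩, rfl⟩

/-- the old form of a structure -/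
noncomputable def HdR.toOld (M : HdR) : GD.HdR where
  B := M.B
  m := M.m
  D := M.sp
  form := ⟨_, rfl⟩
  V := M.V
  internal := M.hodge.internal
  conj := M.hodge.conj
  ψ := M.ψ
  symm := M.pol.symm
  orth := M.pol.orth
  pos := M.pol.pos
  deRham := fun x hx y hy => M.deRham x ((M.mem_sp x).mp hx) y ((M.mem_sp y).mp hy)

variable {M : HdR} {F : Type} [Field F] [NumberField F]

/-- the old form of a triple -/
noncomputable def Admissible.toOld (T : Admissible M F) : GD.Admissible M.toOld F where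
  H := T.H
  ι := T.ι
  dim := T.dim
  sub := by
    rw [eq_top_iff]
    intro x _
    obtain ⟨s, y, hy, hx⟩ := T.sub x
    have hx' : x = ∑ p ∈ s, (show ℂ ⊗[ℚ] T.H from y p) := hx
    rw [hx']
    refine Submodule.sum_mem _ fun p _ => ?_
    exact Submodule.mem_iSup_of_mem p (Submodule.mem_comap.mpr (hy p))
  hodge := fun a p x hx => T.hodge a p x hx
  deRham := fun σ => by
    obtain ⟨ω, h0, h1, h2⟩ := T.deRham σ
    exact ⟨ω, h0, h1, (M.mem_sp _).mpr h2⟩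

/-- the new form of a triple -/
noncomputable def ofOld (T : GD.Admissible M.toOld F) : Admissible M F where
  H := T.H
  ι := T.ι
  dim := T.dim
  sub := by
    intro x
    have hx : (show ℂ ⊗[ℚ] T.H from x) ∈ ⨆ p : ℤ, (M.toOld.V p).comap (T.H.subtype.baseChange ℂ) := by
      rw [T.sub]; exact Submodule.mem_top
    rw [Submodule.mem_iSup_iff_exists_finsupp] at hx
    obtain ⟨f, hf, hfx⟩ := hx
    exact ⟨f.support, fun p => f p, fun p => Submodule.mem_comap.mp (hf p), hfx.symm⟩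
  hodge := fun a p x hx => T.hodge a p x hx
  deRham := fun σ => by
    obtain ⟨ω, h0, h1, h2⟩ := T.deRham σ
    exact ⟨ω, h0, h1, (M.mem_sp _).mp h2⟩

lemma hodge_toOld (T : Admissible M F) (p : (F →+* ℂ) → ℤ) : T.toOld.HodgeNumbers p ↔ T.HodgeNumbers p := Iff.rfl

lemma hodge_ofOld (T : GD.Admissible M.toOld F) (p : (F →+* ℂ) → ℤ) : (ofOld T).HodgeNumbers p ↔ T.HodgeNumbers p :=
  Iff.rfl

lemma period_toOld (T : Admissible M F) (σ : F →+* ℂ) (z : ℂ) : T.toOld.Period σ z ↔ T.Period σ z := by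
  constructor
  · intro h ω h1 h2 h3 γ hγ
    exact h ω h1 ((M.mem_sp _).mpr h2) h3 γ hγ
  · intro h ω h1 h2 h3 γ hγ
    exact h ω h1 ((M.mem_sp _).mp h2) h3 γ hγ

lemma period_ofOld (T : GD.Admissible M.toOld F) (σ : F →+* ℂ) (z : ℂ) : (ofOld T).Period σ z ↔ T.Period σ z := by
  constructor
  · intro h ω h1 h2 h3 γ hγ
    exact h ω h1 ((M.mem_sp _).mp h2) h3 γ hγ
  · intro h ω h1 h2 h3 γ hγ
    exact h ω h1 ((M.mem_sp _).mpr h2) h3 γ hγ

/-- the old form of a class -/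
def oldClass (𝒞 : HdR → Prop) (N : GD.HdR) : Prop := ∃ M, 𝒞 M ∧ M.toOld = N

variable {𝒞 : HdR → Prop}

theorem kuenneth_old (hK : Kuenneth 𝒞) : GD.Kuenneth (oldClass 𝒞) := by
  rintro _ _ ⟨M, hM, rfl⟩ ⟨N, hN, rfl⟩
  obtain ⟨P, hP, hm, j, hj, hD, hV⟩ := hK M N hM hN
  refine ⟨P.toOld, ⟨P, hP, rfl⟩, hm, j, hj, fun x hx y hy => ?_, fun p q x hx y hy => ?_⟩
  · exact (P.mem_sp _).mpr (hD x ((M.mem_sp _).mp hx) y ((N.mem_sp _).mp hy))
  · exact hV p q x hx y hy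

theorem fermat_old (hC : ContainsFermat 𝒞) : GD.ContainsFermat (oldClass 𝒞) := by
  intro d _ K _ _ _ ζ t ht a b ha hb hab
  obtain ⟨M, hM, hm, T, p, hp, h⟩ := hC d K ζ t ht a b ha hb hab
  refine ⟨M.toOld, ⟨M, hM, rfl⟩, hm, T.toOld, p, hp, fun u => ⟨(h u).1, ?_⟩⟩
  rw [period_toOld]
  exact (h u).2

theorem gd_old : GD.GrossDeligne (oldClass 𝒞) F ↔ GrossDeligne 𝒞 F := by
  constructor
  · intro h M hM T p hp d _ hd K _ _ _ e ζ t ht ε hε u
    rw [← period_toOld]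
    exact h M.toOld ⟨M, hM, rfl⟩ T.toOld p hp d hd K e ζ t ht ε hε u
  · rintro h _ ⟨M, hM, rfl⟩ T p hp d _ hd K _ _ _ e ζ t ht ε hε u
    rw [← period_ofOld]
    exact h M hM (ofOld T) p hp d hd K e ζ t ht ε hε u

theorem hodge_old : GD.HodgeClassesDeRham (oldClass 𝒞) F ↔ HodgeClassesDeRham 𝒞 F := by
  constructor
  · intro h M hM T k hm hp x hx
    exact (M.mem_sp _).mp (h M.toOld ⟨M, hM, rfl⟩ T.toOld k hm hp x hx)
  · rintro h _ ⟨M, hM, rfl⟩ T k hm hp x hx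
    exact (M.mem_sp _).mpr (h M hM (ofOld T) k hm hp x hx)

theorem fin_old : GD.FinitelyManyPeriods (oldClass 𝒞) F ↔ FinitelyManyPeriods 𝒞 F := by
  constructor
  · rintro ⟨W, Z, h⟩
    refine ⟨W, Z, fun M hM T k hk hm hp => ?_⟩
    obtain ⟨z, hz, h1⟩ := h M.toOld ⟨M, hM, rfl⟩ T.toOld k hk hm hp
    exact ⟨z, hz, fun σ => (period_toOld T σ _).mp (h1 σ)⟩
  · rintro ⟨W, Z, h⟩
    refine ⟨W, Z, ?_⟩
    rintro _ ⟨M, hM, rfl⟩ T k hk hm hp
    obtain ⟨z, hz, h1⟩ := h M hM (ofOld T) k hk hm hp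
    exact ⟨z, hz, fun σ => (period_ofOld T σ _).mp (h1 σ)⟩

theorem dep_old : GD.Depend (oldClass 𝒞) F ↔ DependOnHodgeNumbers 𝒞 F := by
  constructor
  · intro h M N hM hN hm T T' p hp hp' σ z hz
    exact (period_toOld T' σ z).mp (h M.toOld N.toOld ⟨M, hM, rfl⟩ ⟨N, hN, rfl⟩ hm T.toOld T'.toOld p hp hp' σ z
      ((period_toOld T σ z).mpr hz))
  · rintro h _ _ ⟨M, hM, rfl⟩ ⟨N, hN, rfl⟩ hm T T' p hp hp' σ z hz
    exact (period_ofOld T' σ z).mp (h M N hM hN hm (ofOld T) (ofOld T') p hp hp' σ z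
      ((period_ofOld T σ z).mpr hz))

end Pool.Agent.T2h95.GDS
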