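import Pool.Agent.T2h95.GD.Twist
import Pool.Agent.H977R3.CM.Aut

/-!
In the class, the Hodge classes over the fields which do not contain `L` are de Rham classes.
-/

set_option autoImplicit false

open Finset
open scoped TensorProduct

namespace Pool.Agent.T2h95.GD

open Pool.Agent.H916R2

/-- The theorem of Koblitz and Ogus. -/
lemma ko_all {n : ℕ} [NeZero n] {ε : ZMod n → ℂ} (h : ∀ u : (ZMod n)ˣ, ∑ a, ε a * (saw ((u : ZMod n) * a) : ℂ) = 0)
    {Φ : ℂ → ℂ} (hΦ : Fn Φ) (u : (ZMod n)ˣ) : ∑ a, ε a * gt Φ ((u : ZMod n) * a) = 0 := by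
  refine fourier (f := fun u : (ZMod n)ˣ => ∑ a, ε a * gt Φ ((u : ZMod n) * a)) (fun χ => ?_) u
  rcases χ.even_or_odd with hev | hodd
  · have hneg : ∀ v : (ZMod n)ˣ, ∑ a, ε a * gt Φ (((-v : (ZMod n)ˣ) : ZMod n) * a) =
        - ∑ a, ε a * gt Φ ((v : ZMod n) * a) := by
      intro v
      rw [← sum_neg_distrib]
      refine sum_congr rfl fun a _ => ?_
      rw [Units.val_neg, neg_mul, gt_neg hΦ]
      ring
    have h2 : ∑ v : (ZMod n)ˣ, χ v * ∑ a, ε a * gt Φ ((v : ZMod n) * a) =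
        - ∑ v : (ZMod n)ˣ, χ v * ∑ a, ε a * gt Φ ((v : ZMod n) * a) := by
      conv_lhs => rw [← Equiv.sum_comp (Equiv.neg (ZMod n)ˣ)]
      rw [← sum_neg_distrib]
      refine sum_congr rfl fun v _ => ?_
      rw [Equiv.neg_apply, hneg, Units.val_neg, hev.eval_neg]
      ring
    exact self_eq_neg.mp h2
  · exact koblitz_ogus hΦ χ hodd ε (by simp [h])

/-- the cyclotomic character -/
lemma exists_cyc_unit (g : ℂ ≃+* ℂ) (n : ℕ) [NeZero n] : ∃ u : (ZMod n)ˣ, Cyc g n u := by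
  have hp := Complex.isPrimitiveRoot_exp n (NeZero.ne n)
  have h0 : Complex.exp (2 * Real.pi * Complex.I * ((1 : ℂ) / n)) = Complex.exp (2 * Real.pi * Complex.I / n) := by
    congr 1
    ring
  have h1 : IsPrimitiveRoot (g (Complex.exp (2 * Real.pi * Complex.I / n))) n := hp.map_of_injective g.injective
  rw [Complex.isPrimitiveRoot_iff _ _ (NeZero.ne n)] at h1
  obtain ⟨i, hi, hc, h⟩ := h1
  refine ⟨ZMod.unitOfCoprime i hc, ?_⟩
  unfold Cyc
  rw [h0, ← h, ZMod.coe_unitOfCoprime, exp_mod]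

section

variable {d : ℕ} [NeZero d] {K : Type} [Field K] [NumberField K] [IsCyclotomicExtension {d} ℚ K]
  {ζ : K} {t : (ZMod d)ˣ → K →+* ℂ}

/-- automorphisms of the cyclotomic field extend to the complex numbers -/
lemma ext_aut (v : (ZMod d)ˣ) (u : (ZMod d)ˣ) :
    ∃ h : ℂ ≃+* ℂ, ∀ x, h (t v x) = t v (gal d K u x) :=
  Pool.Agent.H977R3.CM.exists_aut (t v) ((gal d K u : K ≃ₐ[ℚ] K) : K ≃+* K)

end

/-- the cyclotomic character is surjective -/
lemma exists_cyc_aut (n : ℕ) [NeZero n] (u : (ZMod n)ˣ) : ∃ g : ℂ ≃+* ℂ, Cyc g n u := by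
  obtain ⟨K, _, _, _, -, ζ, t, ht⟩ := exists_cyc (E := ℚ) (d := n) (algebraMap ℚ ℂ) (fun x =>
    (IntermediateField.adjoin ℚ {Complex.exp (2 * Real.pi * Complex.I / n)}).algebraMap_mem x)
  obtain ⟨g, hg⟩ := ext_aut (K := K) (t := t) 1 u
  refine ⟨g, ?_⟩
  unfold Cyc
  have h1 := hg ζ
  rw [t_gal ht, one_mul, ht.2, ht.2] at h1
  have h2 := exp_mod (d := n) 1
  rw [Nat.cast_one, Nat.cast_one] at h2
  rw [Units.val_one, h2] at h1
  exact h1

section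

variable {d : ℕ} [NeZero d] {K : Type} [Field K] [NumberField K] [IsCyclotomicExtension {d} ℚ K]
  {ζ : K} {t : (ZMod d)ˣ → K →+* ℂ} {L : Type} [Field L] [NumberField L] {E : Type} [Field E] [NumberField E]

omit [NumberField L] in
lemma exists_moving (l : L →+* K) (e : E →+* K) (hno : ¬ Nonempty (L →+* E)) :
    ∃ u : (ZMod d)ˣ, (∀ x, gal d K u (e x) = e x) ∧ ∃ y, gal d K u (l y) ≠ l y := by
  by_contra hcon
  push Not at hcon
  apply hno
  have : IsGalois ℚ K := IsCyclotomicExtension.isGalois {d} ℚ K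
  let e' : E →ₐ[ℚ] K := e.toRatAlgHom
  have hmem : ∀ y, l y ∈ e'.fieldRange := by
    intro y
    rw [← IsGalois.fixedField_fixingSubgroup e'.fieldRange]
    rintro ⟨g, hg⟩
    obtain ⟨u, rfl⟩ := gal_surj (d := d) g
    refine hcon u (fun x => ?_) y
    rw [IntermediateField.mem_fixingSubgroup_iff] at hg
    exact hg (e x) ⟨x, rfl⟩
  let s : E ≃ₐ[ℚ] e'.fieldRange := AlgEquiv.ofInjectiveField e'
  exact ⟨(s.symm : e'.fieldRange →+* E).comp (l.codRestrict e'.fieldRange.toSubfield.toSubring hmem)⟩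

lemma repr_gact (X : DiagData) (g : ℂ ≃+* ℂ) (x : ℂ ⊗[ℚ] X.B) (α : X.A) :
    X.w.repr (gact X.B g x) (X.act g α) = g (X.w.repr x α) := by
  classical
  have hinj : ∀ α β, X.act g α = X.act g β → α = β := by
    intro α β h
    have h1 := congrArg (X.act g⁻¹) h
    rw [← X.act_mul, ← X.act_mul, inv_mul_cancel, X.act_one, X.act_one] at h1
    exact h1
  conv_lhs => rw [← X.w.sum_repr x]
  rw [map_sum, map_sum, Finset.sum_apply']
  have : ∀ β, X.w.repr (gact X.B g (X.w.repr x β • X.w β)) (X.act g α) =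
      if β = α then g (X.w.repr x β) else 0 := by
    intro β
    rw [gact_smul, X.hact, map_smul, Finsupp.smul_apply, Module.Basis.repr_self,
      Finsupp.single_apply, smul_eq_mul]
    by_cases h : β = α
    · rw [if_pos h, h, if_pos rfl, mul_one]
    · rw [if_neg h, if_neg fun h' => h (hinj _ _ h'), mul_zero]
  simp only [this, Finset.sum_ite_eq', Finset.mem_univ, if_true]

lemma repr_vec_mem (X : DiagData) (hX : ∀ (b : X.B) (α : X.A), X.w.repr ((1 : ℂ) ⊗ₜ[ℚ] b) α ∈ Qb)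
    (f : E →ₗ[ℚ] X.B) (σ : E →+* ℂ) (α : X.A) : X.w.repr (vec f σ) α ∈ Qb := by
  unfold vec
  rw [map_sum, Finset.sum_apply']
  refine sum_mem fun i _ => ?_
  have : σ (bas E i) ⊗ₜ[ℚ] f (dbas E i) = σ (bas E i) • ((1 : ℂ) ⊗ₜ[ℚ] f (dbas E i)) := by
    rw [TensorProduct.smul_tmul', smul_eq_mul, mul_one]
  rw [this, map_smul, Finsupp.smul_apply, smul_eq_mul]
  exact mul_mem (emb_mem σ _) (hX _ _)

lemma period_cls (ht : IsEmb ζ t) (l : L →+* K) (e : E →+* K) (hno : ¬ Nonempty (L →+* E)) (σ0 : L →+* ℂ)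
    (X : DiagData) (hX : ∀ (b : X.B) (α : X.A), X.w.repr ((1 : ℂ) ⊗ₜ[ℚ] b) α ∈ Qb)
    (hall : ∀ α : X.A, Allowed σ0 X.m (fun g => X.typ (X.act g α)) (fun g => X.per (X.act g α)))
    {k : ℕ} (hm' : X.m = 2 * k) (f : E →ₗ[ℚ] X.B) (P : (E →+* ℂ) → ℂ) (hfi : Function.Injective f)
    (hhodge : ∀ σ, vec f σ ∈ X.part k) (hdeR : ∀ σ, P σ • vec f σ ∈ X.deR) (hne : ∀ σ, P σ ≠ 0) (σ : E →+* ℂ) :
    ∃ u ∈ Qb, u ≠ 0 ∧ P σ = u * (Real.pi : ℂ) ^ k := by
  have hpi : (Real.pi : ℂ) ≠ 0 := by exact_mod_cast Real.pi_ne_zero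
  have hdr : ∀ σ, ∀ β : X.A, P σ * X.w.repr (vec f σ) β / X.per β ∈ Qb := by
    intro σ β
    have h2 := hdeR σ β
    rw [map_smul, Finsupp.smul_apply, smul_eq_mul] at h2
    exact h2
  -- the embeddings
  obtain ⟨v, rfl⟩ := ext_emb ht l σ0
  set σ1 : E →+* ℂ := (t v).comp e with hσ1
  obtain ⟨α, hα⟩ : ∃ α, X.w.repr (vec f σ1) α ≠ 0 := by
    by_contra hcon
    push Not at hcon
    exact vec_ne_zero f hfi σ1 (X.w.repr.injective (by ext α; rw [hcon α, map_zero]; rfl))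
  have hg0 : ∀ g : ℂ ≃+* ℂ, X.w.repr (vec f ((g : ℂ →+* ℂ).comp σ1)) (X.act g α) ≠ 0 := by
    intro g
    rw [← gact_vec, repr_gact]
    intro h
    exact hα ((map_eq_zero g).mp h)
  have htyp : ∀ g : ℂ ≃+* ℂ, X.typ (X.act g α) = k := by
    intro g
    by_contra hcon
    exact hg0 g (hhodge _ _ hcon)
  have hPper : ∀ (g : ℂ ≃+* ℂ) (Φ : ℂ → ℂ), Fn Φ → Φ (P ((g : ℂ →+* ℂ).comp σ1)) = Φ (X.per (X.act g α)) := by
    intro g Φ hΦ
    have h1 := hdr ((g : ℂ →+* ℂ).comp σ1) (X.act g α)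
    have h2 := repr_vec_mem X hX f ((g : ℂ →+* ℂ).comp σ1) (X.act g α)
    have h3 := hne ((g : ℂ →+* ℂ).comp σ1)
    have h4 := X.per_ne (X.act g α)
    have h5 := hΦ.alg _ h1
    rw [hΦ.div _ _ (mul_ne_zero h3 (hg0 g)) h4, hΦ.mul _ _ h3 (hg0 g), hΦ.alg _ h2] at h5
    linear_combination h5
  obtain ⟨w, hw, n0, hn0, hn⟩ := hall α
  have : NeZero n0 := ⟨hn0.ne'⟩
  obtain ⟨ε, hε⟩ := hn n0 (dvd_refl _)
  have hko : ∀ u : (ZMod n0)ˣ, ∑ a, ε a * (saw ((u : ZMod n0) * a) : ℂ) = 0 := by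
    intro u
    obtain ⟨g, hg⟩ := exists_cyc_aut n0 u
    have h1 := (hε g u hg).1
    rw [← h1]
    simp only [htyp g, hm']
    push_cast
    ring
  have key : ∀ (g : ℂ ≃+* ℂ) (Φ : ℂ → ℂ), Fn Φ → Φ (P ((g : ℂ →+* ℂ).comp σ1)) =
      k * Φ (Real.pi : ℝ) + w ((g : ℂ →+* ℂ).comp ((t v).comp l)) * Φ (T0 : ℝ) := by
    intro g Φ hΦ
    obtain ⟨u, hu⟩ := exists_cyc_unit g n0
    have h1 := (hε g u hu).2 Φ hΦ
    rw [ko_all hko hΦ u] at h1
    rw [hPper g Φ hΦ]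
    have h2 : ((X.m : ℕ) : ℂ) = 2 * k := by rw [hm']; push_cast; ring
    rw [h2] at h1
    linear_combination h1
  -- a moving automorphism
  obtain ⟨u, hue, y, huy⟩ := exists_moving (d := d) l e hno
  obtain ⟨h, hh⟩ := ext_aut (K := K) (t := t) v u
  obtain ⟨τ, -, hτ⟩ := exists_tau (d := d) l
  have hκ : τ u ≠ 1 := by
    intro h1
    apply huy
    rw [← hτ, h1]
    rfl
  have hpow : ∀ i : ℕ, ((h ^ i : ℂ ≃+* ℂ) : ℂ →+* ℂ).comp σ1 = σ1 ∧
      ((h ^ i : ℂ ≃+* ℂ) : ℂ →+* ℂ).comp ((t v).comp l) =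
        ((t v).comp l).comp (((τ u) ^ i : L ≃ₐ[ℚ] L) : L →+* L) := by
    intro i
    induction i with
    | zero => exact ⟨by ext x; rfl, by ext x; rfl⟩
    | succ i ih =>
      refine ⟨?_, ?_⟩
      · ext x
        have h1 : (h ^ (i + 1)) (t v (e x)) = (h ^ i) (h (t v (e x))) := by rw [pow_succ]; rfl
        have h2 := RingHom.congr_fun ih.1 x
        change (h ^ (i + 1)) (t v (e x)) = t v (e x)
        rw [h1, hh, hue]
        exact h2
      · ext x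
        have h1 : (h ^ (i + 1)) (t v (l x)) = (h ^ i) (h (t v (l x))) := by rw [pow_succ]; rfl
        have h2 := RingHom.congr_fun ih.2 (τ u x)
        change (h ^ (i + 1)) (t v (l x)) = t v (l (((τ u) ^ (i + 1)) x))
        rw [h1, hh, ← hτ]
        have h3 : ((τ u) ^ (i + 1)) x = ((τ u) ^ i) (τ u x) := by rw [pow_succ]; rfl
        rw [h3]
        exact h2
  obtain ⟨Φ0, hΦ0, hΦT⟩ := exists_fn T0_trans
  have hw0 : ∀ g : ℂ ≃+* ℂ, w ((g : ℂ →+* ℂ).comp ((t v).comp l)) = 0 := by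
    intro g
    have h1 : ∀ i : ℕ, w (((g : ℂ →+* ℂ).comp ((t v).comp l)).comp (((τ u) ^ i : L ≃ₐ[ℚ] L) : L →+* L)) =
        w ((g : ℂ →+* ℂ).comp ((t v).comp l)) := by
      intro i
      have h2 := key g Φ0 hΦ0
      have h3 := key (g * h ^ i) Φ0 hΦ0
      have e1 : (((g * h ^ i : ℂ ≃+* ℂ)) : ℂ →+* ℂ).comp σ1 = (g : ℂ →+* ℂ).comp σ1 := by
        rw [← (hpow i).1]
        conv_rhs => rw [(hpow i).1]
        ext x
        have h4 := RingHom.congr_fun (hpow i).1 x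
        change g ((h ^ i) ((h ^ i) (σ1 x))) = g (σ1 x)
        have h5 : (h ^ i) (σ1 x) = σ1 x := h4
        rw [h5, h5]
      have e2 : (((g * h ^ i : ℂ ≃+* ℂ)) : ℂ →+* ℂ).comp ((t v).comp l) =
          ((g : ℂ →+* ℂ).comp ((t v).comp l)).comp (((τ u) ^ i : L ≃ₐ[ℚ] L) : L →+* L) := by
        ext x
        have h4 := RingHom.congr_fun (hpow i).2 x
        exact congrArg g h4
      rw [e1, e2, h2] at h3
      have h4 := add_left_cancel h3
      have h5 := mul_right_cancel₀ hΦT h4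
      exact_mod_cast h5.symm
    have h2 := hw (τ u) hκ ((g : ℂ →+* ℂ).comp ((t v).comp l))
    simp only [h1, sum_const, card_range] at h2
    rw [nsmul_eq_mul] at h2
    rcases mul_eq_zero.mp h2 with h3 | h3
    · exfalso
      have h4 : 0 < orderOf (τ u) := orderOf_pos _
      have h5 : (orderOf (τ u) : ℤ) ≠ 0 := by exact_mod_cast h4.ne'
      exact h5 h3
    · exact h3
  obtain ⟨v', rfl⟩ := ext_emb ht e σ
  obtain ⟨g, hg⟩ := ext_aut (K := K) (t := t) v (v⁻¹ * v')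
  have h1 : (g : ℂ →+* ℂ).comp σ1 = (t v').comp e := by
    ext x
    change g (t v (e x)) = t v' (e x)
    rw [hg, t_gal ht, mul_inv_cancel_left]
  refine alg_of_fn (hne _) (pow_ne_zero _ hpi) fun Φ hΦ => ?_
  have h2 := key g Φ hΦ
  rw [h1, hw0] at h2
  rw [h2, hΦ.pow _ hpi]
  simp

theorem hodge_cls (ht : IsEmb ζ t) (l : L →+* K) (e : E →+* K) (hno : ¬ Nonempty (L →+* E)) (σ0 : L →+* ℂ) :
    GDS.HodgeClassesDeRham (Cls σ0) E := by
  rw [← GDS.hodge_old]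
  rintro _ ⟨_, ⟨X, rfl, hX, hall⟩, rfl⟩ T k hm hp
  obtain ⟨f, P, hf, hsurj, hper⟩ := toLine T _ hp
  have hPk := period_cls ht l e hno σ0 X hX hall (k := k) hm f P hf.inj hf.hodge
    (fun σ => (X.toHdR.mem_sp _).mp (hf.dr σ)) hf.ne
  intro x hx
  obtain ⟨a, rfl⟩ := hsurj x hx
  exact hodge_of_period hf hPk a

end

end Pool.Agent.T2h95.GD
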