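import Pool.Agent.T2h95.GD.Slim

/-!
# Closure properties of classes of cohomology structures
-/

set_option autoImplicit false

namespace Pool.Agent.T2h95.GDS

/-- the linear map `j` is an embedding of the structure `M` in the structure `N`, of the same weight -/
structure IsIn (M N : HdR) (j : M.B →ₗ[ℚ] N.B) : Prop where
  weight : M.m = N.m
  inj : Function.Injective j
  deRham : ∀ x ∈ M.D, map j x ∈ N.D
  hodge : ∀ p : ℤ, ∀ x ∈ M.V p, map j x ∈ N.V p

/-- The class is closed under substructures (in particular, under isomorphisms). -/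
def SubClosed (𝒞 : HdR → Prop) : Prop := ∀ M N : HdR, 𝒞 N → ∀ j, IsIn M N j → 𝒞 M

/-- The class is closed under direct sums: the direct sum of two members of the same weight is contained in a member. -/
def SumClosed (𝒞 : HdR → Prop) : Prop :=
  ∀ M N : HdR, 𝒞 M → 𝒞 N → M.m = N.m → ∃ P : HdR, 𝒞 P ∧ ∃ (i : M.B →ₗ[ℚ] P.B) (j : N.B →ₗ[ℚ] P.B),
    IsIn M P i ∧ IsIn N P j ∧ ∀ x y, i x = j y → x = 0

/-- `F` is abelian: it has an embedding in a cyclotomic field, and so a conductor. -/
def IsAbelian (F : Type) [Field F] : Prop := ∃ d : ℕ, IsConductor F d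

end Pool.Agent.T2h95.GDS
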