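import Pool.Agent.T2h95.GD.Prim

/-!
The class of structures whose periods are products of gamma values and powers of a transcendental number.
-/

set_option autoImplicit false

open Finset
open scoped TensorProduct

namespace Pool.Agent.T2h95.GD

open Pool.Agent.H916R2

/-- a transcendental number -/
noncomputable def T0 : ℝ := liouvilleNumber 2

lemma T0_trans : (T0 : ℂ) ∉ Qb := by
  rw [Qb_mem]
  intro h
  have h1 : IsAlgebraic ℚ T0 := by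
    have h2 : IsAlgebraic ℚ (algebraMap ℝ ℂ T0) := h
    rwa [isAlgebraic_algebraMap_iff (algebraMap ℝ ℂ).injective] at h2
  have h3 : IsAlgebraic ℤ T0 := (IsFractionRing.isAlgebraic_iff ℤ ℚ ℝ).mpr h1
  exact transcendental_liouvilleNumber (le_refl 2) h3

lemma T0_ne : T0 ≠ 0 := by
  intro h
  apply T0_trans
  rw [h, Complex.ofReal_zero]
  exact zero_mem _

/-- `g` acts on the `n`-th roots of unity by `u` -/
def Cyc (g : ℂ ≃+* ℂ) (n : ℕ) (u : (ZMod n)ˣ) : Prop :=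
  g (Complex.exp (2 * Real.pi * Complex.I * ((1 : ℂ) / n))) =
    Complex.exp (2 * Real.pi * Complex.I * (((u : ZMod n).val : ℂ) / n))

/-- the conditions on the types and periods of an orbit -/
def Allowed {L : Type} [Field L] [NumberField L] (σ0 : L →+* ℂ) (m : ℕ) (typ : (ℂ ≃+* ℂ) → ℤ)
    (per : (ℂ ≃+* ℂ) → ℂ) : Prop :=
  ∃ w : (L →+* ℂ) → ℤ, Prim L w ∧ ∃ n0 : ℕ, 0 < n0 ∧ ∀ (n : ℕ) [NeZero n], n0 ∣ n → ∃ ε : ZMod n → ℂ,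
    ∀ (g : ℂ ≃+* ℂ) (u : (ZMod n)ˣ), Cyc g n u →
      (n : ℂ) * ((2 * typ g - m : ℤ) : ℂ) = ∑ a, ε a * (saw ((u : ZMod n) * a) : ℂ) ∧
      ∀ Φ : ℂ → ℂ, Fn Φ → Φ (per g) - (m : ℂ) / 2 * Φ (Real.pi : ℝ) =
        - ∑ a, ε a * gt Φ ((u : ZMod n) * a) + w ((g : ℂ →+* ℂ).comp σ0) * Φ (T0 : ℝ)

lemma Allowed.mul {L : Type} [Field L] [NumberField L] {σ0 : L →+* ℂ} {m m' : ℕ} {typ typ' : (ℂ ≃+* ℂ) → ℤ}
    {per per' : (ℂ ≃+* ℂ) → ℂ} (h : Allowed σ0 m typ per) (h' : Allowed σ0 m' typ' per') (h0 : ∀ g, per g ≠ 0)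
    (h0' : ∀ g, per' g ≠ 0) : Allowed σ0 (m + m') (fun g => typ g + typ' g) (fun g => per g * per' g) := by
  obtain ⟨w, hw, n0, hn0, hn⟩ := h
  obtain ⟨w', hw', n0', hn0', hn'⟩ := h'
  refine ⟨w + w', hw.add hw', n0 * n0', Nat.mul_pos hn0 hn0', fun n _ hdvd => ?_⟩
  obtain ⟨ε, hε⟩ := hn n ((dvd_mul_right _ _).trans hdvd)
  obtain ⟨ε', hε'⟩ := hn' n ((dvd_mul_left _ _).trans hdvd)
  refine ⟨ε + ε', fun g u hgu => ⟨?_, fun Φ hΦ => ?_⟩⟩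
  · have h1 := (hε g u hgu).1
    have h2 := (hε' g u hgu).1
    simp only [Pi.add_apply, add_mul, sum_add_distrib]
    rw [← h1, ← h2]
    push_cast
    ring
  · have h1 := (hε g u hgu).2 Φ hΦ
    have h2 := (hε' g u hgu).2 Φ hΦ
    simp only [Pi.add_apply, add_mul, sum_add_distrib]
    rw [hΦ.mul _ _ (h0 g) (h0' g)]
    push_cast
    linear_combination h1 + h2

/-- the class -/
def Cls {L : Type} [Field L] [NumberField L] (σ0 : L →+* ℂ) (M : GDS.HdR) : Prop :=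
  ∃ X : DiagData, X.toHdR = M ∧ (∀ (b : X.B) (α : X.A), X.w.repr ((1 : ℂ) ⊗ₜ[ℚ] b) α ∈ Qb) ∧
    ∀ α : X.A, Allowed σ0 X.m (fun g => X.typ (X.act g α)) (fun g => X.per (X.act g α))

lemma map_id' {B : Type} [AddCommGroup B] [Module ℚ B] (x : ℂ ⊗[ℚ] B) :
    (LinearMap.id : B →ₗ[ℚ] B).baseChange ℂ x = x := by
  rw [LinearMap.baseChange_id]; rfl

lemma tens_alg (X Y : DiagData) (hX : ∀ (b : X.B) (α : X.A), X.w.repr ((1 : ℂ) ⊗ₜ[ℚ] b) α ∈ Qb)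
    (hY : ∀ (b : Y.B) (α : Y.A), Y.w.repr ((1 : ℂ) ⊗ₜ[ℚ] b) α ∈ Qb) (b : X.B ⊗[ℚ] Y.B) (α : X.A × Y.A) :
    (X.tens Y).w.repr ((1 : ℂ) ⊗ₜ[ℚ] b) α ∈ Qb := by
  induction b using TensorProduct.induction_on with
  | zero =>
    have : ((1 : ℂ) ⊗ₜ[ℚ] (0 : X.B ⊗[ℚ] Y.B)) = 0 := TensorProduct.tmul_zero _ _
    have h2 : (X.tens Y).w.repr ((1 : ℂ) ⊗ₜ[ℚ] (0 : X.B ⊗[ℚ] Y.B)) = 0 := by
      refine Eq.trans (congrArg _ this) (map_zero _)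
    rw [h2]
    exact zero_mem _
  | add b b' h h' =>
    have : ((1 : ℂ) ⊗ₜ[ℚ] (b + b')) = (1 : ℂ) ⊗ₜ[ℚ] b + (1 : ℂ) ⊗ₜ[ℚ] b' := TensorProduct.tmul_add _ _ _
    have h2 : (X.tens Y).w.repr ((1 : ℂ) ⊗ₜ[ℚ] (b + b')) = (X.tens Y).w.repr ((1 : ℂ) ⊗ₜ[ℚ] b) +
        (X.tens Y).w.repr ((1 : ℂ) ⊗ₜ[ℚ] b') := by
      refine Eq.trans (congrArg _ this) (map_add _ _ _)
    rw [h2]
    exact add_mem h h'
  | tmul x y =>
    have h1 := repr_exx X Y ((1 : ℂ) ⊗ₜ[ℚ] x) ((1 : ℂ) ⊗ₜ[ℚ] y) α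
    rw [exx_tmul, one_mul] at h1
    have h2 : X.w.repr ((1 : ℂ) ⊗ₜ[ℚ] x) α.1 * Y.w.repr ((1 : ℂ) ⊗ₜ[ℚ] y) α.2 ∈ Qb := mul_mem (hX _ _) (hY _ _)
    rw [← h1] at h2
    exact h2

lemma tens_deR (X Y : DiagData) (x : ℂ ⊗[ℚ] X.B) (hx : x ∈ X.deR) (y : ℂ ⊗[ℚ] Y.B) (hy : y ∈ Y.deR) :
    exx x y ∈ (X.tens Y).deR := by
  intro α
  have h1 := repr_exx X Y x y α
  have h2 : X.w.repr x α.1 * Y.w.repr y α.2 / (X.per α.1 * Y.per α.2) ∈ Qb := by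
    rw [mul_div_mul_comm]
    exact mul_mem (hx α.1) (hy α.2)
  rw [← h1] at h2
  exact h2

lemma tens_part (X Y : DiagData) (p q : ℤ) (x : ℂ ⊗[ℚ] X.B) (hx : x ∈ X.part p) (y : ℂ ⊗[ℚ] Y.B)
    (hy : y ∈ Y.part q) : exx x y ∈ (X.tens Y).part (p + q) := by
  intro α hα
  have h1 := repr_exx X Y x y α
  refine Eq.trans h1 ?_
  by_cases h : X.typ α.1 = p
  · have h3 : Y.typ α.2 ≠ q := by
      intro h4
      apply hα
      change X.typ α.1 + Y.typ α.2 = p + q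
      rw [h, h4]
    rw [hy α.2 h3, mul_zero]
  · rw [hx α.1 h, zero_mul]

theorem kuenneth_cls {L : Type} [Field L] [NumberField L] (σ0 : L →+* ℂ) : GDS.Kuenneth (Cls σ0) := by
  rintro _ _ ⟨X, rfl, hX, hXa⟩ ⟨Y, rfl, hY, hYa⟩
  refine ⟨(X.tens Y).toHdR, ⟨X.tens Y, rfl, tens_alg X Y hX hY, fun α => ?_⟩, rfl,
    (LinearMap.id : X.B ⊗[ℚ] Y.B →ₗ[ℚ] X.B ⊗[ℚ] Y.B), Function.injective_id, ?_, ?_⟩
  · exact (hXa α.1).mul (hYa α.2) (fun g => X.per_ne _) (fun g => Y.per_ne _)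
  · have key : ∀ (x : ℂ ⊗[ℚ] X.B) (_ : x ∈ X.deR) (y : ℂ ⊗[ℚ] Y.B) (_ : y ∈ Y.deR),
        (LinearMap.id : X.B ⊗[ℚ] Y.B →ₗ[ℚ] X.B ⊗[ℚ] Y.B).baseChange ℂ (exx x y) ∈ (X.tens Y).deR := by
      intro x hx y hy
      rw [map_id']
      exact tens_deR X Y x hx y hy
    exact key
  · intro p q
    have key : ∀ (x : ℂ ⊗[ℚ] X.B) (_ : x ∈ X.part p) (y : ℂ ⊗[ℚ] Y.B) (_ : y ∈ Y.part q),
        (LinearMap.id : X.B ⊗[ℚ] Y.B →ₗ[ℚ] X.B ⊗[ℚ] Y.B).baseChange ℂ (exx x y) ∈ (X.tens Y).part (p + q) := by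
      intro x hx y hy
      rw [map_id']
      exact tens_part X Y p q x hx y hy
    exact key

end Pool.Agent.T2h95.GD
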