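import Pool.Agent.T2h95.GD.Cls

/-!
The class contains the motives of Fermat curves.
-/

set_option autoImplicit false

open Finset
open scoped TensorProduct

namespace Pool.Agent.T2h95.GD

open Pool.Agent.H916R2

section level

variable {d k : ℕ} [NeZero d] [NeZero k]

/-- from level `d` to level `d k` -/
def up (k : ℕ) {d : ℕ} (x : ZMod d) : ZMod (d * k) := ((k * x.val : ℕ) : ZMod (d * k))

/-- reduction of units -/
def red (k : ℕ) {d : ℕ} (u : (ZMod (d * k))ˣ) : (ZMod d)ˣ := ZMod.unitsMap (dvd_mul_right d k) u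

lemma red_val (u : (ZMod (d * k))ˣ) : ((red k u : (ZMod d)ˣ) : ZMod d) = (((u : ZMod (d * k)).val : ℕ) : ZMod d) := by
  unfold red
  rw [ZMod.unitsMap_val, ZMod.natCast_val]

omit [NeZero d] [NeZero k] in
lemma val_nat (a b : ℕ) : (((a : ℕ) : ZMod d) * ((b : ℕ) : ZMod d)).val = (a * b) % d := by
  rw [← Nat.cast_mul, ZMod.val_natCast]

lemma up_val (u : (ZMod (d * k))ˣ) (x : ZMod d) :
    ((u : ZMod (d * k)) * up k x).val = k * ((red k u : ZMod d) * x).val := by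
  have h1 : (u : ZMod (d * k)) = (((u : ZMod (d * k)).val : ℕ) : ZMod (d * k)) := (ZMod.natCast_zmod_val _).symm
  have h2 : x = ((x.val : ℕ) : ZMod d) := (ZMod.natCast_zmod_val _).symm
  rw [red_val]
  conv_lhs => rw [h1]
  conv_rhs => rw [h2]
  unfold up
  rw [val_nat, val_nat]
  generalize (u : ZMod (d * k)).val = c
  have h3 : c * (k * x.val) = k * (c * x.val) := by ring
  rw [h3, mul_comm d k, Nat.mul_mod_mul_left]

lemma up_zero (u : (ZMod (d * k))ˣ) (x : ZMod d) :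
    (u : ZMod (d * k)) * up k x = 0 ↔ (red k u : ZMod d) * x = 0 := by
  rw [← ZMod.val_eq_zero, up_val, ← ZMod.val_eq_zero]
  constructor
  · intro h
    exact (Nat.mul_eq_zero.mp h).resolve_left (NeZero.ne k)
  · intro h
    rw [h, mul_zero]

lemma saw_up (u : (ZMod (d * k))ˣ) (x : ZMod d) :
    saw ((u : ZMod (d * k)) * up k x) = k * saw ((red k u : ZMod d) * x) := by
  unfold saw
  by_cases h : (red k u : ZMod d) * x = 0
  · rw [if_pos h, if_pos ((up_zero u x).mpr h), mul_zero]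
  · rw [if_neg h, if_neg fun h' => h ((up_zero u x).mp h'), up_val]
    push_cast
    ring

lemma gt_up (Φ : ℂ → ℂ) (u : (ZMod (d * k))ˣ) (x : ZMod d) :
    gt Φ ((u : ZMod (d * k)) * up k x) = gt Φ ((red k u : ZMod d) * x) := by
  unfold gt
  by_cases h : (red k u : ZMod d) * x = 0
  · rw [if_pos h, if_pos ((up_zero u x).mpr h)]
  · rw [if_neg h, if_neg fun h' => h ((up_zero u x).mp h'), up_val]
    congr 4
    have hk : (k : ℝ) ≠ 0 := by exact_mod_cast NeZero.ne k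
    have hd : (d : ℝ) ≠ 0 := by exact_mod_cast NeZero.ne d
    push_cast
    field_simp

/-- the action on the roots of unity of level `d` -/
lemma Cyc.red {g : ℂ ≃+* ℂ} {u : (ZMod (d * k))ˣ} (h : Cyc g (d * k) u) : Cyc g d (red k u) := by
  unfold Cyc at h ⊢
  have hk : (k : ℂ) ≠ 0 := by exact_mod_cast NeZero.ne k
  have hd : (d : ℂ) ≠ 0 := by exact_mod_cast NeZero.ne d
  have h1 : Complex.exp (2 * Real.pi * Complex.I * ((1 : ℂ) / d)) =
      Complex.exp (2 * Real.pi * Complex.I * ((1 : ℂ) / ((d * k : ℕ) : ℂ))) ^ k := by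
    rw [← Complex.exp_nat_mul]
    congr 1
    push_cast
    field_simp
  rw [h1, map_pow, h, ← Complex.exp_nat_mul, red_val, exp_mod]
  congr 1
  push_cast
  field_simp

end level

section fermat

variable {d : ℕ} [NeZero d] {K : Type} [Field K] [NumberField K] [IsCyclotomicExtension {d} ℚ K]
  {ζ : K} {t : (ZMod d)ˣ → K →+* ℂ}

omit [NumberField K] [IsCyclotomicExtension {d} ℚ K] in
lemma t_inj (ht : IsEmb ζ t) : Function.Injective t := by
  intro u v h
  have h1 : t u ζ = t v ζ := by rw [h]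
  rw [ht.2, ht.2] at h1
  have hp := Complex.isPrimitiveRoot_exp d (NeZero.ne d)
  have h2 : ∀ n : ℕ, Complex.exp (2 * Real.pi * Complex.I * ((n : ℂ) / d)) =
      Complex.exp (2 * Real.pi * Complex.I / d) ^ n := by
    intro n
    rw [← Complex.exp_nat_mul]
    congr 1
    ring
  rw [h2, h2] at h1
  have h3 := hp.pow_inj (ZMod.val_lt _) (ZMod.val_lt _) h1
  exact Units.ext (ZMod.val_injective d h3)

lemma Cyc.comp_t (ht : IsEmb ζ t) {g : ℂ ≃+* ℂ} {u : (ZMod d)ˣ} (h : Cyc g d u) (v : (ZMod d)ˣ) :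
    (g : ℂ →+* ℂ).comp (t v) = t (u * v) := by
  refine hom_ext' ht.1 ?_
  change g (t v ζ) = _
  unfold Cyc at h
  have h2 : Complex.exp (2 * Real.pi * Complex.I * (((v : ZMod d).val : ℂ) / d)) =
      Complex.exp (2 * Real.pi * Complex.I * ((1 : ℂ) / d)) ^ (v : ZMod d).val := by
    rw [← Complex.exp_nat_mul]
    congr 1
    ring
  rw [ht.2, ht.2, h2, map_pow, h, ← Complex.exp_nat_mul]
  have h1 : ((u * v : (ZMod d)ˣ) : ZMod d) = (((u : ZMod d).val * (v : ZMod d).val : ℕ) : ZMod d) := by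
    push_cast
    rw [ZMod.natCast_zmod_val, ZMod.natCast_zmod_val]
  rw [h1, exp_mod]
  congr 1
  push_cast
  ring

/-- the embeddings of the cyclotomic field -/
noncomputable def tE (ht : IsEmb ζ t) : (ZMod d)ˣ ≃ (K →+* ℂ) := Equiv.ofBijective t ⟨t_inj ht, t_surj ht⟩

lemma tE_apply (ht : IsEmb ζ t) (u : (ZMod d)ˣ) : tE ht u = t u := rfl

lemma tE_symm (ht : IsEmb ζ t) (u : (ZMod d)ˣ) : (tE ht).symm (t u) = u := (tE ht).symm_apply_apply u

omit [NeZero d] in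
lemma unit_mul_ne {a : ZMod d} (ha : a ≠ 0) (u : (ZMod d)ˣ) : (u : ZMod d) * a ≠ 0 := fun h0 => ha (by
  simpa using congrArg (fun y => ((u⁻¹ : (ZMod d)ˣ) : ZMod d) * y) h0)

omit [NeZero d] in
lemma unit_mul_add_ne {a b : ZMod d} (hab : a + b ≠ 0) (u : (ZMod d)ˣ) : (u : ZMod d) * a + (u : ZMod d) * b ≠ 0 := by
  rw [← mul_add]
  exact unit_mul_ne hab u

lemma fn_zero : Fn (fun _ => 0) := ⟨fun _ _ _ _ => by simp, fun _ _ => rfl⟩

/-- the type -/
noncomputable def fTyp (a b : ZMod d) (u : (ZMod d)ˣ) : ℤ :=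
  if ((u : ZMod d) * a).val + ((u : ZMod d) * b).val < d then 1 else 0

/-- the period -/
noncomputable def fPer (a b : ZMod d) (u : (ZMod d)ˣ) : ℂ :=
  Complex.betaIntegral ((((u : ZMod d) * a).val : ℂ) / d) ((((u : ZMod d) * b).val : ℂ) / d)

lemma fTyp_saw {a b : ZMod d} (ha : a ≠ 0) (hb : b ≠ 0) (hab : a + b ≠ 0) (u : (ZMod d)ˣ) :
    (d : ℤ) * (2 * fTyp a b u - 1) = -(saw ((u : ZMod d) * a) + saw ((u : ZMod d) * b) - saw ((u : ZMod d) * (a + b))) := by
  have := saw_sum (unit_mul_ne ha u) (unit_mul_ne hb u) (unit_mul_add_ne hab u)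
  rw [mul_add (u : ZMod d)]
  exact this

lemma fPer_ne {a b : ZMod d} (ha : a ≠ 0) (hb : b ≠ 0) (hab : a + b ≠ 0) (u : (ZMod d)ˣ) : fPer a b u ≠ 0 :=
  (beta_fn fn_zero (unit_mul_ne ha u) (unit_mul_ne hb u) (unit_mul_add_ne hab u)).1

lemma fPer_fn {Φ : ℂ → ℂ} (hΦ : Fn Φ) {a b : ZMod d} (ha : a ≠ 0) (hb : b ≠ 0) (hab : a + b ≠ 0) (u : (ZMod d)ˣ) :
    Φ (fPer a b u) = gt Φ ((u : ZMod d) * a) + gt Φ ((u : ZMod d) * b) - gt Φ ((u : ZMod d) * (a + b)) +
      Φ (Real.pi : ℝ) / 2 := by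
  rw [mul_add (u : ZMod d)]
  exact (beta_fn hΦ (unit_mul_ne ha u) (unit_mul_ne hb u) (unit_mul_add_ne hab u)).2

lemma fTyp_neg {a b : ZMod d} (ha : a ≠ 0) (hb : b ≠ 0) (hab : a + b ≠ 0) (u : (ZMod d)ˣ) :
    fTyp a b (-u) = 1 - fTyp a b u := by
  have h1 := fTyp_saw ha hb hab u
  have h2 := fTyp_saw ha hb hab (-u)
  rw [Units.val_neg, neg_mul, neg_mul, neg_mul, saw_neg, saw_neg, saw_neg] at h2
  have hd : (d : ℤ) ≠ 0 := by exact_mod_cast NeZero.ne d
  have h3 : (d : ℤ) * (2 * fTyp a b (-u) - 1 + (2 * fTyp a b u - 1)) = 0 := by linear_combination h1 + h2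
  have h4 := (mul_eq_zero.mp h3).resolve_left hd
  omega

lemma fPer_neg {a b : ZMod d} (ha : a ≠ 0) (hb : b ≠ 0) (hab : a + b ≠ 0) (u : (ZMod d)ˣ) :
    ∃ c ∈ Qb, fPer a b u * fPer a b (-u) = c * (Real.pi : ℂ) ^ 1 := by
  have hpi : (Real.pi : ℂ) ≠ 0 := by exact_mod_cast Real.pi_ne_zero
  obtain ⟨c, hc, hc0, h⟩ := alg_of_fn (x := fPer a b u * fPer a b (-u)) (y := (Real.pi : ℂ) ^ 1)
    (mul_ne_zero (fPer_ne ha hb hab u) (fPer_ne ha hb hab (-u))) (pow_ne_zero _ hpi) (fun Φ hΦ => by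
      rw [hΦ.mul _ _ (fPer_ne ha hb hab u) (fPer_ne ha hb hab (-u)), fPer_fn hΦ ha hb hab, fPer_fn hΦ ha hb hab,
        Units.val_neg, neg_mul, neg_mul, neg_mul, gt_neg hΦ, gt_neg hΦ, gt_neg hΦ, pow_one]
      ring)
  exact ⟨c, hc, h⟩

/-- the structure of weight one -/
noncomputable def fermatD (ht : IsEmb ζ t) {a b : ZMod d} (ha : a ≠ 0) (hb : b ≠ 0) (hab : a + b ≠ 0) : LineD K where
  c := ((gal d K (-1) : K ≃ₐ[ℚ] K) : K →+* K)
  hc σ x := by
    obtain ⟨u, rfl⟩ := t_surj ht σ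
    change t u (gal d K (-1) x) = cj (t u) x
    rw [t_gal ht, cj_t ht, mul_neg, mul_one]
  m := 1
  typ σ := fTyp a b ((tE ht).symm σ)
  per σ := fPer a b ((tE ht).symm σ)
  per_ne σ := fPer_ne ha hb hab _
  typ_bar σ := by
    obtain ⟨u, rfl⟩ := t_surj ht σ
    rw [cj_t ht, tE_symm, tE_symm, fTyp_neg ha hb hab]
    rfl
  per_bar σ := by
    obtain ⟨u, rfl⟩ := t_surj ht σ
    rw [cj_t ht, tE_symm, tE_symm]
    exact fPer_neg ha hb hab u

lemma cls_of_line {L : Type} [Field L] [NumberField L] {σ0 : L →+* ℂ} (Y : LineD K)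
    (h : ∀ σ : K →+* ℂ, Allowed σ0 Y.m (fun g => Y.typ ((g : ℂ →+* ℂ).comp σ))
      (fun g => Y.per ((g : ℂ →+* ℂ).comp σ))) : Cls σ0 Y.toDiag.toHdR := by
  have key : ∀ (x : K) (σ : K →+* ℂ), (wL K).repr ((1 : ℂ) ⊗ₜ[ℚ] x) σ ∈ Qb := by
    intro x σ
    rw [wL_repr]
    exact emb_mem σ x
  exact ⟨Y.toDiag, rfl, key, h⟩

theorem fermat_cls {L : Type} [Field L] [NumberField L] (σ0 : L →+* ℂ) : GDS.ContainsFermat (Cls σ0) := by
  classical
  intro d _ K _ _ _ ζ t ht a b ha hb hab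
  set Y := fermatD ht ha hb hab with hY
  have htyp : ∀ u, Y.typ (t u) = fTyp a b u := fun u => by
    change fTyp a b ((tE ht).symm (t u)) = _
    rw [tE_symm]
  have hper : ∀ u, Y.per (t u) = fPer a b u := fun u => by
    change fPer a b ((tE ht).symm (t u)) = _
    rw [tE_symm]
  refine ⟨Y.toDiag.toHdR, cls_of_line Y fun σ => ?_, rfl, GDS.ofOld Y.isLine.triple, Y.typ,
    Y.isLine.hodgeNumbers, fun u => ⟨?_, ?_⟩⟩
  · obtain ⟨v, rfl⟩ : ∃ v, t v = σ := t_surj ht σ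
    refine ⟨0, Prim.zero, d, NeZero.pos d, fun n _ hdvd => ?_⟩
    obtain ⟨k, rfl⟩ := hdvd
    have : NeZero k := ⟨fun h => NeZero.ne (d * k) (by rw [h, mul_zero])⟩
    refine ⟨fun x => -(if x = up k ((v : ZMod d) * a) then 1 else 0) - (if x = up k ((v : ZMod d) * b) then 1 else 0) +
      (if x = up k ((v : ZMod d) * (a + b)) then 1 else 0), fun g u hgu => ?_⟩
    have hsum : ∀ F : ZMod (d * k) → ℂ, ∑ x, (-(if x = up k ((v : ZMod d) * a) then 1 else 0) -
        (if x = up k ((v : ZMod d) * b) then 1 else 0) + (if x = up k ((v : ZMod d) * (a + b)) then 1 else 0)) * F x =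
        - F (up k ((v : ZMod d) * a)) - F (up k ((v : ZMod d) * b)) + F (up k ((v : ZMod d) * (a + b))) := by
      intro F
      simp only [add_mul, sub_mul, neg_mul, ite_mul, one_mul, zero_mul, sum_add_distrib, sum_sub_distrib,
        sum_neg_distrib, sum_ite_eq', mem_univ, if_true]
    have hact : (g : ℂ →+* ℂ).comp (t v) = t (red k u * v) := hgu.red.comp_t ht v
    have hre : ∀ x : ZMod d, (red k u : ZMod d) * ((v : ZMod d) * x) = ((red k u * v : (ZMod d)ˣ) : ZMod d) * x := by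
      intro x
      rw [Units.val_mul, mul_assoc]
    refine ⟨?_, fun Φ hΦ => ?_⟩
    · rw [hsum (fun x => (saw ((u : ZMod (d * k)) * x) : ℂ))]
      simp only [saw_up, hre, hact, htyp]
      have h1 := fTyp_saw ha hb hab (red k u * v)
      have h2 := congrArg (fun z : ℤ => (k : ℂ) * (z : ℂ)) h1
      have h4 : Y.m = 1 := rfl
      rw [h4]
      push_cast at h2 ⊢
      linear_combination h2
    · rw [hsum (fun x => gt Φ ((u : ZMod (d * k)) * x))]
      simp only [gt_up, hre, hact, hper]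
      have h1 := fPer_fn hΦ ha hb hab (red k u * v)
      have h4 : Y.m = 1 := rfl
      rw [h4, h1]
      simp only [Pi.zero_apply]
      push_cast
      ring
  · exact htyp u
  · rw [GDS.period_ofOld, Y.isLine.period]
    exact ⟨1, one_mem _, one_ne_zero, by rw [one_mul]; exact hper u⟩

end fermat

end Pool.Agent.T2h95.GD
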