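import Pool.Agent.T2h95.GD.Classify

/-!
A common cyclotomic field.
-/

set_option autoImplicit false

namespace Pool.Agent.T2h95.GD

lemma adjoin_le {n n' : ℕ} (hn : 0 < n) (hn' : 0 < n') :
    IntermediateField.adjoin ℚ {Complex.exp (2 * Real.pi * Complex.I / n)} ≤
      IntermediateField.adjoin ℚ {Complex.exp (2 * Real.pi * Complex.I / ((n * n' : ℕ) : ℂ))} := by
  rw [IntermediateField.adjoin_le_iff, Set.singleton_subset_iff]
  have h1 : Complex.exp (2 * Real.pi * Complex.I / n) =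
      Complex.exp (2 * Real.pi * Complex.I / ((n * n' : ℕ) : ℂ)) ^ n' := by
    rw [← Complex.exp_nat_mul]
    congr 1
    have h1 : (n : ℂ) ≠ 0 := by exact_mod_cast hn.ne'
    have h2 : (n' : ℂ) ≠ 0 := by exact_mod_cast hn'.ne'
    push_cast
    field_simp
  rw [h1]
  exact pow_mem (IntermediateField.mem_adjoin_simple_self ℚ _) n'

lemma emb_of_mem {d : ℕ} [NeZero d] {K : Type} [Field K] [NumberField K] [IsCyclotomicExtension {d} ℚ K]
    {ζ : K} {t : (ZMod d)ˣ → K →+* ℂ} (ht : IsEmb ζ t) {L : Type} [Field L] (s : L →+* ℂ)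
    (hs : ∀ x, s x ∈ IntermediateField.adjoin ℚ {Complex.exp (2 * Real.pi * Complex.I / d)}) :
    Nonempty (L →+* K) := by
  let t' : K →ₐ[ℚ] ℂ := (t 1).toRatAlgHom
  have hle : IntermediateField.adjoin ℚ {Complex.exp (2 * Real.pi * Complex.I / d)} ≤ t'.fieldRange := by
    rw [IntermediateField.adjoin_le_iff, Set.singleton_subset_iff]
    refine ⟨ζ, ?_⟩
    change t 1 ζ = _
    have h2 := exp_mod (d := d) 1
    rw [Nat.cast_one, Nat.cast_one] at h2
    rw [ht.2, Units.val_one, h2]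
    congr 1
    ring
  let r : K ≃ₐ[ℚ] t'.fieldRange := AlgEquiv.ofInjectiveField t'
  exact ⟨(r.symm : t'.fieldRange →+* K).comp (s.codRestrict t'.fieldRange.toSubfield.toSubring fun x => hle (hs x))⟩

/-- two abelian fields in a cyclotomic field -/
lemma exists_common {E L : Type} [Field E] [Field L] {n n' : ℕ} (hn : 0 < n) (hn' : 0 < n') (s : E →+* ℂ)
    (hs : ∀ x, s x ∈ IntermediateField.adjoin ℚ {Complex.exp (2 * Real.pi * Complex.I / n)}) (s' : L →+* ℂ)
    (hs' : ∀ x, s' x ∈ IntermediateField.adjoin ℚ {Complex.exp (2 * Real.pi * Complex.I / n')}) :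
    ∃ (N : ℕ) (_ : NeZero N) (K : Type) (_ : Field K) (_ : NumberField K) (_ : IsCyclotomicExtension {N} ℚ K)
      (_ : E →+* K) (_ : L →+* K) (ζ : K) (t : (ZMod N)ˣ → K →+* ℂ), IsEmb ζ t := by
  have hN : NeZero (n * n') := ⟨(Nat.mul_pos hn hn').ne'⟩
  obtain ⟨K, _, _, _, e, ζ, t, ht⟩ := exists_cyc (d := n * n') s fun x => adjoin_le hn hn' (hs x)
  obtain ⟨l⟩ := emb_of_mem ht s' fun x => by
    have := adjoin_le hn' hn (hs' x)
    rw [mul_comm n' n] at this
    exact this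
  exact ⟨n * n', hN, K, inferInstance, inferInstance, inferInstance, e, l, ζ, t, ht⟩

end Pool.Agent.T2h95.GD
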