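import Pool.Agent.T2h95.GD.Common

/-!
Direct sums of the structures with a basis of eigenvectors.
-/

set_option autoImplicit false

open Finset
open scoped TensorProduct

namespace Pool.Agent.T2h95.GD

section

variable {B B' : Type} [AddCommGroup B] [Module ℚ B] [AddCommGroup B'] [Module ℚ B']

lemma gact_map (g : ℂ ≃+* ℂ) (f : B →ₗ[ℚ] B') (x : ℂ ⊗[ℚ] B) :
    gact B' g (f.baseChange ℂ x) = f.baseChange ℂ (gact B g x) := by
  induction x using TensorProduct.induction_on with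
  | zero => simp
  | tmul w y => rfl
  | add x y hx hy => rw [map_add, map_add, hx, hy, map_add, map_add]

lemma baseChange_comp (ψ : LinearMap.BilinForm ℚ B') (f : B →ₗ[ℚ] B') (x y : ℂ ⊗[ℚ] B) :
    (LinearMap.BilinForm.baseChange ℂ (ψ.compl₁₂ f f : LinearMap.BilinForm ℚ B)) x y =
      (LinearMap.BilinForm.baseChange ℂ ψ) (f.baseChange ℂ x) (f.baseChange ℂ y) := by
  induction x using TensorProduct.induction_on with
  | zero => simp
  | add x1 x2 h1 h2 => simp only [map_add, LinearMap.add_apply, h1, h2]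
  | tmul z b =>
    induction y using TensorProduct.induction_on with
    | zero => simp
    | add x1 x2 h1 h2 => simp only [map_add, h1, h2]
    | tmul z' b' => rfl

lemma baseChange_add (ψ ψ' : LinearMap.BilinForm ℚ B) (x y : ℂ ⊗[ℚ] B) :
    (LinearMap.BilinForm.baseChange ℂ (ψ + ψ')) x y =
      (LinearMap.BilinForm.baseChange ℂ ψ) x y + (LinearMap.BilinForm.baseChange ℂ ψ') x y := by
  induction x using TensorProduct.induction_on with
  | zero => simp
  | add x1 x2 h1 h2 => simp only [map_add, LinearMap.add_apply, h1, h2]; ring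
  | tmul z b =>
    induction y using TensorProduct.induction_on with
    | zero => simp
    | add x1 x2 h1 h2 => simp only [map_add, h1, h2]; ring
    | tmul z' b' =>
      rw [LinearMap.BilinForm.baseChange_tmul, LinearMap.BilinForm.baseChange_tmul,
        LinearMap.BilinForm.baseChange_tmul, LinearMap.add_apply, LinearMap.add_apply, add_smul]

variable (B B') in
/-- the first inclusion -/
noncomputable def il : B →ₗ[ℚ] B × B' := LinearMap.inl ℚ B B'

variable (B B') in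
/-- the second inclusion -/
noncomputable def ir : B' →ₗ[ℚ] B × B' := LinearMap.inr ℚ B B'

lemma fst_il (x : ℂ ⊗[ℚ] B) : (LinearMap.fst ℚ B B').baseChange ℂ ((il B B').baseChange ℂ x) = x := by
  rw [← LinearMap.comp_apply, ← LinearMap.baseChange_comp]
  have : LinearMap.fst ℚ B B' ∘ₗ il B B' = LinearMap.id := by ext x; rfl
  rw [this, map_id']

lemma snd_ir (x : ℂ ⊗[ℚ] B') : (LinearMap.snd ℚ B B').baseChange ℂ ((ir B B').baseChange ℂ x) = x := by
  rw [← LinearMap.comp_apply, ← LinearMap.baseChange_comp]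
  have : LinearMap.snd ℚ B B' ∘ₗ ir B B' = LinearMap.id := by ext x; rfl
  rw [this, map_id']

lemma snd_il (x : ℂ ⊗[ℚ] B) : (LinearMap.snd ℚ B B').baseChange ℂ ((il B B').baseChange ℂ x) = 0 := by
  rw [← LinearMap.comp_apply, ← LinearMap.baseChange_comp]
  have : LinearMap.snd ℚ B B' ∘ₗ il B B' = 0 := by ext x; rfl
  rw [this]
  simp

lemma fst_ir (x : ℂ ⊗[ℚ] B') : (LinearMap.fst ℚ B B').baseChange ℂ ((ir B B').baseChange ℂ x) = 0 := by
  rw [← LinearMap.comp_apply, ← LinearMap.baseChange_comp]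
  have : LinearMap.fst ℚ B B' ∘ₗ ir B B' = 0 := by ext x; rfl
  rw [this]
  simp

lemma il_ir (x : ℂ ⊗[ℚ] (B × B')) : (il B B').baseChange ℂ ((LinearMap.fst ℚ B B').baseChange ℂ x) +
    (ir B B').baseChange ℂ ((LinearMap.snd ℚ B B').baseChange ℂ x) = x := by
  rw [← LinearMap.comp_apply, ← LinearMap.comp_apply, ← LinearMap.baseChange_comp, ← LinearMap.baseChange_comp,
    ← LinearMap.add_apply, ← LinearMap.baseChange_add]
  have : il B B' ∘ₗ LinearMap.fst ℚ B B' + ir B B' ∘ₗ LinearMap.snd ℚ B B' = LinearMap.id := by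
    ext x <;> simp [il, ir]
  rw [this, map_id']

end

section

variable (X Y : DiagData)

/-- the basis of the direct sum -/
noncomputable def wS : Module.Basis (X.A ⊕ Y.A) ℂ (ℂ ⊗[ℚ] (X.B × Y.B)) :=
  (X.w.prod Y.w).map (TensorProduct.prodRight ℚ ℂ ℂ X.B Y.B).symm

lemma prodRight_symm (a : ℂ ⊗[ℚ] X.B) (b : ℂ ⊗[ℚ] Y.B) : (TensorProduct.prodRight ℚ ℂ ℂ X.B Y.B).symm (a, b) =
    (il X.B Y.B).baseChange ℂ a + (ir X.B Y.B).baseChange ℂ b := rfl

lemma wS_inl (α : X.A) : wS X Y (Sum.inl α) = (il X.B Y.B).baseChange ℂ (X.w α) := by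
  unfold wS
  rw [Module.Basis.map_apply, Module.Basis.prod_apply, Sum.elim_inl, Function.comp_apply, LinearMap.inl_apply,
    prodRight_symm, map_zero, add_zero]

lemma wS_inr (α : Y.A) : wS X Y (Sum.inr α) = (ir X.B Y.B).baseChange ℂ (Y.w α) := by
  unfold wS
  rw [Module.Basis.map_apply, Module.Basis.prod_apply, Sum.elim_inr, Function.comp_apply, LinearMap.inr_apply,
    prodRight_symm, map_zero, zero_add]

lemma prodRight_apply (x : ℂ ⊗[ℚ] (X.B × Y.B)) : TensorProduct.prodRight ℚ ℂ ℂ X.B Y.B x =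
    ((LinearMap.fst ℚ X.B Y.B).baseChange ℂ x, (LinearMap.snd ℚ X.B Y.B).baseChange ℂ x) := by
  rw [← LinearEquiv.eq_symm_apply, prodRight_symm, il_ir]

lemma wS_repr_inl (x : ℂ ⊗[ℚ] (X.B × Y.B)) (α : X.A) :
    (wS X Y).repr x (Sum.inl α) = X.w.repr ((LinearMap.fst ℚ X.B Y.B).baseChange ℂ x) α := by
  unfold wS
  rw [Module.Basis.map_repr, LinearEquiv.trans_apply, LinearEquiv.symm_symm, Module.Basis.prod_repr_inl,
    prodRight_apply]

lemma wS_repr_inr (x : ℂ ⊗[ℚ] (X.B × Y.B)) (α : Y.A) :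
    (wS X Y).repr x (Sum.inr α) = Y.w.repr ((LinearMap.snd ℚ X.B Y.B).baseChange ℂ x) α := by
  unfold wS
  rw [Module.Basis.map_repr, LinearEquiv.trans_apply, LinearEquiv.symm_symm, Module.Basis.prod_repr_inr,
    prodRight_apply]

/-- the form on the direct sum -/
noncomputable def psiS : LinearMap.BilinForm ℚ (X.B × Y.B) :=
  (X.ψ.compl₁₂ (LinearMap.fst ℚ X.B Y.B) (LinearMap.fst ℚ X.B Y.B) : LinearMap.BilinForm ℚ (X.B × Y.B)) +
    (Y.ψ.compl₁₂ (LinearMap.snd ℚ X.B Y.B) (LinearMap.snd ℚ X.B Y.B) : LinearMap.BilinForm ℚ (X.B × Y.B))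

lemma psiS_apply (x y : ℂ ⊗[ℚ] (X.B × Y.B)) : (psiS X Y).baseChange ℂ x y =
    X.ψ.baseChange ℂ ((LinearMap.fst ℚ X.B Y.B).baseChange ℂ x) ((LinearMap.fst ℚ X.B Y.B).baseChange ℂ y) +
      Y.ψ.baseChange ℂ ((LinearMap.snd ℚ X.B Y.B).baseChange ℂ x) ((LinearMap.snd ℚ X.B Y.B).baseChange ℂ y) := by
  unfold psiS
  rw [baseChange_add, baseChange_comp, baseChange_comp]

lemma psiS_ll (x y : ℂ ⊗[ℚ] X.B) : (psiS X Y).baseChange ℂ ((il X.B Y.B).baseChange ℂ x) ((il X.B Y.B).baseChange ℂ y) =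
    X.ψ.baseChange ℂ x y := by
  rw [psiS_apply, fst_il, fst_il, snd_il, snd_il]
  simp

lemma psiS_rr (x y : ℂ ⊗[ℚ] Y.B) : (psiS X Y).baseChange ℂ ((ir X.B Y.B).baseChange ℂ x) ((ir X.B Y.B).baseChange ℂ y) =
    Y.ψ.baseChange ℂ x y := by
  rw [psiS_apply, snd_ir, snd_ir, fst_ir, fst_ir]
  simp

lemma psiS_lr (x : ℂ ⊗[ℚ] X.B) (y : ℂ ⊗[ℚ] Y.B) :
    (psiS X Y).baseChange ℂ ((il X.B Y.B).baseChange ℂ x) ((ir X.B Y.B).baseChange ℂ y) = 0 := by
  rw [psiS_apply, fst_ir, snd_il]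
  simp

lemma psiS_rl (x : ℂ ⊗[ℚ] Y.B) (y : ℂ ⊗[ℚ] X.B) :
    (psiS X Y).baseChange ℂ ((ir X.B Y.B).baseChange ℂ x) ((il X.B Y.B).baseChange ℂ y) = 0 := by
  rw [psiS_apply, fst_ir, snd_il]
  simp

end

/-- the direct sum of two structures of the same weight -/
noncomputable def DiagData.sum (X Y : DiagData) (hm : X.m = Y.m) : DiagData where
  B := X.B × Y.B
  A := X.A ⊕ Y.A
  w := wS X Y
  act g := Sum.map (X.act g) (Y.act g)
  hact g α := by
    rcases α with α | α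
    · rw [wS_inl, gact_map, X.hact, Sum.map_inl, wS_inl]
    · rw [wS_inr, gact_map, Y.hact, Sum.map_inr, wS_inr]
  m := X.m
  typ := Sum.elim X.typ Y.typ
  per := Sum.elim X.per Y.per
  per_ne α := by
    rcases α with α | α
    · exact X.per_ne α
    · exact Y.per_ne α
  ψ := psiS X Y
  symm x y := by
    change X.ψ y.1 x.1 + Y.ψ y.2 x.2 = (-1) ^ X.m * (X.ψ x.1 y.1 + Y.ψ x.2 y.2)
    rw [X.symm x.1 y.1, Y.symm x.2 y.2, hm]
    ring
  typ_bar α := by
    rcases α with α | α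
    · exact X.typ_bar α
    · rw [hm]
      exact Y.typ_bar α
  ψ_zero α β hβ := by
    rcases α with α | α <;> rcases β with β | β
    · rw [wS_inl, wS_inl, psiS_ll]
      exact X.ψ_zero α β fun h => hβ (by rw [h]; rfl)
    · rw [wS_inl, wS_inr, psiS_lr]
    · rw [wS_inl, wS_inr, psiS_rl]
    · rw [wS_inr, wS_inr, psiS_rr]
      exact Y.ψ_zero α β fun h => hβ (by rw [h]; rfl)
  ψ_pos α := by
    rcases α with α | α
    · rw [Sum.map_inl, wS_inl, wS_inl, psiS_ll]
      exact X.ψ_pos α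
    · rw [Sum.map_inr, wS_inr, wS_inr, psiS_rr, hm]
      exact Y.ψ_pos α
  ψ_per α := by
    rcases α with α | α
    · rw [Sum.map_inl, wS_inl, wS_inl, psiS_ll]
      exact X.ψ_per α
    · rw [Sum.map_inr, wS_inr, wS_inr, psiS_rr, hm]
      exact Y.ψ_per α

end Pool.Agent.T2h95.GD
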