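import Pool.Agent.T2h95.GD.Slim

/-!
# The Gross-Deligne conjecture: auxiliary definitions

The definitions of `Slim.lean`, in a form which is convenient for the proofs.
-/

set_option autoImplicit false

open scoped TensorProduct

namespace Pool.Agent.T2h95.GD

export Pool.Agent.T2h95.GDS (Qb IsConductor IsEmb gam)

/-- complex conjugation on the coefficients of `ℂ ⊗ B` -/
noncomputable def conjC (B : Type) [AddCommGroup B] [Module ℚ B] : ℂ ⊗[ℚ] B →ₗ[ℚ] ℂ ⊗[ℚ] B :=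
  LinearMap.rTensor B (Complex.conjAe.toLinearMap.restrictScalars ℚ)

/-- The structure carried by `H^m(X)`, for a smooth projective variety `X` over the algebraic numbers: a finite
dimensional rational vector space `B` (Betti cohomology), the `ℚ̄`-form `D` of `ℂ ⊗ B` (the image of the de Rham
cohomology of `X` under the comparison isomorphism), the Hodge decomposition (`V p = H^{p,m-p}`) and a polarization `ψ`,
which on `D` takes values in `(2πi)^m ℚ̄ = π^m ℚ̄`. -/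
structure HdR where
  B : Type
  [grp : AddCommGroup B]
  [mod : Module ℚ B]
  [fin : FiniteDimensional ℚ B]
  /-- the weight -/
  m : ℕ
  /-- the de Rham classes -/
  D : Submodule Qb (ℂ ⊗[ℚ] B)
  /-- `D` is the `ℚ̄`-span of a basis of `ℂ ⊗ B` -/
  form : ∃ b : Module.Basis (Fin (Module.finrank ℚ B)) ℂ (ℂ ⊗[ℚ] B), D = Submodule.span Qb (Set.range b)
  /-- the Hodge decomposition: `V p = H^{p,m-p}` -/
  V : ℤ → Submodule ℂ (ℂ ⊗[ℚ] B)
  internal : DirectSum.IsInternal V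
  conj : ∀ p : ℤ, ∀ x ∈ V p, conjC B x ∈ V (m - p)
  /-- the polarization -/
  ψ : LinearMap.BilinForm ℚ B
  symm : ∀ x y : B, ψ y x = (-1) ^ m * ψ x y
  orth : ∀ p q : ℤ, p + q ≠ m → ∀ x ∈ V p, ∀ y ∈ V q, ψ.baseChange ℂ x y = 0
  pos : ∀ p : ℤ, ∀ x ∈ V p, x ≠ 0 →
    ∃ r : ℝ, 0 < r ∧ Complex.I ^ (2 * p - m) * ψ.baseChange ℂ x (conjC B x) = r
  deRham : ∀ x ∈ D, ∀ y ∈ D, ∃ a ∈ Qb, ψ.baseChange ℂ x y = a * (Real.pi : ℂ) ^ m

attribute [instance] HdR.grp HdR.mod HdR.fin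

/-- Admissible triples `(H, F, ι)` in `M`. -/
structure Admissible (M : HdR) (F : Type) [Field F] [NumberField F] where
  H : Submodule ℚ M.B
  ι : F →+* Module.End ℚ H
  dim : Module.finrank ℚ H = Module.finrank ℚ F
  /-- `H` is a sub-Hodge structure -/
  sub : ⨆ p : ℤ, (M.V p).comap (H.subtype.baseChange ℂ) = ⊤
  /-- the `ι a` are endomorphisms of Hodge structures -/
  hodge : ∀ (a : F) (p : ℤ), ∀ x ∈ (M.V p).comap (H.subtype.baseChange ℂ),
    (ι a).baseChange ℂ x ∈ (M.V p).comap (H.subtype.baseChange ℂ)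
  /-- each line `H_σ` is spanned by a de Rham class -/
  deRham : ∀ σ : F →+* ℂ, ∃ ω : ℂ ⊗[ℚ] H, ω ≠ 0 ∧ (∀ a : F, (ι a).baseChange ℂ ω = σ a • ω) ∧
    H.subtype.baseChange ℂ ω ∈ M.D

namespace Admissible

variable {M : HdR} {F : Type} [Field F] [NumberField F] (T : Admissible M F)

/-- the line `H_σ` -/
def line (σ : F →+* ℂ) : Submodule ℂ (ℂ ⊗[ℚ] T.H) where
  carrier := {x | ∀ a : F, (T.ι a).baseChange ℂ x = σ a • x}
  add_mem' := fun {x y} hx hy a => by rw [map_add, hx a, hy a, smul_add]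
  zero_mem' := fun a => by rw [map_zero, smul_zero]
  smul_mem' := fun c x hx a => by
    have h : (T.ι a).baseChange ℂ x = σ a • x := hx a
    rw [map_smul, h, smul_comm]

/-- `H_σ` is of type `(p(σ), m - p(σ))`, for all `σ` -/
def HodgeNumbers (p : (F →+* ℂ) → ℤ) : Prop :=
  ∀ σ, ∀ x ∈ T.line σ, T.H.subtype.baseChange ℂ x ∈ M.V (p σ)

/-- `P_σ(H) ∼ z`: the value of every rational linear form `γ ≠ 0` on `H` at every de Rham class `ω ≠ 0` of `H_σ` is
the product of `z` and a nonzero algebraic number. -/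
def Period (σ : F →+* ℂ) (z : ℂ) : Prop :=
  ∀ ω ∈ T.line σ, T.H.subtype.baseChange ℂ ω ∈ M.D → ω ≠ 0 → ∀ γ : T.H →ₗ[ℚ] ℚ, γ ≠ 0 →
    ∃ u ∈ Qb, u ≠ 0 ∧ TensorProduct.AlgebraTensorModule.rid ℚ ℂ ℂ (γ.baseChange ℂ ω) = u * z

end Admissible

/-- **The Gross-Deligne conjecture** (Q1) for the admissible triples with field `F` in the members of the class `𝒞`:
`d` is the conductor of `F`, `K` is the field `ℚ(μ_d)`, `e` is an embedding of `F` in `K`, the `t u`, `u` in `(ℤ/d)ˣ`, are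
the embeddings of `K` in `ℂ` (restricting them to `F` one obtains the map `φ`), and `ε` is any function with
`d p(φ(u)) = ∑_a ε(a) ⟨ua⟩` for all `u`. -/
def GrossDeligne (𝒞 : HdR → Prop) (F : Type) [Field F] [NumberField F] : Prop :=
  ∀ M : HdR, 𝒞 M → ∀ (T : Admissible M F) (p : (F →+* ℂ) → ℤ), T.HodgeNumbers p →
  ∀ (d : ℕ) [NeZero d], IsConductor F d →
  ∀ (K : Type) [Field K] [NumberField K] [IsCyclotomicExtension {d} ℚ K] (e : F →+* K) (ζ : K)
    (t : (ZMod d)ˣ → K →+* ℂ), IsEmb ζ t →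
  ∀ ε : ZMod d → ℚ, (∀ u : (ZMod d)ˣ, (d : ℚ) * p ((t u).comp e) = ∑ a, ε a * (((u : ZMod d) * a).val : ℚ)) →
  ∀ u : (ZMod d)ˣ, T.Period ((t u).comp e) (gam d ε u : ℂ)

/-- The admissible triples with field `F` in the members of `𝒞` which consist of Hodge classes (of type `(k,k)`)
consist of de Rham classes: `(2πi)^k H` is contained in the de Rham cohomology. -/
def HodgeClassesDeRham (𝒞 : HdR → Prop) (F : Type) [Field F] [NumberField F] : Prop :=
  ∀ M : HdR, 𝒞 M → ∀ (T : Admissible M F) (k : ℕ), M.m = 2 * k → T.HodgeNumbers (fun _ => k) →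
    ∀ h ∈ T.H, ((Real.pi : ℂ) ^ k) ⊗ₜ[ℚ] h ∈ M.D

/-- The normalised periods `P_σ(H) / (2πi)^k` of the admissible triples with field `F` which consist of Hodge classes of
type `(k,k)`, in the members of `𝒞`, take only finitely many values modulo the nonzero algebraic numbers, for all large
`k`. -/
def FinitelyManyPeriods (𝒞 : HdR → Prop) (F : Type) [Field F] [NumberField F] : Prop :=
  ∃ (W : ℕ) (Z : Finset ((F →+* ℂ) → ℂ)), ∀ M : HdR, 𝒞 M → ∀ (T : Admissible M F) (k : ℕ), W ≤ k → M.m = 2 * k →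
    T.HodgeNumbers (fun _ => k) → ∃ z ∈ Z, ∀ σ, T.Period σ (z σ * (Real.pi : ℂ) ^ k)

/-- The class is closed under exterior products (Künneth formula): the tensor product of two members is contained
in a member. -/
def Kuenneth (𝒞 : HdR → Prop) : Prop :=
  ∀ M N : HdR, 𝒞 M → 𝒞 N → ∃ P : HdR, 𝒞 P ∧ P.m = M.m + N.m ∧ ∃ j : M.B ⊗[ℚ] N.B →ₗ[ℚ] P.B,
    Function.Injective j ∧
    (∀ x ∈ M.D, ∀ y ∈ N.D, j.baseChange ℂ
      ((TensorProduct.AlgebraTensorModule.distribBaseChange ℚ ℂ M.B N.B).symm (x ⊗ₜ[ℂ] y)) ∈ P.D) ∧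
    (∀ p q : ℤ, ∀ x ∈ M.V p, ∀ y ∈ N.V q, j.baseChange ℂ
      ((TensorProduct.AlgebraTensorModule.distribBaseChange ℚ ℂ M.B N.B).symm (x ⊗ₜ[ℂ] y)) ∈ P.V (p + q))

/-- The class contains the motives of Fermat curves: for all `a`, `b` in `ℤ/d` such that `a`, `b` and `a + b` are not
zero there is an admissible triple with field `K = ℚ(μ_d)` in a member of weight one such that, for all units `u`,
`H_σ`, `σ = t u`, is of type `(1,0)` if `⟨ua⟩ + ⟨ub⟩ < d` and of type `(0,1)` if not, with the period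
`B(⟨ua⟩/d, ⟨ub⟩/d) = ∫_0^1 x^(⟨ua⟩/d - 1) (1 - x)^(⟨ub⟩/d - 1) dx`. -/
def ContainsFermat (𝒞 : HdR → Prop) : Prop :=
  ∀ (d : ℕ) [NeZero d] (K : Type) [Field K] [NumberField K] [IsCyclotomicExtension {d} ℚ K] (ζ : K)
    (t : (ZMod d)ˣ → K →+* ℂ), IsEmb ζ t → ∀ (a b : ZMod d), a ≠ 0 → b ≠ 0 → a + b ≠ 0 →
    ∃ M : HdR, 𝒞 M ∧ M.m = 1 ∧ ∃ (T : Admissible M K) (p : (K →+* ℂ) → ℤ), T.HodgeNumbers p ∧
      ∀ u : (ZMod d)ˣ,
        p (t u) = (if ((u : ZMod d) * a).val + ((u : ZMod d) * b).val < d then 1 else 0) ∧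
        T.Period (t u) (Complex.betaIntegral ((((u : ZMod d) * a).val : ℂ) / d) ((((u : ZMod d) * b).val : ℂ) / d))

end Pool.Agent.T2h95.GD
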