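import Pool.Agent.T2h95.GD.Mixed

/-!
The Gross-Deligne conjecture and the dependence of the periods on the Hodge numbers.
-/

set_option autoImplicit false

open Finset
open scoped TensorProduct

namespace Pool.Agent.T2h95.GD

/-- The periods of the triples with field `F` depend only on their weights and Hodge numbers. -/
def Depend (𝒞 : HdR → Prop) (F : Type) [Field F] [NumberField F] : Prop :=
  ∀ M N : HdR, 𝒞 M → 𝒞 N → M.m = N.m → ∀ (T : Admissible M F) (T' : Admissible N F) (p : (F →+* ℂ) → ℤ),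
    T.HodgeNumbers p → T'.HodgeNumbers p → ∀ σ z, T.Period σ z → T'.Period σ z

/-- the Gross-Deligne conjecture for `F` gives the statement on Hodge classes over `F`, in all cases -/
theorem hodge_of_gd_all {𝒞 : HdR → Prop} {F : Type} [Field F] [NumberField F]
    {n : ℕ} (hn : 0 < n) {s : F →+* ℂ}
    (hs : ∀ x, s x ∈ IntermediateField.adjoin ℚ {Complex.exp (2 * Real.pi * Complex.I / n)})
    (h : GrossDeligne 𝒞 F) : HodgeClassesDeRham 𝒞 F := by
  by_cases hF : NumberField.IsTotallyComplex F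
  · exact hodge_of_gd hF hn hs h
  have hpi : (Real.pi : ℂ) ≠ 0 := by exact_mod_cast Real.pi_ne_zero
  -- otherwise `F` is real
  have : NeZero n := ⟨hn.ne'⟩
  obtain ⟨K, _, _, _, e, ζ, t, ht⟩ := exists_cyc s hs
  have hreal : ∀ σ : F →+* ℂ, cj σ = σ := by
    obtain ⟨v, hv⟩ : ∃ v : NumberField.InfinitePlace F, ¬ v.IsComplex := by
      by_contra hcon
      push Not at hcon
      exact hF ⟨hcon⟩
    rw [NumberField.InfinitePlace.not_isComplex_iff_isReal, NumberField.InfinitePlace.isReal_iff] at hv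
    obtain ⟨u, hu⟩ := ext_emb ht e v.embedding
    have h2 : (t (-u)).comp e = (t u).comp e := by
      rw [← hu, ← cj_t ht]
      rw [NumberField.ComplexEmbedding.isReal_iff] at hv
      rw [← hv, hu]
      rfl
    have h3 := agree ht e h2
    rw [inv_neg, neg_mul, inv_mul_cancel] at h3
    intro σ
    obtain ⟨w, rfl⟩ := ext_emb ht e σ
    have h5 : cj ((t w).comp e) = (t (-w)).comp e := by
      rw [← cj_t ht]; rfl
    rw [h5]
    ext x
    change t (-w) (e x) = t w (e x)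
    rw [← h3 x, t_gal ht, h3 x]
    congr 2
    simp
  intro M hM T k hm hp
  obtain ⟨f, P, hf, hsurj, hper⟩ := toLine T _ hp
  have hPk : ∀ σ, ∃ u ∈ Qb, u ≠ 0 ∧ P σ = u * (Real.pi : ℂ) ^ k := by
    intro σ
    obtain ⟨w, hw, hw0, h2⟩ := (hf.pol σ).2
    rw [hreal, hm] at h2
    refine alg_of_fn (hf.ne _) (pow_ne_zero _ hpi) fun Φ hΦ => ?_
    have h3 := congrArg Φ h2
    rw [hΦ.mul _ _ (hf.ne _) (hf.ne _), hΦ.mul _ _ hw0 (pow_ne_zero _ hpi), hΦ.alg _ hw, hΦ.pow _ hpi] at h3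
    rw [hΦ.pow _ hpi]
    push_cast at h3
    linear_combination h3 / 2
  intro x hx
  obtain ⟨a, rfl⟩ := hsurj x hx
  exact hodge_of_period hf hPk a

theorem dep_of_gd {𝒞 : HdR → Prop} (hK : Kuenneth 𝒞) {F : Type} [Field F] [NumberField F]
    {n : ℕ} (hn : 0 < n) {s : F →+* ℂ}
    (hs : ∀ x, s x ∈ IntermediateField.adjoin ℚ {Complex.exp (2 * Real.pi * Complex.I / n)})
    (h : GrossDeligne 𝒞 F) : Depend 𝒞 F := by
  have hF := hodge_of_gd_all hn hs h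
  have : NeZero n := ⟨hn.ne'⟩
  obtain ⟨K, _, _, _, e, ζ, t, ht⟩ := exists_cyc s hs
  have hpi : (Real.pi : ℂ) ≠ 0 := by exact_mod_cast Real.pi_ne_zero
  obtain ⟨τ, hτs, hτ⟩ := exists_tau (d := n) e
  have hcomp : ∀ σ : F →+* ℂ, σ.comp ((τ (-1) : F ≃ₐ[ℚ] F) : F →+* F) = cj σ := by
    intro σ
    obtain ⟨u, rfl⟩ := ext_emb ht e σ
    ext x
    change t u (e (τ (-1) x)) = cj (t u) (e x)
    rw [hτ, t_gal ht, cj_t ht, mul_neg, mul_one]
  intro M N hM hN hmn T T' p hp hp' σ z hz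
  obtain ⟨f, P, hf, -, hper⟩ := toLine T _ hp
  obtain ⟨f', P', hf', -, hper'⟩ := toLine T' _ hp'
  have hR : Rl 𝒞 F M.m P p := ⟨M, hM, rfl, f, hf⟩
  have hR' : Rl 𝒞 F M.m P' p := ⟨N, hN, hmn.symm, f', hf'⟩
  obtain ⟨L, hL, hLm, g, hg⟩ := hR.mul hK (hR'.twist (τ (-1)))
  have hpc : (p + fun σ => p (σ.comp ((τ (-1) : F ≃ₐ[ℚ] F) : F →+* F))) = fun _ => (M.m : ℤ) := by
    funext σ
    rw [Pi.add_apply, hcomp, (hR.pol σ).1]
    ring
  rw [hpc] at hg
  obtain ⟨w, hw, hw0, h1⟩ := period_of_hodge hF hL (by rw [hLm]; ring) hg σ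
  rw [Pi.mul_apply, hcomp] at h1
  obtain ⟨v, hv, hv0, h2⟩ := (hR'.pol σ).2
  rw [hper] at hz
  obtain ⟨y, hy, hy0, h3⟩ := hz
  rw [hper']
  have hz0 : z ≠ 0 := by
    rintro rfl
    rw [mul_zero] at h3
    exact hf.ne _ h3
  refine ⟨v / w * y, mul_mem (div_mem hv hw) hy, mul_ne_zero (div_ne_zero hv0 hw0) hy0, ?_⟩
  have hc0 := hf'.ne (cj σ)
  have h4 : P' σ * (w * (Real.pi : ℂ) ^ M.m) = v * P σ * (Real.pi : ℂ) ^ M.m := by
    calc P' σ * (w * (Real.pi : ℂ) ^ M.m) = P σ * (P' σ * P' (cj σ)) := by rw [← h1]; ring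
      _ = v * P σ * (Real.pi : ℂ) ^ M.m := by rw [h2]; ring
  have h5 : P' σ * w = v * P σ := by
    have hpm : (Real.pi : ℂ) ^ M.m ≠ 0 := pow_ne_zero _ hpi
    apply mul_right_cancel₀ hpm
    rw [← h4]; ring
  rw [h3] at h5
  field_simp
  linear_combination h5

theorem hodge_of_dep {𝒞 : HdR → Prop} (hK : Kuenneth 𝒞) (hC : ContainsFermat 𝒞) {F : Type} [Field F] [NumberField F]
    {n : ℕ} (hn : 0 < n) {s : F →+* ℂ}
    (hs : ∀ x, s x ∈ IntermediateField.adjoin ℚ {Complex.exp (2 * Real.pi * Complex.I / n)})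
    (h : Depend 𝒞 F) {E : Type} [Field E] [NumberField E] (i : E →+* F)
    (hE : NumberField.IsTotallyComplex E) : HodgeClassesDeRham 𝒞 E := by
  have : NeZero n := ⟨hn.ne'⟩
  obtain ⟨K, _, _, _, e, ζ, t, ht⟩ := exists_cyc s hs
  obtain ⟨h1, h2⟩ := one_add_one_ne ht hE (e.comp i)
  have hb := base_line ht hK hC h1 h2 e
  have hpi : (Real.pi : ℂ) ≠ 0 := by exact_mod_cast Real.pi_ne_zero
  intro M hM T k hm hp
  obtain ⟨f, P, hf, hsurj, hper⟩ := toLine T _ hp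
  have hR : Rl 𝒞 E M.m P (fun _ => (k : ℤ)) := ⟨M, hM, rfl, f, hf⟩
  obtain ⟨N, hN, hNm, g, hg⟩ := hR.mixed hK i hb
  obtain ⟨N', hN', hNm', g', hg'⟩ := hb.pow hK hb k
  have e1 : ((fun _ => (1 : ℤ)) + k • (fun _ => (1 : ℤ)) : (F →+* ℂ) → ℤ) = fun _ => (k : ℤ) + 1 := by
    funext σ
    change (1 : ℤ) + k • (1 : ℤ) = _
    rw [nsmul_eq_mul]
    ring
  rw [e1] at hg'
  have hg1 : IsLine N g (fun σ => P (σ.comp i) * (Real.pi : ℂ)) (fun _ => (k : ℤ) + 1) := hg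
  have hPk : ∀ σ, ∃ u ∈ Qb, u ≠ 0 ∧ P σ = u * (Real.pi : ℂ) ^ k := by
    intro σ
    obtain ⟨u, rfl⟩ := ext_emb ht (e.comp i) σ
    have h3 := h N' N hN' hN (by rw [hNm', hNm, hm]; ring) hg'.triple hg1.triple _ hg'.hodgeNumbers hg1.hodgeNumbers
      ((t u).comp e) ((Real.pi : ℂ) ^ (k + 1)) (by
        rw [hg'.period]
        refine ⟨1, one_mem _, one_ne_zero, ?_⟩
        simp only [Pi.mul_apply, Pi.pow_apply]
        ring)
    rw [hg1.period] at h3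
    obtain ⟨w, hw, hw0, h4⟩ := h3
    refine ⟨w, hw, hw0, ?_⟩
    have h5 : P ((t u).comp (e.comp i)) * (Real.pi : ℂ) = w * (Real.pi : ℂ) ^ k * (Real.pi : ℂ) := by
      rw [mul_assoc, ← pow_succ, ← h4]
      rfl
    exact mul_right_cancel₀ hpi h5
  intro x hx
  obtain ⟨a, rfl⟩ := hsurj x hx
  exact hodge_of_period hf hPk a

end Pool.Agent.T2h95.GD
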