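import Pool.Agent.T2h95.GD.Adapter

/-!
Structures with a basis of eigenvectors which is permuted by the automorphisms of the complex numbers.
-/

set_option autoImplicit false

open Finset
open scoped TensorProduct

namespace Pool.Agent.T2h95.GD

section

variable {B : Type} [AddCommGroup B] [Module ℚ B]

/-- the semilinear action of an automorphism of `ℂ` -/
noncomputable def gact (B : Type) [AddCommGroup B] [Module ℚ B] (g : ℂ ≃+* ℂ) : ℂ ⊗[ℚ] B →ₗ[ℚ] ℂ ⊗[ℚ] B :=
  LinearMap.rTensor B ((g : ℂ →+* ℂ).toRatAlgHom.toLinearMap)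

lemma gact_tmul (g : ℂ ≃+* ℂ) (z : ℂ) (x : B) : gact B g (z ⊗ₜ[ℚ] x) = (g z) ⊗ₜ[ℚ] x := rfl

lemma gact_smul (g : ℂ ≃+* ℂ) (z : ℂ) (x : ℂ ⊗[ℚ] B) : gact B g (z • x) = g z • gact B g x := by
  induction x using TensorProduct.induction_on with
  | zero => simp
  | tmul w y => rw [TensorProduct.smul_tmul', gact_tmul, gact_tmul, TensorProduct.smul_tmul', smul_eq_mul,
      smul_eq_mul, map_mul]
  | add x y hx hy => rw [smul_add, map_add, hx, hy, map_add, smul_add]

lemma gact_vec {F : Type} [Field F] [NumberField F] (g : ℂ ≃+* ℂ) (f : F →ₗ[ℚ] B) (σ : F →+* ℂ) :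
    gact B g (vec f σ) = vec f ((g : ℂ →+* ℂ).comp σ) := by
  unfold vec
  rw [map_sum]
  rfl

lemma gact_mul (g h : ℂ ≃+* ℂ) (x : ℂ ⊗[ℚ] B) : gact B (g * h) x = gact B g (gact B h x) := by
  induction x using TensorProduct.induction_on with
  | zero => simp
  | tmul w y => rfl
  | add x y hx hy => rw [map_add, map_add, map_add, hx, hy]

lemma gact_one (x : ℂ ⊗[ℚ] B) : gact B 1 x = x := by
  induction x using TensorProduct.induction_on with
  | zero => simp
  | tmul w y => rfl
  | add x y hx hy => rw [map_add, hx, hy]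

/-- complex conjugation -/
noncomputable def cjA : ℂ ≃+* ℂ := starRingAut

lemma cjA_apply (z : ℂ) : cjA z = (starRingEnd ℂ) z := rfl

lemma cjA_mul : cjA * cjA = 1 := by
  ext z
  change cjA (cjA z) = z
  rw [cjA_apply, cjA_apply, Complex.conj_conj]

lemma gact_cjA (x : ℂ ⊗[ℚ] B) : gact B cjA x = conjC B x := by
  induction x using TensorProduct.induction_on with
  | zero => simp
  | tmul w y => rfl
  | add x y hx hy => rw [map_add, map_add, hx, hy]

end

/-- a structure with a basis of eigenvectors -/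
structure DiagData where
  B : Type
  [grp : AddCommGroup B]
  [mod : Module ℚ B]
  [fin : FiniteDimensional ℚ B]
  A : Type
  [fA : Fintype A]
  w : Module.Basis A ℂ (ℂ ⊗[ℚ] B)
  act : (ℂ ≃+* ℂ) → A → A
  hact : ∀ g α, gact B g (w α) = w (act g α)
  m : ℕ
  typ : A → ℤ
  per : A → ℂ
  per_ne : ∀ α, per α ≠ 0
  ψ : LinearMap.BilinForm ℚ B
  symm : ∀ x y, ψ y x = (-1) ^ m * ψ x y
  typ_bar : ∀ α, typ (act cjA α) = m - typ α
  ψ_zero : ∀ α β, β ≠ act cjA α → ψ.baseChange ℂ (w α) (w β) = 0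
  ψ_pos : ∀ α, ∃ r : ℝ, 0 < r ∧ Complex.I ^ (2 * typ α - m) * ψ.baseChange ℂ (w α) (w (act cjA α)) = r
  ψ_per : ∀ α, ∃ a ∈ Qb, per α * per (act cjA α) * ψ.baseChange ℂ (w α) (w (act cjA α)) = a * (Real.pi : ℂ) ^ m

attribute [instance] DiagData.grp DiagData.mod DiagData.fin DiagData.fA

namespace DiagData

variable (X : DiagData)

lemma act_mul (g h : ℂ ≃+* ℂ) (α : X.A) : X.act (g * h) α = X.act g (X.act h α) := by
  apply X.w.injective
  rw [← X.hact, gact_mul, X.hact, X.hact]

lemma act_one (α : X.A) : X.act 1 α = α := by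
  apply X.w.injective
  rw [← X.hact, gact_one]

lemma barbar (α : X.A) : X.act cjA (X.act cjA α) = α := by
  rw [← act_mul, cjA_mul, act_one]

lemma bar_inj {α β : X.A} (h : X.act cjA α = X.act cjA β) : α = β := by
  rw [← X.barbar α, h, X.barbar]

/-- the vectors with coordinates in the set `S α` -/
lemma repr_conj (x : ℂ ⊗[ℚ] X.B) (α : X.A) :
    X.w.repr (conjC X.B x) (X.act cjA α) = (starRingEnd ℂ) (X.w.repr x α) := by
  classical
  conv_lhs => rw [← X.w.sum_repr x]
  rw [map_sum, map_sum, Finset.sum_apply']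
  have : ∀ β, X.w.repr (conjC X.B (X.w.repr x β • X.w β)) (X.act cjA α) =
      if β = α then (starRingEnd ℂ) (X.w.repr x β) else 0 := by
    intro β
    rw [conjC_smul, ← gact_cjA, X.hact, map_smul, Finsupp.smul_apply, Module.Basis.repr_self,
      Finsupp.single_apply, smul_eq_mul]
    by_cases h : β = α
    · rw [if_pos h, h, if_pos rfl, mul_one]
    · rw [if_neg h, if_neg fun h' => h (X.bar_inj h'), mul_zero]
  simp only [this, Finset.sum_ite_eq', Finset.mem_univ, if_true]

/-- the part of type `p` -/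
def part (p : ℤ) : Submodule ℂ (ℂ ⊗[ℚ] X.B) where
  carrier := {x | ∀ α, X.typ α ≠ p → X.w.repr x α = 0}
  add_mem' := fun {x y} hx hy α hα => by rw [map_add, Finsupp.add_apply, hx α hα, hy α hα, add_zero]
  zero_mem' := fun α _ => by simp
  smul_mem' := fun c x hx α hα => by rw [map_smul, Finsupp.smul_apply, hx α hα, smul_zero]

lemma mem_part {p : ℤ} {x : ℂ ⊗[ℚ] X.B} : x ∈ X.part p ↔ ∀ α, X.typ α ≠ p → X.w.repr x α = 0 := Iff.rfl

lemma w_mem (α : X.A) : X.w α ∈ X.part (X.typ α) := by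
  classical
  intro β hβ
  rw [Module.Basis.repr_self, Finsupp.single_apply, if_neg]
  rintro rfl
  exact hβ rfl

lemma internal : DirectSum.IsInternal X.part := by
  classical
  rw [DirectSum.isInternal_submodule_iff_iSupIndep_and_iSup_eq_top]
  constructor
  · intro p
    rw [Submodule.disjoint_def]
    intro x hx hx'
    let U : Submodule ℂ (ℂ ⊗[ℚ] X.B) :=
      { carrier := {x | ∀ α, X.typ α = p → X.w.repr x α = 0}
        add_mem' := fun {x y} hx hy α hα => by rw [map_add, Finsupp.add_apply, hx α hα, hy α hα, add_zero]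
        zero_mem' := fun α _ => by simp
        smul_mem' := fun c x hx α hα => by rw [map_smul, Finsupp.smul_apply, hx α hα, smul_zero] }
    have hU : (⨆ j, ⨆ _ : j ≠ p, X.part j) ≤ U := by
      refine iSup_le fun j => iSup_le fun hj => ?_
      intro y hy α hα
      exact hy α (by rw [hα]; exact hj.symm)
    have h1 := hU hx'
    apply X.w.repr.injective
    ext α
    rw [map_zero, Finsupp.zero_apply]
    by_cases hα : X.typ α = p
    · exact h1 α hα
    · exact hx α hα
  · rw [eq_top_iff]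
    intro x _
    rw [← X.w.sum_repr x]
    refine Submodule.sum_mem _ fun α _ => Submodule.smul_mem _ _ ?_
    exact Submodule.mem_iSup_of_mem (X.typ α) (X.w_mem α)

lemma part_conj (p : ℤ) (x : ℂ ⊗[ℚ] X.B) (hx : x ∈ X.part p) : conjC X.B x ∈ X.part (X.m - p) := by
  intro α hα
  rw [← X.barbar α, repr_conj, hx, map_zero]
  intro h
  apply hα
  have := X.typ_bar α
  rw [h] at this
  omega

lemma pair (x y : ℂ ⊗[ℚ] X.B) : X.ψ.baseChange ℂ x y =
    ∑ α, X.w.repr x α * X.w.repr y (X.act cjA α) * X.ψ.baseChange ℂ (X.w α) (X.w (X.act cjA α)) := by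
  classical
  conv_lhs => rw [← X.w.sum_repr x, ← X.w.sum_repr y]
  simp only [map_sum, LinearMap.coe_sum, Finset.sum_apply, map_smul, LinearMap.smul_apply, smul_eq_mul, Finset.mul_sum]
  rw [Finset.sum_comm]
  refine Finset.sum_congr rfl fun α _ => ?_
  rw [Finset.sum_eq_single (X.act cjA α)]
  · ring
  · intro β _ hβ
    rw [X.ψ_zero α β hβ]
    ring
  · intro h; exact absurd (Finset.mem_univ _) h

/-- the set of the de Rham classes -/
def deR : Set (ℂ ⊗[ℚ] X.B) := {x | ∀ α, X.w.repr x α / X.per α ∈ Qb}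

lemma card_A : Fintype.card X.A = Module.finrank ℚ X.B := by
  rw [← Module.finrank_eq_card_basis X.w, Module.finrank_baseChange]

lemma form : ∃ b : Module.Basis (Fin (Module.finrank ℚ X.B)) ℂ (ℂ ⊗[ℚ] X.B), X.deR = {x | ∀ i, b.repr x i ∈ Qb} := by
  refine ⟨(X.w.unitsSMul fun α => Units.mk0 (X.per α) (X.per_ne α)).reindex
    (Fintype.equivFinOfCardEq X.card_A), ?_⟩
  ext x
  change (∀ α, X.w.repr x α / X.per α ∈ Qb) ↔ ∀ i, _ ∈ Qb
  constructor
  · intro h i
    have := h ((Fintype.equivFinOfCardEq X.card_A).symm i)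
    rw [Module.Basis.repr_reindex_apply, Module.Basis.repr_unitsSMul, Units.smul_def, Units.val_inv_eq_inv_val,
      Units.val_mk0, smul_eq_mul, ← div_eq_inv_mul]
    exact this
  · intro h α
    have := h (Fintype.equivFinOfCardEq X.card_A α)
    rw [Module.Basis.repr_reindex_apply, Module.Basis.repr_unitsSMul, Units.smul_def, Units.val_inv_eq_inv_val,
      Units.val_mk0, smul_eq_mul, ← div_eq_inv_mul, Equiv.symm_apply_apply] at this
    exact this

lemma orth (p q : ℤ) (hpq : p + q ≠ X.m) (x : ℂ ⊗[ℚ] X.B) (hx : x ∈ X.part p) (y : ℂ ⊗[ℚ] X.B) (hy : y ∈ X.part q) :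
    X.ψ.baseChange ℂ x y = 0 := by
  rw [X.pair]
  refine Finset.sum_eq_zero fun α _ => ?_
  by_cases hα : X.typ α = p
  · have h2 : X.typ (X.act cjA α) ≠ q := by
      have := X.typ_bar α
      omega
    rw [hy _ h2]; ring
  · rw [hx _ hα]; ring

lemma pos (p : ℤ) (x : ℂ ⊗[ℚ] X.B) (hx : x ∈ X.part p) (hx0 : x ≠ 0) :
    ∃ r : ℝ, 0 < r ∧ Complex.I ^ (2 * p - X.m) * X.ψ.baseChange ℂ x (conjC X.B x) = r := by
  choose r hr hrr using X.ψ_pos
  refine ⟨∑ α, Complex.normSq (X.w.repr x α) * r α, ?_, ?_⟩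
  · obtain ⟨α, hα⟩ : ∃ α, X.w.repr x α ≠ 0 := by
      by_contra hcon
      push Not at hcon
      exact hx0 (X.w.repr.injective (by ext α; rw [hcon α, map_zero]; rfl))
    exact Finset.sum_pos' (fun β _ => mul_nonneg (Complex.normSq_nonneg _) (hr β).le)
      ⟨α, Finset.mem_univ _, mul_pos (Complex.normSq_pos.mpr hα) (hr α)⟩
  · rw [X.pair, Finset.mul_sum]
    push_cast
    refine Finset.sum_congr rfl fun α _ => ?_
    rw [X.repr_conj]
    by_cases hα : X.typ α = p
    · rw [← hrr α, hα, Complex.normSq_eq_conj_mul_self]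
      ring
    · rw [hx _ hα, map_zero]
      simp

lemma rational (x : ℂ ⊗[ℚ] X.B) (hx : x ∈ X.deR) (y : ℂ ⊗[ℚ] X.B) (hy : y ∈ X.deR) :
    ∃ a ∈ Qb, X.ψ.baseChange ℂ x y = a * (Real.pi : ℂ) ^ X.m := by
  choose a ha haa using X.ψ_per
  refine ⟨∑ α, X.w.repr x α / X.per α * (X.w.repr y (X.act cjA α) / X.per (X.act cjA α)) * a α, ?_, ?_⟩
  · exact sum_mem fun α _ => mul_mem (mul_mem (hx α) (hy _)) (ha α)
  · rw [X.pair, Finset.sum_mul]
    refine Finset.sum_congr rfl fun α _ => ?_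
    have h1 := X.per_ne α
    have h2 := X.per_ne (X.act cjA α)
    calc _ = X.w.repr x α / X.per α * (X.w.repr y (X.act cjA α) / X.per (X.act cjA α)) *
          (X.per α * X.per (X.act cjA α) * X.ψ.baseChange ℂ (X.w α) (X.w (X.act cjA α))) := by
          field_simp
      _ = _ := by rw [haa]; ring

/-- the structure -/
noncomputable def toHdR : GDS.HdR where
  B := X.B
  m := X.m
  D := X.deR
  form := X.form
  V := X.part
  hodge := ⟨X.internal, X.part_conj⟩
  ψ := X.ψ
  pol := ⟨X.symm, X.orth, X.pos⟩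
  deRham := X.rational

end DiagData

end Pool.Agent.T2h95.GD
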