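import Pool.Agent.T2h95.GD.Ops

/-!
Eigenvalues of the compatible systems of operators.
-/

set_option autoImplicit false

open Finset
open scoped TensorProduct

namespace Pool.Agent.T2h95.GD

/-- `a` is an eigenvalue of `A` -/
def Eig {V : Type} [AddCommGroup V] [Module ℂ V] (A : V →ₗ[ℂ] V) (a : ℂ) : Prop := ∃ x, x ≠ 0 ∧ A x = a • x

section

variable {V : Type} [AddCommGroup V] [Module ℂ V] [FiniteDimensional ℂ V]

lemma exists_in_sub (A : V →ₗ[ℂ] V) (W : Submodule ℂ V) (hW : ∀ x ∈ W, A x ∈ W) {x : V} (hx : x ∈ W) (h0 : x ≠ 0) :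
    ∃ y ∈ W, y ≠ 0 ∧ ∃ b : ℂ, A y = b • y := by
  have : Nontrivial W := ⟨⟨⟨x, hx⟩, 0, fun h => h0 (congrArg Subtype.val h)⟩⟩
  let A' : Module.End ℂ W := A.restrict hW
  obtain ⟨b, hb⟩ := Module.End.exists_eigenvalue A'
  obtain ⟨v, hv⟩ := hb.exists_hasEigenvector
  refine ⟨v, v.2, fun h => hv.2 (Subtype.ext h), b, ?_⟩
  exact congrArg Subtype.val hv.apply_eq_smul

variable {V' : Type} [AddCommGroup V'] [Module ℂ V'] [FiniteDimensional ℂ V']

omit [FiniteDimensional ℂ V] [FiniteDimensional ℂ V'] in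
lemma eig_of_not_inj {A : V →ₗ[ℂ] V} {a : ℂ}
    (h : ¬ Function.Injective (A - a • (LinearMap.id : V →ₗ[ℂ] V))) : Eig A a := by
  rw [injective_iff_map_eq_zero] at h
  push Not at h
  obtain ⟨x, hx, h0⟩ := h
  refine ⟨x, h0, ?_⟩
  rw [LinearMap.sub_apply, LinearMap.smul_apply, LinearMap.id_apply] at hx
  exact sub_eq_zero.mp hx

/-- eigenvalues of tensor products -/
lemma eig_map {A : V →ₗ[ℂ] V} {A' : V' →ₗ[ℂ] V'} {a : ℂ} (h : Eig (TensorProduct.map A A') a) :
    ∃ b b', Eig A b ∧ Eig A' b' ∧ a = b * b' := by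
  obtain ⟨x, h0, hx⟩ := h
  let A1 : V ⊗[ℂ] V' →ₗ[ℂ] V ⊗[ℂ] V' := TensorProduct.map A LinearMap.id
  let A2 : V ⊗[ℂ] V' →ₗ[ℂ] V ⊗[ℂ] V' := TensorProduct.map LinearMap.id A'
  have h12 : ∀ y, A1 (A2 y) = TensorProduct.map A A' y := by
    intro y
    rw [← LinearMap.comp_apply, ← TensorProduct.map_comp, LinearMap.comp_id, LinearMap.id_comp]
  have h21 : ∀ y, A2 (A1 y) = TensorProduct.map A A' y := by
    intro y
    rw [← LinearMap.comp_apply, ← TensorProduct.map_comp, LinearMap.comp_id, LinearMap.id_comp]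
  obtain ⟨y, hy, hy0, b, hb⟩ := exists_in_sub A1 (LinearMap.ker (TensorProduct.map A A' - a • LinearMap.id))
    (fun y hy => by
      rw [LinearMap.mem_ker, LinearMap.sub_apply, LinearMap.smul_apply, LinearMap.id_apply, sub_eq_zero] at hy ⊢
      rw [← h12, h21, hy, map_smul])
    (x := x) (by rw [LinearMap.mem_ker, LinearMap.sub_apply, LinearMap.smul_apply, LinearMap.id_apply, hx, sub_self]) h0
  rw [LinearMap.mem_ker, LinearMap.sub_apply, LinearMap.smul_apply, LinearMap.id_apply, sub_eq_zero] at hy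
  obtain ⟨z, hz, hz0, b', hb'⟩ := exists_in_sub A2 (LinearMap.ker (TensorProduct.map A A' - a • LinearMap.id) ⊓
      LinearMap.ker (A1 - b • LinearMap.id))
    (fun y hy => by
      rw [Submodule.mem_inf, LinearMap.mem_ker, LinearMap.mem_ker, LinearMap.sub_apply, LinearMap.smul_apply,
        LinearMap.id_apply, sub_eq_zero, LinearMap.sub_apply, LinearMap.smul_apply,
        LinearMap.id_apply, sub_eq_zero] at hy ⊢
      refine ⟨?_, ?_⟩
      · rw [← h21, h12, hy.1, map_smul]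
      · rw [h12, ← h21, hy.2, map_smul])
    (x := y) (by
      rw [Submodule.mem_inf, LinearMap.mem_ker, LinearMap.mem_ker, LinearMap.sub_apply, LinearMap.smul_apply,
        LinearMap.id_apply, sub_eq_zero, LinearMap.sub_apply, LinearMap.smul_apply,
        LinearMap.id_apply, sub_eq_zero]
      exact ⟨hy, hb⟩) hy0
  rw [Submodule.mem_inf, LinearMap.mem_ker, LinearMap.mem_ker, LinearMap.sub_apply, LinearMap.smul_apply,
    LinearMap.id_apply, sub_eq_zero, LinearMap.sub_apply, LinearMap.smul_apply,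
    LinearMap.id_apply, sub_eq_zero] at hz
  refine ⟨b, b', ?_, ?_, ?_⟩
  · refine eig_of_not_inj fun hinj => hz0 ?_
    have h1 : Function.Injective (LinearMap.rTensor V' (A - b • LinearMap.id)) :=
      Module.Flat.rTensor_preserves_injective_linearMap _ hinj
    apply h1
    rw [map_zero, LinearMap.rTensor_sub, LinearMap.rTensor_smul, LinearMap.sub_apply, LinearMap.smul_apply,
      LinearMap.rTensor_id, LinearMap.id_apply, sub_eq_zero]
    exact hz.2
  · refine eig_of_not_inj fun hinj => hz0 ?_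
    have h1 : Function.Injective (LinearMap.lTensor V (A' - b' • LinearMap.id)) :=
      Module.Flat.lTensor_preserves_injective_linearMap _ hinj
    apply h1
    rw [map_zero, LinearMap.lTensor_sub, LinearMap.lTensor_smul, LinearMap.sub_apply, LinearMap.smul_apply,
      LinearMap.lTensor_id, LinearMap.id_apply, sub_eq_zero]
    exact hb'
  · have h1 := hz.1
    rw [← h12, hb', map_smul, hz.2, smul_smul, mul_comm] at h1
    have h2 : (b * b' - a) • z = 0 := by rw [sub_smul, h1, sub_self]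
    rcases smul_eq_zero.mp h2 with h3 | h3
    · exact (sub_eq_zero.mp h3).symm
    · exact absurd h3 hz0

/-- the number of eigenvalues -/
lemma exists_eigs (A : V →ₗ[ℂ] V) : ∃ E : Finset ℂ, E.card ≤ Module.finrank ℂ V ∧ ∀ a, Eig A a ↔ a ∈ E := by
  classical
  refine ⟨A.charpoly.roots.toFinset, ?_, fun a => ?_⟩
  · refine (Multiset.toFinset_card_le _).trans ((Polynomial.card_roots' _).trans ?_)
    rw [LinearMap.charpoly_natDegree]
  · rw [Multiset.mem_toFinset, Polynomial.mem_roots (LinearMap.charpoly_monic A).ne_zero,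
      ← Module.End.hasEigenvalue_iff_isRoot_charpoly]
    constructor
    · rintro ⟨x, h0, hx⟩
      exact Module.End.hasEigenvalue_of_hasEigenvector (x := x) ⟨Module.End.mem_eigenspace_iff.mpr hx, h0⟩
    · intro h
      obtain ⟨x, hx⟩ := h.exists_hasEigenvector
      exact ⟨x, hx.2, hx.apply_eq_smul⟩

end

/-- half of the elements of a set which is stable under `a ↦ c / a` -/
lemma half_aux {c : ℂ} (hc : c ≠ 0) (E : Finset ℂ) (h0 : (0 : ℂ) ∉ E) (hE : ∀ a ∈ E, c / a ∈ E) :
    ∃ R : Finset ℂ, 2 * R.card ≤ E.card ∧ (∀ b ∈ R, b ≠ 0) ∧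
      ∀ a ∈ E, a ^ 2 = c ∨ ∃ b ∈ R, a ^ 2 = c * b ∨ a ^ 2 = c * b⁻¹ := by
  classical
  induction E using Finset.strongInduction with
  | H E ih =>
  by_cases h : ∀ a ∈ E, a ^ 2 = c
  · exact ⟨∅, by simp, by simp, fun a ha => Or.inl (h a ha)⟩
  · push Not at h
    obtain ⟨a, ha, hac⟩ := h
    have ha0 : a ≠ 0 := fun h => h0 (h ▸ ha)
    have hne : c / a ≠ a := by
      intro h
      apply hac
      rw [div_eq_iff ha0] at h
      rw [h]; ring
    have hsub : (E.erase a).erase (c / a) ⊂ E := by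
      refine (Finset.erase_subset _ _).trans_ssubset (Finset.erase_ssubset ha)
    have hca : c / a ∈ E.erase a := Finset.mem_erase.mpr ⟨hne, hE a ha⟩
    obtain ⟨R, hR, hR0, hRE⟩ := ih _ hsub (fun h => h0 (Finset.mem_of_mem_erase (Finset.mem_of_mem_erase h)))
      (fun b hb => by
        rw [Finset.mem_erase, Finset.mem_erase] at hb ⊢
        obtain ⟨h1, h2, h3⟩ := hb
        have hb0 : b ≠ 0 := fun h => h0 (h ▸ h3)
        refine ⟨fun h4 => h2 ?_, ?_⟩
        · rw [div_eq_div_iff hb0 ha0] at h4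
          exact (mul_left_cancel₀ hc h4).symm
        · refine ⟨fun h4 => h1 ?_, hE b h3⟩
          rw [div_eq_iff hb0] at h4
          rw [eq_div_iff ha0, h4]; ring)
    refine ⟨insert (a ^ 2 / c) R, ?_, ?_, ?_⟩
    · have h1 : ((E.erase a).erase (c / a)).card + 2 = E.card := by
        rw [Finset.card_erase_of_mem hca, Finset.card_erase_of_mem ha]
        have h2 : 0 < (E.erase a).card := Finset.card_pos.mpr ⟨_, hca⟩
        rw [Finset.card_erase_of_mem ha] at h2
        omega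
      have h2 := Finset.card_insert_le (a ^ 2 / c) R
      omega
    · intro b hb
      rcases Finset.mem_insert.mp hb with h1 | h1
      · rw [h1]; exact div_ne_zero (pow_ne_zero _ ha0) hc
      · exact hR0 b h1
    · intro b hb
      by_cases h1 : b = a
      · right
        refine ⟨a ^ 2 / c, Finset.mem_insert_self _ _, Or.inl ?_⟩
        rw [h1]; field_simp
      by_cases h2 : b = c / a
      · right
        refine ⟨a ^ 2 / c, Finset.mem_insert_self _ _, Or.inr ?_⟩
        rw [h2]; field_simp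
      · rcases hRE b (Finset.mem_erase.mpr ⟨h2, Finset.mem_erase.mpr ⟨h1, hb⟩⟩) with h3 | ⟨r, hr, h3⟩
        · exact Or.inl h3
        · exact Or.inr ⟨r, Finset.mem_insert_of_mem hr, h3⟩

lemma half {c : ℂ} (hc : c ≠ 0) (E : Finset ℂ) (h0 : (0 : ℂ) ∉ E) (hE : ∀ a ∈ E, c / a ∈ E) {n : ℕ}
    (hn : E.card ≤ n) : ∃ b : Fin (n / 2) → ℂ, (∀ i, b i ≠ 0) ∧
      ∀ a ∈ E, a ^ 2 = c ∨ ∃ i, a ^ 2 = c * b i ∨ a ^ 2 = c * (b i)⁻¹ := by
  classical
  obtain ⟨R, hR, hR0, hRE⟩ := half_aux hc E h0 hE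
  have hle : R.card ≤ n / 2 := by omega
  refine ⟨fun i => if h : (i : ℕ) < R.card then (R.equivFin.symm ⟨i, h⟩ : ℂ) else 1, fun i => ?_, fun a ha => ?_⟩
  · dsimp only
    split_ifs with h
    · exact hR0 _ (R.equivFin.symm ⟨i, h⟩).2
    · exact one_ne_zero
  · rcases hRE a ha with h | ⟨b, hb, h⟩
    · exact Or.inl h
    · right
      refine ⟨Fin.castLE hle (R.equivFin ⟨b, hb⟩), ?_⟩
      have h1 : ((Fin.castLE hle (R.equivFin ⟨b, hb⟩) : Fin (n / 2)) : ℕ) < R.card := (R.equivFin ⟨b, hb⟩).2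
      have h2 : (if h : ((Fin.castLE hle (R.equivFin ⟨b, hb⟩) : Fin (n / 2)) : ℕ) < R.card then
          (R.equivFin.symm ⟨_, h⟩ : ℂ) else 1) = b := by
        rw [dif_pos h1]
        have h3 : (⟨((Fin.castLE hle (R.equivFin ⟨b, hb⟩) : Fin (n / 2)) : ℕ), h1⟩ : Fin R.card) =
          R.equivFin ⟨b, hb⟩ := Fin.ext rfl
        rw [h3, Equiv.symm_apply_apply]
      dsimp only
      rw [h2]
      exact h

end Pool.Agent.T2h95.GD
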