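import Pool.Agent.T2h95.GD.Norm

/-!
Lines of Fermat motives.
-/

set_option autoImplicit false

open Finset

namespace Pool.Agent.T2h95.GD

open Pool.Agent.H916R2

section

variable {d : ℕ} [NeZero d]

/-- sums of a function over the classes of a subgroup -/
noncomputable def UU (χ : (ZMod d)ˣ →* ℂˣ) (g : ZMod d → ℂ) (w : ZMod d) : (ZMod d)ˣ → ℂ :=
  fun u => ∑ κ ∈ ker χ, g (((u * κ : (ZMod d)ˣ) : ZMod d) * w)

lemma UU_zero (χ : (ZMod d)ˣ →* ℂˣ) {g : ZMod d → ℂ} (hg : g 0 = 0) : UU χ g 0 = 0 := by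
  funext u
  simp [UU, hg]

lemma UU_neg (χ : (ZMod d)ˣ →* ℂˣ) {g : ZMod d → ℂ} (hg : ∀ a, g (-a) = - g a) (w : ZMod d) :
    UU χ g (-w) = - UU χ g w := by
  funext u
  simp only [UU, mul_neg, hg, sum_neg_distrib, Pi.neg_apply]

lemma val_sum {a b : ZMod d} (hab : a + b ≠ 0) :
    (a.val + b.val < d ∧ (a + b).val = a.val + b.val) ∨
      (d < a.val + b.val ∧ a.val + b.val = (a + b).val + d) := by
  have hla := ZMod.val_lt a
  have hlb := ZMod.val_lt b
  by_cases h : a.val + b.val < d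
  · left
    exact ⟨h, ZMod.val_add_of_lt h⟩
  · right
    push Not at h
    have h2 := ZMod.val_add_val_of_le h
    refine ⟨?_, h2⟩
    have : (a + b).val ≠ 0 := fun h0 => hab ((ZMod.val_eq_zero _).mp h0)
    omega

lemma saw_sum {a b : ZMod d} (ha : a ≠ 0) (hb : b ≠ 0) (hab : a + b ≠ 0) :
    (d : ℤ) * (2 * (if a.val + b.val < d then 1 else 0) - 1) = - (saw a + saw b - saw (a + b)) := by
  unfold saw
  rw [if_neg ha, if_neg hb, if_neg hab]
  rcases val_sum hab with ⟨h1, h2⟩ | ⟨h1, h2⟩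
  · rw [if_pos h1, h2]
    push_cast; ring
  · rw [if_neg (by omega)]
    have h3 : (a.val : ℤ) + b.val = (a + b).val + d := by exact_mod_cast h2
    linear_combination 2 * h3

lemma beta_fn {Φ : ℂ → ℂ} (hΦ : Fn Φ) {a b : ZMod d} (ha : a ≠ 0) (hb : b ≠ 0) (hab : a + b ≠ 0) :
    Complex.betaIntegral ((a.val : ℂ) / d) ((b.val : ℂ) / d) ≠ 0 ∧
    Φ (Complex.betaIntegral ((a.val : ℂ) / d) ((b.val : ℂ) / d)) =
      gt Φ a + gt Φ b - gt Φ (a + b) + Φ (Real.pi : ℝ) / 2 := by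
  have hd : (0 : ℝ) < d := by exact_mod_cast NeZero.pos d
  have pa : (0 : ℝ) < a.val := by
    have : a.val ≠ 0 := fun h0 => ha ((ZMod.val_eq_zero _).mp h0)
    exact_mod_cast Nat.pos_of_ne_zero this
  have pb : (0 : ℝ) < b.val := by
    have : b.val ≠ 0 := fun h0 => hb ((ZMod.val_eq_zero _).mp h0)
    exact_mod_cast Nat.pos_of_ne_zero this
  have pab : (0 : ℝ) < (a + b).val := by
    have : (a + b).val ≠ 0 := fun h0 => hab ((ZMod.val_eq_zero _).mp h0)
    exact_mod_cast Nat.pos_of_ne_zero this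
  have ga : Complex.Gamma ((a.val : ℂ) / d) = ((Real.Gamma ((a.val : ℝ) / d) : ℝ) : ℂ) := by
    rw [← Complex.Gamma_ofReal]; push_cast; rfl
  have gb : Complex.Gamma ((b.val : ℂ) / d) = ((Real.Gamma ((b.val : ℝ) / d) : ℝ) : ℂ) := by
    rw [← Complex.Gamma_ofReal]; push_cast; rfl
  have gab : Complex.Gamma (((a + b).val : ℂ) / d) = ((Real.Gamma (((a + b).val : ℝ) / d) : ℝ) : ℂ) := by
    rw [← Complex.Gamma_ofReal]; push_cast; rfl
  have na : Complex.Gamma ((a.val : ℂ) / d) ≠ 0 := by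
    rw [ga]; exact_mod_cast (Real.Gamma_pos_of_pos (div_pos pa hd)).ne'
  have nb : Complex.Gamma ((b.val : ℂ) / d) ≠ 0 := by
    rw [gb]; exact_mod_cast (Real.Gamma_pos_of_pos (div_pos pb hd)).ne'
  have nab : Complex.Gamma (((a + b).val : ℂ) / d) ≠ 0 := by
    rw [gab]; exact_mod_cast (Real.Gamma_pos_of_pos (div_pos pab hd)).ne'
  have re1 : ∀ x : ZMod d, ((x.val : ℂ) / d).re = (x.val : ℝ) / d := fun x => by
    have : ((x.val : ℂ) / d) = (((x.val : ℝ) / d : ℝ) : ℂ) := by push_cast; rfl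
    rw [this, Complex.ofReal_re]
  have hmul := Complex.Gamma_mul_Gamma_eq_betaIntegral (s := (a.val : ℂ) / d) (t := (b.val : ℂ) / d)
    (by rw [re1]; exact div_pos pa hd) (by rw [re1]; exact div_pos pb hd)
  have hne : Complex.betaIntegral ((a.val : ℂ) / d) ((b.val : ℂ) / d) ≠ 0 := by
    intro h0
    rw [h0, mul_zero] at hmul
    exact mul_ne_zero na nb hmul
  refine ⟨hne, ?_⟩
  have hdc : (d : ℂ) ≠ 0 := by exact_mod_cast hd.ne'
  have hsum : Complex.Gamma ((a.val : ℂ) / d + (b.val : ℂ) / d) ≠ 0 ∧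
      Φ (Complex.Gamma ((a.val : ℂ) / d + (b.val : ℂ) / d)) = Φ (Complex.Gamma (((a + b).val : ℂ) / d)) := by
    rcases val_sum hab with ⟨h1, h2⟩ | ⟨h1, h2⟩
    · have : (a.val : ℂ) / d + (b.val : ℂ) / d = ((a + b).val : ℂ) / d := by
        rw [h2]; push_cast; ring
      rw [this]
      exact ⟨nab, rfl⟩
    · have h3 : (a.val : ℂ) + b.val = (a + b).val + d := by exact_mod_cast h2
      have : (a.val : ℂ) / d + (b.val : ℂ) / d = ((a + b).val : ℂ) / d + 1 := by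
        field_simp
        exact h3
      have hz : (((a + b).val : ℂ) / d) ≠ 0 := by
        have : ((a + b).val : ℂ) ≠ 0 := by exact_mod_cast pab.ne'
        exact div_ne_zero this hdc
      rw [this, Complex.Gamma_add_one _ hz]
      refine ⟨mul_ne_zero hz nab, ?_⟩
      rw [hΦ.mul _ _ hz nab, hΦ.alg _ ?_, zero_add]
      have : (((a + b).val : ℂ) / d) = ((((a + b).val : ℚ) / d : ℚ) : ℂ) := by push_cast; rfl
      rw [this]
      exact rat_mem _
  have h4 := congrArg Φ hmul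
  rw [hΦ.mul _ _ na nb, hΦ.mul _ _ hsum.1 hne, hsum.2, ga, gb, gab] at h4
  unfold gt
  rw [if_neg ha, if_neg hb, if_neg hab]
  linear_combination -h4

variable {K : Type} [Field K] [NumberField K] [IsCyclotomicExtension {d} ℚ K]
  {ζ : K} {t : (ZMod d)ˣ → K →+* ℂ} {𝒞 : HdR → Prop}

theorem fermat_one (ht : IsEmb ζ t) (hK : Kuenneth 𝒞) (hC : ContainsFermat 𝒞) {Φ : ℂ → ℂ} (hΦ : Fn Φ)
    {E : Type} [Field E] [NumberField E] (i : E →+* K) (χ : (ZMod d)ˣ →* ℂˣ)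
    (hi : ∀ u, (∀ x, gal d K u (i x) = i x) ↔ χ u = 1) {a b : ZMod d} (ha : a ≠ 0) (hb : b ≠ 0)
    (hab : a + b ≠ 0) :
    NP 𝒞 t Φ i (fun u => - (UU χ (fun x => (saw x : ℂ)) a u + UU χ (fun x => (saw x : ℂ)) b u -
      UU χ (fun x => (saw x : ℂ)) (a + b) u))
      (fun u => UU χ (gt Φ) a u + UU χ (gt Φ) b u - UU χ (gt Φ) (a + b) u) := by
  obtain ⟨M, hM, hm, T, p, hp, hT⟩ := hC d K ζ t ht a b ha hb hab
  obtain ⟨f, P, hf, -, hper⟩ := toLine T p hp
  have hR : Rl 𝒞 K 1 P p := ⟨M, hM, hm, f, hf⟩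
  obtain ⟨P', p', hR', hPp⟩ := norm_line ht hK (RingHom.id K) i χ (by simpa using hi) hR
  refine ⟨_, P', p', hR', fun u => ?_⟩
  have h1 := hPp u
  rw [RingHom.id_comp] at h1
  simp only [RingHom.comp_id] at h1
  have hu0 : ∀ (v : (ZMod d)ˣ) (x : ZMod d), x ≠ 0 → (v : ZMod d) * x ≠ 0 := fun v x hx h0 => hx (by
    simpa using congrArg (fun y => ((v⁻¹ : (ZMod d)ˣ) : ZMod d) * y) h0)
  rw [h1.1, h1.2]
  have hv : ∀ v : (ZMod d)ˣ, (d : ℂ) * (2 * (p (t v) : ℂ) - 1) = - ((saw ((v : ZMod d) * a) : ℂ) +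
      (saw ((v : ZMod d) * b) : ℂ) - (saw ((v : ZMod d) * (a + b)) : ℂ)) ∧
      Φ (P (t v)) - 1 / 2 * Φ (Real.pi : ℝ) = gt Φ ((v : ZMod d) * a) + gt Φ ((v : ZMod d) * b) -
        gt Φ ((v : ZMod d) * (a + b)) := by
    intro v
    obtain ⟨h2, h3⟩ := hT v
    rw [hper] at h3
    obtain ⟨w, hw, hw0, h4⟩ := h3
    have ha' := hu0 v a ha
    have hb' := hu0 v b hb
    have hab' : (v : ZMod d) * a + (v : ZMod d) * b ≠ 0 := by
      rw [← mul_add]; exact hu0 v _ hab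
    obtain ⟨h5, h6⟩ := beta_fn hΦ ha' hb' hab'
    refine ⟨?_, ?_⟩
    · rw [h2, mul_add]
      have := saw_sum ha' hb' hab'
      exact_mod_cast this
    · rw [h4, hΦ.mul _ _ hw0 h5, h6, hΦ.alg _ hw, mul_add]
      ring
  refine ⟨?_, ?_⟩
  · have : (d : ℂ) * ((2 * (∑ κ ∈ ker χ, p (t (u * κ))) - (((ker χ).card * 1 : ℕ) : ℤ) : ℤ) : ℂ) =
        ∑ κ ∈ ker χ, (d : ℂ) * (2 * (p (t (u * κ)) : ℂ) - 1) := by
      rw [← mul_sum, sum_sub_distrib, ← mul_sum]
      push_cast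
      simp
    rw [this]
    simp only [UU]
    rw [← sum_add_distrib, ← sum_sub_distrib, ← sum_neg_distrib]
    exact sum_congr rfl fun κ _ => (hv (u * κ)).1
  · rw [hΦ.prod _ _ fun κ _ => hf.ne _]
    have : ∑ κ ∈ ker χ, Φ (P (t (u * κ))) - (((ker χ).card * 1 : ℕ) : ℂ) / 2 * Φ (Real.pi : ℝ) =
        ∑ κ ∈ ker χ, (Φ (P (t (u * κ))) - 1 / 2 * Φ (Real.pi : ℝ)) := by
      rw [sum_sub_distrib, sum_const, nsmul_eq_mul]
      push_cast; ring
    rw [this]
    simp only [UU]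
    rw [← sum_add_distrib, ← sum_sub_distrib]
    exact sum_congr rfl fun κ _ => (hv (u * κ)).2

theorem fermat_all (ht : IsEmb ζ t) (hK : Kuenneth 𝒞) (hC : ContainsFermat 𝒞) {Φ : ℂ → ℂ} (hΦ : Fn Φ)
    {E : Type} [Field E] [NumberField E] (i : E →+* K) (χ : (ZMod d)ˣ →* ℂˣ)
    (hi : ∀ u, (∀ x, gal d K u (i x) = i x) ↔ χ u = 1) (b : ZMod d) :
    NA 𝒞 t Φ i (-(d : ℂ) • UU χ (fun x => (saw x : ℂ)) b) ((d : ℂ) • UU χ (gt Φ) b) := by
  set S : ZMod d → (ZMod d)ˣ → ℂ := UU χ (fun x => (saw x : ℂ)) with hS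
  set G : ZMod d → (ZMod d)ˣ → ℂ := UU χ (gt Φ) with hG
  have hs0 : S 0 = 0 := UU_zero χ (by simp [saw_zero])
  have hg0 : G 0 = 0 := UU_zero χ gt_zero
  have hsn : ∀ w, S (-w) = - S w := UU_neg χ fun a => by rw [saw_neg]; push_cast; rfl
  have hgn : ∀ w, G (-w) = - G w := UU_neg χ (gt_neg hΦ)
  have h1 : ∀ j ∈ range d, NA 𝒞 t Φ i (-(S (j * b) + S b - S ((j + 1) * b))) (G (j * b) + G b - G ((j + 1) * b)) := by
    intro j _
    by_cases h0 : (j : ZMod d) * b = 0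
    · have : ((j : ZMod d) + 1) * b = b := by rw [add_mul, h0, one_mul, zero_add]
      rw [this, h0, hs0, hg0]
      simpa using NA.zero
    by_cases h2 : ((j : ZMod d) + 1) * b = 0
    · have h3 : (j : ZMod d) * b = -b := by
        rw [add_mul, one_mul] at h2
        exact eq_neg_of_add_eq_zero_left h2
      rw [h2, h3, hs0, hg0, hsn, hgn]
      simpa using NA.zero
    have hb : b ≠ 0 := by rintro rfl; exact h0 (mul_zero _)
    have h3 : (j : ZMod d) * b + b ≠ 0 := by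
      intro h; apply h2; rw [add_mul, one_mul]; exact h
    have h4 := fermat_one ht hK hC hΦ i χ hi h0 hb h3
    have h5 : (j : ZMod d) * b + b = ((j : ZMod d) + 1) * b := by ring
    rw [h5] at h4
    exact NA.of hK hΦ h4
  have h2 := NA.sum (range d) _ _ h1
  have tel : ∀ H : ZMod d → (ZMod d)ˣ → ℂ, ∑ j ∈ range d, (H (j * b) + H b - H (((j : ZMod d) + 1) * b)) = (d : ℂ) • H b := by
    intro H
    have h3 : ∑ j ∈ range d, (H (((j : ZMod d) + 1) * b) - H (j * b)) = 0 := by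
      have := sum_range_sub (fun j : ℕ => H ((j : ZMod d) * b)) d
      push_cast at this
      rw [this]
      simp
    have h4 : ∑ j ∈ range d, (H (j * b) + H b - H (((j : ZMod d) + 1) * b)) =
        ∑ j ∈ range d, H b - ∑ j ∈ range d, (H (((j : ZMod d) + 1) * b) - H (j * b)) := by
      rw [← sum_sub_distrib]
      exact sum_congr rfl fun j _ => by ring
    rw [h4, h3, sub_zero, sum_const, card_range]
    funext u
    simp
  rw [sum_neg_distrib, tel, tel] at h2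
  rw [neg_smul]
  exact h2

end

end Pool.Agent.T2h95.GD
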