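import Pool.Agent.T2h95.GD.Main

/-!
The Gross-Deligne conjecture for an abelian field, and Hodge classes over the cyclic subfields.
-/

set_option autoImplicit false

open Finset
open scoped TensorProduct

namespace Pool.Agent.T2h95.GD

open Pool.Agent.H916R2

section

variable {d : ℕ} [NeZero d]

lemma gam_pos (ε : ZMod d → ℚ) (u : (ZMod d)ˣ) : 0 < gam d ε u := by
  refine Finset.prod_pos fun a _ => Real.rpow_pos_of_pos (Real.Gamma_pos_of_pos ?_) _
  have hd : (0 : ℝ) < d := by exact_mod_cast NeZero.pos d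
  have : (a.val : ℝ) < d := by exact_mod_cast ZMod.val_lt a
  rw [sub_pos, div_lt_one hd]
  exact this

lemma fn_gam {Φ : ℂ → ℂ} (hΦ : Fn Φ) (ε : ZMod d → ℚ) (u : (ZMod d)ˣ) :
    Φ (gam d ε u : ℂ) = ((∑ a ∈ univ.erase (0 : ZMod d), ε a : ℚ) : ℂ) / 2 * Φ (Real.pi : ℝ) -
      ∑ a, (ε a : ℂ) * gt Φ ((u : ZMod d) * a) := by
  have hd : (0 : ℝ) < d := by exact_mod_cast NeZero.pos d
  have hpos : ∀ a : ZMod d, 0 < 1 - (a.val : ℝ) / d := fun a => by
    have : (a.val : ℝ) < d := by exact_mod_cast ZMod.val_lt a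
    rw [sub_pos, div_lt_one hd]
    exact this
  unfold gam
  rw [Complex.ofReal_prod, hΦ.prod _ _ fun a _ => by
    exact_mod_cast (Real.rpow_pos_of_pos (Real.Gamma_pos_of_pos (hpos a)) _).ne']
  have h1 : ∀ a ∈ univ.erase (0 : ZMod d),
      Φ ((Real.Gamma (1 - (a.val : ℝ) / d) ^ ((ε (a * (u⁻¹ : (ZMod d)ˣ)) : ℚ) : ℝ) : ℝ) : ℂ) =
      (ε (a * (u⁻¹ : (ZMod d)ˣ)) : ℂ) * (Φ (Real.pi : ℝ) / 2 - gt Φ a) := by
    intro a ha
    have ha0 : a ≠ 0 := ne_of_mem_erase ha
    rw [hΦ.rpow _ (Real.Gamma_pos_of_pos (hpos a))]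
    congr 1
    have h2 := gt_neg hΦ a
    have h3 : gt Φ (-a) = Φ (Real.Gamma (((-a).val : ℝ) / d) : ℝ) - Φ (Real.pi : ℝ) / 2 := by
      unfold gt
      rw [if_neg (neg_ne_zero.mpr ha0)]
    have : NeZero a := ⟨ha0⟩
    have h4 : ((-a).val : ℝ) / d = 1 - (a.val : ℝ) / d := by
      rw [ZMod.val_neg_of_ne_zero, Nat.cast_sub (ZMod.val_lt a).le]
      field_simp
    rw [h4] at h3
    linear_combination -h3 + h2
  rw [sum_congr rfl h1]
  have h5 : ∑ a ∈ univ.erase (0 : ZMod d), (ε (a * (u⁻¹ : (ZMod d)ˣ)) : ℂ) * (Φ (Real.pi : ℝ) / 2 - gt Φ a) =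
      ∑ a ∈ univ.erase (0 : ZMod d), (ε a : ℂ) * (Φ (Real.pi : ℝ) / 2 - gt Φ ((u : ZMod d) * a)) := by
    symm
    refine Finset.sum_equiv (Units.mulLeft u) (fun a => ?_) (fun a _ => ?_)
    · simp
    · have : (u : ZMod d) * a * ((u⁻¹ : (ZMod d)ˣ) : ZMod d) = a := by
        rw [mul_comm (u : ZMod d) a, mul_assoc, Units.mul_inv, mul_one]
      rw [Units.mulLeft_apply]
      simp only [this]
  rw [h5]
  have h6 : ∑ a, (ε a : ℂ) * gt Φ ((u : ZMod d) * a) =
      ∑ a ∈ univ.erase (0 : ZMod d), (ε a : ℂ) * gt Φ ((u : ZMod d) * a) := by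
    rw [← Finset.add_sum_erase _ _ (mem_univ (0 : ZMod d)), mul_zero, gt_zero, mul_zero, zero_add]
  rw [h6]
  push_cast
  rw [sum_div, sum_mul, ← sum_sub_distrib]
  exact sum_congr rfl fun a _ => by ring

lemma fourier {f : (ZMod d)ˣ → ℂ} (h : ∀ χ : DirichletCharacter ℂ d, ∑ u : (ZMod d)ˣ, χ u * f u = 0)
    (v : (ZMod d)ˣ) : f v = 0 := by
  have h1 : ∑ χ : DirichletCharacter ℂ d, χ ((v : ZMod d)⁻¹) * ∑ u : (ZMod d)ˣ, χ u * f u = 0 := by
    simp [h]
  have h2 : ∑ χ : DirichletCharacter ℂ d, χ ((v : ZMod d)⁻¹) * ∑ u : (ZMod d)ˣ, χ u * f u =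
      ∑ u : (ZMod d)ˣ, (∑ χ : DirichletCharacter ℂ d, χ ((v : ZMod d)⁻¹) * χ u) * f u := by
    simp only [mul_sum, sum_mul]
    rw [sum_comm]
    exact sum_congr rfl fun u _ => sum_congr rfl fun χ _ => by ring
  have h3 : ∀ u : (ZMod d)ˣ, (∑ χ : DirichletCharacter ℂ d, χ ((v : ZMod d)⁻¹) * χ u) =
      if v = u then (d.totient : ℂ) else 0 := by
    intro u
    rw [DirichletCharacter.sum_char_inv_mul_char_eq ℂ v.isUnit (u : ZMod d)]
    simp only [Units.val_inj]
  rw [h2] at h1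
  simp only [h3, ite_mul, zero_mul, sum_ite_eq, mem_univ, if_true] at h1
  have h4 : (d.totient : ℂ) ≠ 0 := by
    exact_mod_cast (Nat.totient_pos.mpr (NeZero.pos d)).ne'
  exact (mul_eq_zero.mp h1).resolve_left h4

end

section

variable {d : ℕ} [NeZero d] {K : Type} [Field K] [NumberField K] [IsCyclotomicExtension {d} ℚ K]
  {ζ : K} {t : (ZMod d)ˣ → K →+* ℂ} {𝒞 : HdR → Prop}

lemma cyclic_of_char {E : Type} [Field E] [NumberField E] (i : E →+* K) (χ : (ZMod d)ˣ →* ℂˣ)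
    (hi : ∀ u, (∀ x, gal d K u (i x) = i x) ↔ χ u = 1) : IsCyclic (E ≃ₐ[ℚ] E) := by
  obtain ⟨τ, hτs, hτ⟩ := exists_tau (d := d) i
  have hker : ∀ u, χ u = 1 → τ u = 1 := by
    intro u hu
    ext x
    apply i.injective
    rw [hτ, (hi u).mpr hu x]
    rfl
  have hfin : Finite χ.range := Set.finite_range χ
  have hcyc : IsCyclic χ.range := isCyclic_subgroup_units χ.range
  obtain ⟨⟨g, hg⟩, hgen⟩ := hcyc.exists_generator
  obtain ⟨u0, rfl⟩ := hg
  refine ⟨τ u0, fun σ => ?_⟩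
  obtain ⟨u, rfl⟩ := hτs σ
  obtain ⟨n, hn⟩ := hgen ⟨χ u, u, rfl⟩
  have h1 : χ u0 ^ n = χ u := congrArg Subtype.val hn
  refine ⟨n, ?_⟩
  have h2 : τ (u0 ^ n * u⁻¹) = 1 := hker _ (by rw [map_mul, map_zpow, map_inv, h1, mul_inv_cancel])
  rw [map_mul, map_inv, map_zpow, mul_inv_eq_one] at h2
  exact h2

lemma complex_of_char (ht : IsEmb ζ t) {E : Type} [Field E] [NumberField E] (i : E →+* K) (χ : (ZMod d)ˣ →* ℂˣ)
    (hi : ∀ u, (∀ x, gal d K u (i x) = i x) ↔ χ u = 1) (h1 : χ (-1) ≠ 1) : NumberField.IsTotallyComplex E := by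
  refine ⟨fun v => ?_⟩
  rw [NumberField.InfinitePlace.isComplex_iff]
  intro hreal
  obtain ⟨u, hu⟩ := ext_emb ht i v.embedding
  have h2 : (t (-u)).comp i = (t u).comp i := by
    rw [← hu, ← cj_t ht]
    rw [NumberField.ComplexEmbedding.isReal_iff] at hreal
    rw [← hreal, hu]
    rfl
  have h3 := agree ht i h2
  rw [hi, inv_neg, neg_mul, inv_mul_cancel] at h3
  exact h1 h3

theorem gd_of_hodge (hK : Kuenneth 𝒞) (hC : ContainsFermat 𝒞) {F : Type} [Field F] [NumberField F]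
    (h : ∀ (E : Type) [Field E] [NumberField E], Nonempty (E →+* F) → IsCyclic (E ≃ₐ[ℚ] E) →
      NumberField.IsTotallyComplex E → HodgeClassesDeRham 𝒞 E) : GrossDeligne 𝒞 F := by
  intro M hM T p hp d _ _ K _ _ _ e ζ t ht ε hε u
  obtain ⟨f, P, hf, -, hper⟩ := toLine T p hp
  rw [hper]
  have hR : Rl 𝒞 F M.m P p := ⟨M, hM, rfl, f, hf⟩
  obtain ⟨hm, hε'⟩ := sum_eps hR ht e hε
  have hpi : (Real.pi : ℂ) ≠ 0 := by exact_mod_cast Real.pi_ne_zero
  refine alg_of_fn (hf.ne _) (by exact_mod_cast (gam_pos ε u).ne') fun Φ hΦ => ?_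
  have key : ff t e M.m P ε Φ u = 0 := by
    refine fourier (f := ff t e M.m P ε Φ) (fun χ => ?_) u
    rcases χ.even_or_odd with hev | hodd
    · -- even characters
      have hneg : ∀ v, ff t e M.m P ε Φ (-v) = - ff t e M.m P ε Φ v := by
        intro v
        obtain ⟨w, hw, hw0, h2⟩ := (hR.pol ((t v).comp e)).2
        have h5 : cj ((t v).comp e) = (t (-v)).comp e := by
          rw [← cj_t ht]; rfl
        rw [h5] at h2
        have h3 := congrArg Φ h2
        rw [hΦ.mul _ _ (hf.ne _) (hf.ne _), hΦ.mul _ _ hw0 (pow_ne_zero _ hpi), hΦ.alg _ hw,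
          hΦ.pow _ hpi] at h3
        have h4 : ∑ a, (ε a : ℂ) * gt Φ (((-v : (ZMod d)ˣ) : ZMod d) * a) =
            - ∑ a, (ε a : ℂ) * gt Φ ((v : ZMod d) * a) := by
          rw [← sum_neg_distrib]
          refine sum_congr rfl fun a _ => ?_
          rw [Units.val_neg, neg_mul, gt_neg hΦ]
          ring
        unfold ff
        rw [h4]
        linear_combination h3
      have h2 : ∑ v : (ZMod d)ˣ, χ v * ff t e M.m P ε Φ v = - ∑ v : (ZMod d)ˣ, χ v * ff t e M.m P ε Φ v := by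
        conv_lhs => rw [← Equiv.sum_comp (Equiv.neg (ZMod d)ˣ)]
        rw [← sum_neg_distrib]
        refine sum_congr rfl fun v _ => ?_
        rw [Equiv.neg_apply, hneg, Units.val_neg, hev.eval_neg]
        ring
      exact self_eq_neg.mp h2
    · by_cases htriv : ∀ v, (∀ x, gal d K v (e x) = e x) → χ v = 1
      · -- odd characters of `F`
        set ψ : (ZMod d)ˣ →* ℂˣ := χ.toUnitHom with hψ
        have hψχ : ∀ v, ((ψ v : ℂˣ) : ℂ) = χ v := fun v => MulChar.coe_toUnitHom χ v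
        obtain ⟨E, _, _, i, hi⟩ := exists_field e ψ fun v hv => by
          apply Units.ext
          rw [hψχ, htriv v hv]; rfl
        have hi' : ∀ v, (∀ x, gal d K v ((e.comp i) x) = (e.comp i) x) ↔ ψ v = 1 := hi
        have hcyc := cyclic_of_char (e.comp i) ψ hi'
        have hne : ψ (-1) ≠ 1 := by
          intro h1
          have h2 : χ (-1 : ZMod d) = 1 := by
            have := hψχ (-1)
            rw [h1] at this
            simpa using this.symm
          have h3 : χ (-1 : ZMod d) = -1 := hodd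
          rw [h2] at h3
          norm_num at h3
        have hcx := complex_of_char ht (e.comp i) ψ hi' hne
        have hE : Triv 𝒞 E := triv_of_hodge (h E ⟨i⟩ hcyc hcx)
        have hsum := odd_trivial ht hK hC hΦ e hR hε i ψ hi hE
        have h2 : ∑ κ ∈ ker ψ, ∑ v : (ZMod d)ˣ, χ ((v * κ : (ZMod d)ˣ) : ZMod d) * ff t e M.m P ε Φ (v * κ) =
            (ker ψ).card * ∑ v : (ZMod d)ˣ, χ v * ff t e M.m P ε Φ v := by
          have h3 : ∀ κ ∈ ker ψ, ∑ v : (ZMod d)ˣ, χ ((v * κ : (ZMod d)ˣ) : ZMod d) * ff t e M.m P ε Φ (v * κ) =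
              ∑ v : (ZMod d)ˣ, χ v * ff t e M.m P ε Φ v := fun κ _ =>
            Equiv.sum_comp (Equiv.mulRight κ) (fun v : (ZMod d)ˣ => χ v * ff t e M.m P ε Φ v)
          rw [sum_congr rfl h3, sum_const, nsmul_eq_mul]
        have h4 : ∑ κ ∈ ker ψ, ∑ v : (ZMod d)ˣ, χ ((v * κ : (ZMod d)ˣ) : ZMod d) * ff t e M.m P ε Φ (v * κ) = 0 := by
          rw [sum_comm]
          refine sum_eq_zero fun v _ => ?_
          have h5 : ∀ κ ∈ ker ψ, χ ((v * κ : (ZMod d)ˣ) : ZMod d) * ff t e M.m P ε Φ (v * κ) =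
              χ v * ff t e M.m P ε Φ (v * κ) := by
            intro κ hκ
            rw [Units.val_mul, map_mul, ← hψχ κ, mem_ker.mp hκ, Units.val_one, mul_one]
          rw [sum_congr rfl h5, ← mul_sum, hsum, mul_zero]
        rw [h4] at h2
        have h6 : ((ker ψ).card : ℂ) ≠ 0 := by
          have : 0 < (ker ψ).card := Finset.card_pos.mpr ⟨1, mem_ker.mpr (map_one ψ)⟩
          exact_mod_cast this.ne'
        exact (mul_eq_zero.mp h2.symm).resolve_left h6
      · -- the other odd characters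
        push Not at htriv
        obtain ⟨v, hv, hχv⟩ := htriv
        have hcomp : ∀ w, (t (w * v)).comp e = (t w).comp e := by
          intro w
          ext x
          change t (w * v) (e x) = t w (e x)
          rw [← t_gal ht, hv]
        have hz : ∀ g : (F →+* ℂ) → ℂ, ∑ w : (ZMod d)ˣ, χ w * g ((t w).comp e) = 0 := by
          intro g
          have h1 : ∑ w : (ZMod d)ˣ, χ w * g ((t w).comp e) =
              χ v * ∑ w : (ZMod d)ˣ, χ w * g ((t w).comp e) := by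
            conv_lhs => rw [← Equiv.sum_comp (Equiv.mulRight v)]
            rw [mul_sum]
            refine sum_congr rfl fun w _ => ?_
            rw [Equiv.coe_mulRight, hcomp, Units.val_mul, map_mul]
            ring
          have h2 : (χ v - 1) * ∑ w : (ZMod d)ˣ, χ w * g ((t w).comp e) = 0 := by
            linear_combination -h1
          exact (mul_eq_zero.mp h2).resolve_left (sub_ne_zero.mpr hχv)
        have h1 := hz fun σ => (d : ℂ) * ((2 * p σ - M.m : ℤ) : ℂ)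
        simp only [hε'] at h1
        have h2 := koblitz_ogus hΦ χ hodd (fun a => (ε a : ℂ)) h1
        have h3 := hz fun σ => Φ (P σ) - (M.m : ℂ) / 2 * Φ (Real.pi : ℝ)
        simp only [ff, mul_add, sum_add_distrib]
        rw [h3, h2, add_zero]
  rw [fn_gam hΦ, hm]
  unfold ff at key
  push_cast
  linear_combination key

end

/-- the cyclotomic field of level `d` and its embeddings -/
lemma exists_cyc {E : Type} [Field E] {d : ℕ} [NeZero d] (s : E →+* ℂ)
    (hs : ∀ x, s x ∈ IntermediateField.adjoin ℚ {Complex.exp (2 * Real.pi * Complex.I / d)}) :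
    ∃ (K : Type) (_ : Field K) (_ : NumberField K) (_ : IsCyclotomicExtension {d} ℚ K) (_ : E →+* K) (ζ : K)
      (t : (ZMod d)ˣ → K →+* ℂ), IsEmb ζ t := by
  have hprim := Complex.isPrimitiveRoot_exp d (NeZero.ne d)
  have hcyc : IsCyclotomicExtension {d} ℚ
      (IntermediateField.adjoin ℚ {Complex.exp (2 * Real.pi * Complex.I / d)}) := by
    have h2 : IsIntegral ℚ (Complex.exp (2 * Real.pi * Complex.I / d)) := hprim.isIntegral (NeZero.pos d) |>.tower_top
    change IsCyclotomicExtension {d} ℚ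
      (IntermediateField.adjoin ℚ {Complex.exp (2 * Real.pi * Complex.I / d)}).toSubalgebra
    rw [IntermediateField.adjoin_simple_toSubalgebra_of_isAlgebraic h2.isAlgebraic]
    exact hprim.adjoin_isCyclotomicExtension ℚ
  have hnf : NumberField (IntermediateField.adjoin ℚ {Complex.exp (2 * Real.pi * Complex.I / d)}) :=
    IsCyclotomicExtension.numberField {d} ℚ _
  set K := IntermediateField.adjoin ℚ {Complex.exp (2 * Real.pi * Complex.I / d)} with hKdef
  let ζ : K := ⟨Complex.exp (2 * Real.pi * Complex.I / d), IntermediateField.mem_adjoin_simple_self ℚ _⟩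
  have hζ : IsPrimitiveRoot ζ d := IsPrimitiveRoot.of_map_of_injective (f := K.val) hprim K.val.injective
  refine ⟨K, inferInstance, hnf, hcyc, s.codRestrict K.toSubfield.toSubring hs, ζ,
    fun u => (K.val : K →+* ℂ).comp ((gal d K u : K →ₐ[ℚ] K) : K →+* K), hζ, fun u => ?_⟩
  change K.val (gal d K u ζ) = _
  rw [gal_apply hζ, map_pow]
  change Complex.exp (2 * Real.pi * Complex.I / d) ^ (u : ZMod d).val = _
  rw [← Complex.exp_nat_mul]
  congr 1
  ring

theorem hodge_of_gd {𝒞 : HdR → Prop} {E : Type} [Field E] [NumberField E] (hE : NumberField.IsTotallyComplex E)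
    {n : ℕ} (hn : 0 < n) {s : E →+* ℂ}
    (hs : ∀ x, s x ∈ IntermediateField.adjoin ℚ {Complex.exp (2 * Real.pi * Complex.I / n)})
    (h : GrossDeligne 𝒞 E) : HodgeClassesDeRham 𝒞 E := by
  classical
  obtain ⟨d, hd⟩ : ∃ d, IsConductor E d := by
    have hex : ∃ n : ℕ, n ∈ {n : ℕ | 0 < n ∧ ∃ s : E →+* ℂ, ∀ x, s x ∈
      IntermediateField.adjoin ℚ {Complex.exp (2 * Real.pi * Complex.I / n)}} := ⟨n, hn, s, hs⟩
    exact ⟨Nat.find hex, Nat.find_spec hex, fun m hm => Nat.find_min' hex hm⟩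
  obtain ⟨hd0, s', hs'⟩ := hd.1
  have : NeZero d := ⟨hd0.ne'⟩
  obtain ⟨K, _, _, _, e, ζ, t, ht⟩ := exists_cyc s' hs'
  have hne : (1 : ZMod d) ≠ 0 := by
    intro h0
    have h1 : (-1 : (ZMod d)ˣ) = 1 := by
      apply Units.ext
      rw [Units.val_neg, Units.val_one, h0, neg_zero]
    have hcx := hE.isComplex (NumberField.InfinitePlace.mk ((t 1).comp e))
    rw [NumberField.InfinitePlace.isComplex_mk_iff] at hcx
    apply hcx
    rw [NumberField.ComplexEmbedding.isReal_iff]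
    have h2 : cj ((t 1).comp e) = (t (-1)).comp e := by
      rw [← cj_t ht]; rfl
    rw [h1] at h2
    exact h2
  intro M hM T k hm hp
  obtain ⟨f, P, hf, hsurj, hper⟩ := toLine T _ hp
  have hpi : (Real.pi : ℂ) ≠ 0 := by exact_mod_cast Real.pi_ne_zero
  let ε : ZMod d → ℚ := Pi.single 1 (k : ℚ) + Pi.single (-1) (k : ℚ)
  have hsumQ : ∀ g : ZMod d → ℚ, ∑ a, ε a * g a = k * g 1 + k * g (-1) := by
    intro g
    simp only [ε, Pi.add_apply, add_mul, sum_add_distrib, Pi.single_apply, ite_mul, zero_mul, sum_ite_eq', mem_univ,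
      if_true]
  have hsumC : ∀ g : ZMod d → ℂ, ∑ a, (ε a : ℂ) * g a = k * g 1 + k * g (-1) := by
    intro g
    have h1 : ∀ a, (ε a : ℂ) = (if a = 1 then (k : ℂ) else 0) + (if a = -1 then (k : ℂ) else 0) := by
      intro a
      simp only [ε, Pi.add_apply, Pi.single_apply]
      split_ifs <;> simp
    simp only [h1, add_mul, sum_add_distrib, ite_mul, zero_mul, sum_ite_eq', mem_univ, if_true]
  have hε : ∀ u : (ZMod d)ˣ, (d : ℚ) * ((fun _ => (k : ℤ)) ((t u).comp e) : ℤ) = ∑ a, ε a * (((u : ZMod d) * a).val : ℚ) := by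
    intro u
    rw [hsumQ (fun a => (((u : ZMod d) * a).val : ℚ))]
    have hu0 : (u : ZMod d) ≠ 0 := by
      intro h0
      have := u.mul_inv
      rw [h0, zero_mul] at this
      exact hne this.symm
    have : NeZero (u : ZMod d) := ⟨hu0⟩
    rw [mul_one, mul_neg_one, ZMod.val_neg_of_ne_zero, Nat.cast_sub (ZMod.val_lt _).le]
    push_cast
    ring
  have hgd := h M hM T _ hp d hd K e ζ t ht ε hε
  have hR : Rl 𝒞 E M.m P (fun _ => (k : ℤ)) := ⟨M, hM, rfl, f, hf⟩
  obtain ⟨hm', -⟩ := sum_eps hR ht e hε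
  have hPk : ∀ σ, ∃ u ∈ Qb, u ≠ 0 ∧ P σ = u * (Real.pi : ℂ) ^ k := by
    intro σ
    obtain ⟨u, rfl⟩ := ext_emb ht e σ
    have h1 := hgd u
    rw [hper] at h1
    obtain ⟨w, hw, hw0, hPw⟩ := h1
    refine alg_of_fn (hf.ne _) (pow_ne_zero _ hpi) fun Φ hΦ => ?_
    have hg0 : ((gam d ε u : ℝ) : ℂ) ≠ 0 := by exact_mod_cast (gam_pos ε u).ne'
    rw [hPw, hΦ.mul _ _ hw0 hg0, hΦ.alg _ hw, fn_gam hΦ, hm', hsumC, hΦ.pow _ hpi, hm]
    rw [mul_one, mul_neg_one, gt_neg hΦ]
    push_cast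
    ring
  intro x hx
  obtain ⟨a, rfl⟩ := hsurj x hx
  exact hodge_of_period hf hPk a

end Pool.Agent.T2h95.GD
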