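import Pool.Agent.T2h95.GD.RankT

/-!
The conjecture for a triple in terms of functions, and relations.
-/

set_option autoImplicit false

open Finset
open scoped TensorProduct

namespace Pool.Agent.T2h95.GD

open Pool.Agent.H916R2

section eps

variable {d : ℕ} [NeZero d]

/-- odd rational functions are combinations of sawtooth functions -/
lemma exists_saw (f : (ZMod d)ˣ → ℚ) (hf : ∀ u, f (-u) = - f u) :
    ∃ ε : ZMod d → ℚ, ∀ u, f u = ∑ a, ε a * (saw ((u : ZMod d) * a) : ℚ) := by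
  classical
  by_contra hcon
  have h1 : f ∉ Submodule.span ℚ (Set.range fun a : ZMod d => fun u : (ZMod d)ˣ => (saw ((u : ZMod d) * a) : ℚ)) := by
    intro h
    rw [Submodule.mem_span_range_iff_exists_fun] at h
    obtain ⟨c, hc⟩ := h
    refine hcon ⟨c, fun u => ?_⟩
    rw [← hc, Finset.sum_apply]
    rfl
  obtain ⟨φ, hφf, hle⟩ := Submodule.exists_le_ker_of_notMem h1
  set b : (ZMod d)ˣ → ℚ := fun u => φ (Pi.single u 1) with hb
  have hφ : ∀ h : (ZMod d)ˣ → ℚ, φ h = ∑ u, h u * b u := by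
    intro h
    conv_lhs => rw [← Finset.univ_sum_single h]
    rw [map_sum]
    refine Finset.sum_congr rfl fun u _ => ?_
    have : Pi.single u (h u) = h u • (Pi.single u 1 : (ZMod d)ˣ → ℚ) := by
      ext v
      rw [Pi.smul_apply]
      by_cases hv : v = u
      · subst hv; simp
      · rw [Pi.single_eq_of_ne hv, Pi.single_eq_of_ne hv, smul_zero]
    rw [this, map_smul, smul_eq_mul]
  have hs : ∀ a : ZMod d, ∑ u : (ZMod d)ˣ, (saw ((u : ZMod d) * a) : ℚ) * b u = 0 := by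
    intro a
    rw [← hφ]
    exact hle (Submodule.subset_span ⟨a, rfl⟩)
  have hodd : ∀ χ : DirichletCharacter ℂ d, χ.Odd → ∑ u : (ZMod d)ˣ, χ u * (b u : ℂ) = 0 := by
    intro χ hχ
    have hχ' : (χ⁻¹).Odd := by
      unfold DirichletCharacter.Odd at hχ ⊢
      rw [MulChar.inv_apply_eq_inv', hχ, inv_neg, inv_one]
    obtain ⟨a, ha⟩ := exists_SS_ne_zero χ⁻¹ hχ'
    have h2 : (∑ u : (ZMod d)ˣ, χ u * (b u : ℂ)) * SS χ⁻¹ a = 0 := by
      unfold SS
      rw [Finset.sum_mul]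
      have h3 : ∀ u : (ZMod d)ˣ, χ u * (b u : ℂ) * ∑ t : (ZMod d)ˣ, χ⁻¹ t * (saw ((t : ZMod d) * a) : ℂ) =
          ∑ v : (ZMod d)ˣ, χ⁻¹ v * ((saw ((u : ZMod d) * ((v : ZMod d) * a)) : ℂ) * (b u : ℂ)) := by
        intro u
        rw [← Fintype.sum_equiv (Equiv.mulRight u) (fun v : (ZMod d)ˣ => χ⁻¹ ((v * u : (ZMod d)ˣ) : ZMod d) *
          (saw (((v * u : (ZMod d)ˣ) : ZMod d) * a) : ℂ)) _ fun v => rfl, Finset.mul_sum]
        refine Finset.sum_congr rfl fun v _ => ?_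
        have h4 : χ u * χ⁻¹ ((v * u : (ZMod d)ˣ) : ZMod d) = χ⁻¹ v := by
          rw [Units.val_mul, map_mul, MulChar.inv_apply_eq_inv' χ (u : ZMod d)]
          have : χ (u : ZMod d) ≠ 0 := (IsUnit.map χ u.isUnit).ne_zero
          field_simp
        have h5 : ((v * u : (ZMod d)ˣ) : ZMod d) * a = (u : ZMod d) * ((v : ZMod d) * a) := by
          rw [Units.val_mul]; ring
        rw [h5, ← h4]
        ring
      simp only [h3]
      rw [Finset.sum_comm]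
      refine Finset.sum_eq_zero fun v _ => ?_
      rw [← Finset.mul_sum]
      have h4 := hs ((v : ZMod d) * a)
      have h5 : ∑ u : (ZMod d)ˣ, ((saw ((u : ZMod d) * ((v : ZMod d) * a)) : ℂ) * (b u : ℂ)) = 0 := by
        have := congrArg (fun q : ℚ => (q : ℂ)) h4
        push_cast at this
        exact this
      rw [h5, mul_zero]
    exact (mul_eq_zero.mp h2).resolve_right ha
  have heven : ∀ u, b (-u) = b u := by
    intro u
    have h2 := fourier (f := fun u : (ZMod d)ˣ => (b u : ℂ) - (b (-u) : ℂ)) (fun χ => by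
      have h3 : ∑ u : (ZMod d)ˣ, χ u * (b (-u) : ℂ) = χ (-1) * ∑ u : (ZMod d)ˣ, χ u * (b u : ℂ) := by
        rw [← Fintype.sum_equiv (Equiv.neg (ZMod d)ˣ) (fun u : (ZMod d)ˣ => χ ((-u : (ZMod d)ˣ) : ZMod d) *
          (b (- -u) : ℂ)) _ fun v => rfl, Finset.mul_sum]
        refine Finset.sum_congr rfl fun v _ => ?_
        rw [neg_neg, Units.val_neg, ← neg_one_mul, map_mul, mul_assoc]
      simp only [mul_sub, Finset.sum_sub_distrib]
      rw [h3]
      rcases χ.even_or_odd with hev | hod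
      · rw [hev]; ring
      · rw [hodd χ hod]; ring) u
    have h3 : (b u : ℂ) = (b (-u) : ℂ) := sub_eq_zero.mp h2
    exact_mod_cast h3.symm
  apply hφf
  rw [hφ]
  have h2 : ∑ u, f u * b u = - ∑ u, f u * b u := by
    conv_lhs => rw [← Equiv.sum_comp (Equiv.neg (ZMod d)ˣ)]
    rw [← Finset.sum_neg_distrib]
    refine Finset.sum_congr rfl fun u _ => ?_
    rw [Equiv.neg_apply, hf, heven]
    ring
  linarith

/-- the existence of `ε` -/
lemma exists_eps (hd : 2 ≤ d) (m : ℤ) (p : (ZMod d)ˣ → ℤ) (hp : ∀ u, p (-u) = m - p u) :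
    ∃ ε : ZMod d → ℚ, ∀ u : (ZMod d)ˣ, (d : ℚ) * p u = ∑ a, ε a * (((u : ZMod d) * a).val : ℚ) := by
  classical
  have : Fact (1 < d) := ⟨hd⟩
  obtain ⟨ε, hε⟩ := exists_saw (fun u => (d : ℚ) * (2 * p u - m)) (fun u => by
    rw [hp]; push_cast; ring)
  set E := ∑ a ∈ univ.erase (0 : ZMod d), ε a with hE
  have h1 : ∀ u : (ZMod d)ˣ, ∑ a, ε a * (saw ((u : ZMod d) * a) : ℚ) =
      2 * ∑ a, ε a * (((u : ZMod d) * a).val : ℚ) - d * E := by
    intro u
    rw [← Finset.sum_erase_add _ _ (mem_univ (0 : ZMod d)), ← Finset.sum_erase_add univ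
      (fun a => ε a * (((u : ZMod d) * a).val : ℚ)) (mem_univ (0 : ZMod d)), mul_zero, saw_zero, ZMod.val_zero, hE,
      Finset.mul_sum, mul_add, Finset.mul_sum]
    rw [add_sub_right_comm, ← Finset.sum_sub_distrib]
    congr 1
    · refine Finset.sum_congr rfl fun a ha => ?_
      have ha' : a ≠ 0 := Finset.ne_of_mem_erase ha
      have h2 : saw ((u : ZMod d) * a) = 2 * (((u : ZMod d) * a).val : ℤ) - d := by
        unfold saw
        rw [if_neg (unit_mul_ne ha' u)]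
      rw [h2]
      push_cast
      ring
    · simp
  refine ⟨fun a => ε a + (if a = 1 then -(E - m) / 2 else 0) + (if a = -1 then -(E - m) / 2 else 0), fun u => ?_⟩
  simp only [add_mul, ite_mul, zero_mul, sum_add_distrib, sum_ite_eq', mem_univ, if_true]
  have h2 : ((((u : ZMod d) * 1).val : ℕ) : ℚ) + (((u : ZMod d) * (-1)).val : ℚ) = d := by
    rw [mul_one, mul_neg_one, ZMod.neg_val, if_neg u.ne_zero, Nat.cast_sub (ZMod.val_lt _).le]
    ring
  have h3 := hε u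
  rw [h1] at h3
  linear_combination (1 / 2) * h3 + (E - m) / 2 * h2

end eps

section

variable {𝒞 : HdR → Prop}

/-- the functional form of the conjecture for a triple with an embedding -/
def GDF (x : LItem 𝒞) : Prop := ∃ n0 : ℕ, 0 < n0 ∧ ∀ (n : ℕ) [NeZero n], n0 ∣ n → ∃ ε : ZMod n → ℂ,
  ∀ (g : ℂ ≃+* ℂ) (u : (ZMod n)ˣ), Cyc g n u →
    (n : ℂ) * (x.w g : ℂ) = ∑ a, ε a * (saw ((u : ZMod n) * a) : ℂ) ∧
    ∀ Φ : ℂ → ℂ, Fn Φ → Φ (x.R g) = - 2 * ∑ a, ε a * gt Φ ((u : ZMod n) * a)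

lemma LItem.fn_R (x : LItem 𝒞) (τ : ℂ ≃+* ℂ) {Φ : ℂ → ℂ} (hΦ : Fn Φ) :
    Φ (x.R τ) = 2 * Φ (x.P ((τ : ℂ →+* ℂ).comp x.σ)) - x.N.m * Φ (Real.pi : ℝ) := by
  unfold LItem.R
  rw [hΦ.div _ _ (pow_ne_zero _ (x.line.ne _)) (pow_ne_zero _ pi_ne'), hΦ.pow _ (x.line.ne _), hΦ.pow _ pi_ne']
  push_cast
  ring

lemma LItem.rl (x : LItem 𝒞) : Rl 𝒞 x.F x.N.m x.P x.p := ⟨x.N, x.mem, rfl, x.f, x.line⟩

variable {d : ℕ} [NeZero d] {K : Type} [Field K] [NumberField K] [IsCyclotomicExtension {d} ℚ K]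
  {ζ : K} {t : (ZMod d)ˣ → K →+* ℂ}

lemma fn_gam' (x : LItem 𝒞) (ht : IsEmb ζ t) (e : x.F →+* K)
    {ε : ZMod d → ℚ} (hε : ∀ u : (ZMod d)ˣ, (d : ℚ) * x.p ((t u).comp e) = ∑ a, ε a * (((u : ZMod d) * a).val : ℚ))
    {Φ : ℂ → ℂ} (hΦ : Fn Φ) (u : (ZMod d)ˣ) :
    Φ (gam d ε u : ℂ) = (x.N.m : ℂ) / 2 * Φ (Real.pi : ℝ) - ∑ a, (ε a : ℂ) * gt Φ ((u : ZMod d) * a) := by
  have h1 := (sum_eps x.rl ht e hε).1
  rw [fn_gam hΦ ε u, h1]
  push_cast
  rfl

/-- from the conjecture to the functional form -/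
theorem gdf_of_gd (x : LItem 𝒞) (ht : IsEmb ζ t) (e : x.F →+* K) {v : (ZMod d)ˣ} (hv : x.σ = (t v).comp e)
    {ε : ZMod d → ℚ} (hε : ∀ u : (ZMod d)ˣ, (d : ℚ) * x.p ((t u).comp e) = ∑ a, ε a * (((u : ZMod d) * a).val : ℚ))
    (h : ∀ u, ∃ c ∈ Qb, c ≠ 0 ∧ x.P ((t u).comp e) = c * (gam d ε u : ℂ)) : GDF x := by
  classical
  refine ⟨d, NeZero.pos d, fun n _ hdvd => ?_⟩
  obtain ⟨k, rfl⟩ := hdvd
  have : NeZero k := ⟨fun h => NeZero.ne (d * k) (by rw [h, mul_zero])⟩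
  have hsum : ∀ G : ZMod (d * k) → ℂ, ∑ b, (∑ a : ZMod d, if b = up k ((v : ZMod d) * a) then (ε a : ℂ) else 0) * G b =
      ∑ a : ZMod d, (ε a : ℂ) * G (up k ((v : ZMod d) * a)) := by
    intro G
    simp only [Finset.sum_mul]
    rw [Finset.sum_comm]
    refine Finset.sum_congr rfl fun a _ => ?_
    simp only [ite_mul, zero_mul, sum_ite_eq', mem_univ, if_true]
  refine ⟨fun b => ∑ a : ZMod d, if b = up k ((v : ZMod d) * a) then (ε a : ℂ) else 0, fun g u hgu => ?_⟩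
  have hact : (g : ℂ →+* ℂ).comp x.σ = (t (red k u * v)).comp e := by
    rw [hv, ← RingHom.comp_assoc, hgu.red.comp_t ht v]
  have hre : ∀ x : ZMod d, (red k u : ZMod d) * ((v : ZMod d) * x) = ((red k u * v : (ZMod d)ˣ) : ZMod d) * x := by
    intro x
    rw [Units.val_mul, mul_assoc]
  refine ⟨?_, fun Φ hΦ => ?_⟩
  · rw [hsum (fun b => (saw ((u : ZMod (d * k)) * b) : ℂ))]
    simp only [saw_up, hre]
    have h1 := (sum_eps x.rl ht e hε).2 (red k u * v)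
    unfold LItem.w
    rw [hact]
    have h2 : ∑ a : ZMod d, (ε a : ℂ) * (((k : ℤ) * saw (((red k u * v : (ZMod d)ˣ) : ZMod d) * a) : ℤ) : ℂ) =
        k * ∑ a : ZMod d, (ε a : ℂ) * (saw (((red k u * v : (ZMod d)ˣ) : ZMod d) * a) : ℂ) := by
      rw [Finset.mul_sum]
      refine Finset.sum_congr rfl fun a _ => ?_
      push_cast
      ring
    rw [h2, ← h1]
    push_cast
    ring
  · rw [hsum (fun b => gt Φ ((u : ZMod (d * k)) * b))]
    simp only [gt_up, hre]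
    obtain ⟨c, hc, hc0, h1⟩ := h (red k u * v)
    have hg0 : ((gam d ε (red k u * v) : ℝ) : ℂ) ≠ 0 := by exact_mod_cast (gam_pos ε _).ne'
    rw [x.fn_R g hΦ, hact, h1, hΦ.mul _ _ hc0 hg0, hΦ.alg _ hc, fn_gam' x ht e hε hΦ]
    ring

/-- real fields -/
theorem gdf_of_real (x : LItem 𝒞) (hx : ∀ σ : x.F →+* ℂ, cj σ = σ) : GDF x := by
  refine ⟨1, one_pos, fun n _ _ => ⟨0, fun g u _ => ?_⟩⟩
  obtain ⟨h1, u, hu, hu0, h2⟩ := x.line.pol ((g : ℂ →+* ℂ).comp x.σ)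
  rw [hx] at h1 h2
  constructor
  · have h3 : x.w g = 0 := by unfold LItem.w; omega
    rw [h3]
    simp
  · intro Φ hΦ
    have h3 := congrArg Φ h2
    rw [hΦ.mul _ _ (x.line.ne _) (x.line.ne _), hΦ.mul _ _ hu0 (pow_ne_zero _ pi_ne'), hΦ.alg _ hu,
      hΦ.pow _ pi_ne'] at h3
    rw [x.fn_R g hΦ]
    simp only [Pi.zero_apply, zero_mul, Finset.sum_const_zero, mul_zero]
    linear_combination h3

/-- relations -/
theorem gdf_rel {κ : Type} [Fintype κ] (y : LItem 𝒞) (x : κ → LItem 𝒞) (hx : ∀ k, GDF (x k)) {r0 : ℤ} (h0 : r0 ≠ 0)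
    (r : κ → ℤ) (hw : ∀ τ, r0 * y.w τ + ∑ k, r k * (x k).w τ = 0)
    (hR : ∀ τ, y.R τ ^ r0 * ∏ k, (x k).R τ ^ r k ∈ Qb) : GDF y := by
  choose n0 hn0 hn using hx
  refine ⟨∏ k, n0 k, Finset.prod_pos fun k _ => hn0 k, fun n _ hdvd => ?_⟩
  choose ε hε using fun k => hn k n ((Finset.dvd_prod_of_mem n0 (Finset.mem_univ k)).trans hdvd)
  have h0' : (r0 : ℂ) ≠ 0 := by exact_mod_cast h0
  have hsum : ∀ G : ZMod n → ℂ, ∑ b, (-(∑ k, (r k : ℂ) * ε k b) / r0) * G b =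
      - (∑ k, (r k : ℂ) * ∑ b, ε k b * G b) / r0 := by
    intro G
    have h1 : ∀ b, (-(∑ k, (r k : ℂ) * ε k b) / r0) * G b = - ((∑ k, (r k : ℂ) * (ε k b * G b)) / r0) := by
      intro b
      rw [neg_div, neg_mul, div_mul_eq_mul_div, Finset.sum_mul]
      congr 2
      exact Finset.sum_congr rfl fun k _ => by ring
    simp only [h1, Finset.sum_neg_distrib, ← Finset.sum_div]
    rw [Finset.sum_comm, neg_div]
    congr 2
    exact Finset.sum_congr rfl fun k _ => by rw [Finset.mul_sum]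
  refine ⟨fun b => -(∑ k, (r k : ℂ) * ε k b) / r0, fun g u hgu => ⟨?_, fun Φ hΦ => ?_⟩⟩
  · rw [hsum (fun b => (saw ((u : ZMod n) * b) : ℂ))]
    have h1 : ∀ k, ∑ b, ε k b * (saw ((u : ZMod n) * b) : ℂ) = (n : ℂ) * ((x k).w g : ℂ) :=
      fun k => ((hε k g u hgu).1).symm
    simp only [h1]
    have h2 := congrArg (fun z : ℤ => (z : ℂ)) (hw g)
    push_cast at h2
    have h3 : ∑ k, (r k : ℂ) * ((n : ℂ) * ((x k).w g : ℂ)) = n * ∑ k, (r k : ℂ) * ((x k).w g : ℂ) := by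
      rw [Finset.mul_sum]
      exact Finset.sum_congr rfl fun k _ => by ring
    rw [h3, eq_div_iff h0']
    linear_combination (n : ℂ) * h2
  · rw [hsum (fun b => gt Φ ((u : ZMod n) * b))]
    have h1 : ∀ k, ∑ b, ε k b * gt Φ ((u : ZMod n) * b) = - (1 / 2) * Φ ((x k).R g) := by
      intro k
      have := (hε k g u hgu).2 Φ hΦ
      linear_combination (1 / 2) * this
    simp only [h1]
    have h2 := hΦ.alg _ (hR g)
    rw [hΦ.mul _ _ (zpow_ne_zero _ (y.R_ne _)) (Finset.prod_ne_zero_iff.mpr fun k _ => zpow_ne_zero _ ((x k).R_ne _)),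
      hΦ.zpow _ (y.R_ne _), hΦ.prod _ _ fun k _ => zpow_ne_zero _ ((x k).R_ne _)] at h2
    have h3 : ∀ k, Φ ((x k).R g ^ r k) = (r k : ℂ) * Φ ((x k).R g) := fun k => hΦ.zpow _ ((x k).R_ne _) _
    simp only [h3] at h2
    have h4 : ∑ k, (r k : ℂ) * (- (1 / 2) * Φ ((x k).R g)) = - (1 / 2) * ∑ k, (r k : ℂ) * Φ ((x k).R g) := by
      rw [Finset.mul_sum]
      exact Finset.sum_congr rfl fun k _ => by ring
    rw [h4, mul_div_assoc', eq_div_iff h0']
    linear_combination h2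

/-- from the functional form to the conjecture -/
theorem gd_of_gdf (y : LItem 𝒞) (hy : GDF y) (ht : IsEmb ζ t) (e : y.F →+* K) (hσ : y.σ = (t 1).comp e)
    {ε : ZMod d → ℚ} (hε : ∀ u : (ZMod d)ˣ, (d : ℚ) * y.p ((t u).comp e) = ∑ a, ε a * (((u : ZMod d) * a).val : ℚ))
    (u : (ZMod d)ˣ) : ∃ c ∈ Qb, c ≠ 0 ∧ y.P ((t u).comp e) = c * (gam d ε u : ℂ) := by
  classical
  obtain ⟨k, hk, hn⟩ := hy
  have : NeZero k := ⟨hk.ne'⟩
  obtain ⟨η, hη⟩ := hn (d * k) (dvd_mul_left _ _)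
  have hsum : ∀ G : ZMod (d * k) → ℂ, ∑ b, (η b - ∑ a : ZMod d, if b = up k a then (ε a : ℂ) else 0) * G b =
      ∑ b, η b * G b - ∑ a : ZMod d, (ε a : ℂ) * G (up k a) := by
    intro G
    simp only [sub_mul, Finset.sum_sub_distrib, Finset.sum_mul]
    congr 1
    rw [Finset.sum_comm]
    refine Finset.sum_congr rfl fun a _ => ?_
    simp only [ite_mul, zero_mul, sum_ite_eq', mem_univ, if_true]
  have hact : ∀ (g : ℂ ≃+* ℂ) (u' : (ZMod (d * k))ˣ), Cyc g (d * k) u' →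
      (g : ℂ →+* ℂ).comp y.σ = (t (red k u')).comp e := by
    intro g u' hgu
    rw [hσ, ← RingHom.comp_assoc, hgu.red.comp_t ht 1, mul_one]
  have hko : ∀ u' : (ZMod (d * k))ˣ, ∑ b, (η b - ∑ a : ZMod d, if b = up k a then (ε a : ℂ) else 0) *
      (saw ((u' : ZMod (d * k)) * b) : ℂ) = 0 := by
    intro u'
    obtain ⟨g, hg⟩ := exists_cyc_aut (d * k) u'
    rw [hsum (fun b => (saw ((u' : ZMod (d * k)) * b) : ℂ)), ← (hη g u' hg).1]
    simp only [saw_up]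
    have h1 := (sum_eps y.rl ht e hε).2 (red k u')
    unfold LItem.w
    rw [hact g u' hg]
    have h2 : ∑ a : ZMod d, (ε a : ℂ) * (((k : ℤ) * saw ((red k u' : ZMod d) * a) : ℤ) : ℂ) =
        k * ∑ a : ZMod d, (ε a : ℂ) * (saw ((red k u' : ZMod d) * a) : ℂ) := by
      rw [Finset.mul_sum]
      refine Finset.sum_congr rfl fun a _ => ?_
      push_cast
      ring
    rw [h2, ← h1]
    push_cast
    ring
  obtain ⟨u', hu'⟩ := ZMod.unitsMap_surjective (dvd_mul_right d k) u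
  have hred : red k u' = u := hu'
  obtain ⟨g, hg⟩ := exists_cyc_aut (d * k) u'
  have hg0 : ((gam d ε u : ℝ) : ℂ) ≠ 0 := by exact_mod_cast (gam_pos ε _).ne'
  refine alg_of_fn (y.line.ne _) hg0 fun Φ hΦ => ?_
  have h1 := ko_all hko hΦ u'
  rw [hsum (fun b => gt Φ ((u' : ZMod (d * k)) * b))] at h1
  simp only [gt_up, hred] at h1
  have h2 := (hη g u' hg).2 Φ hΦ
  rw [y.fn_R g hΦ, hact g u' hg, hred] at h2
  rw [fn_gam' y ht e hε hΦ]
  linear_combination (1 / 2) * h2 - h1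

end

end Pool.Agent.T2h95.GD
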