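import Pool.Agent.T2h95.GD.KO

/-!
Embeddings and automorphisms of subfields of cyclotomic fields.
-/

set_option autoImplicit false

open Finset Polynomial

namespace Pool.Agent.T2h95.GD

section

variable {d : ℕ} [NeZero d] {K : Type} [Field K] [NumberField K] [IsCyclotomicExtension {d} ℚ K]

lemma exp_mod (n : ℕ) : Complex.exp (2 * Real.pi * Complex.I * ((((n : ZMod d)).val : ℂ) / d)) =
    Complex.exp (2 * Real.pi * Complex.I * ((n : ℂ) / d)) := by
  rw [Complex.exp_eq_exp_iff_exists_int, ZMod.val_natCast]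
  obtain ⟨q, hq⟩ : ∃ q : ℕ, n = n % d + d * q := ⟨n / d, (Nat.mod_add_div n d).symm⟩
  refine ⟨-(q : ℤ), ?_⟩
  set r := n % d
  have h : (n : ℂ) = (r : ℂ) + (d : ℂ) * (q : ℂ) := by exact_mod_cast hq
  have hd : (d : ℂ) ≠ 0 := by exact_mod_cast NeZero.ne d
  rw [h]
  push_cast
  field_simp
  ring

lemma hom_ext' {L : Type} [Field L] [CharZero L] {ζ : K} (hζ : IsPrimitiveRoot ζ d) {σ τ : K →+* L}
    (h : σ ζ = τ ζ) : σ = τ := by
  have h1 : σ.toRatAlgHom = τ.toRatAlgHom := by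
    refine PowerBasis.algHom_ext (hζ.powerBasis ℚ) ?_
    rw [hζ.powerBasis_gen ℚ]
    exact h
  ext x
  exact DFunLike.congr_fun h1 x

variable {ζ : K} {t : (ZMod d)ˣ → K →+* ℂ}

lemma t_surj (ht : IsEmb ζ t) (σ : K →+* ℂ) : ∃ u, t u = σ := by
  have h1 : IsPrimitiveRoot (σ ζ) d := ht.1.map_of_injective σ.injective
  rw [Complex.isPrimitiveRoot_iff _ _ (NeZero.ne d)] at h1
  obtain ⟨i, hi, hc, h⟩ := h1
  refine ⟨ZMod.unitOfCoprime i hc, hom_ext' ht.1 ?_⟩
  rw [ht.2, ← h, ZMod.coe_unitOfCoprime, exp_mod]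

variable (d K) in
/-- the Galois group of the cyclotomic field -/
noncomputable def gal : (ZMod d)ˣ →* (K ≃ₐ[ℚ] K) :=
  (IsCyclotomicExtension.autEquivPow K (cyclotomic.irreducible_rat (NeZero.pos d))).symm.toMonoidHom

lemma gal_surj : Function.Surjective (gal d K) :=
  (IsCyclotomicExtension.autEquivPow K (cyclotomic.irreducible_rat (NeZero.pos d))).symm.surjective

lemma gal_apply (hζ : IsPrimitiveRoot ζ d) (u : (ZMod d)ˣ) : gal d K u ζ = ζ ^ (u : ZMod d).val := by
  have hz := IsCyclotomicExtension.zeta_spec d ℚ K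
  have h1 : gal d K u (IsCyclotomicExtension.zeta d ℚ K) = IsCyclotomicExtension.zeta d ℚ K ^ (u : ZMod d).val := by
    have h2 := IsPrimitiveRoot.autToPow_spec ℚ hz (gal d K u)
    rw [← h2]
    congr 3
    have h3 : (IsCyclotomicExtension.autEquivPow K (cyclotomic.irreducible_rat (NeZero.pos d))) (gal d K u) = u :=
      MulEquiv.apply_symm_apply _ _
    exact h3
  obtain ⟨k, -, hk⟩ := hz.eq_pow_of_pow_eq_one hζ.pow_eq_one
  rw [← hk, map_pow, h1, ← pow_mul, ← pow_mul, mul_comm]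

lemma t_gal (ht : IsEmb ζ t) (u v : (ZMod d)ˣ) (x : K) : t u (gal d K v x) = t (u * v) x := by
  have h : (t u).comp ((gal d K v : K →ₐ[ℚ] K) : K →+* K) = t (u * v) := by
    refine hom_ext' ht.1 ?_
    change t u (gal d K v ζ) = t (u * v) ζ
    rw [gal_apply ht.1, map_pow, ht.2, ht.2, ← Complex.exp_nat_mul]
    have h1 : ((u * v : (ZMod d)ˣ) : ZMod d) = (((u : ZMod d).val * (v : ZMod d).val : ℕ) : ZMod d) := by
      push_cast
      rw [ZMod.natCast_zmod_val, ZMod.natCast_zmod_val]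
    rw [h1, exp_mod]
    congr 1
    push_cast
    ring
  exact RingHom.congr_fun h x

lemma cj_t (ht : IsEmb ζ t) (u : (ZMod d)ˣ) : cj (t u) = t (-u) := by
  refine hom_ext' ht.1 ?_
  rw [cj_apply, ht.2, ht.2, ← Complex.exp_conj]
  have hd : (d : ℂ) ≠ 0 := by exact_mod_cast NeZero.ne d
  rw [Complex.exp_eq_exp_iff_exists_int]
  have h1 : ((-u : (ZMod d)ˣ) : ZMod d) = -(u : ZMod d) := Units.val_neg u
  rw [h1]
  by_cases hu : (u : ZMod d) = 0
  · refine ⟨0, ?_⟩
    rw [hu]
    simp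
  · refine ⟨-1, ?_⟩
    have : NeZero (u : ZMod d) := ⟨hu⟩
    rw [ZMod.val_neg_of_ne_zero, Nat.cast_sub (ZMod.val_lt _).le]
    simp only [map_mul, map_div₀, Complex.conj_ofReal, Complex.conj_I, map_natCast, map_ofNat]
    push_cast
    field_simp
    ring

/-- automorphisms of a subfield of `K` -/
lemma exists_tau {F : Type} [Field F] [NumberField F] (e : F →+* K) :
    ∃ τ : (ZMod d)ˣ →* (F ≃ₐ[ℚ] F), Function.Surjective τ ∧ ∀ u x, e (τ u x) = gal d K u (e x) := by
  let _ : Algebra F K := e.toAlgebra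
  have : IsScalarTower ℚ F K := IsScalarTower.of_algebraMap_eq fun q => by
    change algebraMap ℚ K q = e (algebraMap ℚ F q)
    simp
  have : IsAbelianGalois ℚ K := IsCyclotomicExtension.isAbelianGalois {d} ℚ K
  have : IsAbelianGalois ℚ F := IsAbelianGalois.tower_bot ℚ F K
  refine ⟨(AlgEquiv.restrictNormalHom F).comp (gal d K), ?_, fun u x => ?_⟩
  · rw [MonoidHom.coe_comp]
    exact (AlgEquiv.restrictNormalHom_surjective K).comp gal_surj
  · exact AlgEquiv.restrictNormal_commutes (gal d K u) F x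

/-- extension of embeddings -/
lemma ext_emb (ht : IsEmb ζ t) {F : Type} [Field F] [NumberField F] (e : F →+* K) (σ : F →+* ℂ) :
    ∃ u, σ = (t u).comp e := by
  let _ : Algebra F K := e.toAlgebra
  let _ : Algebra F ℂ := σ.toAlgebra
  have : IsScalarTower ℚ F K := IsScalarTower.of_algebraMap_eq fun q => by
    change algebraMap ℚ K q = e (algebraMap ℚ F q)
    simp
  have : Algebra.IsAlgebraic ℚ K := inferInstance
  have : Algebra.IsAlgebraic F K := Algebra.IsAlgebraic.tower_top (K := ℚ) F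
  let l : K →ₐ[F] ℂ := IsAlgClosed.lift
  obtain ⟨u, hu⟩ := t_surj ht (l : K →+* ℂ)
  refine ⟨u, ?_⟩
  ext x
  rw [hu]
  exact (l.commutes x).symm

/-- the field of a character -/
lemma exists_field {F : Type} [Field F] [NumberField F] (e : F →+* K) (χ : (ZMod d)ˣ →* ℂˣ)
    (hχ : ∀ u, (∀ x, gal d K u (e x) = e x) → χ u = 1) :
    ∃ (E : Type) (_ : Field E) (_ : NumberField E) (i : E →+* F),
      ∀ u, (∀ x, gal d K u (e (i x)) = e (i x)) ↔ χ u = 1 := by
  obtain ⟨τ, -, hτ⟩ := exists_tau (d := d) e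
  let N : Subgroup (F ≃ₐ[ℚ] F) := χ.ker.map τ
  let E : IntermediateField ℚ F := IntermediateField.fixedField N
  refine ⟨E, inferInstance, inferInstance, (E.val : E →+* F), fun u => ⟨fun h => ?_, fun h x => ?_⟩⟩
  · have h1 : τ u ∈ E.fixingSubgroup := by
      rw [IntermediateField.mem_fixingSubgroup_iff]
      intro x hx
      have h2 := h ⟨x, hx⟩
      rw [← hτ] at h2
      exact e.injective h2
    rw [IntermediateField.fixingSubgroup_fixedField] at h1
    obtain ⟨κ, hκ, hκu⟩ := h1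
    have h3 : χ (κ⁻¹ * u) = 1 := by
      apply hχ
      intro x
      rw [← hτ, map_mul, map_inv, hκu]
      simp
    rw [map_mul, map_inv, show χ κ = 1 from hκ, inv_one, one_mul] at h3
    exact h3
  · rw [← hτ]
    congr 1
    have hmem : τ u ∈ N := ⟨u, h, rfl⟩
    exact x.2 ⟨τ u, hmem⟩

end

end Pool.Agent.T2h95.GD
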