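import Pool.Agent.T2h95.GD.Of
import Pool.Agent.H916D.Rational

/-!
Additive functionals on the nonzero complex numbers modulo algebraic numbers, and the gamma function.
-/

set_option autoImplicit false

open Finset

namespace Pool.Agent.T2h95.GD

/-- a logarithm on the nonzero complex numbers modulo algebraic numbers -/
structure Fn (Φ : ℂ → ℂ) : Prop where
  mul : ∀ x y, x ≠ 0 → y ≠ 0 → Φ (x * y) = Φ x + Φ y
  alg : ∀ x ∈ Qb, Φ x = 0

/-- the nonzero algebraic numbers -/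
def AU : Subgroup ℂˣ where
  carrier := {u | (u : ℂ) ∈ Qb}
  mul_mem' := fun {a b} ha hb => by
    change ((a * b : ℂˣ) : ℂ) ∈ Qb
    rw [Units.val_mul]; exact mul_mem ha hb
  one_mem' := by
    change ((1 : ℂˣ) : ℂ) ∈ Qb
    rw [Units.val_one]; exact one_mem _
  inv_mem' := fun {a} ha => by
    change ((a⁻¹ : ℂˣ) : ℂ) ∈ Qb
    rw [Units.val_inv_eq_inv_val]; exact inv_mem ha

theorem exists_fn {z : ℂ} (hz : z ∉ Qb) : ∃ Φ : ℂ → ℂ, Fn Φ ∧ Φ z ≠ 0 := by
  have hz0 : z ≠ 0 := by rintro rfl; exact hz (zero_mem _)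
  let cl : (w : ℂ) → w ≠ 0 → Additive (ℂˣ ⧸ AU) := fun w hw => Additive.ofMul (QuotientGroup.mk (Units.mk0 w hw))
  have h1 : ∀ k : ℕ, 0 < k → k • cl z hz0 ≠ 0 := by
    intro k hk h
    have h2 : (QuotientGroup.mk (Units.mk0 z hz0 ^ k) : ℂˣ ⧸ AU) = 1 := by
      rw [QuotientGroup.mk_pow]
      exact h
    rw [QuotientGroup.eq_one_iff] at h2
    have h3 : z ^ k ∈ Qb := by
      have h4 : ((Units.mk0 z hz0 ^ k : ℂˣ) : ℂ) ∈ Qb := h2
      rwa [Units.val_pow_eq_pow_val, Units.val_mk0] at h4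
    rw [Qb_mem] at h3
    exact hz (Qb_mem.mpr (h3.of_pow hk))
  obtain ⟨φ, hφ⟩ := Pool.Agent.H916D.exists_hom_ne_zero (Q := Additive (ℂˣ ⧸ AU)) (cl z hz0) h1
  refine ⟨fun w => if h : w = 0 then 0 else φ (cl w h), ⟨?_, ?_⟩, ?_⟩
  · intro x y hx hy
    simp only [dif_neg hx, dif_neg hy, dif_neg (mul_ne_zero hx hy)]
    rw [← map_add]
    congr 1
    have : Units.mk0 (x * y) (mul_ne_zero hx hy) = Units.mk0 x hx * Units.mk0 y hy := by
      ext; rfl
    simp only [cl]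
    rw [this]
    rfl
  · intro x hx
    by_cases h0 : x = 0
    · simp only [dif_pos h0]
    · simp only [dif_neg h0]
      have : cl x h0 = 0 := by
        have h2 : (QuotientGroup.mk (Units.mk0 x h0) : ℂˣ ⧸ AU) = 1 := by
          rw [QuotientGroup.eq_one_iff]; exact hx
        exact h2
      rw [this, map_zero]
  · simp only [dif_neg hz0]
    exact hφ

namespace Fn

variable {Φ : ℂ → ℂ} (hΦ : Fn Φ)
include hΦ

lemma one : Φ 1 = 0 := hΦ.alg 1 (one_mem _)

lemma prod {ι : Type*} (s : Finset ι) (f : ι → ℂ) (h : ∀ i ∈ s, f i ≠ 0) : Φ (∏ i ∈ s, f i) = ∑ i ∈ s, Φ (f i) := by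
  classical
  induction s using Finset.induction_on with
  | empty => simpa using hΦ.one
  | insert a s ha ih =>
    rw [Finset.prod_insert ha, Finset.sum_insert ha, hΦ.mul _ _ (h a (mem_insert_self a s))
      (Finset.prod_ne_zero_iff.mpr fun i hi => h i (mem_insert_of_mem hi)), ih fun i hi => h i (mem_insert_of_mem hi)]

lemma pow (x : ℂ) (hx : x ≠ 0) (n : ℕ) : Φ (x ^ n) = n * Φ x := by
  have := hΦ.prod (range n) (fun _ => x) fun _ _ => hx
  simpa using this

lemma inv (x : ℂ) (hx : x ≠ 0) : Φ x⁻¹ = - Φ x := by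
  have := hΦ.mul x x⁻¹ hx (inv_ne_zero hx)
  rw [mul_inv_cancel₀ hx, hΦ.one] at this
  linear_combination -this

lemma div (x y : ℂ) (hx : x ≠ 0) (hy : y ≠ 0) : Φ (x / y) = Φ x - Φ y := by
  rw [div_eq_mul_inv, hΦ.mul x _ hx (inv_ne_zero hy), hΦ.inv y hy]; ring

lemma zpow (x : ℂ) (hx : x ≠ 0) (n : ℤ) : Φ (x ^ n) = n * Φ x := by
  rcases Int.eq_nat_or_neg n with ⟨k, rfl | rfl⟩
  · rw [zpow_natCast, hΦ.pow x hx]; simp
  · rw [zpow_neg, zpow_natCast, hΦ.inv _ (pow_ne_zero _ hx), hΦ.pow x hx]; push_cast; ring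

lemma rpow (x : ℝ) (hx : 0 < x) (q : ℚ) : Φ ((x ^ (q : ℝ) : ℝ) : ℂ) = q * Φ (x : ℂ) := by
  have hpos : 0 < x ^ (q : ℝ) := Real.rpow_pos_of_pos hx _
  have h1 : (x ^ (q : ℝ)) ^ q.den = x ^ q.num := by
    rw [← Real.rpow_natCast, ← Real.rpow_mul hx.le, ← Real.rpow_intCast]
    congr 1
    have : ((q * q.den : ℚ) : ℝ) = ((q.num : ℚ) : ℝ) := by rw [Rat.mul_den_eq_num]
    push_cast at this
    exact this
  have h2 : Φ (((x ^ (q : ℝ) : ℝ) : ℂ) ^ q.den) = Φ ((x : ℂ) ^ q.num) := by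
    congr 1
    have := congrArg (fun y : ℝ => (y : ℂ)) h1
    push_cast at this ⊢
    exact this
  have hx' : (x : ℂ) ≠ 0 := by exact_mod_cast hx.ne'
  have hp' : ((x ^ (q : ℝ) : ℝ) : ℂ) ≠ 0 := by exact_mod_cast hpos.ne'
  rw [hΦ.pow _ hp', hΦ.zpow _ hx'] at h2
  have hd : (q.den : ℂ) ≠ 0 := by exact_mod_cast q.den_ne_zero
  have h3 : (q : ℂ) = q.num / q.den := by
    have := Rat.num_div_den q
    conv_lhs => rw [← this]
    push_cast; rfl
  rw [h3]
  field_simp
  linear_combination h2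

lemma refl (x : ℚ) (h0 : 0 < x) (h1 : x < 1) :
    Φ (Real.Gamma x : ℝ) + Φ (Real.Gamma (1 - x) : ℝ) = Φ (Real.pi : ℝ) := by
  have h0' : (0 : ℝ) < x := by exact_mod_cast h0
  have h1' : (x : ℝ) < 1 := by exact_mod_cast h1
  have hs : 0 < Real.sin (Real.pi * x) := by
    apply Real.sin_pos_of_pos_of_lt_pi
    · exact mul_pos Real.pi_pos h0'
    · have := Real.pi_pos; nlinarith
  have hG := Real.Gamma_mul_Gamma_one_sub (x : ℝ)
  have hc : ((Real.Gamma x : ℝ) : ℂ) * ((Real.Gamma (1 - x) : ℝ) : ℂ) =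
      ((Real.pi : ℝ) : ℂ) / ((Real.sin (Real.pi * x) : ℝ) : ℂ) := by
    have := congrArg (fun y : ℝ => (y : ℂ)) hG
    push_cast at this ⊢
    exact this
  have e1 : ((Real.Gamma x : ℝ) : ℂ) ≠ 0 := by exact_mod_cast (Real.Gamma_pos_of_pos h0').ne'
  have e2 : ((Real.Gamma (1 - x) : ℝ) : ℂ) ≠ 0 := by
    exact_mod_cast (Real.Gamma_pos_of_pos (by linarith : (0 : ℝ) < 1 - x)).ne'
  have e3 : ((Real.pi : ℝ) : ℂ) ≠ 0 := by exact_mod_cast Real.pi_pos.ne'
  have e4 : ((Real.sin (Real.pi * x) : ℝ) : ℂ) ≠ 0 := by exact_mod_cast hs.ne'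
  have h := hΦ.mul _ _ e1 e2
  rw [hc, hΦ.div _ _ e3 e4] at h
  have hsa : Φ ((Real.sin (Real.pi * x) : ℝ) : ℂ) = 0 := by
    apply hΦ.alg
    rw [Qb_mem]
    have h5 := Real.isAlgebraic_sin_rat_mul_pi x
    rw [mul_comm] at h5
    have h6 : IsAlgebraic ℚ (Real.sin (Real.pi * x)) := (IsFractionRing.isAlgebraic_iff ℤ ℚ ℝ).mp h5
    have h7 := h6.algHom (Complex.ofRealHom.toRatAlgHom)
    exact h7
  rw [hsa, sub_zero] at h
  exact h.symm

end Fn

section gauss

lemma convex_aux (n : ℕ) (hn : 0 < n) (k : ℕ) :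
    ConvexOn ℝ (Set.Ioi 0) (fun s : ℝ => Real.log (Real.Gamma ((s + k) / n))) := by
  have hn' : (0 : ℝ) < n := by exact_mod_cast hn
  refine ⟨convex_Ioi 0, fun x hx y hy a b ha hb hab => ?_⟩
  have hx' : (0 : ℝ) < x := hx
  have hy' : (0 : ℝ) < y := hy
  have h := Real.convexOn_log_Gamma.2 (x := (x + k) / n) (y := (y + k) / n)
    (by simp only [Set.mem_Ioi]; positivity) (by simp only [Set.mem_Ioi]; positivity) ha hb hab
  have e : a • ((x + k) / n) + b • ((y + k) / n) = (a • x + b • y + k) / n := by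
    simp only [smul_eq_mul]
    have : (k : ℝ) = (a + b) * k := by rw [hab, one_mul]
    field_simp
    linear_combination -this
  rw [e] at h
  exact h

lemma convex_sum (n : ℕ) (hn : 0 < n) (s : Finset ℕ) :
    ConvexOn ℝ (Set.Ioi 0) (fun x : ℝ => ∑ k ∈ s, Real.log (Real.Gamma ((x + k) / n))) := by
  induction s using Finset.induction_on with
  | empty => simpa using convexOn_const (0 : ℝ) (convex_Ioi (0 : ℝ))
  | insert a s ha ih =>
    simp only [Finset.sum_insert ha]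
    exact (convex_aux n hn a).add ih

/-- Gauss' multiplication formula -/
theorem gauss (n : ℕ) (hn : 0 < n) (s : ℝ) (hs : 0 < s) :
    ∏ k ∈ range n, Real.Gamma ((s + k) / n) =
      (∏ k ∈ range n, Real.Gamma ((1 + k) / n)) * (n : ℝ) ^ (1 - s) * Real.Gamma s := by
  have hn' : (0 : ℝ) < n := by exact_mod_cast hn
  have hG : ∀ (x : ℝ), 0 < x → ∀ k : ℕ, 0 < Real.Gamma ((x + k) / n) := fun x hx k =>
    Real.Gamma_pos_of_pos (by positivity)
  set C : ℝ := ∏ k ∈ range n, Real.Gamma ((1 + k) / n) with hC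
  have hCpos : 0 < C := Finset.prod_pos fun k _ => hG 1 one_pos k
  let f : ℝ → ℝ := fun x => (n : ℝ) ^ (x - 1) * (∏ k ∈ range n, Real.Gamma ((x + k) / n)) / C
  have hfpos : ∀ {y : ℝ}, 0 < y → 0 < f y := fun {y} hy =>
    div_pos (mul_pos (Real.rpow_pos_of_pos hn' _) (Finset.prod_pos fun k _ => hG y hy k)) hCpos
  have key : Set.EqOn f Real.Gamma (Set.Ioi 0) := by
    apply Real.eq_Gamma_of_log_convex
    · have h1 : ConvexOn ℝ (Set.Ioi 0) (fun x : ℝ => (Real.log n * x + (- Real.log n - Real.log C)) +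
          ∑ k ∈ range n, Real.log (Real.Gamma ((x + k) / n))) := by
        refine ConvexOn.add ?_ (convex_sum n hn _)
        refine ⟨convex_Ioi 0, fun x _ y _ a b _ _ hab => ?_⟩
        simp only [smul_eq_mul]
        have : (- Real.log n - Real.log C) = (a + b) * (- Real.log n - Real.log C) := by rw [hab, one_mul]
        nlinarith [this]
      refine h1.congr ?_
      intro x hx
      have hx' : (0 : ℝ) < x := hx
      simp only [Function.comp_apply, f]
      rw [Real.log_div (mul_pos (Real.rpow_pos_of_pos hn' _) (Finset.prod_pos fun k _ => hG x hx' k)).ne' hCpos.ne',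
        Real.log_mul (Real.rpow_pos_of_pos hn' _).ne' (Finset.prod_pos fun k _ => hG x hx' k).ne',
        Real.log_rpow hn', Real.log_prod fun k _ => (hG x hx' k).ne']
      ring
    · intro y hy
      simp only [f]
      have h1 : ∏ k ∈ range n, Real.Gamma ((y + 1 + k) / n) =
          (y / n) * ∏ k ∈ range n, Real.Gamma ((y + k) / n) := by
        obtain ⟨r, rfl⟩ : ∃ r, n = r + 1 := ⟨n - 1, by omega⟩
        rw [Finset.prod_range_succ, Finset.prod_range_succ' (fun k => Real.Gamma ((y + k) / ((r + 1 : ℕ) : ℝ)))]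
        have h2 : Real.Gamma ((y + 1 + r) / ((r + 1 : ℕ) : ℝ)) =
            (y / ((r + 1 : ℕ) : ℝ)) * Real.Gamma ((y + ((0 : ℕ) : ℝ)) / ((r + 1 : ℕ) : ℝ)) := by
          have h3 : (y + 1 + r) / ((r + 1 : ℕ) : ℝ) = y / ((r + 1 : ℕ) : ℝ) + 1 := by
            push_cast
            field_simp
            ring
          rw [h3, Real.Gamma_add_one (by positivity)]
          simp
        rw [h2]
        have h4 : ∏ k ∈ range r, Real.Gamma ((y + 1 + k) / ((r + 1 : ℕ) : ℝ)) =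
            ∏ k ∈ range r, Real.Gamma ((y + ((k + 1 : ℕ) : ℝ)) / ((r + 1 : ℕ) : ℝ)) := by
          refine Finset.prod_congr rfl fun k _ => ?_
          congr 2
          push_cast; ring
        rw [h4]
        ring
      rw [h1]
      have h5 : (n : ℝ) ^ (y + 1 - 1) = (n : ℝ) ^ (y - 1) * n := by
        rw [show y + 1 - 1 = (y - 1) + 1 by ring, Real.rpow_add_one hn'.ne']
      rw [h5]
      field_simp
    · exact hfpos
    · simp only [f, sub_self, Real.rpow_zero, one_mul]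
      rw [← hC]
      exact div_self hCpos.ne'
  have h := key hs
  simp only [f] at h
  rw [← h]
  have h6 : (n : ℝ) ^ (1 - s) * (n : ℝ) ^ (s - 1) = 1 := by
    rw [← Real.rpow_add hn']
    simp
  have h7 : C * (n : ℝ) ^ (1 - s) * ((n : ℝ) ^ (s - 1) * (∏ k ∈ range n, Real.Gamma ((s + k) / n)) / C) =
      ((n : ℝ) ^ (1 - s) * (n : ℝ) ^ (s - 1)) * ∏ k ∈ range n, Real.Gamma ((s + k) / n) := by
    field_simp
  rw [h7, h6, one_mul]

end gauss

end Pool.Agent.T2h95.GD
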