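import Pool.Agent.T2h95.GD.Eig

/-!
The structures generated by a family, and the eigenvalues of the compatible systems of operators.
-/

set_option autoImplicit false

open Finset
open scoped TensorProduct

namespace Pool.Agent.T2h95.GD

/-- the structures generated by a family -/
inductive Gen {ι : Type} (𝓜 : ι → HdR) : HdR → Prop
  | base (i : ι) : Gen 𝓜 (𝓜 i)
  | sub (M N : HdR) (j : M.B →ₗ[ℚ] N.B) (hN : Gen 𝓜 N) (h : InO M N j) : Gen 𝓜 M
  | sum (M N P : HdR) (i : M.B →ₗ[ℚ] P.B) (j : N.B →ₗ[ℚ] P.B) (hM : Gen 𝓜 M) (hN : Gen 𝓜 N) (hi : InO M P i)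
    (hj : InO N P j) (h : ∀ x y, i x = j y → x = 0) (h' : ∀ z, ∃ x y, z = i x + j y) : Gen 𝓜 P
  | tens (M N P : HdR) (j : M.B ⊗[ℚ] N.B →ₗ[ℚ] P.B) (hM : Gen 𝓜 M) (hN : Gen 𝓜 N) (h : TenO M N P j) : Gen 𝓜 P

/-- eigenvalues and duality -/
lemma eig_dual (T : TensOp) (N : HdR) {a : ℂ} (h : Eig (T.O N) a) : a ≠ 0 ∧ Eig (T.O N) (T.mu ^ N.m / a) := by
  obtain ⟨x, h0, hx⟩ := h
  have ha : a ≠ 0 := by
    rintro rfl
    rw [zero_smul] at hx
    exact h0 (T.inj N (by rw [hx, map_zero]))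
  refine ⟨ha, eig_of_not_inj fun hinj => h0 ?_⟩
  have hsurj := LinearMap.injective_iff_surjective.mp hinj
  refine nondeg N fun y => ?_
  obtain ⟨z, rfl⟩ := hsurj y
  have h1 := T.pol N x z
  rw [hx, map_smul, LinearMap.smul_apply, smul_eq_mul] at h1
  rw [LinearMap.sub_apply, LinearMap.smul_apply, LinearMap.id_apply, map_sub, map_smul, smul_eq_mul]
  field_simp
  linear_combination h1

variable {ι : Type} (𝓜 : ι → HdR)

/-- the indices of the parameters -/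
abbrev JJ : Type := Σ i : ι, Fin (Module.finrank ℚ (𝓜 i).B / 2)

variable [Fintype ι]

/-- the eigenvalues on the generators in terms of the parameters -/
def Good (T : TensOp) (β : JJ 𝓜 → ℂ) : Prop :=
  (∀ j, β j ≠ 0) ∧ ∀ i a, Eig (T.O (𝓜 i)) a → ∃ e : JJ 𝓜 → ℤ, (∀ j, |e j| ≤ 1) ∧
    a ^ 2 = T.mu ^ (𝓜 i).m * ∏ j, β j ^ e j

lemma exists_good (T : TensOp) : ∃ β, Good 𝓜 T β := by
  classical
  have h1 : ∀ i, ∃ b : Fin (Module.finrank ℚ (𝓜 i).B / 2) → ℂ, (∀ j, b j ≠ 0) ∧ ∀ a, Eig (T.O (𝓜 i)) a →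
      a ^ 2 = T.mu ^ (𝓜 i).m ∨ ∃ j, a ^ 2 = T.mu ^ (𝓜 i).m * b j ∨ a ^ 2 = T.mu ^ (𝓜 i).m * (b j)⁻¹ := by
    intro i
    obtain ⟨E, hE, hEa⟩ := exists_eigs (T.O (𝓜 i))
    rw [Module.finrank_baseChange] at hE
    obtain ⟨b, hb0, hb⟩ := half (pow_ne_zero (𝓜 i).m T.mu0) E
      (fun h => (eig_dual T _ ((hEa 0).mpr h)).1 rfl)
      (fun a ha => (hEa _).mp (eig_dual T _ ((hEa a).mpr ha)).2) hE
    exact ⟨b, hb0, fun a ha => hb a ((hEa a).mp ha)⟩
  choose b hb0 hb using h1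
  refine ⟨fun j => b j.1 j.2, fun j => hb0 _ _, fun i a ha => ?_⟩
  rcases hb i a ha with h | ⟨j, h | h⟩
  · exact ⟨0, fun j => by simp, by simp [h]⟩
  · refine ⟨Pi.single ⟨i, j⟩ 1, fun k => ?_, ?_⟩
    · by_cases hk : k = ⟨i, j⟩
      · rw [hk, Pi.single_eq_same, abs_one]
      · rw [Pi.single_eq_of_ne hk, abs_zero]; exact zero_le_one
    · rw [h, Finset.prod_eq_single (⟨i, j⟩ : JJ 𝓜), Pi.single_eq_same, zpow_one]
      · intro k _ hk
        rw [Pi.single_eq_of_ne hk, zpow_zero]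
      · intro h; exact absurd (Finset.mem_univ _) h
  · refine ⟨Pi.single ⟨i, j⟩ (-1), fun k => ?_, ?_⟩
    · by_cases hk : k = ⟨i, j⟩
      · rw [hk, Pi.single_eq_same, abs_neg, abs_one]
      · rw [Pi.single_eq_of_ne hk, abs_zero]; exact zero_le_one
    · rw [h, Finset.prod_eq_single (⟨i, j⟩ : JJ 𝓜), Pi.single_eq_same, zpow_neg, zpow_one]
      · intro k _ hk
        rw [Pi.single_eq_of_ne hk, zpow_zero]
      · intro h; exact absurd (Finset.mem_univ _) h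

lemma baseChange_inj {B B' : Type} [AddCommGroup B] [Module ℚ B] [AddCommGroup B'] [Module ℚ B'] {j : B →ₗ[ℚ] B'}
    (hj : Function.Injective j) : Function.Injective (j.baseChange ℂ) :=
  Module.Flat.lTensor_preserves_injective_linearMap (M := ℂ) j hj

lemma eig_sub {M N : HdR} {j : M.B →ₗ[ℚ] N.B} (h : InO M N j) (T : TensOp) {a : ℂ} (ha : Eig (T.O M) a) :
    Eig (T.O N) a := by
  obtain ⟨x, h0, hx⟩ := ha
  refine ⟨j.baseChange ℂ x, fun h1 => h0 ?_, ?_⟩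
  · exact baseChange_inj h.inj (by rw [h1, map_zero])
  · rw [T.nat M N j h, hx, map_smul]

lemma eig_sum {M N P : HdR} {i : M.B →ₗ[ℚ] P.B} {j : N.B →ₗ[ℚ] P.B} (hi : InO M P i)
    (hj : InO N P j) (h : ∀ x y, i x = j y → x = 0) (h' : ∀ z, ∃ x y, z = i x + j y) (T : TensOp) {a : ℂ}
    (ha : Eig (T.O P) a) : Eig (T.O M) a ∨ Eig (T.O N) a := by
  obtain ⟨z, h0, hz⟩ := ha
  have hinj : Function.Injective (i.coprod j) := by
    rw [injective_iff_map_eq_zero]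
    rintro ⟨x, y⟩ hxy
    rw [LinearMap.coprod_apply] at hxy
    have h1 : i x = j (-y) := by rw [map_neg]; exact eq_neg_of_add_eq_zero_left hxy
    have h2 := h _ _ h1
    subst h2
    rw [map_zero, zero_add] at hxy
    have h3 : y = 0 := hj.inj (by rw [hxy, map_zero])
    rw [h3]
    rfl
  have hsurj : Function.Surjective (i.coprod j) := by
    intro z
    obtain ⟨x, y, rfl⟩ := h' z
    exact ⟨(x, y), by rw [LinearMap.coprod_apply]⟩
  let e : (M.B × N.B) ≃ₗ[ℚ] P.B := LinearEquiv.ofBijective (i.coprod j) ⟨hinj, hsurj⟩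
  let π1 : P.B →ₗ[ℚ] M.B := LinearMap.fst ℚ _ _ ∘ₗ e.symm.toLinearMap
  let π2 : P.B →ₗ[ℚ] N.B := LinearMap.snd ℚ _ _ ∘ₗ e.symm.toLinearMap
  have ei : ∀ x, e.symm (i x) = (x, 0) := by
    intro x
    rw [LinearEquiv.symm_apply_eq]
    change i x = i.coprod j (x, 0)
    rw [LinearMap.coprod_apply, map_zero, add_zero]
  have ej : ∀ y, e.symm (j y) = (0, y) := by
    intro y
    rw [LinearEquiv.symm_apply_eq]
    change j y = i.coprod j (0, y)
    rw [LinearMap.coprod_apply, map_zero, zero_add]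
  have h11 : π1 ∘ₗ i = LinearMap.id := by
    ext x
    change (e.symm (i x)).1 = x
    rw [ei]
  have h12 : π1 ∘ₗ j = 0 := by
    ext y
    change (e.symm (j y)).1 = 0
    rw [ej]
  have h21 : π2 ∘ₗ i = 0 := by
    ext x
    change (e.symm (i x)).2 = 0
    rw [ei]
  have h22 : π2 ∘ₗ j = LinearMap.id := by
    ext y
    change (e.symm (j y)).2 = y
    rw [ej]
  have hs : i ∘ₗ π1 + j ∘ₗ π2 = LinearMap.id := by
    ext z
    change i (e.symm z).1 + j (e.symm z).2 = z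
    have h1 : e (e.symm z) = i (e.symm z).1 + j (e.symm z).2 := LinearMap.coprod_apply _ _ _
    rw [← h1, LinearEquiv.apply_symm_apply]
  set x := π1.baseChange ℂ z with hx
  set y := π2.baseChange ℂ z with hy
  have hzxy : z = i.baseChange ℂ x + j.baseChange ℂ y := by
    rw [hx, hy, ← LinearMap.comp_apply, ← LinearMap.comp_apply, ← LinearMap.baseChange_comp,
      ← LinearMap.baseChange_comp, ← LinearMap.add_apply, ← LinearMap.baseChange_add, hs, map_id']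
  have hO : T.O P z = i.baseChange ℂ (T.O M x) + j.baseChange ℂ (T.O N y) := by
    conv_lhs => rw [hzxy]
    rw [map_add, T.nat M P i hi, T.nat N P j hj]
  have hx' : T.O M x = a • x := by
    have h1 := congrArg (π1.baseChange ℂ) hO
    rw [hz, map_smul, ← hx, map_add, ← LinearMap.comp_apply, ← LinearMap.comp_apply (π1.baseChange ℂ) (j.baseChange ℂ),
      ← LinearMap.baseChange_comp, ← LinearMap.baseChange_comp, h11, h12, map_id', LinearMap.baseChange_zero,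
      LinearMap.zero_apply, add_zero] at h1
    exact h1.symm
  have hy' : T.O N y = a • y := by
    have h1 := congrArg (π2.baseChange ℂ) hO
    rw [hz, map_smul, ← hy, map_add, ← LinearMap.comp_apply, ← LinearMap.comp_apply (π2.baseChange ℂ) (j.baseChange ℂ),
      ← LinearMap.baseChange_comp, ← LinearMap.baseChange_comp, h21, h22, map_id', LinearMap.baseChange_zero,
      LinearMap.zero_apply, zero_add] at h1
    exact h1.symm
  by_cases hx0 : x = 0
  · right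
    refine ⟨y, fun hy0 => h0 ?_, hy'⟩
    rw [hzxy, hx0, hy0, map_zero, map_zero, add_zero]
  · left
    exact ⟨x, hx0, hx'⟩

lemma eig_tens {M N P : HdR} {j : M.B ⊗[ℚ] N.B →ₗ[ℚ] P.B} (h : TenO M N P j) (T : TensOp) {a : ℂ}
    (ha : Eig (T.O P) a) : ∃ b b', Eig (T.O M) b ∧ Eig (T.O N) b' ∧ a = b * b' := by
  apply eig_map
  let e : (M.B ⊗[ℚ] N.B) ≃ₗ[ℚ] P.B := LinearEquiv.ofBijective j h.bij
  let Θ : (ℂ ⊗[ℚ] M.B) ⊗[ℂ] (ℂ ⊗[ℚ] N.B) ≃ₗ[ℂ] ℂ ⊗[ℚ] P.B :=
    (TensorProduct.AlgebraTensorModule.distribBaseChange ℚ ℂ M.B N.B).symm.trans (e.baseChange ℚ ℂ _ _)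
  have hΘ : ∀ x y, Θ (x ⊗ₜ[ℂ] y) = j.baseChange ℂ (exx x y) := fun x y => rfl
  have hcomm : T.O P ∘ₗ Θ.toLinearMap = Θ.toLinearMap ∘ₗ TensorProduct.map (T.O M) (T.O N) := by
    refine TensorProduct.ext' fun x y => ?_
    rw [LinearMap.comp_apply, LinearMap.comp_apply, TensorProduct.map_tmul, LinearEquiv.coe_coe, hΘ, hΘ,
      T.tens M N P j h]
  obtain ⟨z, h0, hz⟩ := ha
  refine ⟨Θ.symm z, fun h1 => h0 ?_, ?_⟩
  · rw [← Θ.apply_symm_apply z, h1, map_zero]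
  · apply Θ.injective
    have h1 := LinearMap.congr_fun hcomm (Θ.symm z)
    rw [LinearMap.comp_apply, LinearMap.comp_apply, LinearEquiv.coe_coe, LinearEquiv.apply_symm_apply, hz] at h1
    rw [← h1, map_smul, Θ.apply_symm_apply]

/-- the eigenvalues on the generated structures -/
theorem gen_bound {N : HdR} (hN : Gen 𝓜 N) : ∃ b : ℕ, ∀ (T : TensOp) (β : JJ 𝓜 → ℂ), Good 𝓜 T β →
    ∀ a, Eig (T.O N) a → ∃ e : JJ 𝓜 → ℤ, (∀ j, |e j| ≤ b) ∧ a ^ 2 = T.mu ^ N.m * ∏ j, β j ^ e j := by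
  induction hN with
  | base i =>
    refine ⟨1, fun T β hβ a ha => ?_⟩
    obtain ⟨e, he, h1⟩ := hβ.2 i a ha
    exact ⟨e, fun j => by simpa using he j, h1⟩
  | sub M N j hN h ih =>
    obtain ⟨b, hb⟩ := ih
    refine ⟨b, fun T β hβ a ha => ?_⟩
    rw [h.weight]
    exact hb T β hβ a (eig_sub h T ha)
  | sum M N P i j hM hN hi hj h h' ihM ihN =>
    obtain ⟨b, hb⟩ := ihM
    obtain ⟨b', hb'⟩ := ihN
    refine ⟨b + b', fun T β hβ a ha => ?_⟩
    rcases eig_sum hi hj h h' T ha with h1 | h1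
    · obtain ⟨e, he, h2⟩ := hb T β hβ a h1
      refine ⟨e, fun j => (he j).trans (by push_cast; linarith [(Nat.cast_nonneg b' : (0 : ℤ) ≤ b')]), ?_⟩
      rw [h2, hi.weight]
    · obtain ⟨e, he, h2⟩ := hb' T β hβ a h1
      refine ⟨e, fun j => (he j).trans (by push_cast; linarith [(Nat.cast_nonneg b : (0 : ℤ) ≤ b)]), ?_⟩
      rw [h2, hj.weight]
  | tens M N P j hM hN h ihM ihN =>
    obtain ⟨b, hb⟩ := ihM
    obtain ⟨b', hb'⟩ := ihN
    refine ⟨b + b', fun T β hβ a ha => ?_⟩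
    obtain ⟨c, c', hc, hc', rfl⟩ := eig_tens h T ha
    obtain ⟨e, he, h2⟩ := hb T β hβ c hc
    obtain ⟨e', he', h2'⟩ := hb' T β hβ c' hc'
    refine ⟨e + e', fun j => ?_, ?_⟩
    · rw [Pi.add_apply]
      push_cast
      exact (abs_add_le _ _).trans (add_le_add (he j) (he' j))
    · rw [mul_pow, h2, h2', h.weight, pow_add]
      simp only [Pi.add_apply, zpow_add₀ (hβ.1 _), Finset.prod_mul_distrib]
      ring

end Pool.Agent.T2h95.GD
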