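import Pool.Agent.T2h95.GD.Gam

/-!
The theorem of Koblitz and Ogus: the gamma function defines an odd distribution modulo algebraic numbers.
-/

set_option autoImplicit false

open Finset

namespace Pool.Agent.T2h95.GD

open Pool.Agent.H916R2 Pool.Agent.H916T Pool.Agent.H916D

/-- the odd distribution defined by the gamma function -/
noncomputable def gt (Φ : ℂ → ℂ) {d : ℕ} (a : ZMod d) : ℂ :=
  if a = 0 then 0 else Φ (Real.Gamma ((a.val : ℝ) / d) : ℝ) - Φ (Real.pi : ℝ) / 2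

section

variable {Φ : ℂ → ℂ} (hΦ : Fn Φ)

lemma gt_zero {d : ℕ} : gt Φ (0 : ZMod d) = 0 := by simp [gt]

lemma gt_natCast {d x : ℕ} (hx : x < d) : gt Φ (x : ZMod d) =
    if x = 0 then 0 else Φ (Real.Gamma ((x : ℝ) / d) : ℝ) - Φ (Real.pi : ℝ) / 2 := by
  unfold gt
  rw [ZMod.val_natCast, Nat.mod_eq_of_lt hx]
  by_cases h : x = 0
  · simp [h]
  · rw [if_neg h, if_neg]
    intro h'
    rw [ZMod.natCast_eq_zero_iff] at h'
    exact h (Nat.eq_zero_of_dvd_of_lt h' hx)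

include hΦ

lemma gt_neg {d : ℕ} [NeZero d] (a : ZMod d) : gt Φ (-a) = - gt Φ a := by
  unfold gt
  by_cases h : a = 0
  · simp [h]
  · have h' : -a ≠ 0 := neg_ne_zero.mpr h
    rw [if_neg h, if_neg h']
    have : NeZero a := ⟨h⟩
    rw [ZMod.val_neg_of_ne_zero]
    have hlt := ZMod.val_lt a
    have hpos : 0 < a.val := Nat.pos_of_ne_zero fun h0 => h ((ZMod.val_eq_zero a).mp h0)
    have hd : (0 : ℚ) < d := by exact_mod_cast NeZero.pos d
    have hr := hΦ.refl ((a.val : ℚ) / d) (div_pos (by exact_mod_cast hpos) hd)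
      (by rw [div_lt_one hd]; exact_mod_cast hlt)
    have e1 : (((a.val : ℚ) / d : ℚ) : ℝ) = (a.val : ℝ) / d := by push_cast; rfl
    have e2 : (1 : ℝ) - (a.val : ℝ) / d = ((d - a.val : ℕ) : ℝ) / d := by
      rw [Nat.cast_sub hlt.le]
      have : (d : ℝ) ≠ 0 := by exact_mod_cast (NeZero.ne d)
      field_simp
    rw [e1, e2] at hr
    linear_combination hr

lemma gauss_const (n : ℕ) (hn : 0 < n) :
    ∑ k ∈ range n, Φ (Real.Gamma ((1 + k) / n) : ℝ) = ((n : ℂ) - 1) / 2 * Φ (Real.pi : ℝ) := by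
  obtain ⟨r, rfl⟩ : ∃ r, n = r + 1 := ⟨n - 1, by omega⟩
  rw [sum_range_succ]
  have h1 : Real.Gamma ((1 + (r : ℝ)) / ((r + 1 : ℕ) : ℝ)) = 1 := by
    have : (1 + (r : ℝ)) / ((r + 1 : ℕ) : ℝ) = 1 := by push_cast; rw [add_comm]; exact div_self (by positivity)
    rw [this, Real.Gamma_one]
  rw [h1, Complex.ofReal_one, hΦ.one, add_zero]
  set S := ∑ k ∈ range r, Φ (Real.Gamma ((1 + k) / ((r + 1 : ℕ) : ℝ)) : ℝ) with hS
  have h2 : S = ∑ k ∈ range r, Φ (Real.Gamma (1 - (1 + k) / ((r + 1 : ℕ) : ℝ)) : ℝ) := by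
    rw [hS, ← Finset.sum_range_reflect]
    refine sum_congr rfl fun k hk => ?_
    have hk' : k < r := mem_range.mp hk
    congr 3
    have h3 : ((r - 1 - k : ℕ) : ℝ) = (r : ℝ) - 1 - k := by
      rw [Nat.cast_sub (by omega), Nat.cast_sub (by omega)]; simp
    rw [h3]
    push_cast
    field_simp
    ring
  have h4 : S + S = (r : ℂ) * Φ (Real.pi : ℝ) := by
    conv_lhs => rw [h2]
    rw [← h2]
    conv_lhs => rw [hS]; enter [2]; rw [← hS, h2]
    rw [← sum_add_distrib]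
    have : ∀ k ∈ range r, Φ (Real.Gamma ((1 + k) / ((r + 1 : ℕ) : ℝ)) : ℝ) +
        Φ (Real.Gamma (1 - (1 + k) / ((r + 1 : ℕ) : ℝ)) : ℝ) = Φ (Real.pi : ℝ) := by
      intro k hk
      have hk' : k < r := mem_range.mp hk
      have hr := hΦ.refl ((1 + k : ℚ) / ((r + 1 : ℕ) : ℚ)) (by positivity) (by
        rw [div_lt_one (by positivity)]
        push_cast
        have : (k : ℚ) < r := by exact_mod_cast hk'
        linarith)
      push_cast at hr ⊢
      exact hr
    rw [sum_congr rfl this]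
    simp
  push_cast
  linear_combination h4 / 2

lemma gauss_fn (n : ℕ) (hn : 0 < n) (x : ℚ) (hx : 0 < x) :
    ∑ k ∈ range n, Φ (Real.Gamma ((x + k) / n) : ℝ) =
      ((n : ℂ) - 1) / 2 * Φ (Real.pi : ℝ) + Φ (Real.Gamma x : ℝ) := by
  have hx' : (0 : ℝ) < x := by exact_mod_cast hx
  have hn' : (0 : ℝ) < n := by exact_mod_cast hn
  have hG : ∀ (x : ℝ), 0 < x → ∀ k : ℕ, ((Real.Gamma ((x + k) / n) : ℝ) : ℂ) ≠ 0 := fun x hx k => by
    exact_mod_cast (Real.Gamma_pos_of_pos (by positivity)).ne'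
  have h := congrArg (fun y : ℝ => Φ (y : ℂ)) (gauss n hn x hx')
  simp only [Complex.ofReal_mul, Complex.ofReal_prod] at h
  have e1 : ((Real.Gamma x : ℝ) : ℂ) ≠ 0 := by exact_mod_cast (Real.Gamma_pos_of_pos hx').ne'
  have e2 : (((n : ℝ) ^ (1 - (x : ℝ)) : ℝ) : ℂ) ≠ 0 := by exact_mod_cast (Real.rpow_pos_of_pos hn' _).ne'
  rw [hΦ.prod _ _ fun k _ => hG x hx' k, hΦ.mul _ _ (mul_ne_zero (prod_ne_zero_iff.mpr fun k _ => hG 1 one_pos k) e2) e1,
    hΦ.mul _ _ (prod_ne_zero_iff.mpr fun k _ => hG 1 one_pos k) e2, hΦ.prod _ _ fun k _ => hG 1 one_pos k,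
    gauss_const hΦ n hn] at h
  have h3 : Φ (((n : ℝ) ^ (1 - (x : ℝ)) : ℝ) : ℂ) = 0 := by
    have h4 := hΦ.rpow (n : ℝ) hn' (1 - x)
    push_cast at h4 ⊢
    rw [h4, hΦ.alg (n : ℂ) (by exact_mod_cast rat_mem (n : ℚ)), mul_zero]
  rw [h3, add_zero] at h
  exact h

lemma gt_dist {m : ℕ} [NeZero m] {p d : ℕ} (hpd : p * d = m) (a : ZMod m) :
    ∑ i ∈ range p, gt Φ (a + (i : ZMod m) * (d : ZMod m)) = gt Φ ((p : ZMod m) * a) := by
  have hm : 0 < m := NeZero.pos m
  have hd : 0 < d := Nat.pos_of_ne_zero (by rintro rfl; simp at hpd; omega)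
  have hp : 0 < p := Nat.pos_of_ne_zero (by rintro rfl; simp at hpd; omega)
  set r := a.val % d with hr
  set j := a.val / d with hj
  have hrd : r < d := Nat.mod_lt _ hd
  have ha : a = (r : ZMod m) + (j : ZMod m) * d := by
    have : a.val = r + j * d := by rw [hr, hj, mul_comm]; exact (Nat.mod_add_div _ _).symm
    calc a = ((a.val : ℕ) : ZMod m) := (ZMod.natCast_zmod_val a).symm
      _ = ((r + j * d : ℕ) : ZMod m) := by rw [← this]
      _ = _ := by push_cast; ring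
  have hpd0 : ((p : ℕ) : ZMod m) * (d : ZMod m) = 0 := by
    have : ((p * d : ℕ) : ZMod m) = 0 := by rw [hpd]; simp
    simpa using this
  have hpa : (p : ZMod m) * a = ((p * r : ℕ) : ZMod m) := by
    rw [ha]; push_cast
    linear_combination (j : ZMod m) * hpd0
  have hL : ∑ i ∈ range p, gt Φ (a + (i : ZMod m) * (d : ZMod m)) =
      ∑ i ∈ range p, gt Φ ((r : ZMod m) + (i : ZMod m) * (d : ZMod m)) := by
    conv_lhs => rw [ha]
    exact coset_sum_shift_mul (fun b => gt Φ b) hpd (r : ZMod m) j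
  rw [hL, hpa]
  have hterm : ∀ i ∈ range p, gt Φ ((r : ZMod m) + (i : ZMod m) * (d : ZMod m)) =
      if r + i * d = 0 then 0 else Φ (Real.Gamma (((r + i * d : ℕ) : ℝ) / m) : ℝ) - Φ (Real.pi : ℝ) / 2 := by
    intro i hi
    have hi' : i < p := mem_range.mp hi
    have hlt : r + i * d < m := by
      calc r + i * d < d + i * d := by omega
        _ = (i + 1) * d := by ring
        _ ≤ p * d := Nat.mul_le_mul_right _ hi'
        _ = m := hpd
    have : (r : ZMod m) + (i : ZMod m) * d = ((r + i * d : ℕ) : ZMod m) := by push_cast; ring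
    rw [this, gt_natCast hlt]
  rw [sum_congr rfl hterm]
  have hprm : p * r < m := by
    calc p * r < p * d := Nat.mul_lt_mul_of_pos_left hrd hp
      _ = m := hpd
  rw [gt_natCast hprm]
  have hd0 : (d : ℝ) ≠ 0 := by exact_mod_cast hd.ne'
  have hp0 : (p : ℝ) ≠ 0 := by exact_mod_cast hp.ne'
  have hmr : (m : ℝ) = p * d := by exact_mod_cast hpd.symm
  by_cases h0 : r = 0
  · rw [h0]
    simp only [mul_zero, if_true, zero_add]
    obtain ⟨k, rfl⟩ : ∃ k, p = k + 1 := ⟨p - 1, by omega⟩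
    rw [sum_range_succ']
    simp only [zero_mul, if_true, add_zero]
    have hne : ∀ i ∈ range k, (if (i + 1) * d = 0 then (0 : ℂ) else
        Φ (Real.Gamma ((((i + 1) * d : ℕ) : ℝ) / m) : ℝ) - Φ (Real.pi : ℝ) / 2) =
        Φ (Real.Gamma ((1 + i) / ((k + 1 : ℕ) : ℝ)) : ℝ) - Φ (Real.pi : ℝ) / 2 := by
      intro i _
      rw [if_neg (by positivity)]
      congr 4
      rw [hmr]
      push_cast
      field_simp
      ring
    rw [sum_congr rfl hne, sum_sub_distrib]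
    have hg := gauss_const hΦ (k + 1) (Nat.succ_pos k)
    rw [sum_range_succ] at hg
    have h1 : Real.Gamma ((1 + (k : ℝ)) / ((k + 1 : ℕ) : ℝ)) = 1 := by
      have : (1 + (k : ℝ)) / ((k + 1 : ℕ) : ℝ) = 1 := by push_cast; rw [add_comm]; exact div_self (by positivity)
      rw [this, Real.Gamma_one]
    rw [h1, Complex.ofReal_one, hΦ.one, add_zero] at hg
    rw [hg]
    simp
    ring
  · have hne : ∀ i ∈ range p, (if r + i * d = 0 then (0 : ℂ) else
        Φ (Real.Gamma (((r + i * d : ℕ) : ℝ) / m) : ℝ) - Φ (Real.pi : ℝ) / 2) =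
        Φ (Real.Gamma ((((r : ℚ) / d : ℚ) + i) / p) : ℝ) - Φ (Real.pi : ℝ) / 2 := by
      intro i _
      rw [if_neg (by omega)]
      congr 4
      rw [hmr]
      push_cast
      field_simp
    have hpr : p * r ≠ 0 := by positivity
    rw [sum_congr rfl hne, sum_sub_distrib, gauss_fn hΦ p hp _ (by positivity), if_neg hpr]
    have h5 : (((p * r : ℕ) : ℝ) / m) = (((r : ℚ) / d : ℚ) : ℝ) := by
      rw [hmr]; push_cast
      field_simp
    rw [h5]
    simp
    ring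

theorem gt_OD {m : ℕ} [NeZero m] : OD (gt Φ : ZMod m → ℂ) where
  neg := gt_neg hΦ
  zero := gt_zero
  odd := fun q d _ _ hqd a => gt_dist hΦ hqd a
  two := fun d hd a => by
    have h1 := gt_dist hΦ hd a
    have h2 := gt_dist hΦ hd (0 : ZMod m)
    rw [sum_range_succ, sum_range_one] at h1 h2
    simp only [Nat.cast_zero, zero_mul, add_zero, Nat.cast_one, one_mul, zero_add, mul_zero, gt_zero,
      Nat.cast_ofNat] at h1 h2
    rw [h1, h2, add_zero]

/-- The theorem of Koblitz and Ogus, for the `χ`-components. -/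
theorem koblitz_ogus {m : ℕ} [NeZero m] (χ : DirichletCharacter ℂ m) (hχ : χ.Odd) (ε : ZMod m → ℂ)
    (h : ∑ u : (ZMod m)ˣ, χ u * ∑ a, ε a * (saw ((u : ZMod m) * a) : ℂ) = 0) :
    ∑ u : (ZMod m)ˣ, χ u * ∑ a, ε a * gt Φ ((u : ZMod m) * a) = 0 := by
  obtain ⟨κ, hκ⟩ := exists_const χ hχ (iso_ED χ (gt_OD hΦ (m := m)))
  have e1 : ∑ u : (ZMod m)ˣ, χ u * ∑ a, ε a * gt Φ ((u : ZMod m) * a) = ∑ a, ε a * iso χ (gt Φ) a := by
    unfold iso
    simp only [mul_sum]
    rw [sum_comm]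
    refine sum_congr rfl fun a _ => sum_congr rfl fun u _ => ?_
    ring
  have e2 : ∑ u : (ZMod m)ˣ, χ u * ∑ a, ε a * (saw ((u : ZMod m) * a) : ℂ) = ∑ a, ε a * SS χ a := by
    unfold SS
    simp only [mul_sum]
    rw [sum_comm]
    refine sum_congr rfl fun a _ => sum_congr rfl fun u _ => ?_
    ring
  rw [e2] at h
  rw [e1]
  calc ∑ a, ε a * iso χ (gt Φ) a = κ * ∑ a, ε a * SS χ a := by
        rw [mul_sum]
        refine sum_congr rfl fun a _ => ?_
        rw [hκ a]; ring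
    _ = 0 := by rw [h, mul_zero]

end

end Pool.Agent.T2h95.GD
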