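import Pool.Agent.T2h95.GD.Vec

/-!
Admissible triples as linear maps `F → B`.
-/

set_option autoImplicit false

open scoped TensorProduct

namespace Pool.Agent.T2h95.GD

lemma Qb_mem {z : ℂ} : z ∈ Qb ↔ IsAlgebraic ℚ z := mem_algebraicClosure_iff

lemma emb_mem {F : Type} [Field F] [NumberField F] (σ : F →+* ℂ) (a : F) : σ a ∈ Qb := by
  rw [Qb_mem]
  have h : IsAlgebraic ℚ a := Algebra.IsAlgebraic.isAlgebraic a
  exact h.algHom σ.toRatAlgHom

lemma rat_mem (q : ℚ) : (q : ℂ) ∈ Qb := by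
  have := Qb.algebraMap_mem q
  exact this

lemma ratio {M : HdR} {x : ℂ ⊗[ℚ] M.B} {c : ℂ} (hx : x ∈ M.D) (hc : c • x ∈ M.D) (h0 : x ≠ 0) : c ∈ Qb := by
  obtain ⟨b, hb⟩ := M.form
  rw [hb, Module.Basis.mem_span_iff_repr_mem] at hx hc
  have hne : b.repr x ≠ 0 := fun h => h0 (b.repr.map_eq_zero_iff.mp h)
  obtain ⟨i, hi⟩ := DFunLike.ne_iff.mp hne
  obtain ⟨u, hu⟩ := hx i
  obtain ⟨v, hv⟩ := hc i
  rw [map_smul, Finsupp.smul_apply, smul_eq_mul, ← hu] at hv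
  rw [← hu, Finsupp.zero_apply] at hi
  have : c = algebraMap Qb ℂ v / algebraMap Qb ℂ u := by
    rw [hv]; field_simp
  rw [this]
  exact Qb.div_mem v.2 u.2

lemma smul_mem_D {M : HdR} {x : ℂ ⊗[ℚ] M.B} {c : ℂ} (hx : x ∈ M.D) (hc : c ∈ Qb) : c • x ∈ M.D := by
  have := M.D.smul_mem (⟨c, hc⟩ : Qb) hx
  exact this

/-- `f` is the parametrisation of an admissible triple with periods `P` and Hodge numbers `p` -/
structure IsLine (M : HdR) {F : Type} [Field F] [NumberField F] (f : F →ₗ[ℚ] M.B) (P : (F →+* ℂ) → ℂ)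
    (p : (F →+* ℂ) → ℤ) : Prop where
  inj : Function.Injective f
  hodge : ∀ σ, vec f σ ∈ M.V (p σ)
  dr : ∀ σ, P σ • vec f σ ∈ M.D
  ne : ∀ σ, P σ ≠ 0

section

variable {M : HdR} {F : Type} [Field F] [NumberField F]

lemma psi_mem (f : F →ₗ[ℚ] M.B) (σ τ : F →+* ℂ) : M.ψ.baseChange ℂ (vec f σ) (vec f τ) ∈ Qb := by
  unfold vec
  simp only [map_sum, LinearMap.coe_sum, Finset.sum_apply]
  refine sum_mem fun j _ => sum_mem fun i _ => ?_
  rw [LinearMap.BilinForm.baseChange_tmul]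
  have : (M.ψ (f (dbas F i)) (f (dbas F j))) • (σ (bas F i) * τ (bas F j)) =
    ((M.ψ (f (dbas F i)) (f (dbas F j)) : ℚ) : ℂ) * (σ (bas F i) * τ (bas F j)) := Rat.smul_def _ _
  rw [this]
  exact mul_mem (rat_mem _) (mul_mem (emb_mem σ _) (emb_mem τ _))

lemma disj {p q : ℤ} (h : p ≠ q) {x : ℂ ⊗[ℚ] M.B} (hp : x ∈ M.V p) (hq : x ∈ M.V q) : x = 0 := by
  have h1 := M.internal.submodule_iSupIndep
  have h2 := h1.pairwiseDisjoint h
  exact Submodule.disjoint_def.mp h2 x hp hq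

theorem IsLine.pol {f : F →ₗ[ℚ] M.B} {P : (F →+* ℂ) → ℂ} {p : (F →+* ℂ) → ℤ} (h : IsLine M f P p)
    (σ : F →+* ℂ) : p (cj σ) = M.m - p σ ∧ ∃ u ∈ Qb, u ≠ 0 ∧ P σ * P (cj σ) = u * (Real.pi : ℂ) ^ M.m := by
  have h1 : vec f (cj σ) ∈ M.V (M.m - p σ) := by
    rw [← vec_conj]
    exact M.conj _ _ (h.hodge σ)
  have hne := vec_ne_zero f h.inj σ
  have hne' := vec_ne_zero f h.inj (cj σ)
  refine ⟨?_, ?_⟩
  · by_contra hcon
    exact hne' (disj hcon (h.hodge (cj σ)) h1)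
  · obtain ⟨r, hr, hrr⟩ := M.pos _ _ (h.hodge σ) hne
    rw [vec_conj] at hrr
    set s := M.ψ.baseChange ℂ (vec f σ) (vec f (cj σ)) with hs
    have hs0 : s ≠ 0 := by
      intro h0
      rw [h0, mul_zero] at hrr
      have : (0 : ℝ) = r := by exact_mod_cast hrr
      linarith
    obtain ⟨a, ha, hab⟩ := M.deRham _ (h.dr σ) _ (h.dr (cj σ))
    simp only [map_smul, LinearMap.smul_apply, smul_eq_mul, ← hs] at hab
    have hPs : P σ * P (cj σ) = a / s * (Real.pi : ℂ) ^ M.m := by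
      field_simp
      linear_combination hab
    refine ⟨a / s, div_mem ha (psi_mem f σ (cj σ)), ?_, hPs⟩
    intro h0
    rw [h0, zero_mul] at hPs
    exact mul_ne_zero (h.ne _) (h.ne _) hPs

/-- an equivariant parametrisation of an admissible triple -/
structure Param (T : Admissible M F) (g : F →ₗ[ℚ] T.H) : Prop where
  inj : Function.Injective g
  eqv : ∀ a b, g (a * b) = T.ι a (g b)

variable {T : Admissible M F} {g : F →ₗ[ℚ] T.H}

lemma Param.surj (h : Param T g) : Function.Surjective g :=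
  (LinearMap.injective_iff_surjective_of_finrank_eq_finrank T.dim.symm).mp h.inj

lemma Param.mem_line (h : Param T g) (σ : F →+* ℂ) : vec g σ ∈ T.line σ := by
  intro a
  rw [vec_map]
  have : T.ι a ∘ₗ g = g ∘ₗ LinearMap.mulLeft ℚ a := by
    ext b
    rw [LinearMap.comp_apply, LinearMap.comp_apply, LinearMap.mulLeft_apply, h.eqv]
  rw [this, vec_mul]

lemma Param.span (h : Param T g) (x : ℂ ⊗[ℚ] T.H) : ∃ c : (F →+* ℂ) → ℂ, x = ∑ τ, c τ • vec g τ := by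
  induction x using TensorProduct.induction_on with
  | zero => exact ⟨0, by simp⟩
  | tmul z y =>
    obtain ⟨a, rfl⟩ := h.surj y
    refine ⟨fun τ => z * τ a, ?_⟩
    have : z ⊗ₜ[ℚ] g a = z • ((1 : ℂ) ⊗ₜ[ℚ] g a) := by
      rw [TensorProduct.smul_tmul', smul_eq_mul, mul_one]
    rw [this, one_tmul, Finset.smul_sum]
    simp only [smul_smul]
  | add x y hx hy =>
    obtain ⟨c, hc⟩ := hx
    obtain ⟨d, hd⟩ := hy
    refine ⟨c + d, ?_⟩
    rw [hc, hd, ← Finset.sum_add_distrib]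
    simp only [Pi.add_apply, add_smul]

lemma Param.line_eq (h : Param T g) {σ : F →+* ℂ} {x : ℂ ⊗[ℚ] T.H} (hx : x ∈ T.line σ) :
    ∃ c : ℂ, x = c • vec g σ := by
  obtain ⟨c, hc⟩ := h.span x
  refine ⟨c σ, ?_⟩
  rw [hc]
  refine Finset.sum_eq_single σ (fun τ _ hτ => ?_) (fun h => absurd (Finset.mem_univ _) h)
  obtain ⟨a, ha⟩ : ∃ a, τ a ≠ σ a := by
    by_contra hcon
    push Not at hcon
    exact hτ (RingHom.ext hcon)
  have h1 : (T.ι a).baseChange ℂ x = σ a • x := hx a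
  have h2 : (T.ι a).baseChange ℂ x = ∑ τ, (c τ * τ a) • vec g τ := by
    rw [hc, map_sum]
    refine Finset.sum_congr rfl fun τ _ => ?_
    have h3 : (T.ι a).baseChange ℂ (vec g τ) = τ a • vec g τ := h.mem_line τ a
    rw [map_smul, h3, smul_smul]
  rw [h2, hc, Finset.smul_sum, ← sub_eq_zero, ← Finset.sum_sub_distrib] at h1
  simp only [smul_smul, ← sub_smul] at h1
  have h4 := Fintype.linearIndependent_iff.mp (linearIndependent_vec g h.inj) _ h1 τ
  have h5 : c τ * (τ a - σ a) = 0 := by linear_combination h4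
  rcases mul_eq_zero.mp h5 with h6 | h6
  · rw [h6, zero_smul]
  · exact absurd (sub_eq_zero.mp h6) ha

lemma exists_param (T : Admissible M F) : ∃ g : F →ₗ[ℚ] T.H, Param T g := by
  have hpos : 0 < Module.finrank ℚ T.H := by rw [T.dim]; exact Module.finrank_pos
  have : Nontrivial T.H := Module.nontrivial_of_finrank_pos hpos
  obtain ⟨h, hh⟩ := exists_ne (0 : T.H)
  let g0 : F →+ T.H := AddMonoidHom.mk' (fun a => T.ι a h) fun a b => by rw [map_add, LinearMap.add_apply]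
  have hg : ∀ a b, g0 (a * b) = T.ι a (g0 b) := fun a b => by
    change T.ι (a * b) h = T.ι a (T.ι b h)
    rw [map_mul]; rfl
  refine ⟨g0.toRatLinearMap, ?_, hg⟩
  rw [injective_iff_map_eq_zero]
  intro a ha
  by_contra ha0
  apply hh
  have h1 : T.ι a h = 0 := ha
  have h2 : T.ι (a⁻¹ * a) h = 0 := by
    rw [map_mul]
    change T.ι a⁻¹ (T.ι a h) = 0
    rw [h1, map_zero]
  rw [inv_mul_cancel₀ ha0, map_one] at h2
  exact h2

/-- the value of a linear form at an eigenvector -/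
lemma gamma_vec (g : F →ₗ[ℚ] T.H) (γ : T.H →ₗ[ℚ] ℚ) : ∃ t : F,
    (∀ σ : F →+* ℂ, TensorProduct.AlgebraTensorModule.rid ℚ ℂ ℂ (γ.baseChange ℂ (vec g σ)) = σ t) := by
  refine ⟨∑ i, γ (g (dbas F i)) • bas F i, fun σ => ?_⟩
  unfold vec
  simp only [map_sum, LinearMap.baseChange_tmul, TensorProduct.AlgebraTensorModule.rid_tmul]
  refine Finset.sum_congr rfl fun i _ => ?_
  rw [Rat.smul_def, Rat.smul_def, map_mul, map_ratCast]

lemma gamma_ne (h : Param T g) (γ : T.H →ₗ[ℚ] ℚ) (hγ : γ ≠ 0) : ∃ t : F, t ≠ 0 ∧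
    (∀ σ : F →+* ℂ, TensorProduct.AlgebraTensorModule.rid ℚ ℂ ℂ (γ.baseChange ℂ (vec g σ)) = σ t) := by
  obtain ⟨t, ht⟩ := gamma_vec g γ
  refine ⟨t, ?_, ht⟩
  rintro rfl
  apply hγ
  ext y
  obtain ⟨a, rfl⟩ := h.surj y
  have h1 : TensorProduct.AlgebraTensorModule.rid ℚ ℂ ℂ (γ.baseChange ℂ ((1 : ℂ) ⊗ₜ[ℚ] g a)) = 0 := by
    rw [one_tmul, map_sum, map_sum]
    refine Finset.sum_eq_zero fun σ _ => ?_
    rw [map_smul, map_smul, ht σ, map_zero, smul_zero]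
  rw [LinearMap.baseChange_tmul, TensorProduct.AlgebraTensorModule.rid_tmul, Rat.smul_def, mul_one] at h1
  rw [LinearMap.zero_apply]
  exact_mod_cast h1

lemma subtype_vec (g : F →ₗ[ℚ] T.H) (σ : F →+* ℂ) :
    T.H.subtype.baseChange ℂ (vec g σ) = vec (T.H.subtype ∘ₗ g) σ := vec_map _ _ _

lemma period_iff (h : Param T g) {P : ℂ} {σ : F →+* ℂ} (hP : P ≠ 0)
    (hd : P • vec (T.H.subtype ∘ₗ g) σ ∈ M.D) (z : ℂ) :
    T.Period σ z ↔ ∃ u ∈ Qb, u ≠ 0 ∧ P = u * z := by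
  have hinj : Function.Injective (T.H.subtype ∘ₗ g) := by
    rw [LinearMap.coe_comp]
    exact T.H.injective_subtype.comp h.inj
  have hv0 : vec g σ ≠ 0 := vec_ne_zero g h.inj σ
  constructor
  · intro hT
    have : Nontrivial T.H := by
      have hpos : 0 < Module.finrank ℚ T.H := by rw [T.dim]; exact Module.finrank_pos
      exact Module.nontrivial_of_finrank_pos hpos
    obtain ⟨γ, hγ⟩ : ∃ γ : T.H →ₗ[ℚ] ℚ, γ ≠ 0 := by
      obtain ⟨y, hy⟩ := exists_ne (0 : T.H)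
      by_contra hcon
      push Not at hcon
      exact hy ((Module.forall_dual_apply_eq_zero_iff ℚ y).mp fun φ => by rw [hcon φ]; rfl)
    obtain ⟨t, ht0, ht⟩ := gamma_ne h γ hγ
    obtain ⟨u, hu, hu0, hw⟩ := hT (P • vec g σ) ((T.line σ).smul_mem _ (h.mem_line σ))
      (by rw [map_smul, subtype_vec]; exact hd) (smul_ne_zero hP hv0) γ hγ
    rw [map_smul, map_smul, ht σ, smul_eq_mul] at hw
    have hst : σ t ≠ 0 := fun h => ht0 ((map_eq_zero σ).mp h)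
    refine ⟨u / σ t, div_mem hu (emb_mem σ t), div_ne_zero hu0 hst, ?_⟩
    field_simp
    linear_combination hw
  · rintro ⟨u, hu, hu0, rfl⟩ ω hω hωD hω0 γ hγ
    obtain ⟨c, rfl⟩ := h.line_eq hω
    obtain ⟨t, ht0, ht⟩ := gamma_ne h γ hγ
    have hst : σ t ≠ 0 := fun h => ht0 ((map_eq_zero σ).mp h)
    have hc0 : c ≠ 0 := by
      rintro rfl
      exact hω0 (zero_smul _ _)
    rw [map_smul, subtype_vec] at hωD
    have h1 : c / (u * z) ∈ Qb := by
      refine ratio hd ?_ (smul_ne_zero hP (vec_ne_zero _ hinj σ))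
      rw [smul_smul, div_mul_cancel₀ _ hP]
      exact hωD
    refine ⟨c / (u * z) * u * σ t, mul_mem (mul_mem h1 hu) (emb_mem σ t),
      mul_ne_zero (mul_ne_zero (div_ne_zero hc0 hP) hu0) hst, ?_⟩
    rw [map_smul, map_smul, ht σ, smul_eq_mul]
    have hz : z ≠ 0 := right_ne_zero_of_mul hP
    field_simp

/-- from admissible triples to lines -/
theorem toLine (T : Admissible M F) (p : (F →+* ℂ) → ℤ) (hp : T.HodgeNumbers p) :
    ∃ (f : F →ₗ[ℚ] M.B) (P : (F →+* ℂ) → ℂ), IsLine M f P p ∧ (∀ h ∈ T.H, ∃ a, f a = h) ∧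
      ∀ σ z, T.Period σ z ↔ ∃ u ∈ Qb, u ≠ 0 ∧ P σ = u * z := by
  obtain ⟨g, hg⟩ := exists_param T
  have h1 : ∀ σ, ∃ c : ℂ, c ≠ 0 ∧ c • vec (T.H.subtype ∘ₗ g) σ ∈ M.D := by
    intro σ
    obtain ⟨ω, hω0, hω, hωD⟩ := T.deRham σ
    obtain ⟨c, rfl⟩ := hg.line_eq (σ := σ) (x := ω) hω
    refine ⟨c, ?_, ?_⟩
    · rintro rfl
      exact hω0 (zero_smul _ _)
    · rw [map_smul, subtype_vec] at hωD
      exact hωD
  choose P hP0 hPD using h1
  refine ⟨T.H.subtype ∘ₗ g, P, ⟨?_, ?_, hPD, hP0⟩, ?_, fun σ z => period_iff hg (hP0 σ) (hPD σ) z⟩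
  · rw [LinearMap.coe_comp]
    exact T.H.injective_subtype.comp hg.inj
  · intro σ
    rw [← subtype_vec]
    exact hp σ _ (hg.mem_line σ)
  · intro h hh
    obtain ⟨a, ha⟩ := hg.surj ⟨h, hh⟩
    refine ⟨a, ?_⟩
    rw [LinearMap.comp_apply, ha]
    rfl

end

end Pool.Agent.T2h95.GD
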