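import Pool.Agent.T2h95.GD.Tens

/-!
The structures given by a number field with complex multiplication.
-/

set_option autoImplicit false

open Finset
open scoped TensorProduct

namespace Pool.Agent.T2h95.GD

section approx

variable {K : Type} [Field K] [NumberField K]

omit [NumberField K] in
lemma cj_cj (σ : K →+* ℂ) : cj (cj σ) = σ := by
  ext x
  rw [cj_apply, cj_apply, Complex.conj_conj]

/-- complex conjugation of embeddings -/
noncomputable def cjE (K : Type) [Field K] : (K →+* ℂ) ≃ (K →+* ℂ) := ⟨cj, cj, cj_cj, cj_cj⟩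

lemma approx (z : (K →+* ℂ) → ℂ) (hz : ∀ σ, z (cj σ) = (starRingEnd ℂ) (z σ)) :
    ∃ a : K, ∀ σ : K →+* ℂ, ‖σ a - z σ‖ < 1 := by
  classical
  set r : Fin (Module.finrank ℚ K) → ℂ := fun i => ∑ τ : K →+* ℂ, z τ * τ (dbas K i) with hrdef
  have hr : ∀ i, (starRingEnd ℂ) (r i) = r i := by
    intro i
    simp only [hrdef, map_sum, map_mul]
    refine Fintype.sum_equiv (cjE K) _ _ fun τ => ?_
    change _ = z (cj τ) * (cj τ) (dbas K i)
    rw [hz, cj_apply]
  have hz' : ∀ σ, ∑ i, r i * σ (bas K i) = z σ := by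
    intro σ
    simp only [hrdef, sum_mul]
    rw [sum_comm]
    have : ∀ τ : K →+* ℂ, ∑ i, z τ * τ (dbas K i) * σ (bas K i) = if σ = τ then z τ else 0 := by
      intro τ
      have h := key1 (F := K) σ τ
      calc _ = z τ * ∑ i, σ (bas K i) * τ (dbas K i) := by
            rw [mul_sum]; exact sum_congr rfl fun i _ => by ring
        _ = _ := by rw [h]; split_ifs <;> simp
    simp only [this, sum_ite_eq, mem_univ, if_true]
  set S : ℝ := ∑ σ : K →+* ℂ, ∑ i, ‖σ (bas K i)‖ with hSdef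
  have hS : 0 ≤ S := sum_nonneg fun σ _ => sum_nonneg fun i _ => norm_nonneg _
  have hS1 : 0 < 1 / (S + 1) := by positivity
  choose q hq using fun i => exists_rat_near ((r i).re) hS1
  refine ⟨∑ i, q i • bas K i, fun σ => ?_⟩
  have h1 : σ (∑ i, q i • bas K i) - z σ = ∑ i, ((q i : ℂ) - r i) * σ (bas K i) := by
    rw [← hz' σ, map_sum, ← sum_sub_distrib]
    refine sum_congr rfl fun i _ => ?_
    rw [Rat.smul_def, map_mul, map_ratCast]
    ring
  have h2 : ∀ i, ‖(q i : ℂ) - r i‖ ≤ 1 / (S + 1) := by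
    intro i
    have h3 : r i = (((r i).re : ℝ) : ℂ) := (Complex.conj_eq_iff_re.mp (hr i)).symm
    have h4 : (q i : ℂ) - r i = (((q i : ℝ) - (r i).re : ℝ) : ℂ) := by
      conv_lhs => rw [h3]
      push_cast; rfl
    rw [h4, Complex.norm_real, Real.norm_eq_abs, abs_sub_comm]
    exact (hq i).le
  rw [h1]
  calc ‖∑ i, ((q i : ℂ) - r i) * σ (bas K i)‖ ≤ ∑ i, ‖((q i : ℂ) - r i) * σ (bas K i)‖ := norm_sum_le _ _
    _ ≤ ∑ i, 1 / (S + 1) * ‖σ (bas K i)‖ := by
        refine sum_le_sum fun i _ => ?_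
        rw [norm_mul]
        exact mul_le_mul_of_nonneg_right (h2 i) (norm_nonneg _)
    _ = 1 / (S + 1) * ∑ i, ‖σ (bas K i)‖ := by rw [mul_sum]
    _ ≤ 1 / (S + 1) * S := by
        refine mul_le_mul_of_nonneg_left ?_ hS1.le
        exact single_le_sum (f := fun σ : K →+* ℂ => ∑ i, ‖σ (bas K i)‖)
          (fun σ _ => sum_nonneg fun i _ => norm_nonneg _) (mem_univ σ)
    _ < 1 := by
        rw [div_mul_eq_mul_div, one_mul, div_lt_one (by linarith)]
        linarith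

lemma exists_delta (c : K →+* K) (hc : ∀ (σ : K →+* ℂ) (x : K), σ (c x) = (starRingEnd ℂ) (σ x)) (m : ℕ)
    (typ : (K →+* ℂ) → ℤ) (htyp : ∀ σ, typ (cj σ) = m - typ σ) :
    ∃ δ : K, c δ = (-1) ^ m * δ ∧ ∀ σ : K →+* ℂ, ∃ r : ℝ, 0 < r ∧ Complex.I ^ (2 * typ σ - m) * σ δ = r := by
  have hI : ∀ n : ℤ, (starRingEnd ℂ) (Complex.I ^ n) = Complex.I ^ (-n) := by
    intro n
    rw [map_zpow₀, Complex.conj_I, ← Complex.inv_I, inv_zpow, zpow_neg]
  obtain ⟨a, ha⟩ := approx (K := K) (fun σ => Complex.I ^ ((m : ℤ) - 2 * typ σ)) (fun σ => by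
    rw [hI, htyp]
    congr 1
    ring)
  have hcc : ∀ x, c (c x) = x := by
    intro x
    obtain ⟨σ⟩ : Nonempty (K →+* ℂ) := inferInstance
    apply σ.injective
    rw [hc, hc, Complex.conj_conj]
  have hmm : ((-1 : K) ^ m) * (-1) ^ m = 1 := by
    rw [← mul_pow]; simp
  refine ⟨a + (-1) ^ m * c a, ?_, fun σ => ?_⟩
  · rw [map_add, map_mul, hcc, map_pow, map_neg, map_one]
    linear_combination (-(c a)) * hmm
  · set ζ : ℂ := Complex.I ^ (2 * typ σ - m) with hζ
    have hn : ‖ζ‖ = 1 := by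
      rw [hζ, norm_zpow, Complex.norm_I, one_zpow]
    have h1 : ζ * (-1) ^ m = (starRingEnd ℂ) ζ := by
      rw [hζ, hI]
      have : ((-1 : ℂ) ^ m) = Complex.I ^ (2 * (m : ℤ)) := by
        rw [zpow_mul, zpow_natCast]
        norm_num [Complex.I_sq]
      rw [this, ← zpow_add₀ Complex.I_ne_zero]
      have h4 : (2 * typ σ - (m : ℤ) + 2 * m) = -(2 * typ σ - (m : ℤ)) + 4 * typ σ := by ring
      rw [h4, zpow_add₀ Complex.I_ne_zero, zpow_mul]
      have : (Complex.I ^ (4 : ℤ)) = 1 := by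
        have := Complex.I_pow_four
        exact_mod_cast this
      rw [this, one_zpow, mul_one]
    have h2 : ζ * σ (a + (-1) ^ m * c a) = ζ * σ a + (starRingEnd ℂ) (ζ * σ a) := by
      rw [map_add, map_mul, hc, map_pow, map_neg, map_one, map_mul (starRingEnd ℂ), ← h1]
      ring
    refine ⟨2 * (ζ * σ a).re, ?_, ?_⟩
    · have h3 : ‖ζ * σ a - 1‖ < 1 := by
        have h4 : ζ * Complex.I ^ ((m : ℤ) - 2 * typ σ) = 1 := by
          rw [hζ, ← zpow_add₀ Complex.I_ne_zero]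
          have : (2 * typ σ - (m : ℤ) + ((m : ℤ) - 2 * typ σ)) = 0 := by ring
          rw [this, zpow_zero]
        have h5 : ζ * σ a - 1 = ζ * (σ a - Complex.I ^ ((m : ℤ) - 2 * typ σ)) := by
          rw [mul_sub, h4]
        rw [h5, norm_mul, hn, one_mul]
        exact ha σ
      have h6 : |(ζ * σ a - 1).re| < 1 := lt_of_le_of_lt (Complex.abs_re_le_norm _) h3
      rw [Complex.sub_re, Complex.one_re, abs_lt] at h6
      linarith [h6.1]
    · rw [h2, Complex.add_conj]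

end approx

section line

variable {K : Type} [Field K] [NumberField K]

/-- the form `Tr(δ x c(y))` -/
noncomputable def psiL (δ : K) (c : K →+* K) : LinearMap.BilinForm ℚ K :=
  (Algebra.traceForm ℚ K).compl₁₂ (LinearMap.mulLeft ℚ δ) c.toRatAlgHom.toLinearMap

lemma psiL_apply (δ : K) (c : K →+* K) (x y : K) : psiL δ c x y = Algebra.trace ℚ K (δ * x * c y) := rfl

lemma psiL_vec [DecidableEq (K →+* ℂ)] (δ : K) (c : K →+* K)
    (hc : ∀ (σ : K →+* ℂ) (x : K), σ (c x) = (starRingEnd ℂ) (σ x)) (σ τ : K →+* ℂ) :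
    (psiL δ c).baseChange ℂ (vec (LinearMap.id : K →ₗ[ℚ] K) σ) (vec (LinearMap.id : K →ₗ[ℚ] K) τ) =
      if τ = cj σ then σ δ else 0 := by
  classical
  unfold vec
  simp only [map_sum, LinearMap.coe_sum, Finset.sum_apply, LinearMap.BilinForm.baseChange_tmul, LinearMap.id_apply,
    psiL_apply]
  have h1 : ∀ i j, (Algebra.trace ℚ K (δ * dbas K i * c (dbas K j))) • (σ (bas K i) * τ (bas K j)) =
      ∑ ρ : K →+* ℂ, ρ δ * ((σ (bas K i) * ρ (dbas K i)) * (τ (bas K j) * (cj ρ) (dbas K j))) := by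
    intro i j
    rw [Rat.smul_def, ← sum_emb, sum_mul]
    refine sum_congr rfl fun ρ _ => ?_
    rw [map_mul, map_mul, hc, cj_apply]
    ring
  simp only [h1]
  have h2 : ∀ ρ : K →+* ℂ, ∑ i, ∑ j, ρ δ * ((σ (bas K i) * ρ (dbas K i)) * (τ (bas K j) * (cj ρ) (dbas K j))) =
      ρ δ * ((if σ = ρ then 1 else 0) * (if τ = cj ρ then 1 else 0)) := by
    intro ρ
    rw [← key1 σ ρ, ← key1 τ (cj ρ), Finset.sum_mul_sum, Finset.mul_sum]
    refine sum_congr rfl fun i _ => ?_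
    rw [Finset.mul_sum]
  calc _ = ∑ ρ : K →+* ℂ, ∑ i, ∑ j, ρ δ * ((σ (bas K i) * ρ (dbas K i)) * (τ (bas K j) * (cj ρ) (dbas K j))) := by
        rw [sum_comm, sum_comm (s := (univ : Finset (K →+* ℂ)))]
        refine sum_congr rfl fun i _ => ?_
        rw [sum_comm (s := (univ : Finset (K →+* ℂ)))]
    _ = ∑ ρ : K →+* ℂ, ρ δ * ((if σ = ρ then 1 else 0) * (if τ = cj ρ then 1 else 0)) := sum_congr rfl fun ρ _ => h2 ρ
    _ = _ := by
        rw [sum_eq_single σ]
        · rw [if_pos rfl, one_mul]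
          split_ifs <;> simp
        · intro ρ _ hρ
          rw [if_neg (Ne.symm hρ)]
          ring
        · intro h; exact absurd (mem_univ _) h

lemma psiL_symm (δ : K) (c : K →+* K)
    (hc : ∀ (σ : K →+* ℂ) (x : K), σ (c x) = (starRingEnd ℂ) (σ x)) {m : ℕ} (hδ : c δ = (-1) ^ m * δ) (x y : K) :
    psiL δ c y x = (-1) ^ m * psiL δ c x y := by
  have hcc : ∀ x, c (c x) = x := by
    intro x
    obtain ⟨σ⟩ : Nonempty (K →+* ℂ) := inferInstance
    apply σ.injective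
    rw [hc, hc, Complex.conj_conj]
  have htr : ∀ z, Algebra.trace ℚ K (c z) = Algebra.trace ℚ K z := by
    intro z
    have h1 : ((Algebra.trace ℚ K (c z) : ℚ) : ℂ) = ((Algebra.trace ℚ K z : ℚ) : ℂ) := by
      rw [← sum_emb, ← sum_emb]
      refine Fintype.sum_equiv (cjE K) _ _ fun τ => ?_
      change _ = (cj τ) z
      rw [hc, cj_apply]
    exact_mod_cast h1
  have he : c (δ * y * c x) = (-1) ^ m * δ * c y * x := by rw [map_mul, map_mul, hcc, hδ]
  rw [psiL_apply, psiL_apply, ← htr, he]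
  have : (-1) ^ m * δ * c y * x = ((-1 : ℚ) ^ m) • (δ * x * c y) := by
    rw [Rat.smul_def]
    push_cast
    ring
  rw [this, map_smul, smul_eq_mul]

/-- the basis of eigenvectors -/
noncomputable def wL (K : Type) [Field K] [NumberField K] : Module.Basis (K →+* ℂ) ℂ (ℂ ⊗[ℚ] K) :=
  basisOfLinearIndependentOfCardEqFinrank (linearIndependent_vec (LinearMap.id : K →ₗ[ℚ] K) Function.injective_id)
    (by rw [Module.finrank_baseChange, card_emb])

lemma wL_apply (σ : K →+* ℂ) : wL K σ = vec (LinearMap.id : K →ₗ[ℚ] K) σ := by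
  unfold wL
  rw [coe_basisOfLinearIndependentOfCardEqFinrank]

lemma wL_repr (a : K) (σ : K →+* ℂ) : (wL K).repr ((1 : ℂ) ⊗ₜ[ℚ] a) σ = σ a := by
  classical
  have h : (1 : ℂ) ⊗ₜ[ℚ] a = ∑ τ : K →+* ℂ, τ a • wL K τ := by
    have := one_tmul (LinearMap.id : K →ₗ[ℚ] K) a
    rw [LinearMap.id_apply] at this
    rw [this]
    exact sum_congr rfl fun τ _ => by rw [wL_apply]
  rw [h, Module.Basis.repr_sum_self]

/-- a number field with complex multiplication, types and periods -/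
structure LineD (K : Type) [Field K] [NumberField K] where
  c : K →+* K
  hc : ∀ (σ : K →+* ℂ) (x : K), σ (c x) = (starRingEnd ℂ) (σ x)
  m : ℕ
  typ : (K →+* ℂ) → ℤ
  per : (K →+* ℂ) → ℂ
  per_ne : ∀ σ, per σ ≠ 0
  typ_bar : ∀ σ, typ (cj σ) = m - typ σ
  per_bar : ∀ σ, ∃ a ∈ Qb, per σ * per (cj σ) = a * (Real.pi : ℂ) ^ m

namespace LineD

variable (Y : LineD K)

/-- the parameter of the form -/
noncomputable def δ : K := (exists_delta Y.c Y.hc Y.m Y.typ Y.typ_bar).choose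

lemma hδ : Y.c Y.δ = (-1) ^ Y.m * Y.δ := (exists_delta Y.c Y.hc Y.m Y.typ Y.typ_bar).choose_spec.1

lemma pos (σ : K →+* ℂ) : ∃ r : ℝ, 0 < r ∧ Complex.I ^ (2 * Y.typ σ - Y.m) * σ Y.δ = r :=
  (exists_delta Y.c Y.hc Y.m Y.typ Y.typ_bar).choose_spec.2 σ

/-- the structure -/
noncomputable def toDiag : DiagData where
  B := K
  A := K →+* ℂ
  w := wL K
  act g σ := (g : ℂ →+* ℂ).comp σ
  hact g σ := by rw [wL_apply, wL_apply, gact_vec]
  m := Y.m
  typ := Y.typ
  per := Y.per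
  per_ne := Y.per_ne
  ψ := psiL Y.δ Y.c
  symm := psiL_symm Y.δ Y.c Y.hc Y.hδ
  typ_bar := Y.typ_bar
  ψ_zero σ τ hτ := by
    classical
    rw [wL_apply, wL_apply, psiL_vec _ _ Y.hc, if_neg (show ¬ (τ = cj σ) from hτ)]
  ψ_pos σ := by
    classical
    rw [wL_apply, wL_apply, psiL_vec _ _ Y.hc, if_pos (show (cjA : ℂ →+* ℂ).comp σ = cj σ from rfl)]
    exact Y.pos σ
  ψ_per σ := by
    classical
    rw [wL_apply, wL_apply, psiL_vec _ _ Y.hc, if_pos (show (cjA : ℂ →+* ℂ).comp σ = cj σ from rfl)]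
    obtain ⟨a, ha, h⟩ := Y.per_bar σ
    refine ⟨a * σ Y.δ, mul_mem ha (emb_mem σ _), ?_⟩
    change Y.per σ * Y.per (cj σ) * σ Y.δ = _
    rw [h]
    ring

end LineD

end line

/-- lines in the structures -/
lemma DiagData.isLine (X : DiagData) {F : Type} [Field F] [NumberField F] (f : F →ₗ[ℚ] X.B) (P : (F →+* ℂ) → ℂ)
    (p : (F →+* ℂ) → ℤ) (hf : Function.Injective f) (h1 : ∀ σ, vec f σ ∈ X.part (p σ))
    (h2 : ∀ σ, P σ • vec f σ ∈ X.deR) (h3 : ∀ σ, P σ ≠ 0) :
    IsLine X.toHdR.toOld (F := F) f P p :=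
  ⟨hf, h1, fun σ => (X.toHdR.mem_sp _).mpr (h2 σ), h3⟩

lemma LineD.isLine {K : Type} [Field K] [NumberField K] (Y : LineD K) :
    IsLine Y.toDiag.toHdR.toOld (F := K) (LinearMap.id : K →ₗ[ℚ] K) Y.per Y.typ := by
  classical
  refine Y.toDiag.isLine (LinearMap.id : K →ₗ[ℚ] K) Y.per Y.typ Function.injective_id (fun σ => ?_) (fun σ => ?_) Y.per_ne
  · have := Y.toDiag.w_mem σ
    change wL K σ ∈ _ at this
    rw [wL_apply] at this
    exact this
  · have key : ∀ τ : K →+* ℂ, (wL K).repr (Y.per σ • vec (LinearMap.id : K →ₗ[ℚ] K) σ) τ / Y.per τ ∈ Qb := by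
      intro τ
      rw [← wL_apply, map_smul, Finsupp.smul_apply, Module.Basis.repr_self, Finsupp.single_apply, smul_eq_mul]
      by_cases h : σ = τ
      · rw [if_pos h, h, mul_one, div_self (Y.per_ne τ)]
        exact one_mem _
      · rw [if_neg h, mul_zero, zero_div]
        exact zero_mem _
    exact key

end Pool.Agent.T2h95.GD
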