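import Pool.Agent.T2h95.GD.Fermat

/-!
The reduction to cyclic fields.
-/

set_option autoImplicit false

open Finset
open scoped TensorProduct

namespace Pool.Agent.T2h95.GD

open Pool.Agent.H916R2

lemma alg_of_fn {x y : ℂ} (hx : x ≠ 0) (hy : y ≠ 0) (h : ∀ Φ : ℂ → ℂ, Fn Φ → Φ x = Φ y) :
    ∃ u ∈ Qb, u ≠ 0 ∧ x = u * y := by
  refine ⟨x / y, ?_, div_ne_zero hx hy, by field_simp⟩
  by_contra hc
  obtain ⟨Φ, hΦ, h1⟩ := exists_fn hc
  exact h1 (by rw [hΦ.div x y hx hy, h Φ hΦ, sub_self])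

lemma pi_smul_vec {M : HdR} {F : Type} [Field F] [NumberField F] {f : F →ₗ[ℚ] M.B} {c : ℂ}
    (h : ∀ a, c ⊗ₜ[ℚ] f a ∈ M.D) (σ : F →+* ℂ) : c • vec f σ ∈ M.D := by
  unfold vec
  rw [Finset.smul_sum]
  refine Submodule.sum_mem _ fun i _ => ?_
  rw [TensorProduct.smul_tmul', smul_eq_mul, mul_comm, ← smul_eq_mul, ← TensorProduct.smul_tmul']
  exact smul_mem_D (h _) (emb_mem σ _)

/-- periods of lines of Hodge classes -/
lemma period_of_hodge {𝒞 : HdR → Prop} {F : Type} [Field F] [NumberField F] (hF : HodgeClassesDeRham 𝒞 F)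
    {M : HdR} (hM : 𝒞 M) {f : F →ₗ[ℚ] M.B} {P : (F →+* ℂ) → ℂ} {k : ℕ} (hm : M.m = 2 * k)
    (h : IsLine M f P (fun _ => k)) (σ : F →+* ℂ) : ∃ u ∈ Qb, u ≠ 0 ∧ P σ = u * (Real.pi : ℂ) ^ k := by
  have h1 : ∀ a, ((Real.pi : ℂ) ^ k) ⊗ₜ[ℚ] f a ∈ M.D := fun a =>
    hF M hM h.triple k hm h.hodgeNumbers (f a) ⟨a, rfl⟩
  have h2 := pi_smul_vec h1 σ
  have hpi : (Real.pi : ℂ) ≠ 0 := by exact_mod_cast Real.pi_ne_zero
  have h3 : (P σ / (Real.pi : ℂ) ^ k) • ((Real.pi : ℂ) ^ k) • vec f σ ∈ M.D := by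
    rw [smul_smul, div_mul_cancel₀ _ (pow_ne_zero _ hpi)]
    exact h.dr σ
  have h4 := ratio h2 h3 (smul_ne_zero (pow_ne_zero _ hpi) (vec_ne_zero f h.inj σ))
  exact ⟨_, h4, div_ne_zero (h.ne σ) (pow_ne_zero _ hpi), by field_simp⟩

lemma triv_of_hodge {𝒞 : HdR → Prop} {F : Type} [Field F] [NumberField F] (hF : HodgeClassesDeRham 𝒞 F) :
    Triv 𝒞 F := by
  intro m P p hR hp Φ hΦ s
  obtain ⟨M, hM, rfl, f, hf⟩ := hR
  have h0 : 0 ≤ p s := by have := hp s; omega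
  obtain ⟨k, hk⟩ := Int.eq_ofNat_of_zero_le h0
  have hm : M.m = 2 * k := by have := hp s; omega
  have hpc : p = fun _ => (k : ℤ) := by
    funext σ
    have := hp σ
    omega
  subst hpc
  obtain ⟨u, hu, hu0, h⟩ := period_of_hodge hF hM hm hf s
  have hpi : (Real.pi : ℂ) ≠ 0 := by exact_mod_cast Real.pi_ne_zero
  rw [h, hΦ.mul _ _ hu0 (pow_ne_zero _ hpi), hΦ.alg _ hu, hΦ.pow _ hpi, hm]
  push_cast
  ring

/-- from periods to Hodge classes -/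
lemma hodge_of_period {M : HdR} {F : Type} [Field F] [NumberField F] {f : F →ₗ[ℚ] M.B} {P : (F →+* ℂ) → ℂ}
    {p : (F →+* ℂ) → ℤ} (h : IsLine M f P p) {c : ℂ} (hP : ∀ σ, ∃ u ∈ Qb, u ≠ 0 ∧ P σ = u * c) (a : F) :
    c ⊗ₜ[ℚ] f a ∈ M.D := by
  have h1 : c ⊗ₜ[ℚ] f a = ∑ σ : F →+* ℂ, (σ a) • c • vec f σ := by
    have : c ⊗ₜ[ℚ] f a = c • ((1 : ℂ) ⊗ₜ[ℚ] f a) := by rw [TensorProduct.smul_tmul', smul_eq_mul, mul_one]
    rw [this, one_tmul, Finset.smul_sum]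
    exact Finset.sum_congr rfl fun σ _ => smul_comm _ _ _
  rw [h1]
  refine Submodule.sum_mem _ fun σ _ => smul_mem_D ?_ (emb_mem σ a)
  obtain ⟨u, hu, hu0, h2⟩ := hP σ
  have h3 : c • vec f σ = u⁻¹ • P σ • vec f σ := by
    rw [h2, smul_smul, ← mul_assoc, inv_mul_cancel₀ hu0, one_mul]
  rw [h3]
  exact smul_mem_D (h.dr σ) (inv_mem hu)

section

variable {d : ℕ} [NeZero d] {K : Type} [Field K] [NumberField K] [IsCyclotomicExtension {d} ℚ K]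
  {ζ : K} {t : (ZMod d)ˣ → K →+* ℂ} {𝒞 : HdR → Prop}

/-- the weight is the sum of the values of `ε` -/
lemma sum_eps {F : Type} [Field F] [NumberField F] {m : ℕ} {P : (F →+* ℂ) → ℂ}
    {p : (F →+* ℂ) → ℤ} (hR : Rl 𝒞 F m P p) (ht : IsEmb ζ t) (e : F →+* K) {ε : ZMod d → ℚ}
    (hε : ∀ u : (ZMod d)ˣ, (d : ℚ) * p ((t u).comp e) = ∑ a, ε a * (((u : ZMod d) * a).val : ℚ)) :
    (∑ a ∈ univ.erase (0 : ZMod d), ε a = m) ∧
    ∀ u : (ZMod d)ˣ, (d : ℂ) * ((2 * p ((t u).comp e) - m : ℤ) : ℂ) = ∑ a, (ε a : ℂ) * (saw ((u : ZMod d) * a) : ℂ) := by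
  have hd : (d : ℚ) ≠ 0 := by exact_mod_cast NeZero.ne d
  have hz : ∀ (g : ZMod d → ℚ), g 0 = 0 → ∑ a, g a = ∑ a ∈ univ.erase (0 : ZMod d), g a := fun g hg => by
    rw [← Finset.add_sum_erase _ _ (mem_univ (0 : ZMod d)), hg, zero_add]
  have h1 : ∑ a ∈ univ.erase (0 : ZMod d), ε a = m := by
    have h2 := hε 1
    have h3 := hε (-1)
    have h4 := (hR.pol ((t 1).comp e)).1
    have h5 : cj ((t 1).comp e) = (t (-1)).comp e := by
      rw [← cj_t ht]; rfl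
    rw [h5] at h4
    rw [h4] at h3
    rw [hz _ (by simp)] at h2 h3
    have h6 : (d : ℚ) * m = ∑ a ∈ univ.erase (0 : ZMod d), ε a * d := by
      have : (d : ℚ) * m = (d : ℚ) * p ((t 1).comp e) + (d : ℚ) * ((m - p ((t 1).comp e) : ℤ) : ℚ) := by
        push_cast; ring
      rw [this, h2, h3, ← sum_add_distrib]
      refine sum_congr rfl fun a ha => ?_
      have ha0 : a ≠ 0 := ne_of_mem_erase ha
      have : NeZero a := ⟨ha0⟩
      rw [Units.val_neg, Units.val_one, one_mul, neg_one_mul, ZMod.val_neg_of_ne_zero,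
        Nat.cast_sub (ZMod.val_lt a).le]
      ring
    rw [← sum_mul] at h6
    have : (∑ a ∈ univ.erase (0 : ZMod d), ε a) * d = m * d := by rw [← h6, mul_comm]
    exact mul_right_cancel₀ hd this
  refine ⟨h1, fun u => ?_⟩
  have h2 := hε u
  rw [hz _ (by simp)] at h2
  have h3 : (d : ℚ) * (2 * p ((t u).comp e) - m) = ∑ a, ε a * saw ((u : ZMod d) * a) := by
    rw [hz _ (by simp [saw_zero])]
    calc (d : ℚ) * (2 * p ((t u).comp e) - m) = 2 * ((d : ℚ) * p ((t u).comp e)) - m * d := by ring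
      _ = ∑ a ∈ univ.erase (0 : ZMod d), (2 * (ε a * (((u : ZMod d) * a).val : ℚ)) - ε a * d) := by
        rw [h2, sum_sub_distrib, ← mul_sum, ← sum_mul, h1]
      _ = _ := by
        refine sum_congr rfl fun a ha => ?_
        have ha0 : a ≠ 0 := ne_of_mem_erase ha
        have h4 : (u : ZMod d) * a ≠ 0 := fun h0 => ha0 (by
          simpa using congrArg (fun y => ((u⁻¹ : (ZMod d)ˣ) : ZMod d) * y) h0)
        unfold saw
        rw [if_neg h4]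
        push_cast
        ring
  have h4 : (((d : ℚ) * (2 * p ((t u).comp e) - m) : ℚ) : ℂ) = ((∑ a, ε a * saw ((u : ZMod d) * a) : ℚ) : ℂ) := by
    rw [h3]
  push_cast at h4 ⊢
  exact h4

/-- the difference of the two sides of the conjecture -/
noncomputable def ff (t : (ZMod d)ˣ → K →+* ℂ) {F : Type} [Field F] (e : F →+* K) (m : ℕ) (P : (F →+* ℂ) → ℂ)
    (ε : ZMod d → ℚ) (Φ : ℂ → ℂ) (u : (ZMod d)ˣ) : ℂ :=
  Φ (P ((t u).comp e)) - (m : ℂ) / 2 * Φ (Real.pi : ℝ) + ∑ a, (ε a : ℂ) * gt Φ ((u : ZMod d) * a)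

/-- the components of characters which are trivial on the kernel of restriction -/
theorem odd_trivial (ht : IsEmb ζ t) (hK : Kuenneth 𝒞) (hC : ContainsFermat 𝒞) {Φ : ℂ → ℂ} (hΦ : Fn Φ)
    {F : Type} [Field F] [NumberField F] (e : F →+* K) {m : ℕ} {P : (F →+* ℂ) → ℂ}
    {p : (F →+* ℂ) → ℤ} (hR : Rl 𝒞 F m P p) {ε : ZMod d → ℚ}
    (hε : ∀ u : (ZMod d)ˣ, (d : ℚ) * p ((t u).comp e) = ∑ a, ε a * (((u : ZMod d) * a).val : ℚ))
    {E : Type} [Field E] [NumberField E] (i : E →+* F) (χ : (ZMod d)ˣ →* ℂˣ)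
    (hi : ∀ u, (∀ x, gal d K u (e (i x)) = e (i x)) ↔ χ u = 1) (hE : Triv 𝒞 E) (u : (ZMod d)ˣ) :
    ∑ κ ∈ ker χ, ff t e m P ε Φ (u * κ) = 0 := by
  obtain ⟨hm, hε'⟩ := sum_eps hR ht e hε
  obtain ⟨P', p', hR', hPp⟩ := norm_line ht hK e i χ hi hR
  have hPne : ∀ σ, P σ ≠ 0 := by
    obtain ⟨M, _, _, f, hf⟩ := hR
    exact hf.ne
  set S : ZMod d → (ZMod d)ˣ → ℂ := UU χ (fun x => (saw x : ℂ)) with hS
  set G : ZMod d → (ZMod d)ˣ → ℂ := UU χ (gt Φ) with hG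
  have hsn : ∀ w, S (-w) = - S w := UU_neg χ fun a => by rw [saw_neg]; push_cast; rfl
  have hgn : ∀ w, G (-w) = - G w := UU_neg χ (gt_neg hΦ)
  set B0 : (ZMod d)ˣ → ℂ := fun v => ∑ κ ∈ ker χ, (Φ (P ((t (v * κ)).comp e)) - (m : ℂ) / 2 * Φ (Real.pi : ℝ)) with hB0
  have h0 : NP 𝒞 t Φ (e.comp i) (∑ a, (ε a : ℂ) • S a) B0 := by
    refine ⟨_, P', p', hR', fun v => ⟨?_, ?_⟩⟩
    · rw [(hPp v).2]
      have : (d : ℂ) * ((2 * (∑ κ ∈ ker χ, p ((t (v * κ)).comp e)) - (((ker χ).card * m : ℕ) : ℤ) : ℤ) : ℂ) =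
          ∑ κ ∈ ker χ, (d : ℂ) * ((2 * p ((t (v * κ)).comp e) - m : ℤ) : ℂ) := by
        rw [← mul_sum]
        push_cast
        rw [sum_sub_distrib, ← mul_sum]
        simp
      rw [this]
      simp only [hε', Finset.sum_apply, Pi.smul_apply, hS, UU, smul_eq_mul, mul_sum]
      rw [sum_comm]
    · rw [(hPp v).1, hΦ.prod _ _ fun κ _ => hPne _, hB0]
      simp only
      rw [sum_sub_distrib, sum_const, nsmul_eq_mul]
      push_cast; ring
  -- clearing denominators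
  obtain ⟨N, hN, n, hn⟩ : ∃ N : ℕ, 0 < N ∧ ∃ n : ZMod d → ℤ, ∀ a, (N : ℚ) * ε a = n a := by
    refine ⟨∏ a, (ε a).den, Finset.prod_pos fun a _ => (ε a).den_pos,
      fun a => (∏ b ∈ univ.erase a, ((ε b).den : ℤ)) * (ε a).num, fun a => ?_⟩
    rw [← Finset.mul_prod_erase _ _ (mem_univ a)]
    push_cast
    have : ((ε a).den : ℚ) * ε a = (ε a).num := by rw [mul_comm]; exact Rat.mul_den_eq_num _
    linear_combination (∏ b ∈ univ.erase a, ((ε b).den : ℚ)) * this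
  have hN0 : (N : ℂ) ≠ 0 := by exact_mod_cast hN.ne'
  have hd0 : (d : ℂ) ≠ 0 := by exact_mod_cast NeZero.ne d
  let c : ZMod d → ℕ := fun b => (n b).toNat + (-(n (-b))).toNat
  have hc : ∀ H : ZMod d → (ZMod d)ˣ → ℂ, (∀ w, H (-w) = - H w) →
      ∑ b, c b • H b = ∑ b, (n b : ℂ) • H b := by
    intro H hH
    have e1 : ∑ b, (-(n (-b))).toNat • H b = ∑ b, (-(n b)).toNat • H (-b) := by
      rw [← Equiv.sum_comp (Equiv.neg (ZMod d))]
      simp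
    have e2 : ∑ b, c b • H b = ∑ b, (n b).toNat • H b + ∑ b, (-(n (-b))).toNat • H b := by
      rw [← sum_add_distrib]
      exact sum_congr rfl fun b _ => add_smul _ _ _
    rw [e2, e1, ← sum_add_distrib]
    refine sum_congr rfl fun b _ => ?_
    rw [hH]
    funext v
    simp only [Pi.add_apply, Pi.smul_apply, nsmul_eq_mul, smul_eq_mul]
    have h3 : (n b : ℂ) = ((n b).toNat : ℂ) - ((-(n b)).toNat : ℂ) := by
      have h4 : n b = ((n b).toNat : ℤ) - ((-(n b)).toNat : ℤ) := by omega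
      exact_mod_cast congrArg (fun z : ℤ => (z : ℂ)) h4
    rw [h3]
    simp
    ring
  have h1 : NA 𝒞 t Φ (e.comp i) (∑ b, c b • (-(d : ℂ) • S b)) (∑ b, c b • ((d : ℂ) • G b)) :=
    NA.sum univ _ _ fun b _ => (fermat_all ht hK hC hΦ (e.comp i) χ hi b).nsmul (c b)
  obtain ⟨r, hr⟩ : ∃ r, N * d = r + 1 := ⟨N * d - 1, by
    have : 0 < N * d := Nat.mul_pos hN (NeZero.pos d)
    omega⟩
  have h2 := h1 _ _ ((NA.of hK hΦ h0).nsmul r _ _ h0)
  have hrc : (r : ℂ) + 1 = N * d := by exact_mod_cast hr.symm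
  have hA : (∑ a, (ε a : ℂ) • S a + r • ∑ a, (ε a : ℂ) • S a) + ∑ b, c b • (-(d : ℂ) • S b) = 0 := by
    have e1 : ∑ b, c b • (-(d : ℂ) • S b) = -(d : ℂ) • ∑ b, c b • S b := by
      rw [smul_sum]
      exact sum_congr rfl fun b _ => smul_comm _ _ _
    have e2 : ∑ b, (n b : ℂ) • S b = (N : ℂ) • ∑ a, (ε a : ℂ) • S a := by
      rw [smul_sum]
      refine sum_congr rfl fun b _ => ?_
      rw [smul_smul]
      congr 1
      have : ((N : ℚ) * ε b : ℚ) = ((n b : ℤ) : ℚ) := hn b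
      exact_mod_cast (congrArg (fun q : ℚ => (q : ℂ)) this).symm
    rw [e1, hc S hsn, e2]
    funext v
    simp only [Pi.add_apply, Pi.smul_apply, Pi.zero_apply]
    simp only [nsmul_eq_mul, smul_eq_mul]
    linear_combination ((∑ a, (ε a : ℂ) • S a) v) * hrc
  rw [hA] at h2
  have h3 := congrFun (NP.zero ht hΦ hE h2) u
  have e3 : ∑ b, c b • ((d : ℂ) • G b) = (d : ℂ) • (N : ℂ) • ∑ a, (ε a : ℂ) • G a := by
    have e1 : ∑ b, c b • ((d : ℂ) • G b) = (d : ℂ) • ∑ b, c b • G b := by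
      rw [smul_sum]
      exact sum_congr rfl fun b _ => smul_comm _ _ _
    rw [e1, hc G hgn]
    congr 1
    rw [smul_sum]
    refine sum_congr rfl fun b _ => ?_
    rw [smul_smul]
    congr 1
    have : ((N : ℚ) * ε b : ℚ) = ((n b : ℤ) : ℚ) := hn b
    exact_mod_cast (congrArg (fun q : ℚ => (q : ℂ)) this).symm
  rw [e3] at h3
  simp only [Pi.add_apply, Pi.smul_apply, Pi.zero_apply] at h3
  simp only [nsmul_eq_mul, smul_eq_mul] at h3
  have h4 : ∑ κ ∈ ker χ, ff t e m P ε Φ (u * κ) = B0 u + (∑ a, (ε a : ℂ) • G a) u := by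
    simp only [ff, hB0, hG, UU, sum_add_distrib, Finset.sum_apply, Pi.smul_apply, smul_eq_mul, mul_sum]
    congr 1
    rw [sum_comm]
  have h5 : ((N : ℂ) * d) * (B0 u + (∑ a, (ε a : ℂ) • G a) u) = 0 := by
    linear_combination h3 - B0 u * hrc
  rw [h4]
  exact (mul_eq_zero.mp h5).resolve_left (mul_ne_zero hN0 hd0)

end

end Pool.Agent.T2h95.GD
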