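import Pool.Agent.T2h95.GD.Final

/-!
Products of lines over different fields, and lines of weight two.
-/

set_option autoImplicit false

open Finset
open scoped TensorProduct

namespace Pool.Agent.T2h95.GD

lemma distrib_vec' {E F : Type} [Field E] [NumberField E] [Field F] [NumberField F] (i : E →+* F) {B B' : Type}
    [AddCommGroup B] [Module ℚ B] [AddCommGroup B'] [Module ℚ B'] (f : E →ₗ[ℚ] B) (f' : F →ₗ[ℚ] B') :
    ∃ g : F →ₗ[ℚ] B ⊗[ℚ] B', (∀ σ, vec g σ =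
      (TensorProduct.AlgebraTensorModule.distribBaseChange ℚ ℂ B B').symm (vec f (σ.comp i) ⊗ₜ[ℂ] vec f' σ)) := by
  classical
  let g : F →ₗ[ℚ] B ⊗[ℚ] B' := ∑ j, (TensorProduct.mk ℚ B B' (f (dbas E j))) ∘ₗ
    (f' ∘ₗ LinearMap.mulLeft ℚ (i (bas E j)))
  have hg : ∀ a, g a = ∑ j, f (dbas E j) ⊗ₜ[ℚ] f' (i (bas E j) * a) := by
    intro a
    simp only [g, LinearMap.coe_sum, Finset.sum_apply]
    rfl
  refine ⟨g, fun σ => ?_⟩
  refine vec_unique g (fun σ => (TensorProduct.AlgebraTensorModule.distribBaseChange ℚ ℂ B B').symm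
    (vec f (σ.comp i) ⊗ₜ[ℂ] vec f' σ)) (fun a => ?_) σ
  have h1 : ∀ x : B, ∀ y : B', (1 : ℂ) ⊗ₜ[ℚ] (x ⊗ₜ[ℚ] y) =
      (TensorProduct.AlgebraTensorModule.distribBaseChange ℚ ℂ B B').symm
        (((1 : ℂ) ⊗ₜ[ℚ] x) ⊗ₜ[ℂ] ((1 : ℂ) ⊗ₜ[ℚ] y)) := by
    intro x y
    rw [TensorProduct.AlgebraTensorModule.distribBaseChange_symm_tmul, one_mul]
  rw [hg, TensorProduct.tmul_sum]
  simp only [h1, ← map_sum, ← map_smul]
  congr 1
  have h2 : ∀ σ : F →+* ℂ, vec f (σ.comp i) = ∑ j, σ (i (bas E j)) • ((1 : ℂ) ⊗ₜ[ℚ] f (dbas E j)) := by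
    intro σ
    unfold vec
    refine Finset.sum_congr rfl fun j _ => ?_
    rw [TensorProduct.smul_tmul', smul_eq_mul, mul_one]
    rfl
  have h3 : ∀ b : F, (1 : ℂ) ⊗ₜ[ℚ] f' b = ∑ σ : F →+* ℂ, σ b • vec f' σ := one_tmul f'
  simp only [h3, h2, TensorProduct.sum_tmul, TensorProduct.tmul_sum, TensorProduct.tmul_smul,
    ← TensorProduct.smul_tmul', Finset.smul_sum, smul_smul, map_mul]
  rw [Finset.sum_comm]
  refine Finset.sum_congr rfl fun σ _ => Finset.sum_congr rfl fun j _ => ?_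
  rw [mul_comm]

/-- products of lines over different fields -/
theorem Rl.mixed {𝒞 : HdR → Prop} (hK : Kuenneth 𝒞) {E F : Type} [Field E] [NumberField E] [Field F] [NumberField F]
    (i : E →+* F) {m m' : ℕ} {P : (E →+* ℂ) → ℂ} {p : (E →+* ℂ) → ℤ} (hE : Rl 𝒞 E m P p)
    {P' : (F →+* ℂ) → ℂ} {p' : (F →+* ℂ) → ℤ} (hF : Rl 𝒞 F m' P' p') :
    Rl 𝒞 F (m + m') (fun σ => P (σ.comp i) * P' σ) (fun σ => p (σ.comp i) + p' σ) := by
  obtain ⟨M, hM, rfl, f, h⟩ := hE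
  obtain ⟨N, hN, rfl, f', h'⟩ := hF
  obtain ⟨L, hL, hm, j, hj, hD, hV⟩ := hK M N hM hN
  obtain ⟨g, hg⟩ := distrib_vec' i f f'
  refine ⟨L, hL, hm, j ∘ₗ g, ?_, ?_, ?_, ?_⟩
  · rw [LinearMap.coe_comp]
    refine hj.comp ?_
    rw [injective_iff_map_eq_zero]
    intro a ha
    have h1 : (1 : ℂ) ⊗ₜ[ℚ] g a = 0 := by rw [ha, TensorProduct.tmul_zero]
    rw [one_tmul] at h1
    simp only [hg, ← map_smul, ← map_sum] at h1
    rw [LinearEquiv.map_eq_zero_iff] at h1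
    have h2 : LinearIndependent ℂ (fun στ : (E →+* ℂ) × (F →+* ℂ) => vec f στ.1 ⊗ₜ[ℂ] vec f' στ.2) :=
      LinearIndependent.tmul_of_flat_left (linearIndependent_vec f h.inj) (linearIndependent_vec f' h'.inj)
    have h3 := h2.comp (fun σ : F →+* ℂ => (σ.comp i, σ)) (fun σ τ hστ => (Prod.mk.inj hστ).2)
    have h4 := Fintype.linearIndependent_iff.mp h3 (fun σ => σ a) h1
    obtain ⟨σ⟩ : Nonempty (F →+* ℂ) := inferInstance
    exact (map_eq_zero σ).mp (h4 σ)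
  · intro σ
    rw [← vec_map, hg]
    exact hV _ _ _ (h.hodge _) _ (h'.hodge σ)
  · intro σ
    rw [← vec_map, hg]
    have : (P (σ.comp i) * P' σ) • (TensorProduct.AlgebraTensorModule.distribBaseChange ℚ ℂ M.B N.B).symm
        (vec f (σ.comp i) ⊗ₜ[ℂ] vec f' σ) = (TensorProduct.AlgebraTensorModule.distribBaseChange ℚ ℂ M.B N.B).symm
        ((P (σ.comp i) • vec f (σ.comp i)) ⊗ₜ[ℂ] (P' σ • vec f' σ)) := by
      rw [← map_smul]
      congr 1
      rw [TensorProduct.tmul_smul, ← TensorProduct.smul_tmul', smul_smul, mul_comm]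
    rw [← map_smul, this]
    exact hD _ (h.dr _) _ (h'.dr σ)
  · intro σ
    exact mul_ne_zero (h.ne _) (h'.ne σ)

section

variable {d : ℕ} [NeZero d] {K : Type} [Field K] [NumberField K] [IsCyclotomicExtension {d} ℚ K]
  {ζ : K} {t : (ZMod d)ˣ → K →+* ℂ} {𝒞 : HdR → Prop}

lemma comp_gal_neg (ht : IsEmb ζ t) (σ : K →+* ℂ) :
    σ.comp ((gal d K (-1) : K ≃ₐ[ℚ] K) : K →+* K) = cj σ := by
  obtain ⟨u, rfl⟩ := t_surj ht σ
  ext x
  change t u (gal d K (-1) x) = cj (t u) x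
  rw [t_gal ht, cj_t ht, mul_neg, mul_one]

/-- lines of weight two and type `(1,1)` with period `π` -/
theorem base_line (ht : IsEmb ζ t) (hK : Kuenneth 𝒞) (hC : ContainsFermat 𝒞) (h1 : (1 : ZMod d) ≠ 0)
    (h2 : (1 : ZMod d) + 1 ≠ 0) {F : Type} [Field F] [NumberField F] (e : F →+* K) :
    Rl 𝒞 F 2 (fun _ => (Real.pi : ℂ)) (fun _ => 1) := by
  obtain ⟨M, hM, hm, T, p, hp, -⟩ := hC d K ζ t ht 1 1 h1 h1 h2
  obtain ⟨f, P, hf, -, -⟩ := toLine T p hp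
  have hR : Rl 𝒞 K 1 P p := ⟨M, hM, hm, f, hf⟩
  have hR2 := hR.mul hK (hR.twist (gal d K (-1)))
  obtain ⟨N, hN, hNm, g, hg⟩ := hR2
  have hpi : (Real.pi : ℂ) ≠ 0 := by exact_mod_cast Real.pi_ne_zero
  refine ⟨N, hN, hNm, g ∘ₗ e.toRatAlgHom.toLinearMap, ?_⟩
  refine hg.restrict e.toRatAlgHom _ _ (fun σ => ?_) (fun σ => ?_) (fun s => hpi)
  · obtain ⟨u, hu, hu0, h⟩ := (hR.pol σ).2
    refine ⟨u⁻¹, inv_mem hu, ?_⟩
    rw [Pi.mul_apply, comp_gal_neg ht, h, pow_one, ← mul_assoc, inv_mul_cancel₀ hu0, one_mul]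
  · rw [Pi.add_apply, comp_gal_neg ht, (hR.pol σ).1]
    push_cast
    ring

lemma one_add_one_ne (ht : IsEmb ζ t) {E : Type} [Field E] [NumberField E] (hE : NumberField.IsTotallyComplex E)
    (e : E →+* K) : (1 : ZMod d) ≠ 0 ∧ (1 : ZMod d) + 1 ≠ 0 := by
  have key : (1 : ZMod d) + 1 ≠ 0 := by
    intro h0
    have h1 : (-1 : (ZMod d)ˣ) = 1 := by
      apply Units.ext
      rw [Units.val_neg, Units.val_one]
      exact neg_eq_of_add_eq_zero_left h0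
    have hcx := hE.isComplex (NumberField.InfinitePlace.mk ((t 1).comp e))
    rw [NumberField.InfinitePlace.isComplex_mk_iff] at hcx
    apply hcx
    rw [NumberField.ComplexEmbedding.isReal_iff]
    have h2 : cj ((t 1).comp e) = (t (-1)).comp e := by
      rw [← cj_t ht]; rfl
    rw [h1] at h2
    exact h2
  refine ⟨fun h0 => key ?_, key⟩
  rw [h0, add_zero]

end

lemma complex_of_sub {E F : Type} [Field E] [NumberField E] [Field F] [NumberField F] (i : E →+* F)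
    (hE : NumberField.IsTotallyComplex E) : NumberField.IsTotallyComplex F := by
  refine ⟨fun v => ?_⟩
  rw [NumberField.InfinitePlace.isComplex_iff]
  intro hreal
  have hcx := hE.isComplex (NumberField.InfinitePlace.mk (v.embedding.comp i))
  rw [NumberField.InfinitePlace.isComplex_mk_iff] at hcx
  apply hcx
  rw [NumberField.ComplexEmbedding.isReal_iff] at hreal ⊢
  ext x
  exact RingHom.congr_fun hreal (i x)

/-- from the Gross-Deligne conjecture to Hodge classes over the totally complex subfields -/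
theorem hodge_of_gd' {𝒞 : HdR → Prop} (hK : Kuenneth 𝒞) (hC : ContainsFermat 𝒞) {F : Type} [Field F] [NumberField F]
    {n : ℕ} (hn : 0 < n) {s : F →+* ℂ}
    (hs : ∀ x, s x ∈ IntermediateField.adjoin ℚ {Complex.exp (2 * Real.pi * Complex.I / n)})
    (h : GrossDeligne 𝒞 F) {E : Type} [Field E] [NumberField E] (i : E →+* F)
    (hE : NumberField.IsTotallyComplex E) : HodgeClassesDeRham 𝒞 E := by
  have hF := hodge_of_gd (complex_of_sub i hE) hn hs h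
  have : NeZero n := ⟨hn.ne'⟩
  obtain ⟨K, _, _, _, e, ζ, t, ht⟩ := exists_cyc s hs
  obtain ⟨h1, h2⟩ := one_add_one_ne ht hE (e.comp i)
  have hb := base_line ht hK hC h1 h2 e
  have hpi : (Real.pi : ℂ) ≠ 0 := by exact_mod_cast Real.pi_ne_zero
  intro M hM T k hm hp
  obtain ⟨f, P, hf, hsurj, hper⟩ := toLine T _ hp
  have hR : Rl 𝒞 E M.m P (fun _ => (k : ℤ)) := ⟨M, hM, rfl, f, hf⟩
  obtain ⟨N, hN, hNm, g, hg⟩ := hR.mixed hK i hb
  have hPk : ∀ σ, ∃ u ∈ Qb, u ≠ 0 ∧ P σ = u * (Real.pi : ℂ) ^ k := by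
    intro σ
    obtain ⟨u, rfl⟩ := ext_emb ht (e.comp i) σ
    have hg' : IsLine N g (fun σ => P (σ.comp i) * (Real.pi : ℂ)) (fun _ => ((k + 1 : ℕ) : ℤ)) := hg
    obtain ⟨w, hw, hw0, h3⟩ := period_of_hodge hF hN (by rw [hNm, hm]; ring) hg' ((t u).comp e)
    refine ⟨w, hw, hw0, ?_⟩
    have h4 : P ((t u).comp (e.comp i)) * (Real.pi : ℂ) = w * (Real.pi : ℂ) ^ k * (Real.pi : ℂ) := by
      rw [mul_assoc, ← pow_succ, ← h3]
      rfl
    exact mul_right_cancel₀ hpi h4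
  intro x hx
  obtain ⟨a, rfl⟩ := hsurj x hx
  exact hodge_of_period hf hPk a

theorem fin_of_hodge {𝒞 : HdR → Prop} {E : Type} [Field E] [NumberField E] (h : HodgeClassesDeRham 𝒞 E) :
    FinitelyManyPeriods 𝒞 E := by
  refine ⟨0, {fun _ => 1}, fun M hM T k _ hm hp => ⟨_, Finset.mem_singleton_self _, fun σ => ?_⟩⟩
  obtain ⟨f, P, hf, -, hper⟩ := toLine T _ hp
  rw [hper, one_mul]
  exact period_of_hodge h hM hm hf σ

theorem hodge_of_fin {𝒞 : HdR → Prop} (hK : Kuenneth 𝒞) {E : Type} [Field E] [NumberField E]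
    (hb : Rl 𝒞 E 2 (fun _ => (Real.pi : ℂ)) (fun _ => 1))
    (h : FinitelyManyPeriods 𝒞 E) : HodgeClassesDeRham 𝒞 E := by
  obtain ⟨W, Z, hZ⟩ := h
  intro M hM T k hm hp
  obtain ⟨f, P, hf, hsurj, hper⟩ := toLine T _ hp
  have hR : Rl 𝒞 E M.m P (fun _ => (k : ℤ)) := ⟨M, hM, rfl, f, hf⟩
  have hpi : (Real.pi : ℂ) ≠ 0 := by exact_mod_cast Real.pi_ne_zero
  have hRW := hR.pow hK hb W
  have h1 : ∀ n : ℕ, ∃ z ∈ Z, ∀ σ, ∃ u ∈ Qb, u ≠ 0 ∧
      P σ ^ (n + 1) * (Real.pi : ℂ) ^ W = u * (z σ * (Real.pi : ℂ) ^ ((n + 1) * k + W)) := by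
    intro n
    obtain ⟨N, hN, hNm, g, hg⟩ := hRW.pow hK hR n
    have hp' : ((fun _ => (k : ℤ)) + W • (fun _ => (1 : ℤ)) + n • (fun _ => (k : ℤ)) : (E →+* ℂ) → ℤ) =
        fun _ => (((n + 1) * k + W : ℕ) : ℤ) := by
      funext σ
      change (k : ℤ) + W • (1 : ℤ) + n • (k : ℤ) = _
      rw [nsmul_eq_mul, nsmul_eq_mul]
      push_cast; ring
    have hP' : P * (fun _ => (Real.pi : ℂ)) ^ W * P ^ n = fun σ => P σ ^ (n + 1) * (Real.pi : ℂ) ^ W := by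
      funext σ
      simp only [Pi.mul_apply, Pi.pow_apply]
      ring
    rw [hp', hP'] at hg
    obtain ⟨z, hz, hz'⟩ := hZ N hN hg.triple ((n + 1) * k + W) (by omega) (by rw [hNm, hm]; ring) hg.hodgeNumbers
    refine ⟨z, hz, fun σ => ?_⟩
    have := hz' σ
    rw [hg.period] at this
    exact this
  choose z hzZ hz using h1
  obtain ⟨n, n', hnn, hzn⟩ : ∃ n n', n < n' ∧ z n = z n' := by
    have hninj : ¬ Function.Injective (fun n => (⟨z n, hzZ n⟩ : Z)) := not_injective_infinite_finite _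
    simp only [Function.Injective, not_forall] at hninj
    obtain ⟨a, b, hab, hne⟩ := hninj
    rcases lt_or_gt_of_ne hne with h | h
    · exact ⟨a, b, h, congrArg Subtype.val hab⟩
    · exact ⟨b, a, h, (congrArg Subtype.val hab).symm⟩
  have hPk : ∀ σ, ∃ u ∈ Qb, u ≠ 0 ∧ P σ = u * (Real.pi : ℂ) ^ k := by
    intro σ
    refine alg_of_fn (hf.ne _) (pow_ne_zero _ hpi) fun Φ hΦ => ?_
    have hpW : (Real.pi : ℂ) ^ W ≠ 0 := pow_ne_zero _ hpi
    have hz0 : ∀ n, z n σ ≠ 0 := by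
      intro n h0
      obtain ⟨u, hu, hu0, h2⟩ := hz n σ
      rw [h0, zero_mul, mul_zero] at h2
      exact mul_ne_zero (pow_ne_zero _ (hf.ne σ)) hpW h2
    have h2 : ∀ n : ℕ, ((n + 1 : ℕ) : ℂ) * Φ (P σ) + W * Φ (Real.pi : ℂ) =
        Φ (z n σ) + (((n + 1) * k + W : ℕ) : ℂ) * Φ (Real.pi : ℂ) := by
      intro n
      obtain ⟨u, hu, hu0, h2⟩ := hz n σ
      have h3 := congrArg Φ h2
      rw [hΦ.mul _ _ (pow_ne_zero _ (hf.ne σ)) hpW, hΦ.pow _ (hf.ne σ), hΦ.pow _ hpi,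
        hΦ.mul _ _ hu0 (mul_ne_zero (hz0 n) (pow_ne_zero _ hpi)), hΦ.alg _ hu,
        hΦ.mul _ _ (hz0 n) (pow_ne_zero _ hpi), hΦ.pow _ hpi, zero_add] at h3
      exact h3
    have h3 := h2 n
    have h4 := h2 n'
    rw [← hzn] at h4
    rw [hΦ.pow _ hpi]
    push_cast at h3 h4
    have h5 : ((n' : ℂ) - n) * (Φ (P σ) - k * Φ (Real.pi : ℂ)) = 0 := by
      linear_combination h4 - h3
    have h6 : ((n' : ℂ) - n) ≠ 0 := by
      rw [sub_ne_zero]
      exact_mod_cast hnn.ne'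
    exact sub_eq_zero.mp ((mul_eq_zero.mp h5).resolve_left h6)
  intro x hx
  obtain ⟨a, rfl⟩ := hsurj x hx
  exact hodge_of_period hf hPk a

end Pool.Agent.T2h95.GD
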