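import Mathlib

/-!
# The Gross-Deligne conjecture: definitions

Betti-de Rham-Hodge structures over the field of algebraic numbers, admissible triples, periods.
-/

set_option autoImplicit false

open scoped TensorProduct

namespace Pool.Agent.T2h95.GDS

/-- the field of algebraic numbers, a subfield of `ℂ` -/
noncomputable abbrev Qb : IntermediateField ℚ ℂ := algebraicClosure ℚ ℂ

section

variable (B : Type) [AddCommGroup B] [Module ℚ B]

/-- the complex vector space `ℂ ⊗ B` -/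
def Cx : Type := ℂ ⊗[ℚ] B

noncomputable instance : AddCommGroup (Cx B) := @TensorProduct.addCommGroup ℚ _ ℂ B _ _ _ _

noncomputable instance : Module ℂ (Cx B) := @TensorProduct.leftModule ℚ ℂ _ _ ℂ B _ _ _ _ _ _

end

section

variable {B B' : Type} [AddCommGroup B] [Module ℚ B] [AddCommGroup B'] [Module ℚ B']

/-- the element `z ⊗ b` of `ℂ ⊗ B` -/
noncomputable def tmul (z : ℂ) (b : B) : Cx B := z ⊗ₜ[ℚ] b

/-- complex conjugation on the coefficients of `ℂ ⊗ B` -/
noncomputable def conj (x : Cx B) : Cx B :=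
  LinearMap.rTensor B (Complex.conjAe.toLinearMap.restrictScalars ℚ) x

/-- the extension of a linear map `B → B'` to `ℂ ⊗ B → ℂ ⊗ B'` -/
noncomputable def map (f : B →ₗ[ℚ] B') (x : Cx B) : Cx B' := f.baseChange ℂ x

/-- the extension of a bilinear form to `ℂ ⊗ B` -/
noncomputable def bil (ψ : LinearMap.BilinForm ℚ B) (x y : Cx B) : ℂ := ψ.baseChange ℂ x y

/-- the value of a linear form on `B` at an element of `ℂ ⊗ B` -/
noncomputable def value (γ : B →ₗ[ℚ] ℚ) (x : Cx B) : ℂ :=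
  TensorProduct.AlgebraTensorModule.rid ℚ ℂ ℂ (γ.baseChange ℂ x)

variable (B B') in
/-- the isomorphism of `(ℂ ⊗ B) ⊗ (ℂ ⊗ B')` (over `ℂ`) and `ℂ ⊗ (B ⊗ B')` -/
noncomputable def dist : Cx B ⊗[ℂ] Cx B' ≃ₗ[ℂ] Cx (B ⊗[ℚ] B') :=
  (TensorProduct.AlgebraTensorModule.distribBaseChange ℚ ℂ B B').symm

/-- the product `ℂ ⊗ B × ℂ ⊗ B' → ℂ ⊗ (B ⊗ B')` -/
noncomputable def prod (x : Cx B) (y : Cx B') : Cx (B ⊗[ℚ] B') := dist B B' (x ⊗ₜ[ℂ] y)

/-- `D` is a `ℚ̄`-form of `ℂ ⊗ B`: the set of the vectors whose coordinates in some basis are algebraic numbers -/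
def IsForm (D : Set (Cx B)) : Prop :=
  ∃ b : Module.Basis (Fin (Module.finrank ℚ B)) ℂ (Cx B), D = {x | ∀ i, b.repr x i ∈ Qb}

/-- the `V p` are the parts `H^{p,m-p}` of a Hodge structure of weight `m` on `B` -/
structure IsHodge (m : ℕ) (V : ℤ → Submodule ℂ (Cx B)) : Prop where
  internal : DirectSum.IsInternal V
  conj : ∀ p : ℤ, ∀ x ∈ V p, conj x ∈ V (m - p)

/-- `ψ` is a polarization of the Hodge structure -/
structure IsPolarization (m : ℕ) (V : ℤ → Submodule ℂ (Cx B)) (ψ : LinearMap.BilinForm ℚ B) : Prop where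
  symm : ∀ x y : B, ψ y x = (-1) ^ m * ψ x y
  orth : ∀ p q : ℤ, p + q ≠ m → ∀ x ∈ V p, ∀ y ∈ V q, bil ψ x y = 0
  pos : ∀ p : ℤ, ∀ x ∈ V p, x ≠ 0 → ∃ r : ℝ, 0 < r ∧ Complex.I ^ (2 * p - m) * bil ψ x (conj x) = r

/-- the values of `ψ` on `D` are in `(2πi)^m ℚ̄ = π^m ℚ̄` -/
def IsDeRham (m : ℕ) (D : Set (Cx B)) (ψ : LinearMap.BilinForm ℚ B) : Prop :=
  ∀ x ∈ D, ∀ y ∈ D, ∃ a ∈ Qb, bil ψ x y = a * (Real.pi : ℂ) ^ m

/-- the map `ℂ ⊗ H → ℂ ⊗ B` of a subspace `H` of `B` -/
noncomputable def incl (H : Submodule ℚ B) (x : Cx H) : Cx B := map H.subtype x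

/-- `H` is a sub-Hodge structure -/
def IsSub (V : ℤ → Submodule ℂ (Cx B)) (H : Submodule ℚ B) : Prop :=
  ∀ x : Cx H, ∃ (s : Finset ℤ) (y : ℤ → Cx H), (∀ p, incl H (y p) ∈ V p) ∧ x = ∑ p ∈ s, y p

/-- `x` is in the line `B_σ`, for the action `ι` of `F` on `B` -/
def InLine {F : Type} [Field F] (ι : F →+* Module.End ℚ B) (σ : F →+* ℂ) (x : Cx B) : Prop :=
  ∀ a : F, map (ι a) x = σ a • x

/-- the `ι a` are endomorphisms of the sub-Hodge structure `H` -/
def IsHodgeAction {F : Type} [Field F] (V : ℤ → Submodule ℂ (Cx B)) {H : Submodule ℚ B} (ι : F →+* Module.End ℚ H) :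
    Prop :=
  ∀ (a : F) (p : ℤ) (x : Cx H), incl H x ∈ V p → incl H (map (ι a) x) ∈ V p

/-- each line `H_σ` contains a nonzero element of `D` -/
def IsDeRhamAction {F : Type} [Field F] (D : Set (Cx B)) {H : Submodule ℚ B} (ι : F →+* Module.End ℚ H) : Prop :=
  ∀ σ : F →+* ℂ, ∃ ω : Cx H, ω ≠ 0 ∧ InLine ι σ ω ∧ incl H ω ∈ D

/-- the values of the rational linear forms `γ ≠ 0` at `x` are the products of `z` and nonzero algebraic numbers -/
def ValuesIn (x : Cx B) (z : ℂ) : Prop :=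
  ∀ γ : B →ₗ[ℚ] ℚ, γ ≠ 0 → ∃ u ∈ Qb, u ≠ 0 ∧ value γ x = u * z

/-- the linear map `j` on the tensor product maps the products of the elements of `S` and `S'` in `S''` -/
def MapsProd {B'' : Type} [AddCommGroup B''] [Module ℚ B''] (j : B ⊗[ℚ] B' →ₗ[ℚ] B'') (S : Set (Cx B))
    (S' : Set (Cx B')) (S'' : Set (Cx B'')) : Prop :=
  ∀ x ∈ S, ∀ y ∈ S', map j (prod x y) ∈ S''

end

/-- The structure carried by `H^m(X)`, for a smooth projective variety `X` over the algebraic numbers: a finite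
dimensional rational vector space `B` (Betti cohomology), the `ℚ̄`-form `D` of `ℂ ⊗ B` (the image of the de Rham
cohomology of `X` under the comparison isomorphism), the Hodge decomposition (`V p = H^{p,m-p}`) and a polarization
`ψ`, which on `D` takes values in `(2πi)^m ℚ̄`. -/
structure HdR where
  B : Type
  [grp : AddCommGroup B]
  [mod : Module ℚ B]
  [fin : FiniteDimensional ℚ B]
  /-- the weight -/
  m : ℕ
  /-- the de Rham classes -/
  D : Set (Cx B)
  form : IsForm D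
  /-- the Hodge decomposition -/
  V : ℤ → Submodule ℂ (Cx B)
  hodge : IsHodge m V
  /-- the polarization -/
  ψ : LinearMap.BilinForm ℚ B
  pol : IsPolarization m V ψ
  deRham : IsDeRham m D ψ

attribute [instance] HdR.grp HdR.mod HdR.fin

/-- Admissible triples `(H, F, ι)` in `M`. -/
structure Admissible (M : HdR) (F : Type) [Field F] [NumberField F] where
  H : Submodule ℚ M.B
  ι : F →+* Module.End ℚ H
  dim : Module.finrank ℚ H = Module.finrank ℚ F
  /-- `H` is a sub-Hodge structure -/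
  sub : IsSub M.V H
  /-- the `ι a` are endomorphisms of Hodge structures -/
  hodge : IsHodgeAction M.V ι
  /-- each line `H_σ` is spanned by a de Rham class -/
  deRham : IsDeRhamAction M.D ι

namespace Admissible

variable {M : HdR} {F : Type} [Field F] [NumberField F] (T : Admissible M F)

/-- the line `H_σ` is of type `(p(σ), m - p(σ))`, for all `σ` -/
def HodgeNumbers (p : (F →+* ℂ) → ℤ) : Prop :=
  ∀ (σ : F →+* ℂ) (x : Cx T.H), InLine T.ι σ x → incl T.H x ∈ M.V (p σ)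

/-- `P_σ(H) ∼ z`: the value of every rational linear form `γ ≠ 0` on `H` at every de Rham class `ω ≠ 0` of `H_σ` is
the product of `z` and a nonzero algebraic number. -/
def Period (σ : F →+* ℂ) (z : ℂ) : Prop :=
  ∀ ω : Cx T.H, InLine T.ι σ ω → incl T.H ω ∈ M.D → ω ≠ 0 → ValuesIn ω z

end Admissible

/-- `F` is abelian, and `d` is its conductor: the smallest `d` such that `F` has an embedding in the subfield `ℚ(μ_d)`
of `ℂ`. -/
def IsConductor (F : Type) [Field F] (d : ℕ) : Prop :=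
  IsLeast {n : ℕ | 0 < n ∧ ∃ s : F →+* ℂ, ∀ x, s x ∈
    IntermediateField.adjoin ℚ {Complex.exp (2 * Real.pi * Complex.I / n)}} d

/-- `t u` is the embedding of the cyclotomic field `K` of level `d` in `ℂ` which maps the primitive `d`-th root of unity
`ζ` to `exp(2πi u/d)` -/
def IsEmb {d : ℕ} {K : Type} [Field K] (ζ : K) (t : (ZMod d)ˣ → K →+* ℂ) : Prop :=
  IsPrimitiveRoot ζ d ∧ ∀ u, t u ζ = Complex.exp (2 * Real.pi * Complex.I * (((u : ZMod d).val : ℂ) / d))

/-- the product of gamma values in the conjecture: `∏_(0<a<d) Γ(1 - a/d) ^ ε(a u⁻¹)` -/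
noncomputable def gam (d : ℕ) [NeZero d] (ε : ZMod d → ℚ) (u : (ZMod d)ˣ) : ℝ :=
  ∏ a ∈ Finset.univ.erase (0 : ZMod d), Real.Gamma (1 - (a.val : ℝ) / d) ^ ((ε (a * (u⁻¹ : (ZMod d)ˣ)) : ℚ) : ℝ)

/-- **The Gross-Deligne conjecture** (Q1) for the admissible triples with field `F` in the members of the class `𝒞`:
`d` is the conductor of `F`, `K` is the field `ℚ(μ_d)`, `e` is an embedding of `F` in `K`, the `t u`, `u` in `(ℤ/d)ˣ`, are
the embeddings of `K` in `ℂ` (restricting them to `F` one obtains the map `φ`), and `ε` is any function with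
`d p(φ(u)) = ∑_a ε(a) ⟨ua⟩` for all `u`. -/
def GrossDeligne (𝒞 : HdR → Prop) (F : Type) [Field F] [NumberField F] : Prop :=
  ∀ M : HdR, 𝒞 M → ∀ (T : Admissible M F) (p : (F →+* ℂ) → ℤ), T.HodgeNumbers p →
  ∀ (d : ℕ) [NeZero d], IsConductor F d →
  ∀ (K : Type) [Field K] [NumberField K] [IsCyclotomicExtension {d} ℚ K] (e : F →+* K) (ζ : K)
    (t : (ZMod d)ˣ → K →+* ℂ), IsEmb ζ t →
  ∀ ε : ZMod d → ℚ, (∀ u : (ZMod d)ˣ, (d : ℚ) * p ((t u).comp e) = ∑ a, ε a * (((u : ZMod d) * a).val : ℚ)) →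
  ∀ u : (ZMod d)ˣ, T.Period ((t u).comp e) (gam d ε u : ℂ)

/-- The periods of the admissible triples with field `F` in the members of `𝒞` depend only on the weight and on the
Hodge numbers `p(σ)`. -/
def DependOnHodgeNumbers (𝒞 : HdR → Prop) (F : Type) [Field F] [NumberField F] : Prop :=
  ∀ M N : HdR, 𝒞 M → 𝒞 N → M.m = N.m → ∀ (T : Admissible M F) (T' : Admissible N F) (p : (F →+* ℂ) → ℤ),
    T.HodgeNumbers p → T'.HodgeNumbers p → ∀ σ z, T.Period σ z → T'.Period σ z

/-- The admissible triples with field `F` in the members of `𝒞` which consist of Hodge classes (of type `(k,k)`)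
consist of de Rham classes: `(2πi)^k H` is contained in the de Rham cohomology. -/
def HodgeClassesDeRham (𝒞 : HdR → Prop) (F : Type) [Field F] [NumberField F] : Prop :=
  ∀ M : HdR, 𝒞 M → ∀ (T : Admissible M F) (k : ℕ), M.m = 2 * k → T.HodgeNumbers (fun _ => k) →
    ∀ h ∈ T.H, tmul ((Real.pi : ℂ) ^ k) h ∈ M.D

/-- The normalised periods `P_σ(H) / (2πi)^k` of the admissible triples with field `F` which consist of Hodge classes of
type `(k,k)`, in the members of `𝒞`, take only finitely many values modulo the nonzero algebraic numbers, for all large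
`k`. -/
def FinitelyManyPeriods (𝒞 : HdR → Prop) (F : Type) [Field F] [NumberField F] : Prop :=
  ∃ (W : ℕ) (Z : Finset ((F →+* ℂ) → ℂ)), ∀ M : HdR, 𝒞 M → ∀ (T : Admissible M F) (k : ℕ), W ≤ k → M.m = 2 * k →
    T.HodgeNumbers (fun _ => k) → ∃ z ∈ Z, ∀ σ, T.Period σ (z σ * (Real.pi : ℂ) ^ k)

/-- The class is closed under exterior products (Künneth formula): the tensor product of two members is contained
in a member. -/
def Kuenneth (𝒞 : HdR → Prop) : Prop :=
  ∀ M N : HdR, 𝒞 M → 𝒞 N → ∃ P : HdR, 𝒞 P ∧ P.m = M.m + N.m ∧ ∃ j : M.B ⊗[ℚ] N.B →ₗ[ℚ] P.B,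
    Function.Injective j ∧ MapsProd j M.D N.D P.D ∧ ∀ p q : ℤ, MapsProd j (M.V p) (N.V q) (P.V (p + q))

/-- The class contains the motives of Fermat curves: for all `a`, `b` in `ℤ/d` such that `a`, `b` and `a + b` are not
zero there is an admissible triple with field `K = ℚ(μ_d)` in a member of weight one such that, for all units `u`,
`H_σ`, `σ = t u`, is of type `(1,0)` if `⟨ua⟩ + ⟨ub⟩ < d` and of type `(0,1)` if not, with the period
`B(⟨ua⟩/d, ⟨ub⟩/d) = ∫_0^1 x^(⟨ua⟩/d - 1) (1 - x)^(⟨ub⟩/d - 1) dx`. -/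
def ContainsFermat (𝒞 : HdR → Prop) : Prop :=
  ∀ (d : ℕ) [NeZero d] (K : Type) [Field K] [NumberField K] [IsCyclotomicExtension {d} ℚ K] (ζ : K)
    (t : (ZMod d)ˣ → K →+* ℂ), IsEmb ζ t → ∀ (a b : ZMod d), a ≠ 0 → b ≠ 0 → a + b ≠ 0 →
    ∃ M : HdR, 𝒞 M ∧ M.m = 1 ∧ ∃ (T : Admissible M K) (p : (K →+* ℂ) → ℤ), T.HodgeNumbers p ∧
      ∀ u : (ZMod d)ˣ,
        p (t u) = (if ((u : ZMod d) * a).val + ((u : ZMod d) * b).val < d then 1 else 0) ∧
        T.Period (t u) (Complex.betaIntegral ((((u : ZMod d) * a).val : ℂ) / d) ((((u : ZMod d) * b).val : ℂ) / d))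

end Pool.Agent.T2h95.GDS
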