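import Mathlib
import Pool.Agent.T2h95.GD.Slim
import Pool.Agent.H977R3.CM.Aut

/-!
Coverings of products of groups by subsets whose slices are cosets, and stabilisers of numbers.
-/

set_option autoImplicit false

open Finset
open scoped Pointwise

namespace Pool.Agent.T2h95.GD

/-- Neumann's lemma for subsets of a product of groups whose slices are empty or cosets. -/
theorem neumann_prod {S G L : Type} [DecidableEq S] [Group G] [Fintype L] (U : L → Set (S → G))
    (K : L → S → Subgroup G) (T : Finset S)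
    (hU : ∀ l, ∀ τ ∈ T, ∀ y ∈ U l, ∀ g, Function.update y τ g ∈ U l ↔ (y τ)⁻¹ * g ∈ K l τ)
    (hcov : ∀ y, ∃ l, y ∈ U l) (y : S → G) : ∃ l, y ∈ U l ∧ ∀ τ ∈ T, (K l τ).FiniteIndex := by
  classical
  induction T using Finset.induction_on generalizing y with
  | empty =>
    obtain ⟨l, hl⟩ := hcov y
    exact ⟨l, hl, by simp⟩
  | insert τ T hτ ih =>
    have ih' := ih fun l σ hσ => hU l σ (Finset.mem_insert_of_mem hσ)
    have hU' := fun l => hU l τ (Finset.mem_insert_self _ _)
    let L' : Finset L := {l | (∀ σ ∈ T, (K l σ).FiniteIndex) ∧ ∃ g, Function.update y τ g ∈ U l}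
    let γ : L → G := fun l => if h : ∃ g, Function.update y τ g ∈ U l then h.choose else 1
    have hγ : ∀ l ∈ L', Function.update y τ (γ l) ∈ U l := by
      intro l hl
      have h : ∃ g, Function.update y τ g ∈ U l := (Finset.mem_filter.mp hl).2.2
      have : γ l = h.choose := dif_pos h
      rw [this]
      exact h.choose_spec
    have hmem : ∀ l ∈ L', ∀ g, Function.update y τ g ∈ U l ↔ g ∈ γ l • (K l τ : Set G) := by
      intro l hl g
      have h1 := hU' l _ (hγ l hl) g
      rw [Function.update_idem, Function.update_self] at h1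
      rw [h1, Set.mem_smul_set_iff_inv_smul_mem, smul_eq_mul, SetLike.mem_coe]
    have hc : ⋃ l ∈ L', γ l • (K l τ : Set G) = Set.univ := by
      rw [Set.eq_univ_iff_forall]
      intro g
      obtain ⟨l, hl, hfin⟩ := ih' (Function.update y τ g)
      have hl' : l ∈ L' := Finset.mem_filter.mpr ⟨Finset.mem_univ _, hfin, g, hl⟩
      rw [Set.mem_iUnion₂]
      exact ⟨l, hl', (hmem l hl' g).mp hl⟩
    have h2 := Subgroup.leftCoset_cover_filter_FiniteIndex (s := L') (H := fun l => K l τ) (g := γ) hc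
    have h3 : y τ ∈ ⋃ l ∈ L'.filter (fun l => (K l τ).FiniteIndex), γ l • (K l τ : Set G) := by
      rw [h2]; exact Set.mem_univ _
    rw [Set.mem_iUnion₂] at h3
    obtain ⟨l, hl, h4⟩ := h3
    rw [Finset.mem_filter] at hl
    refine ⟨l, ?_, fun σ hσ => ?_⟩
    · have h5 := (hmem l hl.1 (y τ)).mpr h4
      rwa [Function.update_eq_self] at h5
    · rcases Finset.mem_insert.mp hσ with rfl | h
      · exact hl.2
      · exact (Finset.mem_filter.mp hl.1).2.1 σ h

open Pool.Agent.T2h95.GDS (Qb)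

/-- the automorphisms of `ℂ` over the algebraic numbers -/
def AQ : Subgroup (ℂ ≃+* ℂ) where
  carrier := {g | ∀ x ∈ Qb, g x = x}
  mul_mem' := fun {a b} ha hb x hx => by
    change a (b x) = x
    rw [hb x hx, ha x hx]
  one_mem' := fun x _ => rfl
  inv_mem' := fun {a} ha x hx => by
    change a.symm x = x
    rw [RingEquiv.symm_apply_eq, ha x hx]

/-- pairs of automorphisms and rational numbers -/
abbrev GR : Type := AQ × ℚˣ

/-- the action of an automorphism and a rational number -/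
noncomputable def ga (y : GR) (w : ℤ) (Q : ℂ) : ℂ := (y.1 : ℂ ≃+* ℂ) Q * ((y.2 : ℚ) : ℂ) ^ w

lemma ga_mul (y y' : GR) (w : ℤ) (Q : ℂ) : ga (y * y') w Q = ga y w (ga y' w Q) := by
  unfold ga
  have h1 : ((y * y').1 : ℂ ≃+* ℂ) Q = (y.1 : ℂ ≃+* ℂ) ((y'.1 : ℂ ≃+* ℂ) Q) := rfl
  have h2 : (((y * y').2 : ℚ) : ℂ) = ((y.2 : ℚ) : ℂ) * ((y'.2 : ℚ) : ℂ) := by
    rw [Prod.snd_mul]; push_cast; rfl
  rw [h1, h2, map_mul, map_zpow₀, map_ratCast, mul_zpow]
  ring

lemma ga_one (w : ℤ) (Q : ℂ) : ga 1 w Q = Q := by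
  unfold ga
  have h1 : ((1 : GR).1 : ℂ ≃+* ℂ) Q = Q := rfl
  have h2 : (((1 : GR).2 : ℚ) : ℂ) = 1 := by simp
  rw [h1, h2, one_zpow, mul_one]

lemma ga_inj (y : GR) (w : ℤ) {Q Q' : ℂ} (h : ga y w Q = ga y w Q') : Q = Q' := by
  rw [← ga_one w Q, ← inv_mul_cancel y, ga_mul, h, ← ga_mul, inv_mul_cancel, ga_one]

/-- the stabiliser -/
def Kst (w : ℤ) (Q : ℂ) : Subgroup GR where
  carrier := {y | ga y w Q = Q}
  mul_mem' := fun {a b} ha hb => by
    change ga (a * b) w Q = Q
    rw [ga_mul]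
    have hb' : ga b w Q = Q := hb
    rw [hb']
    exact ha
  one_mem' := ga_one w Q
  inv_mem' := fun {a} ha => by
    change ga a⁻¹ w Q = Q
    have ha' : ga a w Q = Q := ha
    apply ga_inj a w
    rw [← ga_mul, mul_inv_cancel, ga_one, ha']

lemma mem_Kst {w : ℤ} {Q : ℂ} {y y' : GR} : y⁻¹ * y' ∈ Kst w Q ↔ ga y' w Q = ga y w Q := by
  change ga (y⁻¹ * y') w Q = Q ↔ _
  rw [ga_mul]
  constructor
  · intro h
    conv_rhs => rw [← h]
    rw [← ga_mul, mul_inv_cancel, ga_one]
  · intro h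
    rw [h, ← ga_mul, inv_mul_cancel, ga_one]

/-- an automorphism which moves a transcendental number -/
lemma exists_shift {Q : ℂ} (hQ : Q ∉ Qb) : ∃ g ∈ AQ, g Q = Q + 1 := by
  have htr : Transcendental Qb Q := by
    intro halg
    apply hQ
    rw [mem_algebraicClosure_iff]
    have : Algebra.IsAlgebraic ℚ Qb := algebraicClosure.isAlgebraic ℚ ℂ
    exact IsAlgebraic.restrictScalars ℚ halg
  rw [transcendental_iff_injective] at htr
  let j0 : Polynomial Qb →+* ℂ := (Polynomial.aeval Q : Polynomial Qb →ₐ[Qb] ℂ).toRingHom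
  let j : FractionRing (Polynomial Qb) →+* ℂ := IsFractionRing.lift (g := j0) htr
  let s : Polynomial Qb ≃+* Polynomial Qb := (Polynomial.algEquivAevalXAddC (1 : Qb)).toRingEquiv
  let s' : FractionRing (Polynomial Qb) ≃+* FractionRing (Polynomial Qb) := IsFractionRing.ringEquivOfRingEquiv s
  obtain ⟨g, hg⟩ := Pool.Agent.H977R3.CM.exists_aut j s'
  have key : ∀ f : Polynomial Qb, g (j0 f) = j0 (s f) := by
    intro f
    have h1 := hg (algebraMap _ _ f)
    have h2 : s' (algebraMap _ _ f) = algebraMap _ _ (s f) :=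
      IsFractionRing.ringEquivOfRingEquiv_algebraMap s f
    rw [h2] at h1
    have h3 : ∀ f, j (algebraMap _ _ f) = j0 f := fun f => IsFractionRing.lift_algebraMap htr f
    rw [h3, h3] at h1
    exact h1
  refine ⟨g, fun x hx => ?_, ?_⟩
  · have h1 := key (Polynomial.C ⟨x, hx⟩)
    have h2 : j0 (Polynomial.C ⟨x, hx⟩) = x := Polynomial.aeval_C _ _
    have h3 : s (Polynomial.C ⟨x, hx⟩) = Polynomial.C ⟨x, hx⟩ :=
      (Polynomial.algEquivAevalXAddC (1 : Qb)).commutes _
    rw [h3, h2] at h1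
    exact h1
  · have h1 := key Polynomial.X
    have h2 : j0 Polynomial.X = Q := Polynomial.aeval_X _
    have h3 : s Polynomial.X = Polynomial.X + Polynomial.C 1 := by
      change Polynomial.algEquivAevalXAddC (1 : Qb) Polynomial.X = _
      simp
    have h4 : j0 (Polynomial.C 1) = 1 := by rw [Polynomial.C_1, map_one]
    rw [h3, map_add, h2, h4] at h1
    exact h1

theorem finite_Kst {w : ℤ} {Q : ℂ} (hQ : Q ≠ 0) (h : (Kst w Q).FiniteIndex) : w = 0 ∧ Q ∈ Qb := by
  constructor
  · let y : GR := (1, Units.mk0 (2 : ℚ) two_ne_zero)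
    obtain ⟨n, hn, -, h1⟩ := Subgroup.exists_pow_mem_of_index_ne_zero h.index_ne_zero y
    have h2 : ga (y ^ n) w Q = Q := h1
    have h3 : ga (y ^ n) w Q = Q * (2 : ℂ) ^ (n * w) := by
      unfold ga
      have e1 : ((y ^ n).1 : ℂ ≃+* ℂ) Q = Q := by
        have : (y ^ n).1 = 1 := by rw [Prod.pow_fst]; exact one_pow _
        rw [this]
        rfl
      have e2 : (((y ^ n).2 : ℚ) : ℂ) = (2 : ℂ) ^ n := by
        have : ((y ^ n).2 : ℚ) = 2 ^ n := by rw [Prod.pow_snd]; rfl
        rw [this]; push_cast; rfl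
      rw [e1, e2, zpow_mul, zpow_natCast]
    rw [h3] at h2
    have h4 : (2 : ℂ) ^ (n * w) = 1 := by
      apply mul_left_cancel₀ hQ
      rw [h2, mul_one]
    have h5 : (2 : ℝ) ^ ((n : ℤ) * w) = 1 := by
      have h6 := congrArg norm h4
      rw [norm_zpow, norm_one, Complex.norm_ofNat] at h6
      exact h6
    have h6 : (n : ℤ) * w = 0 := by
      rcases lt_trichotomy ((n : ℤ) * w) 0 with h7 | h7 | h7
      · exfalso
        have := zpow_lt_one_of_neg₀ (one_lt_two : (1 : ℝ) < 2) h7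
        linarith
      · exact h7
      · exfalso
        have := one_lt_zpow₀ (one_lt_two : (1 : ℝ) < 2) h7
        linarith
    rcases mul_eq_zero.mp h6 with h7 | h7
    · exact absurd (by exact_mod_cast h7) hn.ne'
    · exact h7
  · by_contra hQb
    obtain ⟨g, hg, hgQ⟩ := exists_shift hQb
    let y : GR := (⟨g, hg⟩, 1)
    obtain ⟨n, hn, -, h1⟩ := Subgroup.exists_pow_mem_of_index_ne_zero h.index_ne_zero y
    have h2 : ga (y ^ n) w Q = Q := h1
    have hpow : ∀ k : ℕ, ga (y ^ k) w Q = Q + k := by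
      intro k
      induction k with
      | zero => rw [pow_zero, ga_one]; simp
      | succ k ih =>
        rw [pow_succ', ga_mul, ih]
        unfold ga
        have e1 : ((y.2 : ℚ) : ℂ) = 1 := by simp [y]
        have e2 : (y.1 : ℂ ≃+* ℂ) (Q + k) = Q + 1 + k := by
          change g (Q + k) = _
          rw [map_add, hgQ, map_natCast]
        rw [e1, e2, one_zpow]
        push_cast
        ring
    rw [hpow] at h2
    have h3 : (n : ℂ) = 0 := by linear_combination h2
    exact hn.ne' (by exact_mod_cast h3)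

end Pool.Agent.T2h95.GD
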