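import Pool.Agent.T2h95.GD.Gal

/-!
Norms of lines, and normalised pairs.
-/

set_option autoImplicit false

open Finset

namespace Pool.Agent.T2h95.GD

/-- all lines of pure type have trivial periods -/
def Triv (𝒞 : HdR → Prop) (E : Type) [Field E] [NumberField E] : Prop :=
  ∀ (m : ℕ) (P : (E →+* ℂ) → ℂ) (p : (E →+* ℂ) → ℤ), Rl 𝒞 E m P p → (∀ s, 2 * p s = m) →
    ∀ Φ : ℂ → ℂ, Fn Φ → ∀ s, Φ (P s) = (m : ℂ) / 2 * Φ (Real.pi : ℝ)

section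

variable {d : ℕ} [NeZero d] {K : Type} [Field K] [NumberField K] [IsCyclotomicExtension {d} ℚ K]
  {ζ : K} {t : (ZMod d)ˣ → K →+* ℂ} {𝒞 : HdR → Prop}

/-- the kernel of a character -/
noncomputable def ker (χ : (ZMod d)ˣ →* ℂˣ) : Finset (ZMod d)ˣ := by
  classical exact univ.filter fun u => χ u = 1

lemma mem_ker {χ : (ZMod d)ˣ →* ℂˣ} {u : (ZMod d)ˣ} : u ∈ ker χ ↔ χ u = 1 := by
  classical
  unfold ker
  simp

lemma agree (ht : IsEmb ζ t) {E : Type} [Field E] (i : E →+* K) {u v : (ZMod d)ˣ}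
    (h : (t u).comp i = (t v).comp i) (x : E) : gal d K (u⁻¹ * v) (i x) = i x := by
  have h1 : t v (i x) = t u (i x) := (RingHom.congr_fun h x).symm
  apply (t u).injective
  rw [t_gal ht, ← h1]
  congr 2
  group

theorem norm_line (ht : IsEmb ζ t) (hK : Kuenneth 𝒞) {E L : Type} [Field E] [NumberField E] [Field L]
    [NumberField L] (e : L →+* K) (i : E →+* L) (χ : (ZMod d)ˣ →* ℂˣ)
    (hi : ∀ u, (∀ x, gal d K u (e (i x)) = e (i x)) ↔ χ u = 1) {m : ℕ} {P : (L →+* ℂ) → ℂ}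
    {p : (L →+* ℂ) → ℤ} (h : Rl 𝒞 L m P p) :
    ∃ (P' : (E →+* ℂ) → ℂ) (p' : (E →+* ℂ) → ℤ), Rl 𝒞 E ((ker χ).card * m) P' p' ∧
      ∀ u, P' ((t u).comp (e.comp i)) = ∏ κ ∈ ker χ, P ((t (u * κ)).comp e) ∧
        p' ((t u).comp (e.comp i)) = ∑ κ ∈ ker χ, p ((t (u * κ)).comp e) := by
  classical
  obtain ⟨τ, hτs, hτ⟩ := exists_tau (d := d) e
  have h1mem : (1 : (ZMod d)ˣ) ∈ ker χ := mem_ker.mpr (map_one χ)
  have hcomp : ∀ u κ : (ZMod d)ˣ, ((t u).comp e).comp ((τ κ : L ≃ₐ[ℚ] L) : L →+* L) = (t (u * κ)).comp e := by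
    intro u κ
    ext x
    change t u (e (τ κ x)) = t (u * κ) (e x)
    rw [hτ, t_gal ht]
  set Q : (L →+* ℂ) → ℂ := fun σ => ∏ κ ∈ ker χ, P (σ.comp ((τ κ : L ≃ₐ[ℚ] L) : L →+* L)) with hQ
  set q : (L →+* ℂ) → ℤ := fun σ => ∑ κ ∈ ker χ, p (σ.comp ((τ κ : L ≃ₐ[ℚ] L) : L →+* L)) with hq
  have hR : Rl 𝒞 L ((ker χ).card * m) Q q := by
    have h0 := h.twist (τ 1)
    have h2 := h0.prod hK ((ker χ).erase 1) (fun _ => m)
      (fun κ σ => P (σ.comp ((τ κ : L ≃ₐ[ℚ] L) : L →+* L)))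
      (fun κ σ => p (σ.comp ((τ κ : L ≃ₐ[ℚ] L) : L →+* L))) fun κ _ => h.twist (τ κ)
    convert h2 using 1
    · rw [Finset.sum_const, Finset.card_erase_of_mem h1mem, smul_eq_mul]
      obtain ⟨c, hc⟩ : ∃ c, (ker χ).card = c + 1 := ⟨(ker χ).card - 1, by
        have := Finset.card_pos.mpr ⟨1, h1mem⟩; omega⟩
      rw [hc, Nat.add_sub_cancel]; ring
    · funext σ
      simp only [hQ, Pi.mul_apply, Finset.prod_apply]
      exact (Finset.mul_prod_erase _ _ h1mem).symm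
    · funext σ
      simp only [hq, Pi.add_apply, Finset.sum_apply]
      exact (Finset.add_sum_erase _ _ h1mem).symm
  have hQu : ∀ u, Q ((t u).comp e) = ∏ κ ∈ ker χ, P ((t (u * κ)).comp e) := fun u => by
    simp only [hQ, hcomp]
  have hqu : ∀ u, q ((t u).comp e) = ∑ κ ∈ ker χ, p ((t (u * κ)).comp e) := fun u => by
    simp only [hq, hcomp]
  have hinv : ∀ σ σ' : L →+* ℂ, σ.comp i = σ'.comp i → Q σ = Q σ' ∧ q σ = q σ' := by
    intro σ σ' hσ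
    obtain ⟨u, rfl⟩ := ext_emb ht e σ
    obtain ⟨v, rfl⟩ := ext_emb ht e σ'
    have hχ : χ (u⁻¹ * v) = 1 := by
      rw [← hi]
      intro x
      exact agree ht (e.comp i) (by rw [← RingHom.comp_assoc, ← RingHom.comp_assoc, hσ]) x
    have hre : ∀ κ, u * (u⁻¹ * v * κ) = v * κ := fun κ => by group
    rw [hQu, hQu, hqu, hqu]
    have hmem : ∀ κ, κ ∈ ker χ ↔ (Equiv.mulLeft (u⁻¹ * v)) κ ∈ ker χ := fun κ => by
      rw [mem_ker, mem_ker, Equiv.coe_mulLeft, map_mul, hχ, one_mul]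
    refine ⟨?_, ?_⟩
    · symm
      refine Finset.prod_equiv (Equiv.mulLeft (u⁻¹ * v)) hmem fun κ _ => ?_
      rw [Equiv.coe_mulLeft, hre]
    · symm
      refine Finset.sum_equiv (Equiv.mulLeft (u⁻¹ * v)) hmem fun κ _ => ?_
      rw [Equiv.coe_mulLeft, hre]
  have hext : ∀ s : E →+* ℂ, ∃ σ : L →+* ℂ, σ.comp i = s := by
    intro s
    obtain ⟨u, hu⟩ := ext_emb ht (e.comp i) s
    exact ⟨(t u).comp e, by rw [hu, RingHom.comp_assoc]⟩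
  choose ext hext using hext
  have hne : ∀ σ, Q σ ≠ 0 := by
    obtain ⟨M, _, _, f, hf⟩ := hR
    exact hf.ne
  refine ⟨fun s => Q (ext s), fun s => q (ext s), ?_, fun u => ?_⟩
  · obtain ⟨M, hM, hm, f, hf⟩ := hR
    refine ⟨M, hM, hm, f ∘ₗ i.toRatAlgHom.toLinearMap, ?_⟩
    refine hf.restrict i.toRatAlgHom _ _ (fun σ => ⟨1, one_mem _, ?_⟩) (fun σ => ?_) (fun s => hne _)
    · rw [one_mul]
      exact (hinv _ _ (hext _)).1
    · exact (hinv _ _ (hext _)).2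
  · have := hinv (ext ((t u).comp (e.comp i))) ((t u).comp e) (by rw [hext, RingHom.comp_assoc])
    rw [← hQu, ← hqu]
    exact this

/-- normalised pairs over `E` -/
def NP (𝒞 : HdR → Prop) (t : (ZMod d)ˣ → K →+* ℂ) (Φ : ℂ → ℂ) {E : Type} [Field E] [NumberField E] (i : E →+* K)
    (A B : (ZMod d)ˣ → ℂ) : Prop :=
  ∃ (m : ℕ) (P : (E →+* ℂ) → ℂ) (p : (E →+* ℂ) → ℤ), Rl 𝒞 E m P p ∧ ∀ u,
    (d : ℂ) * ((2 * p ((t u).comp i) - m : ℤ) : ℂ) = A u ∧ Φ (P ((t u).comp i)) - (m : ℂ) / 2 * Φ (Real.pi : ℝ) = B u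

lemma NP.add (hK : Kuenneth 𝒞) {Φ : ℂ → ℂ} (hΦ : Fn Φ) {E : Type} [Field E] [NumberField E] {i : E →+* K}
    {A B A' B' : (ZMod d)ˣ → ℂ} (h : NP 𝒞 t Φ i A B) (h' : NP 𝒞 t Φ i A' B') :
    NP 𝒞 t Φ i (A + A') (B + B') := by
  obtain ⟨m, P, p, hR, hu⟩ := h
  obtain ⟨m', P', p', hR', hu'⟩ := h'
  refine ⟨m + m', P * P', p + p', hR.mul hK hR', fun u => ⟨?_, ?_⟩⟩
  · rw [Pi.add_apply, Pi.add_apply, ← (hu u).1, ← (hu' u).1]
    push_cast; ring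
  · obtain ⟨M, _, _, f, hf⟩ := hR
    obtain ⟨M', _, _, f', hf'⟩ := hR'
    rw [Pi.mul_apply, Pi.add_apply, hΦ.mul _ _ (hf.ne _) (hf'.ne _), ← (hu u).2, ← (hu' u).2]
    push_cast; ring

lemma NP.zero (ht : IsEmb ζ t) {Φ : ℂ → ℂ} (hΦ : Fn Φ) {E : Type} [Field E] [NumberField E] {i : E →+* K}
    (hE : Triv 𝒞 E) {B : (ZMod d)ˣ → ℂ} (h : NP 𝒞 t Φ i 0 B) : B = 0 := by
  obtain ⟨m, P, p, hR, hu⟩ := h
  funext u
  rw [← (hu u).2, Pi.zero_apply]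
  have h2 : ∀ s, 2 * p s = m := by
    intro s
    obtain ⟨v, rfl⟩ := ext_emb ht i s
    have := (hu v).1
    rw [Pi.zero_apply] at this
    have hd : (d : ℂ) ≠ 0 := by exact_mod_cast NeZero.ne d
    have h2 := (mul_eq_zero.mp this).resolve_left hd
    have h3 : 2 * p ((t v).comp i) - m = 0 := by exact_mod_cast h2
    linarith
  rw [hE m P p hR h2 Φ hΦ]
  ring

/-- pairs which can be added -/
def NA (𝒞 : HdR → Prop) (t : (ZMod d)ˣ → K →+* ℂ) (Φ : ℂ → ℂ) {E : Type} [Field E] [NumberField E] (i : E →+* K)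
    (A B : (ZMod d)ˣ → ℂ) : Prop :=
  ∀ A0 B0, NP 𝒞 t Φ i A0 B0 → NP 𝒞 t Φ i (A0 + A) (B0 + B)

section

variable {Φ : ℂ → ℂ} {E : Type} [Field E] [NumberField E] {i : E →+* K}

lemma NA.of (hK : Kuenneth 𝒞) (hΦ : Fn Φ) {A B : (ZMod d)ˣ → ℂ} (h : NP 𝒞 t Φ i A B) : NA 𝒞 t Φ i A B :=
  fun _ _ h0 => h0.add hK hΦ h

lemma NA.zero : NA 𝒞 t Φ i 0 0 := fun _ _ h0 => by simpa using h0

lemma NA.add {A B A' B' : (ZMod d)ˣ → ℂ} (h : NA 𝒞 t Φ i A B) (h' : NA 𝒞 t Φ i A' B') :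
    NA 𝒞 t Φ i (A + A') (B + B') := fun A0 B0 h0 => by
  have := h' _ _ (h _ _ h0)
  rwa [add_assoc, add_assoc] at this

lemma NA.sum {ι : Type} (s : Finset ι) (A B : ι → (ZMod d)ˣ → ℂ) (h : ∀ j ∈ s, NA 𝒞 t Φ i (A j) (B j)) :
    NA 𝒞 t Φ i (∑ j ∈ s, A j) (∑ j ∈ s, B j) := by
  classical
  induction s using Finset.induction_on with
  | empty => simpa using NA.zero
  | insert a s ha ih =>
    rw [sum_insert ha, sum_insert ha]
    exact (h a (mem_insert_self a s)).add (ih fun j hj => h j (mem_insert_of_mem hj))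

lemma NA.nsmul {A B : (ZMod d)ˣ → ℂ} (h : NA 𝒞 t Φ i A B) (n : ℕ) : NA 𝒞 t Φ i (n • A) (n • B) := by
  have := NA.sum (range n) (fun _ => A) (fun _ => B) fun _ _ => h
  simpa using this

end

end

end Pool.Agent.T2h95.GD
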