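import Pool.Agent.T2h95.GD.Line

/-!
Admissible triples from lines, and operations on lines.
-/

set_option autoImplicit false

open scoped TensorProduct

namespace Pool.Agent.T2h95.GD

variable {M : HdR} {F : Type} [Field F] [NumberField F]

section of

variable {f : F →ₗ[ℚ] M.B}

/-- `F` is isomorphic to the image of `f` -/
noncomputable def fe (hf : Function.Injective f) : F ≃ₗ[ℚ] LinearMap.range f := LinearEquiv.ofInjective f hf

/-- the action of `F` on the image of `f` -/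
noncomputable def act (hf : Function.Injective f) : F →+* Module.End ℚ (LinearMap.range f) :=
  ((fe hf).conjRingEquiv : Module.End ℚ F ≃+* Module.End ℚ (LinearMap.range f)).toRingHom.comp
    (Algebra.lmul ℚ F).toRingHom

lemma act_apply (hf : Function.Injective f) (a b : F) : act hf a (fe hf b) = fe hf (a * b) := by
  change (fe hf) ((Algebra.lmul ℚ F a) ((fe hf).symm (fe hf b))) = _
  rw [LinearEquiv.symm_apply_apply]
  rfl

lemma act_comp (hf : Function.Injective f) (a : F) :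
    act hf a ∘ₗ (fe hf).toLinearMap = (fe hf).toLinearMap ∘ₗ LinearMap.mulLeft ℚ a := by
  ext b
  exact congrArg Subtype.val (act_apply hf a b)

lemma subtype_fe (hf : Function.Injective f) : (LinearMap.range f).subtype ∘ₗ (fe hf).toLinearMap = f := by
  ext b; rfl

lemma sub_vec (hf : Function.Injective f) (σ : F →+* ℂ) :
    (LinearMap.range f).subtype.baseChange ℂ (vec (fe hf).toLinearMap σ) = vec f σ := by
  rw [vec_map, subtype_fe]

lemma act_vec (hf : Function.Injective f) (a : F) (σ : F →+* ℂ) :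
    (act hf a).baseChange ℂ (vec (fe hf).toLinearMap σ) = σ a • vec (fe hf).toLinearMap σ := by
  rw [vec_map, act_comp, vec_mul]

lemma span_fe (hf : Function.Injective f) (x : ℂ ⊗[ℚ] LinearMap.range f) :
    ∃ c : (F →+* ℂ) → ℂ, x = ∑ τ, c τ • vec (fe hf).toLinearMap τ := by
  induction x using TensorProduct.induction_on with
  | zero => exact ⟨0, by simp⟩
  | tmul z y =>
    obtain ⟨a, rfl⟩ := (fe hf).surjective y
    refine ⟨fun τ => z * τ a, ?_⟩
    have : z ⊗ₜ[ℚ] fe hf a = z • ((1 : ℂ) ⊗ₜ[ℚ] (fe hf).toLinearMap a) := by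
      rw [TensorProduct.smul_tmul', smul_eq_mul, mul_one]; rfl
    rw [this, one_tmul, Finset.smul_sum]
    simp only [smul_smul]
  | add x y hx hy =>
    obtain ⟨c, hc⟩ := hx
    obtain ⟨d, hd⟩ := hy
    refine ⟨c + d, ?_⟩
    rw [hc, hd, ← Finset.sum_add_distrib]
    simp only [Pi.add_apply, add_smul]

lemma piece_coeff {P : (F →+* ℂ) → ℂ} {p : (F →+* ℂ) → ℤ} (h : IsLine M f P p) (q : ℤ) (c : (F →+* ℂ) → ℂ)
    (hc : ∑ τ, c τ • vec f τ ∈ M.V q) (τ : F →+* ℂ) (hτ : p τ ≠ q) : c τ = 0 := by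
  classical
  have h1 := M.internal.submodule_iSupIndep q
  set y := ∑ τ with p τ ≠ q, c τ • vec f τ with hy
  have hy1 : y ∈ M.V q := by
    have : y = ∑ τ, c τ • vec f τ - ∑ τ with ¬ p τ ≠ q, c τ • vec f τ := by
      rw [eq_sub_iff_add_eq, hy]
      exact Finset.sum_filter_add_sum_filter_not _ _ _
    rw [this]
    refine sub_mem hc (Submodule.sum_mem _ fun τ hτ => Submodule.smul_mem _ _ ?_)
    rw [Finset.mem_filter, not_not] at hτ
    rw [← hτ.2]
    exact h.hodge τ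
  have hy2 : y ∈ ⨆ j, ⨆ (_ : j ≠ q), M.V j := by
    refine Submodule.sum_mem _ fun τ hτ => Submodule.smul_mem _ _ ?_
    rw [Finset.mem_filter] at hτ
    exact Submodule.mem_iSup_of_mem (p τ) (Submodule.mem_iSup_of_mem hτ.2 (h.hodge τ))
  have hy0 : y = 0 := Submodule.disjoint_def.mp h1 y hy1 hy2
  have h2 : ∑ τ, (if p τ ≠ q then c τ else 0) • vec f τ = 0 := by
    rw [← hy0, hy, Finset.sum_filter]
    refine Finset.sum_congr rfl fun τ _ => ?_
    split_ifs <;> simp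
  have h3 := Fintype.linearIndependent_iff.mp (linearIndependent_vec f h.inj) _ h2 τ
  rwa [if_pos hτ] at h3

/-- the admissible triple of a line -/
noncomputable def IsLine.triple {P : (F →+* ℂ) → ℂ} {p : (F →+* ℂ) → ℤ} (h : IsLine M f P p) : Admissible M F where
  H := LinearMap.range f
  ι := act h.inj
  dim := LinearMap.finrank_range_of_inj h.inj
  sub := by
    rw [eq_top_iff]
    intro x _
    obtain ⟨c, rfl⟩ := span_fe h.inj x
    refine Submodule.sum_mem _ fun τ _ => Submodule.smul_mem _ _ ?_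
    refine Submodule.mem_iSup_of_mem (p τ) ?_
    rw [Submodule.mem_comap, sub_vec]
    exact h.hodge τ
  hodge := by
    intro a q x hx
    obtain ⟨c, rfl⟩ := span_fe h.inj x
    rw [Submodule.mem_comap] at hx ⊢
    simp only [map_sum, map_smul, sub_vec] at hx
    simp only [map_sum, map_smul, act_vec, sub_vec]
    refine Submodule.sum_mem _ fun τ _ => ?_
    by_cases hτ : p τ = q
    · rw [← hτ]
      exact Submodule.smul_mem _ _ (Submodule.smul_mem _ _ (h.hodge τ))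
    · rw [piece_coeff h q c hx τ hτ, zero_smul]
      exact zero_mem _
  deRham := by
    intro σ
    refine ⟨P σ • vec (fe h.inj).toLinearMap σ, smul_ne_zero (h.ne σ) (vec_ne_zero _ (fe h.inj).injective σ), ?_, ?_⟩
    · intro a
      rw [map_smul, act_vec, smul_comm]
    · rw [map_smul, sub_vec]
      exact h.dr σ

lemma IsLine.param {P : (F →+* ℂ) → ℂ} {p : (F →+* ℂ) → ℤ} (h : IsLine M f P p) :
    Param h.triple (fe h.inj).toLinearMap :=
  ⟨(fe h.inj).injective, fun a b => (act_apply h.inj a b).symm⟩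

theorem IsLine.hodgeNumbers {P : (F →+* ℂ) → ℂ} {p : (F →+* ℂ) → ℤ} (h : IsLine M f P p) :
    h.triple.HodgeNumbers p := by
  intro σ x hx
  obtain ⟨c, rfl⟩ := h.param.line_eq hx
  have : h.triple.H.subtype.baseChange ℂ (vec (fe h.inj).toLinearMap σ) = vec f σ := sub_vec h.inj σ
  rw [map_smul, this]
  exact Submodule.smul_mem _ _ (h.hodge σ)

theorem IsLine.period {P : (F →+* ℂ) → ℂ} {p : (F →+* ℂ) → ℤ} (h : IsLine M f P p) (σ : F →+* ℂ) (z : ℂ) :
    h.triple.Period σ z ↔ ∃ u ∈ Qb, u ≠ 0 ∧ P σ = u * z := by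
  refine period_iff h.param (h.ne σ) ?_ z
  have : h.triple.H.subtype ∘ₗ (fe h.inj).toLinearMap = f := subtype_fe h.inj
  rw [this]
  exact h.dr σ

end of

section ops

/-- twist by an automorphism -/
theorem IsLine.twist {f : F →ₗ[ℚ] M.B} {P : (F →+* ℂ) → ℂ} {p : (F →+* ℂ) → ℤ} (h : IsLine M f P p) (τ : F ≃ₐ[ℚ] F) :
    IsLine M (f ∘ₗ τ.symm.toLinearMap) (fun σ => P (σ.comp (τ : F →+* F))) (fun σ => p (σ.comp (τ : F →+* F))) where
  inj := by
    rw [LinearMap.coe_comp]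
    exact h.inj.comp τ.symm.injective
  hodge := fun σ => by rw [vec_equiv]; exact h.hodge _
  dr := fun σ => by rw [vec_equiv]; exact h.dr _
  ne := fun σ => h.ne _

/-- restriction to a subfield -/
theorem IsLine.restrict {E : Type} [Field E] [NumberField E] {f : F →ₗ[ℚ] M.B} {P : (F →+* ℂ) → ℂ}
    {p : (F →+* ℂ) → ℤ} (h : IsLine M f P p) (i : E →ₐ[ℚ] F) (P' : (E →+* ℂ) → ℂ) (p' : (E →+* ℂ) → ℤ)
    (hP : ∀ σ : F →+* ℂ, ∃ u ∈ Qb, P' (σ.comp (i : E →+* F)) = u * P σ)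
    (hp : ∀ σ : F →+* ℂ, p' (σ.comp (i : E →+* F)) = p σ) (h0 : ∀ s, P' s ≠ 0) :
    IsLine M (f ∘ₗ i.toLinearMap) P' p' where
  inj := by
    rw [LinearMap.coe_comp]
    exact h.inj.comp i.injective
  hodge := fun s => by
    classical
    rw [vec_restrict]
    refine Submodule.sum_mem _ fun σ hσ => ?_
    rw [Finset.mem_filter] at hσ
    rw [← hσ.2, hp]
    exact h.hodge σ
  dr := fun s => by
    classical
    rw [vec_restrict, Finset.smul_sum]
    refine Submodule.sum_mem _ fun σ hσ => ?_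
    rw [Finset.mem_filter] at hσ
    obtain ⟨u, hu, h1⟩ := hP σ
    rw [← hσ.2, h1, mul_smul]
    exact smul_mem_D (h.dr σ) hu
  ne := h0

lemma distrib_vec {B B' : Type} [AddCommGroup B] [Module ℚ B] [AddCommGroup B'] [Module ℚ B'] (f : F →ₗ[ℚ] B)
    (f' : F →ₗ[ℚ] B') :
    ∃ g : F →ₗ[ℚ] B ⊗[ℚ] B', (∀ σ, vec g σ =
      (TensorProduct.AlgebraTensorModule.distribBaseChange ℚ ℂ B B').symm (vec f σ ⊗ₜ[ℂ] vec f' σ)) := by
  classical
  let g : F →ₗ[ℚ] B ⊗[ℚ] B' := ∑ i, (TensorProduct.mk ℚ B B').flip (f' (dbas F i)) ∘ₗ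
    (f ∘ₗ LinearMap.mulLeft ℚ (bas F i))
  have hg : ∀ a, g a = ∑ i, f (bas F i * a) ⊗ₜ[ℚ] f' (dbas F i) := by
    intro a
    simp only [g, LinearMap.coe_sum, Finset.sum_apply]
    rfl
  refine ⟨g, fun σ => ?_⟩
  refine vec_unique g (fun σ => (TensorProduct.AlgebraTensorModule.distribBaseChange ℚ ℂ B B').symm
    (vec f σ ⊗ₜ[ℂ] vec f' σ)) (fun a => ?_) σ
  have h1 : ∀ x : B, ∀ y : B', (1 : ℂ) ⊗ₜ[ℚ] (x ⊗ₜ[ℚ] y) =
      (TensorProduct.AlgebraTensorModule.distribBaseChange ℚ ℂ B B').symm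
        (((1 : ℂ) ⊗ₜ[ℚ] x) ⊗ₜ[ℂ] ((1 : ℂ) ⊗ₜ[ℚ] y)) := by
    intro x y
    rw [TensorProduct.AlgebraTensorModule.distribBaseChange_symm_tmul, one_mul]
  rw [hg, TensorProduct.tmul_sum]
  simp only [h1, ← map_sum, one_tmul, ← map_smul]
  congr 1
  simp only [TensorProduct.sum_tmul, TensorProduct.tmul_sum, ← TensorProduct.smul_tmul', TensorProduct.tmul_smul]
  rw [Finset.sum_comm]
  refine Finset.sum_congr rfl fun σ _ => ?_
  simp only [Finset.smul_sum, smul_smul]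
  rw [Finset.sum_comm]
  simp only [← Finset.sum_smul]
  rw [Finset.sum_eq_single σ]
  · congr 1
    have := key1 (F := F) σ σ
    rw [if_pos rfl] at this
    calc _ = σ a * ∑ i, σ (bas F i) * σ (dbas F i) := by
          rw [Finset.mul_sum]
          refine Finset.sum_congr rfl fun i _ => ?_
          rw [map_mul]; ring
      _ = σ a := by rw [this, mul_one]
  · intro τ _ hτ
    have := key1 (F := F) τ σ
    rw [if_neg hτ] at this
    have h2 : ∑ i, σ (dbas F i) * τ (bas F i * a) = 0 := by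
      calc _ = τ a * ∑ i, τ (bas F i) * σ (dbas F i) := by
            rw [Finset.mul_sum]
            refine Finset.sum_congr rfl fun i _ => ?_
            rw [map_mul]; ring
        _ = 0 := by rw [this, mul_zero]
    rw [h2, zero_smul]
  · intro h; exact absurd (Finset.mem_univ _) h

/-- products of lines -/
theorem IsLine.mul {𝒞 : HdR → Prop} (hK : Kuenneth 𝒞) {N : HdR} (hM : 𝒞 M) (hN : 𝒞 N) {f : F →ₗ[ℚ] M.B}
    {P : (F →+* ℂ) → ℂ} {p : (F →+* ℂ) → ℤ} (h : IsLine M f P p) {f' : F →ₗ[ℚ] N.B}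
    {P' : (F →+* ℂ) → ℂ} {p' : (F →+* ℂ) → ℤ} (h' : IsLine N f' P' p') :
    ∃ L : HdR, 𝒞 L ∧ L.m = M.m + N.m ∧ ∃ g : F →ₗ[ℚ] L.B, IsLine L g (P * P') (p + p') := by
  obtain ⟨L, hL, hm, j, hj, hD, hV⟩ := hK M N hM hN
  obtain ⟨g, hg⟩ := distrib_vec f f'
  refine ⟨L, hL, hm, j ∘ₗ g, ?_, ?_, ?_, ?_⟩
  · rw [LinearMap.coe_comp]
    refine hj.comp ?_
    rw [injective_iff_map_eq_zero]
    intro a ha
    have h1 : (1 : ℂ) ⊗ₜ[ℚ] g a = 0 := by rw [ha, TensorProduct.tmul_zero]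
    rw [one_tmul] at h1
    simp only [hg, ← map_smul, ← map_sum] at h1
    rw [LinearEquiv.map_eq_zero_iff] at h1
    have h2 : LinearIndependent ℂ (fun στ : (F →+* ℂ) × (F →+* ℂ) => vec f στ.1 ⊗ₜ[ℂ] vec f' στ.2) :=
      LinearIndependent.tmul_of_flat_left (linearIndependent_vec f h.inj) (linearIndependent_vec f' h'.inj)
    have h3 := h2.comp (fun σ : F →+* ℂ => (σ, σ)) (fun σ τ hστ => (Prod.mk.inj hστ).1)
    have h4 := Fintype.linearIndependent_iff.mp h3 (fun σ => σ a) h1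
    obtain ⟨σ⟩ : Nonempty (F →+* ℂ) := inferInstance
    exact (map_eq_zero σ).mp (h4 σ)
  · intro σ
    rw [← vec_map, hg, Pi.add_apply]
    exact hV _ _ _ (h.hodge σ) _ (h'.hodge σ)
  · intro σ
    rw [← vec_map, hg, Pi.mul_apply]
    have : (P σ * P' σ) • (TensorProduct.AlgebraTensorModule.distribBaseChange ℚ ℂ M.B N.B).symm
        (vec f σ ⊗ₜ[ℂ] vec f' σ) = (TensorProduct.AlgebraTensorModule.distribBaseChange ℚ ℂ M.B N.B).symm
        ((P σ • vec f σ) ⊗ₜ[ℂ] (P' σ • vec f' σ)) := by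
      rw [← map_smul]
      congr 1
      rw [TensorProduct.tmul_smul, ← TensorProduct.smul_tmul', smul_smul, mul_comm]
    rw [← map_smul, this]
    exact hD _ (h.dr σ) _ (h'.dr σ)
  · intro σ
    exact mul_ne_zero (h.ne σ) (h'.ne σ)

/-- a line in a member of the class -/
def Rl (𝒞 : HdR → Prop) (F : Type) [Field F] [NumberField F] (m : ℕ) (P : (F →+* ℂ) → ℂ) (p : (F →+* ℂ) → ℤ) :
    Prop := ∃ M : HdR, 𝒞 M ∧ M.m = m ∧ ∃ f : F →ₗ[ℚ] M.B, IsLine M f P p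

variable {𝒞 : HdR → Prop}

theorem Rl.mul (hK : Kuenneth 𝒞) {m m' : ℕ} {P P' : (F →+* ℂ) → ℂ} {p p' : (F →+* ℂ) → ℤ} (h : Rl 𝒞 F m P p)
    (h' : Rl 𝒞 F m' P' p') : Rl 𝒞 F (m + m') (P * P') (p + p') := by
  obtain ⟨M, hM, rfl, f, hf⟩ := h
  obtain ⟨N, hN, rfl, g, hg⟩ := h'
  exact hf.mul hK hM hN hg

theorem Rl.twist {m : ℕ} {P : (F →+* ℂ) → ℂ} {p : (F →+* ℂ) → ℤ} (h : Rl 𝒞 F m P p) (τ : F ≃ₐ[ℚ] F) :
    Rl 𝒞 F m (fun σ => P (σ.comp (τ : F →+* F))) (fun σ => p (σ.comp (τ : F →+* F))) := by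
  obtain ⟨M, hM, rfl, f, hf⟩ := h
  exact ⟨M, hM, rfl, _, hf.twist τ⟩

theorem Rl.pol {m : ℕ} {P : (F →+* ℂ) → ℂ} {p : (F →+* ℂ) → ℤ} (h : Rl 𝒞 F m P p) (σ : F →+* ℂ) :
    p (cj σ) = m - p σ ∧ ∃ u ∈ Qb, u ≠ 0 ∧ P σ * P (cj σ) = u * (Real.pi : ℂ) ^ m := by
  obtain ⟨M, hM, rfl, f, hf⟩ := h
  exact hf.pol σ

/-- products over finite sets -/
theorem Rl.prod (hK : Kuenneth 𝒞) {ι : Type} [DecidableEq ι] {m0 : ℕ} {P0 : (F →+* ℂ) → ℂ} {p0 : (F →+* ℂ) → ℤ}
    (h0 : Rl 𝒞 F m0 P0 p0) (s : Finset ι) (m : ι → ℕ) (P : ι → (F →+* ℂ) → ℂ) (p : ι → (F →+* ℂ) → ℤ)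
    (h : ∀ i ∈ s, Rl 𝒞 F (m i) (P i) (p i)) :
    Rl 𝒞 F (m0 + ∑ i ∈ s, m i) (P0 * ∏ i ∈ s, P i) (p0 + ∑ i ∈ s, p i) := by
  induction s using Finset.induction_on with
  | empty => simpa using h0
  | insert a s ha ih =>
    have h1 := ih fun i hi => h i (Finset.mem_insert_of_mem hi)
    have h2 := h1.mul hK (h a (Finset.mem_insert_self a s))
    rw [Finset.sum_insert ha, Finset.sum_insert ha, Finset.prod_insert ha]
    convert h2 using 1
    · ring
    · ring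
    · ring

/-- powers -/
theorem Rl.pow (hK : Kuenneth 𝒞) {m0 : ℕ} {P0 : (F →+* ℂ) → ℂ} {p0 : (F →+* ℂ) → ℤ}
    (h0 : Rl 𝒞 F m0 P0 p0) {m : ℕ} {P : (F →+* ℂ) → ℂ} {p : (F →+* ℂ) → ℤ} (h : Rl 𝒞 F m P p) (n : ℕ) :
    Rl 𝒞 F (m0 + n * m) (P0 * P ^ n) (p0 + n • p) := by
  have := h0.prod hK (Finset.range n) (fun _ => m) (fun _ => P) (fun _ => p) fun _ _ => h
  simpa using this

end ops

end Pool.Agent.T2h95.GD
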