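import Pool.Agent.T2h95.GD.TwMain

/-!
Operators on the complexifications which are compatible with tensor products.
-/

set_option autoImplicit false

open Finset
open scoped TensorProduct

namespace Pool.Agent.T2h95.GD

/-- embeddings of structures of the same weight -/
structure InO (M N : HdR) (j : M.B →ₗ[ℚ] N.B) : Prop where
  weight : M.m = N.m
  inj : Function.Injective j
  deRham : ∀ x ∈ M.D, j.baseChange ℂ x ∈ N.D
  hodge : ∀ p : ℤ, ∀ x ∈ M.V p, j.baseChange ℂ x ∈ N.V p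

/-- tensor products -/
structure TenO (M N P : HdR) (j : M.B ⊗[ℚ] N.B →ₗ[ℚ] P.B) : Prop where
  weight : P.m = M.m + N.m
  bij : Function.Bijective j
  deRham : ∀ x ∈ M.D, ∀ y ∈ N.D, j.baseChange ℂ (exx x y) ∈ P.D
  hodge : ∀ p q : ℤ, ∀ x ∈ M.V p, ∀ y ∈ N.V q, j.baseChange ℂ (exx x y) ∈ P.V (p + q)

section basic

variable {B B' : Type} [AddCommGroup B] [Module ℚ B] [AddCommGroup B'] [Module ℚ B']

variable (B B') in
/-- the exterior product, as a bilinear map -/
noncomputable def exxL : ℂ ⊗[ℚ] B →ₗ[ℂ] ℂ ⊗[ℚ] B' →ₗ[ℂ] ℂ ⊗[ℚ] (B ⊗[ℚ] B') :=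
  (TensorProduct.mk ℂ (ℂ ⊗[ℚ] B) (ℂ ⊗[ℚ] B')).compr₂
    (TensorProduct.AlgebraTensorModule.distribBaseChange ℚ ℂ B B').symm.toLinearMap

lemma exxL_apply (x : ℂ ⊗[ℚ] B) (y : ℂ ⊗[ℚ] B') : exxL B B' x y = exx x y := rfl

lemma bilin_ext {V W Z : Type} [AddCommGroup V] [Module ℂ V] [AddCommGroup W] [Module ℂ W] [AddCommGroup Z]
    [Module ℂ Z] {S : Set V} {S' : Set W} (hS : Submodule.span ℂ S = ⊤) (hS' : Submodule.span ℂ S' = ⊤)
    {β β' : V →ₗ[ℂ] W →ₗ[ℂ] Z} (h : ∀ x ∈ S, ∀ y ∈ S', β x y = β' x y) (x : V) (y : W) : β x y = β' x y := by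
  have h1 : β = β' := LinearMap.ext_on hS fun x hx => LinearMap.ext_on hS' fun y hy => h x hx y hy
  rw [h1]

lemma psi_gact (ψ : LinearMap.BilinForm ℚ B) (g : ℂ ≃+* ℂ) (x y : ℂ ⊗[ℚ] B) :
    (LinearMap.BilinForm.baseChange ℂ ψ) (gact B g x) (gact B g y) = g ((LinearMap.BilinForm.baseChange ℂ ψ) x y) := by
  induction x using TensorProduct.induction_on with
  | zero => simp
  | add x1 x2 h1 h2 => simp only [map_add, LinearMap.add_apply, h1, h2]
  | tmul z b =>
    induction y using TensorProduct.induction_on with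
    | zero => simp
    | add x1 x2 h1 h2 => simp only [map_add, h1, h2]
    | tmul z' b' =>
      rw [gact_tmul, gact_tmul, LinearMap.BilinForm.baseChange_tmul, LinearMap.BilinForm.baseChange_tmul,
        Rat.smul_def, Rat.smul_def, map_mul, map_mul, map_ratCast]

lemma gact_inv_right (g : ℂ ≃+* ℂ) (x : ℂ ⊗[ℚ] B) : gact B g (gact B g⁻¹ x) = x := by
  rw [← gact_mul, mul_inv_cancel, gact_one]

lemma gact_inv_left (g : ℂ ≃+* ℂ) (x : ℂ ⊗[ℚ] B) : gact B g⁻¹ (gact B g x) = x := by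
  rw [← gact_mul, inv_mul_cancel, gact_one]

end basic

lemma span_D (N : HdR) : Submodule.span ℂ (N.D : Set (ℂ ⊗[ℚ] N.B)) = ⊤ := by
  obtain ⟨b, hb⟩ := N.form
  rw [eq_top_iff, ← b.span_eq]
  refine Submodule.span_mono ?_
  rintro _ ⟨i, rfl⟩
  rw [hb]
  exact Submodule.subset_span ⟨i, rfl⟩

lemma span_V (N : HdR) : Submodule.span ℂ (⋃ p, (N.V p : Set (ℂ ⊗[ℚ] N.B))) = ⊤ := by
  rw [Submodule.span_iUnion]
  simp only [Submodule.span_eq]
  exact N.internal.submodule_iSup_eq_top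

/-- the form `ψ` is not degenerate -/
lemma nondeg (N : HdR) {x : ℂ ⊗[ℚ] N.B} (h : ∀ y, (LinearMap.BilinForm.baseChange ℂ N.ψ) x y = 0) : x = 0 := by
  by_contra hx
  have hx1 : x ∈ ⨆ p : ℤ, N.V p := by rw [N.internal.submodule_iSup_eq_top]; exact Submodule.mem_top
  rw [Submodule.mem_iSup_iff_exists_finsupp] at hx1
  obtain ⟨f, hf, hfx⟩ := hx1
  obtain ⟨q, hq⟩ : ∃ q, f q ≠ 0 := by
    by_contra hcon
    push Not at hcon
    apply hx
    rw [← hfx]
    exact Finset.sum_eq_zero fun i _ => hcon i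
  have h1 := h (conjC N.B (f q))
  obtain ⟨r, hr, hr1⟩ := N.pos q _ (hf q) hq
  have h2 : (LinearMap.BilinForm.baseChange ℂ N.ψ) x (conjC N.B (f q)) =
      (LinearMap.BilinForm.baseChange ℂ N.ψ) (f q) (conjC N.B (f q)) := by
    rw [← hfx, Finsupp.sum, map_sum, LinearMap.sum_apply]
    refine Finset.sum_eq_single q (fun p _ hp => ?_) fun hq' => ?_
    · refine N.orth p (N.m - q) (fun h3 => hp ?_) _ (hf p) _ (N.conj _ _ (hf q))
      linarith
    · exact absurd (Finsupp.notMem_support_iff.mp hq') hq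
  rw [h2] at h1
  rw [h1, mul_zero] at hr1
  have : (0 : ℝ) = r := by exact_mod_cast hr1
  linarith

/-- a compatible system of operators -/
structure TensOp where
  O : ∀ N : HdR, ℂ ⊗[ℚ] N.B →ₗ[ℂ] ℂ ⊗[ℚ] N.B
  mu : ℂ
  mu0 : mu ≠ 0
  pol : ∀ (N : HdR) (x y : ℂ ⊗[ℚ] N.B), (LinearMap.BilinForm.baseChange ℂ N.ψ) (O N x) (O N y) =
    mu ^ N.m * (LinearMap.BilinForm.baseChange ℂ N.ψ) x y
  nat : ∀ (M N : HdR) (j : M.B →ₗ[ℚ] N.B), InO M N j → ∀ x, O N (j.baseChange ℂ x) = j.baseChange ℂ (O M x)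
  tens : ∀ (M N P : HdR) (j : M.B ⊗[ℚ] N.B →ₗ[ℚ] P.B), TenO M N P j → ∀ x y,
    O P (j.baseChange ℂ (exx x y)) = j.baseChange ℂ (exx (O M x) (O N y))

namespace TensOp

lemma inj (T : TensOp) (N : HdR) : Function.Injective (T.O N) := by
  rw [injective_iff_map_eq_zero]
  intro x hx
  refine nondeg N fun y => ?_
  have h1 := T.pol N x y
  rw [hx, map_zero, LinearMap.zero_apply] at h1
  exact (mul_eq_zero.mp h1.symm).resolve_left (pow_ne_zero _ T.mu0)

/-- the identity -/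
noncomputable def one : TensOp where
  O N := LinearMap.id
  mu := 1
  mu0 := one_ne_zero
  pol N x y := by simp
  nat M N j h x := rfl
  tens M N P j h x y := rfl

/-- the composition -/
noncomputable def comp (T T' : TensOp) : TensOp where
  O N := T.O N ∘ₗ T'.O N
  mu := T.mu * T'.mu
  mu0 := mul_ne_zero T.mu0 T'.mu0
  pol N x y := by
    rw [LinearMap.comp_apply, LinearMap.comp_apply, T.pol, T'.pol, mul_pow, mul_assoc]
  nat M N j h x := by
    rw [LinearMap.comp_apply, LinearMap.comp_apply, T'.nat M N j h, T.nat M N j h]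
  tens M N P j h x y := by
    rw [LinearMap.comp_apply, LinearMap.comp_apply, LinearMap.comp_apply, T'.tens M N P j h, T.tens M N P j h]

/-- the conjugate by an automorphism of `ℂ` -/
noncomputable def conj (τ : ℂ ≃+* ℂ) (T : TensOp) : TensOp where
  O N := 
    { toFun := fun x => gact N.B τ (T.O N (gact N.B τ⁻¹ x))
      map_add' := fun x y => by rw [map_add, map_add, map_add]
      map_smul' := fun c x => by
        rw [gact_smul, map_smul, gact_smul, RingHom.id_apply]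
        congr 1
        exact τ.apply_symm_apply c }
  mu := τ T.mu
  mu0 := fun h => T.mu0 ((map_eq_zero τ).mp h)
  pol N x y := by
    change (LinearMap.BilinForm.baseChange ℂ N.ψ) (gact N.B τ (T.O N (gact N.B τ⁻¹ x)))
      (gact N.B τ (T.O N (gact N.B τ⁻¹ y))) = _
    rw [psi_gact, T.pol, map_mul, map_pow, ← psi_gact, gact_inv_right, gact_inv_right]
  nat M N j h x := by
    change gact N.B τ (T.O N (gact N.B τ⁻¹ (j.baseChange ℂ x))) = 
      j.baseChange ℂ (gact M.B τ (T.O M (gact M.B τ⁻¹ x)))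
    rw [gact_map, T.nat M N j h, gact_map]
  tens M N P j h x y := by
    change gact P.B τ (T.O P (gact P.B τ⁻¹ (j.baseChange ℂ (exx x y)))) = 
      j.baseChange ℂ (exx (gact M.B τ (T.O M (gact M.B τ⁻¹ x))) (gact N.B τ (T.O N (gact N.B τ⁻¹ y))))
    rw [gact_map, gact_exx, T.tens M N P j h, gact_map, gact_exx]

end TensOp

section galois

/-- the linear map which is the semilinear action of `g` on the de Rham classes -/
noncomputable def Cop (g : ℂ ≃+* ℂ) (N : HdR) : ℂ ⊗[ℚ] N.B →ₗ[ℂ] ℂ ⊗[ℚ] N.B :=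
  N.form.choose.constr ℂ fun i => gact N.B g (N.form.choose i)

variable {g : ℂ ≃+* ℂ} (hg : ∀ x ∈ Qb, g x = x)
include hg

lemma Cop_D (N : HdR) {x : ℂ ⊗[ℚ] N.B} (hx : x ∈ N.D) : Cop g N x = gact N.B g x := by
  rw [N.form.choose_spec] at hx
  induction hx using Submodule.span_induction with
  | mem x hx =>
    obtain ⟨i, rfl⟩ := hx
    exact Module.Basis.constr_basis _ _ _ _
  | zero => rw [map_zero, map_zero]
  | add x y _ _ hx hy => rw [map_add, map_add, hx, hy]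
  | smul a x _ hx =>
    have e : a • x = (a : ℂ) • x := rfl
    rw [e, map_smul, gact_smul, hg _ a.2, hx]

/-- the operators of the automorphisms over the algebraic numbers -/
noncomputable def TensOp.C : TensOp where
  O N := Cop g N
  mu := g (Real.pi : ℂ) / (Real.pi : ℂ)
  mu0 := by
    have hpi : (Real.pi : ℂ) ≠ 0 := by exact_mod_cast Real.pi_ne_zero
    exact div_ne_zero (fun h => hpi ((map_eq_zero g).mp h)) hpi
  pol N x y := by
    have hpi : (Real.pi : ℂ) ≠ 0 := by exact_mod_cast Real.pi_ne_zero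
    refine bilin_ext (β := (LinearMap.BilinForm.baseChange ℂ N.ψ).compl₁₂ (Cop g N) (Cop g N))
      (β' := (g (Real.pi : ℂ) / (Real.pi : ℂ)) ^ N.m • (LinearMap.BilinForm.baseChange ℂ N.ψ))
      (span_D N) (span_D N) (fun x hx y hy => ?_) x y
    change (LinearMap.BilinForm.baseChange ℂ N.ψ) (Cop g N x) (Cop g N y) = 
      (g (Real.pi : ℂ) / (Real.pi : ℂ)) ^ N.m * (LinearMap.BilinForm.baseChange ℂ N.ψ) x y
    rw [Cop_D hg N hx, Cop_D hg N hy, psi_gact]
    obtain ⟨a, ha, h1⟩ := N.deRham x hx y hy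
    rw [h1, map_mul, map_pow, hg a ha, div_pow]
    field_simp
  nat M N j h x := by
    have h1 : Cop g N ∘ₗ j.baseChange ℂ = j.baseChange ℂ ∘ₗ Cop g M := by
      refine LinearMap.ext_on (span_D M) fun x hx => ?_
      rw [LinearMap.comp_apply, LinearMap.comp_apply, Cop_D hg N (h.deRham x hx), Cop_D hg M hx, gact_map]
    exact LinearMap.congr_fun h1 x
  tens M N P j h x y := by
    refine bilin_ext (β := (exxL M.B N.B).compr₂ (Cop g P ∘ₗ j.baseChange ℂ))
      (β' := ((exxL M.B N.B).compl₁₂ (Cop g M) (Cop g N)).compr₂ (j.baseChange ℂ))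
      (span_D M) (span_D N) (fun x hx y hy => ?_) x y
    change Cop g P (j.baseChange ℂ (exx x y)) = j.baseChange ℂ (exx (Cop g M x) (Cop g N y))
    rw [Cop_D hg P (h.deRham x hx y hy), Cop_D hg M hx, Cop_D hg N hy, gact_map, gact_exx]

lemma C_line {N : HdR} {F : Type} [Field F] [NumberField F] {f : F →ₗ[ℚ] N.B} {P : (F →+* ℂ) → ℂ}
    {p : (F →+* ℂ) → ℤ} (h : IsLine N f P p) (σ : F →+* ℂ) :
    (TensOp.C hg).O N (vec f σ) = (g (P σ) / P σ) • vec f σ := by
  have h1 : Cop g N (P σ • vec f σ) = gact N.B g (P σ • vec f σ) := Cop_D hg N (h.dr σ)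
  rw [map_smul, gact_smul, gact_vec] at h1
  have h2 : (g : ℂ →+* ℂ).comp σ = σ := by
    ext x
    exact hg _ (emb_mem σ x)
  rw [h2] at h1
  change Cop g N (vec f σ) = _
  rw [div_eq_inv_mul, mul_smul, ← h1, smul_smul, inv_mul_cancel₀ (h.ne σ), one_smul]

end galois

section hodge

/-- multiplication by `z ^ p` on `V p` -/
noncomputable def Hop (z : ℂ) (N : HdR) : ℂ ⊗[ℚ] N.B →ₗ[ℂ] ℂ ⊗[ℚ] N.B :=
  DirectSum.toModule ℂ ℤ (ℂ ⊗[ℚ] N.B) (fun p => z ^ p • (N.V p).subtype) ∘ₗ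
    (LinearEquiv.ofBijective (DirectSum.coeLinearMap N.V) N.internal).symm.toLinearMap

lemma Hop_V (z : ℂ) (N : HdR) {p : ℤ} {x : ℂ ⊗[ℚ] N.B} (hx : x ∈ N.V p) : Hop z N x = z ^ p • x := by
  have h1 : (LinearEquiv.ofBijective (DirectSum.coeLinearMap N.V) N.internal).symm x =
      DirectSum.lof ℂ ℤ (fun p => N.V p) p ⟨x, hx⟩ := by
    rw [LinearEquiv.symm_apply_eq]
    exact (DirectSum.coeLinearMap_lof N.V p ⟨x, hx⟩).symm
  unfold Hop
  rw [LinearMap.comp_apply, LinearEquiv.coe_coe, h1, DirectSum.toModule_lof]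
  rfl

variable {z : ℂ} (hz : z ≠ 0)
include hz

/-- the operators of the Hodge torus -/
noncomputable def TensOp.H : TensOp where
  O N := Hop z N
  mu := z
  mu0 := hz
  pol N x y := by
    refine bilin_ext (β := (LinearMap.BilinForm.baseChange ℂ N.ψ).compl₁₂ (Hop z N) (Hop z N))
      (β' := z ^ N.m • (LinearMap.BilinForm.baseChange ℂ N.ψ))
      (span_V N) (span_V N) (fun x hx y hy => ?_) x y
    obtain ⟨p, hp⟩ := Set.mem_iUnion.mp hx
    obtain ⟨q, hq⟩ := Set.mem_iUnion.mp hy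
    change (LinearMap.BilinForm.baseChange ℂ N.ψ) (Hop z N x) (Hop z N y) = 
      z ^ N.m * (LinearMap.BilinForm.baseChange ℂ N.ψ) x y
    rw [Hop_V z N hp, Hop_V z N hq, map_smul, map_smul, LinearMap.smul_apply, smul_eq_mul, smul_eq_mul]
    by_cases h : p + q = N.m
    · rw [← mul_assoc, ← zpow_add₀ hz, add_comm q p, h, zpow_natCast]
    · rw [N.orth p q h x hp y hq]
      simp
  nat M N j h x := by
    have h1 : Hop z N ∘ₗ j.baseChange ℂ = j.baseChange ℂ ∘ₗ Hop z M := by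
      refine LinearMap.ext_on (span_V M) fun x hx => ?_
      obtain ⟨p, hp⟩ := Set.mem_iUnion.mp hx
      rw [LinearMap.comp_apply, LinearMap.comp_apply, Hop_V z N (h.hodge p x hp), Hop_V z M hp, map_smul]
    exact LinearMap.congr_fun h1 x
  tens M N P j h x y := by
    refine bilin_ext (β := (exxL M.B N.B).compr₂ (Hop z P ∘ₗ j.baseChange ℂ))
      (β' := ((exxL M.B N.B).compl₁₂ (Hop z M) (Hop z N)).compr₂ (j.baseChange ℂ))
      (span_V M) (span_V N) (fun x hx y hy => ?_) x y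
    obtain ⟨p, hp⟩ := Set.mem_iUnion.mp hx
    obtain ⟨q, hq⟩ := Set.mem_iUnion.mp hy
    change Hop z P (j.baseChange ℂ (exx x y)) = j.baseChange ℂ (exxL M.B N.B (Hop z M x) (Hop z N y))
    rw [Hop_V z P (h.hodge p q x hp y hq), Hop_V z M hp, Hop_V z N hq, LinearMap.map_smul₂, map_smul, map_smul,
      map_smul, smul_smul, ← zpow_add₀ hz]
    rfl

lemma H_line {N : HdR} {F : Type} [Field F] [NumberField F] {f : F →ₗ[ℚ] N.B} {P : (F →+* ℂ) → ℂ}
    {p : (F →+* ℂ) → ℤ} (h : IsLine N f P p) (σ : F →+* ℂ) :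
    (TensOp.H hz).O N (vec f σ) = z ^ p σ • vec f σ := Hop_V z N (h.hodge σ)

end hodge

end Pool.Agent.T2h95.GD
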