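import Pool.Agent.T2h95.GD.LineData

/-!
Functions on the embeddings of a cyclic field which are orthogonal to all proper subfields.
-/

set_option autoImplicit false

open Finset

namespace Pool.Agent.T2h95.GD

section group

lemma exists_W_comm {G : Type} [CommGroup G] [Finite G] (χ : G →* ℂ) (hχ : Function.Injective χ) :
    ∃ W : G → ℤ, (∃ g, W g ≠ 0) ∧ ∀ κ : G, κ ≠ 1 → ∀ g, ∑ i ∈ range (orderOf κ), W (g * κ ^ i) = 0 := by
  classical
  have _ : Fintype G := Fintype.ofFinite G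
  let w : MonoidAlgebra ℤ G := ∏ y ∈ univ.erase (1 : G), (1 - MonoidAlgebra.single y 1)
  have hw : MonoidAlgebra.lift ℤ ℂ G χ w ≠ 0 := by
    simp only [w, map_prod, map_sub, map_one, MonoidAlgebra.lift_single, one_smul]
    refine prod_ne_zero_iff.mpr fun y hy => ?_
    rw [sub_ne_zero]
    intro h
    apply ne_of_mem_erase hy
    apply hχ
    rw [← h, map_one]
  refine ⟨fun g => w.coeff g, ?_, fun κ hκ g => ?_⟩
  · by_contra hcon
    push Not at hcon
    apply hw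
    have : w = 0 := MonoidAlgebra.ext (Finsupp.ext hcon)
    rw [this, map_zero]
  · have h1 : (∑ i ∈ range (orderOf κ), (MonoidAlgebra.single (κ⁻¹) (1 : ℤ)) ^ i) * w = 0 := by
      have hmem : κ⁻¹ ∈ univ.erase (1 : G) := by simpa using hκ
      have h2 : (∑ i ∈ range (orderOf κ), (MonoidAlgebra.single (κ⁻¹) (1 : ℤ)) ^ i) *
          (1 - MonoidAlgebra.single (κ⁻¹) 1) = 0 := by
        have h3 := geom_sum_mul (MonoidAlgebra.single (κ⁻¹) (1 : ℤ)) (orderOf κ)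
        rw [MonoidAlgebra.single_pow, one_pow, inv_pow, pow_orderOf_eq_one, inv_one] at h3
        have h4 : (MonoidAlgebra.single (1 : G) (1 : ℤ)) = 1 := rfl
        rw [h4, sub_self] at h3
        rw [← neg_sub, mul_neg, h3, neg_zero]
      change _ * (∏ y ∈ univ.erase (1 : G), (1 - MonoidAlgebra.single y 1)) = 0
      rw [← Finset.mul_prod_erase _ _ hmem, ← mul_assoc, h2, zero_mul]
    have h2 : ∀ i ∈ range (orderOf κ), w.coeff (g * κ ^ i) =
        ((MonoidAlgebra.single (κ⁻¹) (1 : ℤ)) ^ i * w).coeff g := by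
      intro i _
      rw [MonoidAlgebra.single_pow, MonoidAlgebra.coeff_single_mul_apply, one_pow, one_mul, inv_pow, inv_inv, mul_comm]
    rw [sum_congr rfl h2]
    have h3 : (∑ i ∈ range (orderOf κ), ((MonoidAlgebra.single (κ⁻¹) (1 : ℤ)) ^ i * w).coeff g) =
        ((∑ i ∈ range (orderOf κ), (MonoidAlgebra.single (κ⁻¹) (1 : ℤ)) ^ i) * w).coeff g := by
      rw [Finset.sum_mul]
      simp
    rw [h3, h1]
    rfl

lemma exists_W (G : Type) [Group G] [Finite G] [hG : IsCyclic G] :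
    ∃ W : G → ℤ, (∃ g, W g ≠ 0) ∧ ∀ κ : G, κ ≠ 1 → ∀ g, ∑ i ∈ range (orderOf κ), W (g * κ ^ i) = 0 := by
  let e := zmodCyclicMulEquiv hG
  have : NeZero (Nat.card G) := ⟨Nat.card_pos.ne'⟩
  let χ : Multiplicative (ZMod (Nat.card G)) →* ℂ := (ZMod.stdAddChar (N := Nat.card G)).toMonoidHom
  have hχ : Function.Injective χ := ZMod.injective_stdAddChar
  have _ : Finite (Multiplicative (ZMod (Nat.card G))) := Finite.of_equiv G e.symm.toEquiv
  obtain ⟨W, ⟨g, hg⟩, h⟩ := exists_W_comm χ hχ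
  refine ⟨fun x => W (e.symm x), ⟨e g, by simpa using hg⟩, fun κ hκ x => ?_⟩
  have h1 := h (e.symm κ) (by simpa using hκ) (e.symm x)
  rw [MulEquiv.orderOf_eq] at h1
  simpa using h1

lemma comm_of_cyclic {G : Type} [Group G] [hG : IsCyclic G] (a b : G) : a * b = b * a := by
  obtain ⟨g, hg⟩ := hG.exists_generator
  obtain ⟨i, rfl⟩ := hg a
  obtain ⟨j, rfl⟩ := hg b
  simp only
  rw [← zpow_add, ← zpow_add, add_comm]

end group

section prim

variable {L : Type} [Field L] [NumberField L]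

/-- functions orthogonal to all proper subfields -/
def Prim (L : Type) [Field L] [NumberField L] (w : (L →+* ℂ) → ℤ) : Prop :=
  ∀ κ : L ≃ₐ[ℚ] L, κ ≠ 1 → ∀ σ : L →+* ℂ,
    ∑ i ∈ range (orderOf κ), w (σ.comp ((κ ^ i : L ≃ₐ[ℚ] L) : L →+* L)) = 0

lemma Prim.add {w w' : (L →+* ℂ) → ℤ} (h : Prim L w) (h' : Prim L w') : Prim L (w + w') := by
  intro κ hκ σ
  simp only [Pi.add_apply]
  rw [sum_add_distrib, h κ hκ σ, h' κ hκ σ, add_zero]

lemma Prim.zero : Prim L 0 := by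
  intro κ hκ σ
  simp

lemma Prim.twist [IsCyclic (L ≃ₐ[ℚ] L)] {w : (L →+* ℂ) → ℤ} (h : Prim L w) (τ : L ≃ₐ[ℚ] L) :
    Prim L (fun σ => w (σ.comp (τ : L →+* L))) := by
  intro κ hκ σ
  rw [← h κ hκ (σ.comp (τ : L →+* L))]
  refine sum_congr rfl fun i _ => congrArg w ?_
  ext x
  change σ ((κ ^ i * τ : L ≃ₐ[ℚ] L) x) = σ ((τ * κ ^ i : L ≃ₐ[ℚ] L) x)
  rw [comm_of_cyclic]

lemma exists_prim [IsCyclic (L ≃ₐ[ℚ] L)]
    (htr : ∀ σ σ' : L →+* ℂ, ∃ τ : L ≃ₐ[ℚ] L, σ' = σ.comp (τ : L →+* L)) (σ0 : L →+* ℂ) :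
    ∃ w : (L →+* ℂ) → ℤ, Prim L w ∧ ∃ σ, w σ ≠ 0 := by
  obtain ⟨W, ⟨g, hg⟩, h⟩ := exists_W (L ≃ₐ[ℚ] L)
  choose s hs using htr σ0
  have huniq : ∀ (σ : L →+* ℂ) (τ : L ≃ₐ[ℚ] L), σ = σ0.comp (τ : L →+* L) → s σ = τ := by
    intro σ τ h1
    ext x
    apply σ0.injective
    have h2 := hs σ
    have h3 := RingHom.congr_fun (h2.symm.trans h1) x
    exact h3
  refine ⟨fun σ => W (s σ), fun κ hκ σ => ?_, σ0.comp (g : L →+* L), ?_⟩
  · rw [← h κ hκ (s σ)]
    refine sum_congr rfl fun i _ => congrArg W ?_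
    apply huniq
    conv_lhs => rw [hs σ]
    ext x
    rfl
  · change W (s (σ0.comp (g : L →+* L))) ≠ 0
    rw [huniq _ g rfl]
    exact hg

end prim

end Pool.Agent.T2h95.GD
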