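import Pool.Agent.T2h95.GD.Gen
import Pool.Agent.T2h95.GD.Neu

/-!
The rank of the group generated by the periods.
-/

set_option autoImplicit false

open Finset
open scoped TensorProduct

namespace Pool.Agent.T2h95.GD

/-- triples in the members of a class, with an embedding of the field -/
structure LItem (𝒞 : HdR → Prop) where
  N : HdR
  mem : 𝒞 N
  F : Type
  [fld : Field F]
  [nf : NumberField F]
  f : F →ₗ[ℚ] N.B
  P : (F →+* ℂ) → ℂ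
  p : (F →+* ℂ) → ℤ
  line : IsLine N f P p
  σ : F →+* ℂ

attribute [instance] LItem.fld LItem.nf

section

variable {𝒞 : HdR → Prop}

/-- the squares of the normalised periods -/
noncomputable def LItem.R (x : LItem 𝒞) (τ : ℂ ≃+* ℂ) : ℂ :=
  x.P ((τ : ℂ →+* ℂ).comp x.σ) ^ 2 / (Real.pi : ℂ) ^ x.N.m

/-- the normalised Hodge numbers -/
def LItem.w (x : LItem 𝒞) (τ : ℂ ≃+* ℂ) : ℤ := 2 * x.p ((τ : ℂ →+* ℂ).comp x.σ) - x.N.m

lemma pi_ne' : (Real.pi : ℂ) ≠ 0 := by exact_mod_cast Real.pi_ne_zero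

lemma LItem.R_ne (x : LItem 𝒞) (τ : ℂ ≃+* ℂ) : x.R τ ≠ 0 :=
  div_ne_zero (pow_ne_zero _ (x.line.ne _)) (pow_ne_zero _ pi_ne')

lemma rat_ne (z : ℚˣ) : ((z : ℚ) : ℂ) ≠ 0 := by exact_mod_cast z.ne_zero

lemma ga_ne (y : GR) (w : ℤ) {Q : ℂ} (hQ : Q ≠ 0) : ga y w Q ≠ 0 :=
  mul_ne_zero (fun h => hQ ((map_eq_zero _).mp h)) (zpow_ne_zero _ (rat_ne _))

lemma AQ_fix (g : AQ) : ∀ x ∈ Qb, (g : ℂ ≃+* ℂ) x = x := g.2

/-- the operator of one automorphism, rational number and conjugation -/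
noncomputable def op (τ : ℂ ≃+* ℂ) (y : GR) : TensOp :=
  TensOp.conj τ (TensOp.comp (TensOp.C (AQ_fix y.1)) (TensOp.H (rat_ne y.2)))

lemma op_mu (τ : ℂ ≃+* ℂ) (y : GR) : (op τ y).mu = τ (ga y 1 (Real.pi : ℂ) / (Real.pi : ℂ)) := by
  change τ ((y.1 : ℂ ≃+* ℂ) (Real.pi : ℂ) / (Real.pi : ℂ) * ((y.2 : ℚ) : ℂ)) = _
  unfold ga
  rw [zpow_one]
  congr 1
  ring

lemma op_line (τ : ℂ ≃+* ℂ) (y : GR) {N : HdR} {F : Type} [Field F] [NumberField F] {f : F →ₗ[ℚ] N.B}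
    {P : (F →+* ℂ) → ℂ} {p : (F →+* ℂ) → ℤ} (h : IsLine N f P p) (σ : F →+* ℂ) :
    (op τ y).O N (vec f σ) = τ (ga y (p (((τ⁻¹ : ℂ ≃+* ℂ) : ℂ →+* ℂ).comp σ)) (P (((τ⁻¹ : ℂ ≃+* ℂ) : ℂ →+* ℂ).comp σ)) /
      P (((τ⁻¹ : ℂ ≃+* ℂ) : ℂ →+* ℂ).comp σ)) • vec f σ := by
  change gact N.B τ ((TensOp.C (AQ_fix y.1)).O N ((TensOp.H (rat_ne y.2)).O N
    (gact N.B τ⁻¹ (vec f σ)))) = _
  rw [gact_vec, H_line _ h, map_smul, C_line _ h, gact_smul, gact_smul, gact_vec, smul_smul, ← map_mul]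
  have h1 : (τ : ℂ →+* ℂ).comp (((τ⁻¹ : ℂ ≃+* ℂ) : ℂ →+* ℂ).comp σ) = σ := by
    ext x
    exact τ.apply_symm_apply (σ x)
  rw [h1]
  congr 2
  unfold ga
  ring

lemma exists_op (S : Finset (ℂ ≃+* ℂ)) (y : (ℂ ≃+* ℂ) → GR) : ∃ T : TensOp,
    T.mu = ∏ τ ∈ S, τ (ga (y τ) 1 (Real.pi : ℂ) / (Real.pi : ℂ)) ∧
    ∀ (N : HdR) (F : Type) [Field F] [NumberField F] (f : F →ₗ[ℚ] N.B) (P : (F →+* ℂ) → ℂ) (p : (F →+* ℂ) → ℤ),
      IsLine N f P p → ∀ σ : F →+* ℂ, T.O N (vec f σ) =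
        (∏ τ ∈ S, τ (ga (y τ) (p (((τ⁻¹ : ℂ ≃+* ℂ) : ℂ →+* ℂ).comp σ)) (P (((τ⁻¹ : ℂ ≃+* ℂ) : ℂ →+* ℂ).comp σ)) /
      P (((τ⁻¹ : ℂ ≃+* ℂ) : ℂ →+* ℂ).comp σ))) • vec f σ := by
  classical
  induction S using Finset.induction_on with
  | empty => exact ⟨TensOp.one, by simp [TensOp.one], fun N F _ _ f P p h σ => by simp [TensOp.one]⟩
  | insert τ S hτ ih =>
    obtain ⟨T, h1, h2⟩ := ih
    refine ⟨TensOp.comp (op τ (y τ)) T, ?_, fun N F _ _ f P p h σ => ?_⟩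
    · rw [Finset.prod_insert hτ, ← h1, ← op_mu]
      rfl
    · change (op τ (y τ)).O N (T.O N (vec f σ)) = _
      rw [h2 N F f P p h σ, map_smul, op_line τ (y τ) h, smul_smul, Finset.prod_insert hτ, mul_comm]

lemma item_eig (S : Finset (ℂ ≃+* ℂ)) (y : (ℂ ≃+* ℂ) → GR) : ∃ T : TensOp, ∀ x : LItem 𝒞, ∃ a : ℂ,
    Eig (T.O x.N) a ∧ a ^ 2 = T.mu ^ x.N.m * ∏ τ ∈ S, τ (ga (y τ) (x.w τ⁻¹) (x.R τ⁻¹) / x.R τ⁻¹) := by
  obtain ⟨T, h1, h2⟩ := exists_op S y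
  refine ⟨T, fun x => ⟨_, ⟨_, vec_ne_zero x.f x.line.inj x.σ, h2 x.N x.F x.f x.P x.p x.line x.σ⟩, ?_⟩⟩
  rw [h1, ← Finset.prod_pow, ← Finset.prod_pow, ← Finset.prod_mul_distrib]
  refine Finset.prod_congr rfl fun τ _ => ?_
  rw [← map_pow, ← map_pow, ← map_mul]
  congr 1
  unfold LItem.w LItem.R ga
  set P := x.P (((τ⁻¹ : ℂ ≃+* ℂ) : ℂ →+* ℂ).comp x.σ) with hP
  have hP0 : P ≠ 0 := x.line.ne _
  have hg0 : ((y τ).1 : ℂ ≃+* ℂ) P ≠ 0 := fun h => hP0 ((map_eq_zero _).mp h)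
  have hgp : ((y τ).1 : ℂ ≃+* ℂ) (Real.pi : ℂ) ≠ 0 := fun h => pi_ne' ((map_eq_zero _).mp h)
  have hz := rat_ne (y τ).2
  have hpi := pi_ne'
  rw [map_div₀, map_pow, map_pow, zpow_sub₀ hz, zpow_mul, zpow_natCast, zpow_one, div_pow, div_pow, mul_pow, mul_pow]
  rw [← zpow_natCast (((((y τ).2 : ℚ) : ℂ)) ^ x.p _) 2, ← zpow_mul, ← zpow_mul, mul_comm (2 : ℤ)]
  field_simp
  norm_cast

/-- a relation between more vectors than coordinates -/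
lemma exists_rel {κ J : Type} [Fintype κ] [Fintype J] (h : Fintype.card J < Fintype.card κ) (E : κ → J → ℤ) :
    ∃ r : κ → ℤ, r ≠ 0 ∧ ∀ j, ∑ k, r k * E k j = 0 := by
  have h1 : ¬ LinearIndependent ℤ E := by
    intro hli
    have h2 := hli.fintype_card_le_finrank
    rw [Module.finrank_pi] at h2
    omega
  rw [Fintype.not_linearIndependent_iff] at h1
  obtain ⟨r, hr, k, hk⟩ := h1
  refine ⟨r, fun h2 => hk (by rw [h2]; rfl), fun j => ?_⟩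
  have h3 := congrFun hr j
  rw [Finset.sum_apply] at h3
  exact h3

lemma ga_prod {κ : Type} [Fintype κ] (y : GR) (w : κ → ℤ) (Q : κ → ℂ) (r : κ → ℤ) :
    ga y (∑ k, r k * w k) (∏ k, Q k ^ r k) / ∏ k, Q k ^ r k = ∏ k, (ga y (w k) (Q k) / Q k) ^ r k := by
  unfold ga
  have h1 : ∀ s : Finset κ, ((y.2 : ℚ) : ℂ) ^ (∑ k ∈ s, r k * w k) = ∏ k ∈ s, (((y.2 : ℚ) : ℂ) ^ w k) ^ r k := by
    classical
    intro s
    induction s using Finset.induction_on with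
    | empty => simp
    | insert a s ha ih => rw [Finset.sum_insert ha, Finset.prod_insert ha, zpow_add₀ (rat_ne _), ih, mul_comm (r a),
        zpow_mul]
  rw [h1, map_prod, ← Finset.prod_mul_distrib, ← Finset.prod_div_distrib]
  refine Finset.prod_congr rfl fun k _ => ?_
  rw [map_zpow₀, ← mul_zpow, ← div_zpow]

/-- More triples than half of the sum of the dimensions of the generators are dependent. -/
theorem rank {ι : Type} [Fintype ι] (𝓜 : ι → HdR) {κ : Type} [Fintype κ] (x : κ → LItem (Gen 𝓜))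
    (hκ : ∑ i, Module.finrank ℚ (𝓜 i).B / 2 < Fintype.card κ) :
    ∃ r : κ → ℤ, r ≠ 0 ∧ ∀ τ : ℂ ≃+* ℂ, ∏ k, (x k).R τ ^ r k ∈ Qb ∧ ∑ k, r k * (x k).w τ = 0 := by
  classical
  have hJ : Fintype.card (JJ 𝓜) < Fintype.card κ := by
    rw [Fintype.card_sigma]
    simpa using hκ
  -- the representatives
  let Φ : (ℂ ≃+* ℂ) → (∀ k, (x k).F →+* ℂ) := fun τ k => ((τ⁻¹ : ℂ ≃+* ℂ) : ℂ →+* ℂ).comp (x k).σ
  let S : Finset (ℂ ≃+* ℂ) := (univ : Finset (∀ k, (x k).F →+* ℂ)).image (Function.invFun Φ)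
  have hS : ∀ τ, ∃ s ∈ S, Φ s = Φ τ := fun τ =>
    ⟨Function.invFun Φ (Φ τ), Finset.mem_image.mpr ⟨_, Finset.mem_univ _, rfl⟩, Function.invFun_eq ⟨τ, rfl⟩⟩
  -- the bounds
  choose b hb using fun k => gen_bound 𝓜 (x k).mem
  let bb : ℕ := ∑ k, b k
  have hbb : ∀ k, b k ≤ bb := fun k => Finset.single_le_sum (f := b) (fun _ _ => Nat.zero_le _) (Finset.mem_univ k)
  let L : Type := κ → JJ 𝓜 → (Finset.Icc (-(bb : ℤ)) bb)
  choose r hr0 hr using fun l : L => exists_rel hJ (fun k j => ((l k j : ℤ)))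
  let Q : L → (ℂ ≃+* ℂ) → ℂ := fun l τ => ∏ k, (x k).R τ⁻¹ ^ r l k
  let W : L → (ℂ ≃+* ℂ) → ℤ := fun l τ => ∑ k, r l k * (x k).w τ⁻¹
  have hQ0 : ∀ l τ, Q l τ ≠ 0 := fun l τ => Finset.prod_ne_zero_iff.mpr fun k _ => zpow_ne_zero _ ((x k).R_ne _)
  let φ : L → (ℂ ≃+* ℂ) → GR → ℂ := fun l τ y => τ (ga y (W l τ) (Q l τ) / Q l τ)
  let U : L → Set ((ℂ ≃+* ℂ) → GR) := fun l => {y | ∏ τ ∈ S, φ l τ (y τ) = 1}
  obtain ⟨l, -, hl⟩ := neumann_prod U (fun l τ => Kst (W l τ) (Q l τ)) S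
    (fun l τ hτ y hy g => by
      have hy' : ∏ σ ∈ S, φ l σ (y σ) = 1 := hy
      rw [← Finset.mul_prod_erase S _ hτ] at hy'
      rw [mem_Kst]
      change ∏ σ ∈ S, φ l σ (Function.update y τ g σ) = 1 ↔ _
      rw [← Finset.mul_prod_erase S _ hτ, Function.update_self]
      have h1 : ∏ σ ∈ S.erase τ, φ l σ (Function.update y τ g σ) = ∏ σ ∈ S.erase τ, φ l σ (y σ) := by
        refine Finset.prod_congr rfl fun σ hσ => ?_
        rw [Function.update_of_ne (Finset.ne_of_mem_erase hσ)]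
      rw [h1]
      have h2 : ∏ σ ∈ S.erase τ, φ l σ (y σ) ≠ 0 := right_ne_zero_of_mul (by rw [hy']; exact one_ne_zero)
      have h3 : φ l τ g = φ l τ (y τ) ↔ ga g (W l τ) (Q l τ) = ga (y τ) (W l τ) (Q l τ) := by
        constructor
        · intro h
          have h4 := τ.injective h
          exact (div_left_inj' (hQ0 l τ)).mp h4
        · intro h
          change τ _ = τ _
          rw [h]
      rw [← h3, ← hy']
      exact mul_left_inj' h2)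
    (fun y => by
      obtain ⟨T, hT⟩ := item_eig (𝒞 := Gen 𝓜) S y
      obtain ⟨β, hβ⟩ := exists_good 𝓜 T
      choose a ha ha2 using fun k => hT (x k)
      choose e he he2 using fun k => hb k T β hβ (a k) (ha k)
      have hmem : ∀ k j, e k j ∈ Finset.Icc (-(bb : ℤ)) bb := by
        intro k j
        rw [Finset.mem_Icc, ← abs_le]
        exact (he k j).trans (by exact_mod_cast hbb k)
      let l : L := fun k j => ⟨e k j, hmem k j⟩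
      refine ⟨l, ?_⟩
      have h1 : ∀ k, ∏ τ ∈ S, τ (ga (y τ) ((x k).w τ⁻¹) ((x k).R τ⁻¹) / (x k).R τ⁻¹) = ∏ j, β j ^ e k j := by
        intro k
        apply mul_left_cancel₀ (pow_ne_zero (x k).N.m T.mu0)
        rw [← ha2 k, he2 k]
      have h2 : ∏ τ ∈ S, φ l τ (y τ) = ∏ k, (∏ τ ∈ S, τ (ga (y τ) ((x k).w τ⁻¹) ((x k).R τ⁻¹) / (x k).R τ⁻¹)) ^ r l k := by
        simp only [← Finset.prod_zpow]
        rw [Finset.prod_comm]
        refine Finset.prod_congr rfl fun τ _ => ?_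
        change τ (ga (y τ) (∑ k, r l k * (x k).w τ⁻¹) (∏ k, (x k).R τ⁻¹ ^ r l k) / ∏ k, (x k).R τ⁻¹ ^ r l k) = _
        rw [ga_prod, map_prod]
        refine Finset.prod_congr rfl fun k _ => ?_
        rw [map_zpow₀]
      change ∏ τ ∈ S, φ l τ (y τ) = 1
      rw [h2]
      simp only [h1, ← Finset.prod_zpow]
      rw [Finset.prod_comm]
      refine Finset.prod_eq_one fun j _ => ?_
      have h3 : ∀ s : Finset κ, ∏ k ∈ s, (β j ^ e k j) ^ r l k = β j ^ (∑ k ∈ s, r l k * e k j) := by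
        intro s
        induction s using Finset.induction_on with
        | empty => simp
        | insert a s ha ih => rw [Finset.sum_insert ha, Finset.prod_insert ha, zpow_add₀ (hβ.1 j), ih, mul_comm (r l a),
            zpow_mul]
      rw [h3, hr l j, zpow_zero])
    1
  refine ⟨r l, hr0 l, fun τ => ?_⟩
  obtain ⟨s, hs, hsτ⟩ := hS τ⁻¹
  obtain ⟨h1, h2⟩ := finite_Kst (hQ0 l s) (hl s hs)
  have h3 : ∀ k, (((s⁻¹ : ℂ ≃+* ℂ) : ℂ →+* ℂ).comp (x k).σ) = (τ : ℂ →+* ℂ).comp (x k).σ := by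
    intro k
    have h4 := congrFun hsτ k
    change ((s⁻¹ : ℂ ≃+* ℂ) : ℂ →+* ℂ).comp (x k).σ = (((τ⁻¹)⁻¹ : ℂ ≃+* ℂ) : ℂ →+* ℂ).comp (x k).σ at h4
    rw [h4, inv_inv]
  have h5 : ∀ k, (x k).R s⁻¹ = (x k).R τ := fun k => by unfold LItem.R; rw [h3]
  have h6 : ∀ k, (x k).w s⁻¹ = (x k).w τ := fun k => by unfold LItem.w; rw [h3]
  constructor
  · have h7 : Q l s = ∏ k, (x k).R τ ^ r l k := by
      change ∏ k, (x k).R s⁻¹ ^ r l k = _
      simp only [h5]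
    rw [← h7]
    exact h2
  · have h7 : W l s = ∑ k, r l k * (x k).w τ := by
      change ∑ k, r l k * (x k).w s⁻¹ = _
      simp only [h6]
    rw [← h7]
    exact h1

end

end Pool.Agent.T2h95.GD
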