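import Pool.Agent.T2h95.GD.Diag

/-!
Tensor products of the structures with a basis of eigenvectors.
-/

set_option autoImplicit false

open Finset
open scoped TensorProduct

namespace Pool.Agent.T2h95.GD

section

variable {B B' : Type} [AddCommGroup B] [Module ℚ B] [AddCommGroup B'] [Module ℚ B']

/-- the exterior product -/
noncomputable def exx (x : ℂ ⊗[ℚ] B) (y : ℂ ⊗[ℚ] B') : ℂ ⊗[ℚ] (B ⊗[ℚ] B') :=
  (TensorProduct.AlgebraTensorModule.distribBaseChange ℚ ℂ B B').symm (x ⊗ₜ[ℂ] y)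

lemma exx_tmul (z z' : ℂ) (x : B) (y : B') : exx (z ⊗ₜ[ℚ] x) (z' ⊗ₜ[ℚ] y) = (z * z') ⊗ₜ[ℚ] (x ⊗ₜ[ℚ] y) := by
  unfold exx
  rw [TensorProduct.AlgebraTensorModule.distribBaseChange_symm_tmul]

lemma exx_add (x x' : ℂ ⊗[ℚ] B) (y : ℂ ⊗[ℚ] B') : exx (x + x') y = exx x y + exx x' y := by
  unfold exx
  rw [TensorProduct.add_tmul, map_add]

lemma add_exx (x : ℂ ⊗[ℚ] B) (y y' : ℂ ⊗[ℚ] B') : exx x (y + y') = exx x y + exx x y' := by
  unfold exx
  rw [TensorProduct.tmul_add, map_add]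

lemma zero_exx (y : ℂ ⊗[ℚ] B') : exx (0 : ℂ ⊗[ℚ] B) y = 0 := by
  unfold exx
  rw [TensorProduct.zero_tmul, map_zero]

lemma exx_zero (x : ℂ ⊗[ℚ] B) : exx x (0 : ℂ ⊗[ℚ] B') = 0 := by
  unfold exx
  rw [TensorProduct.tmul_zero, map_zero]

lemma gact_exx (g : ℂ ≃+* ℂ) (x : ℂ ⊗[ℚ] B) (y : ℂ ⊗[ℚ] B') :
    gact (B ⊗[ℚ] B') g (exx x y) = exx (gact B g x) (gact B' g y) := by
  induction x using TensorProduct.induction_on with
  | zero => rw [zero_exx, map_zero, map_zero, zero_exx]
  | add x x' hx hx' => rw [exx_add, map_add, map_add, exx_add, hx, hx']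
  | tmul z b =>
    induction y using TensorProduct.induction_on with
    | zero => rw [exx_zero, map_zero, map_zero, exx_zero]
    | add y y' hy hy' => rw [add_exx, map_add, map_add, add_exx, hy, hy']
    | tmul z' b' => rw [exx_tmul, gact_tmul, gact_tmul, gact_tmul, exx_tmul, map_mul]

/-- the product of two bilinear forms -/
noncomputable def psiT (ψ : LinearMap.BilinForm ℚ B) (ψ' : LinearMap.BilinForm ℚ B') :
    LinearMap.BilinForm ℚ (B ⊗[ℚ] B') := LinearMap.BilinForm.tmul ψ ψ'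

lemma psiT_tmul (ψ : LinearMap.BilinForm ℚ B) (ψ' : LinearMap.BilinForm ℚ B') (x x' : B) (y y' : B') :
    psiT ψ ψ' (x ⊗ₜ y) (x' ⊗ₜ y') = ψ x x' * ψ' y y' := by
  unfold psiT
  rw [LinearMap.BilinForm.tmul, LinearMap.BilinForm.tensorDistrib_tmul, smul_eq_mul, mul_comm]

lemma psiT_exx (ψ : LinearMap.BilinForm ℚ B) (ψ' : LinearMap.BilinForm ℚ B') (x x' : ℂ ⊗[ℚ] B) (y y' : ℂ ⊗[ℚ] B') :
    (psiT ψ ψ').baseChange ℂ (exx x y) (exx x' y') = ψ.baseChange ℂ x x' * ψ'.baseChange ℂ y y' := by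
  induction x using TensorProduct.induction_on with
  | zero => rw [zero_exx]; simp
  | add x1 x2 h1 h2 => rw [exx_add]; simp only [map_add, LinearMap.add_apply, h1, h2, add_mul]
  | tmul z b =>
    induction x' using TensorProduct.induction_on with
    | zero => rw [zero_exx]; simp
    | add x1 x2 h1 h2 => rw [exx_add]; simp only [map_add, LinearMap.add_apply, h1, h2, add_mul]
    | tmul z' b' =>
      induction y using TensorProduct.induction_on with
      | zero => rw [exx_zero]; simp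
      | add x1 x2 h1 h2 => rw [add_exx]; simp only [map_add, LinearMap.add_apply, h1, h2, mul_add]
      | tmul u c =>
        induction y' using TensorProduct.induction_on with
        | zero => rw [exx_zero]; simp
        | add x1 x2 h1 h2 => rw [add_exx]; simp only [map_add, LinearMap.add_apply, h1, h2, mul_add]
        | tmul u' c' =>
          rw [exx_tmul, exx_tmul, LinearMap.BilinForm.baseChange_tmul, LinearMap.BilinForm.baseChange_tmul,
            LinearMap.BilinForm.baseChange_tmul, psiT_tmul]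
          simp only [Rat.smul_def]
          push_cast
          ring

lemma symm_T {ψ : LinearMap.BilinForm ℚ B} {ψ' : LinearMap.BilinForm ℚ B'} {m m' : ℕ}
    (h : ∀ x y, ψ y x = (-1) ^ m * ψ x y) (h' : ∀ x y, ψ' y x = (-1) ^ m' * ψ' x y) (x y : B ⊗[ℚ] B') :
    psiT ψ ψ' y x = (-1) ^ (m + m') * psiT ψ ψ' x y := by
  induction x using TensorProduct.induction_on with
  | zero => simp
  | add x1 x2 h1 h2 => simp only [map_add, LinearMap.add_apply, h1, h2, mul_add]
  | tmul a b =>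
    induction y using TensorProduct.induction_on with
    | zero => simp
    | add x1 x2 h1 h2 => simp only [map_add, LinearMap.add_apply, h1, h2, mul_add]
    | tmul c d =>
      rw [psiT_tmul, psiT_tmul, h a c, h' b d, pow_add]
      ring

end

/-- the tensor product of two structures -/
noncomputable def DiagData.tens (X Y : DiagData) : DiagData where
  B := X.B ⊗[ℚ] Y.B
  A := X.A × Y.A
  w := (X.w.tensorProduct Y.w).map (TensorProduct.AlgebraTensorModule.distribBaseChange ℚ ℂ X.B Y.B).symm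
  act g α := (X.act g α.1, Y.act g α.2)
  hact g α := by
    rw [Module.Basis.map_apply, Module.Basis.map_apply, Module.Basis.tensorProduct_apply,
      Module.Basis.tensorProduct_apply]
    have := gact_exx g (X.w α.1) (Y.w α.2)
    rw [X.hact, Y.hact] at this
    exact this
  m := X.m + Y.m
  typ α := X.typ α.1 + Y.typ α.2
  per α := X.per α.1 * Y.per α.2
  per_ne α := mul_ne_zero (X.per_ne _) (Y.per_ne _)
  ψ := psiT X.ψ Y.ψ
  symm := symm_T X.symm Y.symm
  typ_bar α := by
    rw [X.typ_bar, Y.typ_bar]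
    push_cast
    ring
  ψ_zero α β hβ := by
    rw [Module.Basis.map_apply, Module.Basis.map_apply, Module.Basis.tensorProduct_apply,
      Module.Basis.tensorProduct_apply]
    have := psiT_exx X.ψ Y.ψ (X.w α.1) (X.w β.1) (Y.w α.2) (Y.w β.2)
    refine Eq.trans this ?_
    by_cases h : β.1 = X.act cjA α.1
    · have h2 : β.2 ≠ Y.act cjA α.2 := fun h2 => hβ (Prod.ext h h2)
      rw [Y.ψ_zero _ _ h2, mul_zero]
    · rw [X.ψ_zero _ _ h, zero_mul]
  ψ_pos α := by
    obtain ⟨r, hr, h1⟩ := X.ψ_pos α.1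
    obtain ⟨s, hs, h2⟩ := Y.ψ_pos α.2
    refine ⟨r * s, mul_pos hr hs, ?_⟩
    rw [Module.Basis.map_apply, Module.Basis.map_apply, Module.Basis.tensorProduct_apply,
      Module.Basis.tensorProduct_apply]
    have := psiT_exx X.ψ Y.ψ (X.w α.1) (X.w (X.act cjA α.1)) (Y.w α.2) (Y.w (Y.act cjA α.2))
    refine Eq.trans (congrArg _ this) ?_
    have h3 : (2 * (X.typ α.1 + Y.typ α.2) - ((X.m + Y.m : ℕ) : ℤ)) =
        (2 * X.typ α.1 - X.m) + (2 * Y.typ α.2 - Y.m) := by push_cast; ring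
    rw [h3, zpow_add₀ Complex.I_ne_zero]
    push_cast
    rw [← h1, ← h2]
    ring
  ψ_per α := by
    obtain ⟨a, ha, h1⟩ := X.ψ_per α.1
    obtain ⟨b, hb, h2⟩ := Y.ψ_per α.2
    refine ⟨a * b, mul_mem ha hb, ?_⟩
    rw [Module.Basis.map_apply, Module.Basis.map_apply, Module.Basis.tensorProduct_apply,
      Module.Basis.tensorProduct_apply]
    have := psiT_exx X.ψ Y.ψ (X.w α.1) (X.w (X.act cjA α.1)) (Y.w α.2) (Y.w (Y.act cjA α.2))
    refine Eq.trans (congrArg _ this) ?_
    rw [pow_add]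
    calc _ = (X.per α.1 * X.per (X.act cjA α.1) * X.ψ.baseChange ℂ (X.w α.1) (X.w (X.act cjA α.1))) *
          (Y.per α.2 * Y.per (Y.act cjA α.2) * Y.ψ.baseChange ℂ (Y.w α.2) (Y.w (Y.act cjA α.2))) := by ring
      _ = _ := by rw [h1, h2]; ring

lemma repr_exx (X Y : DiagData) (x : ℂ ⊗[ℚ] X.B) (y : ℂ ⊗[ℚ] Y.B) (α : X.A × Y.A) :
    (X.tens Y).w.repr (exx x y) α = X.w.repr x α.1 * Y.w.repr y α.2 := by
  change ((X.w.tensorProduct Y.w).map (TensorProduct.AlgebraTensorModule.distribBaseChange ℚ ℂ X.B Y.B).symm).repr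
    (exx x y) α = _
  rw [Module.Basis.map_repr]
  unfold exx
  rw [LinearEquiv.trans_apply, LinearEquiv.symm_symm, LinearEquiv.apply_symm_apply]
  rw [Module.Basis.tensorProduct_repr_tmul_apply, smul_eq_mul, mul_comm]

end Pool.Agent.T2h95.GD
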