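import Pool.Agent.T2h95.GD.Powers

/-!
# Multiplicative relations between the periods of admissible triples
-/

set_option autoImplicit false

namespace Pool.Agent.T2h95.GDS

/-- An admissible triple `T = (H, F, ι)` in a member `M` of the class, for any number field `F` (abelian or not) with
`[F : ℚ] = dim H`, its Hodge numbers `p(σ)`, and a reference embedding of `F` in `ℂ`. -/
structure Triple (𝒞 : HdR → Prop) where
  M : HdR
  mem : 𝒞 M
  F : Type
  [fld : Field F]
  [nf : NumberField F]
  T : Admissible M F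
  p : (F →+* ℂ) → ℤ
  hodge : T.HodgeNumbers p
  emb : F →+* ℂ

attribute [instance] Triple.fld Triple.nf

variable {𝒞 : HdR → Prop}

/-- the conjugate `τ ∘ emb` of the reference embedding by an automorphism `τ` of `ℂ` -/
def Triple.conj (x : Triple 𝒞) (τ : ℂ ≃+* ℂ) : x.F →+* ℂ := (τ : ℂ →+* ℂ).comp x.emb

/-- The integers `k j` are the exponents of a relation between the triples `x j`: for all automorphisms `τ` of `ℂ`, for
the conjugates `σ_j` by `τ` of the reference embeddings, `∑_j k_j (2 p_j(σ_j) - m_j) = 0`, and the product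
`∏_j (P_(σ_j)² / π^(m_j))^(k_j)` is an algebraic number. -/
def IsRelation {r : ℕ} (x : Fin r → Triple 𝒞) (k : Fin r → ℤ) : Prop :=
  ∀ τ : ℂ ≃+* ℂ, ∑ j, k j * (2 * (x j).p ((x j).conj τ) - (x j).M.m) = 0 ∧
    ∀ z : Fin r → ℂ, (∀ j, (x j).T.Period ((x j).conj τ) (z j)) →
      ∏ j, ((z j) ^ 2 / (Real.pi : ℂ) ^ (x j).M.m) ^ k j ∈ Qb

end Pool.Agent.T2h95.GDS
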