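import Pool.Agent.T2h95.GD.DSum
import Pool.Agent.T2h95.GD.Closure

/-!
The class of structures whose periods are products of gamma values and twisted powers of a transcendental number, for
a set of fields.
-/

set_option autoImplicit false

open Finset
open scoped TensorProduct

namespace Pool.Agent.T2h95.GD

open Pool.Agent.H916R2

/-- the exponents of the transcendental number in the periods -/
inductive Tw (S : ∀ (L : Type) [Field L] [NumberField L], Prop) : ((ℂ ≃+* ℂ) → ℤ) → Prop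
  | zero : Tw S (fun _ => 0)
  | add {W W' : (ℂ ≃+* ℂ) → ℤ} : Tw S W → Tw S W' → Tw S (fun g => W g + W' g)
  | of (L : Type) [Field L] [NumberField L] (hL : S L) (σ : L →+* ℂ) (w : (L →+* ℂ) → ℤ) (hw : Prim L w) :
      Tw S (fun g => w ((g : ℂ →+* ℂ).comp σ))

variable (S : ∀ (L : Type) [Field L] [NumberField L], Prop)

/-- the conditions on the types and periods of an orbit -/
def Allw (m : ℕ) (typ : (ℂ ≃+* ℂ) → ℤ) (per : (ℂ ≃+* ℂ) → ℂ) : Prop :=
  ∃ W : (ℂ ≃+* ℂ) → ℤ, Tw S W ∧ ∃ n0 : ℕ, 0 < n0 ∧ ∀ (n : ℕ) [NeZero n], n0 ∣ n → ∃ ε : ZMod n → ℂ,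
    ∀ (g : ℂ ≃+* ℂ) (u : (ZMod n)ˣ), Cyc g n u →
      (n : ℂ) * ((2 * typ g - m : ℤ) : ℂ) = ∑ a, ε a * (saw ((u : ZMod n) * a) : ℂ) ∧
      ∀ Φ : ℂ → ℂ, Fn Φ → Φ (per g) - (m : ℂ) / 2 * Φ (Real.pi : ℝ) =
        - ∑ a, ε a * gt Φ ((u : ZMod n) * a) + W g * Φ (T0 : ℝ)

variable {S}

lemma Allw.mul {m m' : ℕ} {typ typ' : (ℂ ≃+* ℂ) → ℤ}
    {per per' : (ℂ ≃+* ℂ) → ℂ} (h : Allw S m typ per) (h' : Allw S m' typ' per') (h0 : ∀ g, per g ≠ 0)
    (h0' : ∀ g, per' g ≠ 0) : Allw S (m + m') (fun g => typ g + typ' g) (fun g => per g * per' g) := by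
  obtain ⟨w, hw, n0, hn0, hn⟩ := h
  obtain ⟨w', hw', n0', hn0', hn'⟩ := h'
  refine ⟨_, hw.add hw', n0 * n0', Nat.mul_pos hn0 hn0', fun n _ hdvd => ?_⟩
  obtain ⟨ε, hε⟩ := hn n ((dvd_mul_right _ _).trans hdvd)
  obtain ⟨ε', hε'⟩ := hn' n ((dvd_mul_left _ _).trans hdvd)
  refine ⟨ε + ε', fun g u hgu => ⟨?_, fun Φ hΦ => ?_⟩⟩
  · have h1 := (hε g u hgu).1
    have h2 := (hε' g u hgu).1
    simp only [Pi.add_apply, add_mul, sum_add_distrib]
    rw [← h1, ← h2]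
    push_cast
    ring
  · have h1 := (hε g u hgu).2 Φ hΦ
    have h2 := (hε' g u hgu).2 Φ hΦ
    simp only [Pi.add_apply, add_mul, sum_add_distrib]
    rw [hΦ.mul _ _ (h0 g) (h0' g)]
    push_cast
    linear_combination h1 + h2

variable (S) in
/-- the condition on the structures with a basis -/
def DiagS (X : DiagData) : Prop :=
  (∀ (b : X.B) (α : X.A), X.w.repr ((1 : ℂ) ⊗ₜ[ℚ] b) α ∈ Qb) ∧
    ∀ α : X.A, Allw S X.m (fun g => X.typ (X.act g α)) (fun g => X.per (X.act g α))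

variable (S) in
/-- the class -/
def ClsS (M : GDS.HdR) : Prop :=
  ∃ X : DiagData, DiagS S X ∧ ∃ j : M.B →ₗ[ℚ] X.toHdR.B, GDS.IsIn M X.toHdR j

lemma isIn_id (M : GDS.HdR) : GDS.IsIn M M LinearMap.id := by
  refine ⟨rfl, Function.injective_id, ?_, ?_⟩
  · intro x hx
    have : GDS.map (LinearMap.id : M.B →ₗ[ℚ] M.B) x = x := map_id' (B := M.B) x
    rw [this]
    exact hx
  · intro p x hx
    have : GDS.map (LinearMap.id : M.B →ₗ[ℚ] M.B) x = x := map_id' (B := M.B) x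
    rw [this]
    exact hx

lemma map_map {B B' B'' : Type} [AddCommGroup B] [Module ℚ B] [AddCommGroup B'] [Module ℚ B'] [AddCommGroup B'']
    [Module ℚ B''] (f : B →ₗ[ℚ] B') (g : B' →ₗ[ℚ] B'') (x : GDS.Cx B) :
    GDS.map (g ∘ₗ f) x = GDS.map g (GDS.map f x) := by
  unfold GDS.map
  rw [LinearMap.baseChange_comp]
  rfl

lemma isIn_trans {M N P : GDS.HdR} {i : M.B →ₗ[ℚ] N.B} {j : N.B →ₗ[ℚ] P.B} (hi : GDS.IsIn M N i)
    (hj : GDS.IsIn N P j) : GDS.IsIn M P (j ∘ₗ i) := by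
  refine ⟨hi.weight.trans hj.weight, ?_, ?_, ?_⟩
  · rw [LinearMap.coe_comp]
    exact hj.inj.comp hi.inj
  · intro x hx
    rw [map_map]
    exact hj.deRham _ (hi.deRham x hx)
  · intro p x hx
    rw [map_map]
    exact hj.hodge p _ (hi.hodge p x hx)

lemma clsS_of_diag {X : DiagData} (h : DiagS S X) : ClsS S X.toHdR := ⟨X, h, LinearMap.id, isIn_id _⟩

theorem sub_clsS : GDS.SubClosed (ClsS S) := by
  rintro M N ⟨X, hX, j, hj⟩ i hi
  exact ⟨X, hX, j ∘ₗ i, isIn_trans hi hj⟩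

lemma exx_map {B B' C C' : Type} [AddCommGroup B] [Module ℚ B] [AddCommGroup B'] [Module ℚ B'] [AddCommGroup C]
    [Module ℚ C] [AddCommGroup C'] [Module ℚ C'] (f : B →ₗ[ℚ] C) (f' : B' →ₗ[ℚ] C') (x : ℂ ⊗[ℚ] B) (y : ℂ ⊗[ℚ] B') :
    (TensorProduct.map f f').baseChange ℂ (exx x y) = exx (f.baseChange ℂ x) (f'.baseChange ℂ y) := by
  induction x using TensorProduct.induction_on with
  | zero => rw [zero_exx, map_zero, map_zero, zero_exx]
  | add x x' hx hx' => rw [exx_add, map_add, map_add, exx_add, hx, hx']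
  | tmul z b =>
    induction y using TensorProduct.induction_on with
    | zero => rw [exx_zero, map_zero, map_zero, exx_zero]
    | add y y' hy hy' => rw [add_exx, map_add, map_add, add_exx, hy, hy']
    | tmul z' b' =>
      rw [exx_tmul, LinearMap.baseChange_tmul, LinearMap.baseChange_tmul, LinearMap.baseChange_tmul, exx_tmul,
        TensorProduct.map_tmul]

lemma diagS_tens {X Y : DiagData} (hX : DiagS S X) (hY : DiagS S Y) : DiagS S (X.tens Y) :=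
  ⟨tens_alg X Y hX.1 hY.1, fun α => (hX.2 α.1).mul (hY.2 α.2) (fun _ => X.per_ne _) (fun _ => Y.per_ne _)⟩

lemma deR_of_eq {X : DiagData} {z z' : ℂ ⊗[ℚ] X.B} (h : z = z') (hz : z' ∈ X.deR) : z ∈ X.deR := h ▸ hz

lemma part_of_eq {X : DiagData} {p : ℤ} {z z' : ℂ ⊗[ℚ] X.B} (h : z = z') (hz : z' ∈ X.part p) : z ∈ X.part p := h ▸ hz

theorem kuenneth_clsS : GDS.Kuenneth (ClsS S) := by
  rintro M N ⟨X, hX, j, hj⟩ ⟨Y, hY, i, hi⟩
  have hj' : ∀ x : ℂ ⊗[ℚ] M.B, (show GDS.Cx M.B from x) ∈ M.D → j.baseChange ℂ x ∈ X.deR := fun x hx => hj.deRham x hx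
  have hi' : ∀ x : ℂ ⊗[ℚ] N.B, (show GDS.Cx N.B from x) ∈ N.D → i.baseChange ℂ x ∈ Y.deR := fun x hx => hi.deRham x hx
  have hjV : ∀ (p : ℤ) (x : ℂ ⊗[ℚ] M.B), (show GDS.Cx M.B from x) ∈ M.V p → j.baseChange ℂ x ∈ X.part p :=
    fun p x hx => hj.hodge p x hx
  have hiV : ∀ (p : ℤ) (x : ℂ ⊗[ℚ] N.B), (show GDS.Cx N.B from x) ∈ N.V p → i.baseChange ℂ x ∈ Y.part p :=
    fun p x hx => hi.hodge p x hx
  have hinj : Function.Injective (TensorProduct.map j i) :=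
    TensorProduct.map_injective_of_flat_flat j i hj.inj hi.inj
  refine ⟨(X.tens Y).toHdR, clsS_of_diag (diagS_tens hX hY), ?_,
    (TensorProduct.map j i : M.B ⊗[ℚ] N.B →ₗ[ℚ] X.B ⊗[ℚ] Y.B), hinj, ?_, ?_⟩
  · rw [hj.weight, hi.weight]
    rfl
  · have key : ∀ (x : ℂ ⊗[ℚ] M.B) (_ : (show GDS.Cx M.B from x) ∈ M.D) (y : ℂ ⊗[ℚ] N.B)
        (_ : (show GDS.Cx N.B from y) ∈ N.D),
        (TensorProduct.map j i : M.B ⊗[ℚ] N.B →ₗ[ℚ] X.B ⊗[ℚ] Y.B).baseChange ℂ (exx x y) ∈ (X.tens Y).deR := by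
      intro x hx y hy
      exact deR_of_eq (X := X.tens Y) (exx_map (C := X.B) (C' := Y.B) j i x y) (tens_deR X Y _ (hj' x hx) _ (hi' y hy))
    exact key
  · intro p q
    have key : ∀ (x : ℂ ⊗[ℚ] M.B) (_ : (show GDS.Cx M.B from x) ∈ M.V p) (y : ℂ ⊗[ℚ] N.B)
        (_ : (show GDS.Cx N.B from y) ∈ N.V q),
        (TensorProduct.map j i : M.B ⊗[ℚ] N.B →ₗ[ℚ] X.B ⊗[ℚ] Y.B).baseChange ℂ (exx x y) ∈ (X.tens Y).part (p + q) := by
      intro x hx y hy
      exact part_of_eq (X := X.tens Y) (exx_map (C := X.B) (C' := Y.B) j i x y)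
        (tens_part X Y p q _ (hjV p x hx) _ (hiV q y hy))
    exact key

lemma diagS_sum {X Y : DiagData} (hm : X.m = Y.m) (hX : DiagS S X) (hY : DiagS S Y) : DiagS S (X.sum Y hm) := by
  refine ⟨?_, ?_⟩
  · have key : ∀ (b : X.B × Y.B) (α : X.A ⊕ Y.A), (wS X Y).repr ((1 : ℂ) ⊗ₜ[ℚ] b) α ∈ Qb := by
      rintro b (α | α)
      · rw [wS_repr_inl, LinearMap.baseChange_tmul]
        exact hX.1 _ _
      · rw [wS_repr_inr, LinearMap.baseChange_tmul]
        exact hY.1 _ _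
    exact key
  · rintro (α | α)
    · exact hX.2 α
    · have h := hY.2 α
      have h2 : Allw S X.m (fun g => Y.typ (Y.act g α)) (fun g => Y.per (Y.act g α)) := by rw [hm]; exact h
      exact h2

lemma isIn_il {X Y : DiagData} (hm : X.m = Y.m) : GDS.IsIn X.toHdR (X.sum Y hm).toHdR (il X.B Y.B) := by
  refine ⟨rfl, fun x y h => congrArg Prod.fst h, ?_, ?_⟩
  · have key : ∀ x ∈ X.deR, (il X.B Y.B).baseChange ℂ x ∈ (X.sum Y hm).deR := by
      rintro x hx (α | α)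
      · have h1 : (wS X Y).repr ((il X.B Y.B).baseChange ℂ x) (Sum.inl α) / X.per α ∈ Qb := by
          rw [wS_repr_inl, fst_il]
          exact hx α
        exact h1
      · have h1 : (wS X Y).repr ((il X.B Y.B).baseChange ℂ x) (Sum.inr α) / Y.per α ∈ Qb := by
          rw [wS_repr_inr, snd_il, map_zero, Finsupp.zero_apply, zero_div]
          exact zero_mem _
        exact h1
    exact key
  · intro p
    have key : ∀ x ∈ X.part p, (il X.B Y.B).baseChange ℂ x ∈ (X.sum Y hm).part p := by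
      rintro x hx (α | α) hα
      · have h1 : (wS X Y).repr ((il X.B Y.B).baseChange ℂ x) (Sum.inl α) = 0 := by
          rw [wS_repr_inl, fst_il]
          exact hx α hα
        exact h1
      · have h1 : (wS X Y).repr ((il X.B Y.B).baseChange ℂ x) (Sum.inr α) = 0 := by
          rw [wS_repr_inr, snd_il, map_zero, Finsupp.zero_apply]
        exact h1
    exact key

lemma isIn_ir {X Y : DiagData} (hm : X.m = Y.m) : GDS.IsIn Y.toHdR (X.sum Y hm).toHdR (ir X.B Y.B) := by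
  refine ⟨hm.symm, fun x y h => congrArg Prod.snd h, ?_, ?_⟩
  · have key : ∀ x ∈ Y.deR, (ir X.B Y.B).baseChange ℂ x ∈ (X.sum Y hm).deR := by
      rintro x hx (α | α)
      · have h1 : (wS X Y).repr ((ir X.B Y.B).baseChange ℂ x) (Sum.inl α) / X.per α ∈ Qb := by
          rw [wS_repr_inl, fst_ir, map_zero, Finsupp.zero_apply, zero_div]
          exact zero_mem _
        exact h1
      · have h1 : (wS X Y).repr ((ir X.B Y.B).baseChange ℂ x) (Sum.inr α) / Y.per α ∈ Qb := by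
          rw [wS_repr_inr, snd_ir]
          exact hx α
        exact h1
    exact key
  · intro p
    have key : ∀ x ∈ Y.part p, (ir X.B Y.B).baseChange ℂ x ∈ (X.sum Y hm).part p := by
      rintro x hx (α | α) hα
      · have h1 : (wS X Y).repr ((ir X.B Y.B).baseChange ℂ x) (Sum.inl α) = 0 := by
          rw [wS_repr_inl, fst_ir, map_zero, Finsupp.zero_apply]
        exact h1
      · have h1 : (wS X Y).repr ((ir X.B Y.B).baseChange ℂ x) (Sum.inr α) = 0 := by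
          rw [wS_repr_inr, snd_ir]
          exact hx α hα
        exact h1
    exact key

theorem sum_clsS : GDS.SumClosed (ClsS S) := by
  rintro M N ⟨X, hX, j, hj⟩ ⟨Y, hY, i, hi⟩ hmn
  have hm : X.m = Y.m := (hj.weight.symm.trans hmn).trans hi.weight
  refine ⟨(X.sum Y hm).toHdR, clsS_of_diag (diagS_sum hm hX hY), (il X.B Y.B) ∘ₗ j, (ir X.B Y.B) ∘ₗ i,
    isIn_trans hj (isIn_il hm), isIn_trans hi (isIn_ir hm), ?_⟩
  intro x y h
  have h1 : (j x, (0 : Y.B)) = ((0 : X.B), i y) := h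
  have h2 : j x = 0 := congrArg Prod.fst h1
  exact hj.inj (by rw [h2, map_zero])

lemma clsS_of_line {K : Type} [Field K] [NumberField K] (Y : LineD K)
    (h : ∀ σ : K →+* ℂ, Allw S Y.m (fun g => Y.typ ((g : ℂ →+* ℂ).comp σ))
      (fun g => Y.per ((g : ℂ →+* ℂ).comp σ))) : ClsS S Y.toDiag.toHdR := by
  have key : ∀ (x : K) (σ : K →+* ℂ), (wL K).repr ((1 : ℂ) ⊗ₜ[ℚ] x) σ ∈ Qb := by
    intro x σ
    rw [wL_repr]
    exact emb_mem σ x
  exact clsS_of_diag ⟨key, h⟩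

end Pool.Agent.T2h95.GD
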