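import Pool.Agent.T2h95.GD.Tw

/-!
The Fermat curves, the twisted structures, and the Hodge classes in the class given by a set of fields.
-/

set_option autoImplicit false

open Finset
open scoped TensorProduct

namespace Pool.Agent.T2h95.GD

open Pool.Agent.H916R2

variable {S : ∀ (L : Type) [Field L] [NumberField L], Prop}

theorem fermat_clsS : GDS.ContainsFermat (ClsS S) := by
  classical
  intro d _ K _ _ _ ζ t ht a b ha hb hab
  set Y := fermatD ht ha hb hab with hY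
  have htyp : ∀ u, Y.typ (t u) = fTyp a b u := fun u => by
    change fTyp a b ((tE ht).symm (t u)) = _
    rw [tE_symm]
  have hper : ∀ u, Y.per (t u) = fPer a b u := fun u => by
    change fPer a b ((tE ht).symm (t u)) = _
    rw [tE_symm]
  refine ⟨Y.toDiag.toHdR, clsS_of_line Y fun σ => ?_, rfl, GDS.ofOld Y.isLine.triple, Y.typ,
    Y.isLine.hodgeNumbers, fun u => ⟨?_, ?_⟩⟩
  · obtain ⟨v, rfl⟩ : ∃ v, t v = σ := t_surj ht σ
    refine ⟨_, Tw.zero, d, NeZero.pos d, fun n _ hdvd => ?_⟩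
    obtain ⟨k, rfl⟩ := hdvd
    have : NeZero k := ⟨fun h => NeZero.ne (d * k) (by rw [h, mul_zero])⟩
    refine ⟨fun x => -(if x = up k ((v : ZMod d) * a) then 1 else 0) - (if x = up k ((v : ZMod d) * b) then 1 else 0) +
      (if x = up k ((v : ZMod d) * (a + b)) then 1 else 0), fun g u hgu => ?_⟩
    have hsum : ∀ F : ZMod (d * k) → ℂ, ∑ x, (-(if x = up k ((v : ZMod d) * a) then 1 else 0) -
        (if x = up k ((v : ZMod d) * b) then 1 else 0) + (if x = up k ((v : ZMod d) * (a + b)) then 1 else 0)) * F x =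
        - F (up k ((v : ZMod d) * a)) - F (up k ((v : ZMod d) * b)) + F (up k ((v : ZMod d) * (a + b))) := by
      intro F
      simp only [add_mul, sub_mul, neg_mul, ite_mul, one_mul, zero_mul, sum_add_distrib, sum_sub_distrib,
        sum_neg_distrib, sum_ite_eq', mem_univ, if_true]
    have hact : (g : ℂ →+* ℂ).comp (t v) = t (red k u * v) := hgu.red.comp_t ht v
    have hre : ∀ x : ZMod d, (red k u : ZMod d) * ((v : ZMod d) * x) = ((red k u * v : (ZMod d)ˣ) : ZMod d) * x := by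
      intro x
      rw [Units.val_mul, mul_assoc]
    refine ⟨?_, fun Φ hΦ => ?_⟩
    · rw [hsum (fun x => (saw ((u : ZMod (d * k)) * x) : ℂ))]
      simp only [saw_up, hre, hact, htyp]
      have h1 := fTyp_saw ha hb hab (red k u * v)
      have h2 := congrArg (fun z : ℤ => (k : ℂ) * (z : ℂ)) h1
      have h4 : Y.m = 1 := rfl
      rw [h4]
      push_cast at h2 ⊢
      linear_combination h2
    · rw [hsum (fun x => gt Φ ((u : ZMod (d * k)) * x))]
      simp only [gt_up, hre, hact, hper]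
      have h1 := fPer_fn hΦ ha hb hab (red k u * v)
      have h4 : Y.m = 1 := rfl
      rw [h4, h1]
      push_cast
      ring
  · exact htyp u
  · rw [GDS.period_ofOld, Y.isLine.period]
    exact ⟨1, one_mem _, one_ne_zero, by rw [one_mul]; exact hper u⟩

section

variable {d : ℕ} [NeZero d] {K : Type} [Field K] [NumberField K] [IsCyclotomicExtension {d} ℚ K]
  {ζ : K} {t : (ZMod d)ˣ → K →+* ℂ} {L : Type} [Field L] [NumberField L]

theorem not_hodgeS (ht : IsEmb ζ t) (l : L →+* K) (hcyc : IsCyclic (L ≃ₐ[ℚ] L)) (hL : NumberField.IsTotallyComplex L)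
    (hS : S L) : ¬ GDS.HodgeClassesDeRham (ClsS S) L := by
  obtain ⟨σ0⟩ : Nonempty (L →+* ℂ) := inferInstance
  obtain ⟨c, hc, hord⟩ := exists_conj ht l hL
  obtain ⟨w, hw, σ1, hσ1⟩ := exists_prim (trans_emb ht l) σ0
  have hT : (T0 : ℂ) ≠ 0 := by exact_mod_cast T0_ne
  have hwbar : ∀ σ, w σ + w (cj σ) = 0 := by
    intro σ
    have hc1 : c ≠ 1 := by
      rintro rfl
      rw [orderOf_one] at hord
      omega
    have h1 := hw c hc1 σ
    rw [hord, sum_range_succ, sum_range_one] at h1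
    have e1 : σ.comp ((c ^ 0 : L ≃ₐ[ℚ] L) : L →+* L) = σ := by
      ext x; rfl
    have e2 : σ.comp ((c ^ 1 : L ≃ₐ[ℚ] L) : L →+* L) = cj σ := by
      ext x
      rw [pow_one]
      exact hc σ x
    rw [e1, e2] at h1
    exact h1
  let Y : LineD L :=
    { c := (c : L →+* L)
      hc := hc
      m := 0
      typ := fun _ => ((0 : ℕ) : ℤ)
      per := fun σ => (T0 : ℂ) ^ w σ
      per_ne := fun σ => zpow_ne_zero _ hT
      typ_bar := fun σ => by simp
      per_bar := fun σ => ⟨1, one_mem _, by rw [← zpow_add₀ hT, hwbar]; simp⟩ }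
  have hCls : ClsS S Y.toDiag.toHdR := by
    refine clsS_of_line Y fun σ => ?_
    refine ⟨_, Tw.of L hS σ w hw, 1, one_pos, fun n _ _ => ⟨0, fun g u _ => ⟨?_, fun Φ hΦ => ?_⟩⟩⟩
    · simp [Y]
    · have h1 : Y.per ((g : ℂ →+* ℂ).comp σ) = (T0 : ℂ) ^ w ((g : ℂ →+* ℂ).comp σ) := rfl
      simp only [h1]
      rw [hΦ.zpow _ hT]
      have h2 : Y.m = 0 := rfl
      rw [h2]
      simp
  intro h
  have h' : HodgeClassesDeRham (GDS.oldClass (ClsS S)) L := GDS.hodge_old.mpr h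
  have hline : IsLine Y.toDiag.toHdR.toOld (F := L) (LinearMap.id : L →ₗ[ℚ] L) Y.per (fun _ => ((0 : ℕ) : ℤ)) := Y.isLine
  obtain ⟨u, hu, hu0, h1⟩ := period_of_hodge h' ⟨_, hCls, rfl⟩ (by rfl) hline σ1
  obtain ⟨Φ, hΦ, hΦT⟩ := exists_fn T0_trans
  have h2 : (T0 : ℂ) ^ w σ1 = u * (Real.pi : ℂ) ^ 0 := h1
  rw [pow_zero, mul_one] at h2
  have h3 := congrArg Φ h2
  rw [hΦ.zpow _ hT, hΦ.alg _ hu] at h3
  rcases mul_eq_zero.mp h3 with h4 | h4
  · exact hσ1 (by exact_mod_cast h4)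
  · exact hΦT h4

end

section

variable {d : ℕ} [NeZero d] {K : Type} [Field K] [NumberField K] [IsCyclotomicExtension {d} ℚ K]
  {ζ : K} {t : (ZMod d)ˣ → K →+* ℂ}

variable (d) in
/-- the units which fix the subfield -/
noncomputable def fixers {E : Type} [Field E] (e : E →+* K) : Finset (ZMod d)ˣ := by
  classical exact univ.filter fun u => ∀ x, gal d K u (e x) = e x

lemma mem_fixers {E : Type} [Field E] {e : E →+* K} {u : (ZMod d)ˣ} :
    u ∈ fixers d e ↔ ∀ x, gal d K u (e x) = e x := by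
  classical
  unfold fixers
  simp

lemma fixers_mul {E : Type} [Field E] {e : E →+* K} {u v : (ZMod d)ˣ} (hv : v ∈ fixers d e) :
    u ∈ fixers d e ↔ u * v ∈ fixers d e := by
  rw [mem_fixers] at hv
  rw [mem_fixers, mem_fixers]
  refine forall_congr' fun x => ?_
  rw [map_mul, AlgEquiv.mul_apply, hv]

lemma fixers_pow {E : Type} [Field E] {e : E →+* K} {v : (ZMod d)ˣ} (hv : v ∈ fixers d e) (i : ℕ) :
    v ^ i ∈ fixers d e := by
  induction i with
  | zero => rw [pow_zero, mem_fixers]; intro x; rw [map_one]; rfl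
  | succ i ih => rw [pow_succ]; exact (fixers_mul hv).mp ih

end

/-- the field is abelian -/
def Ab (E : Type) [Field E] : Prop := ∃ n : ℕ, 0 < n ∧ ∃ s : E →+* ℂ, ∀ x, s x ∈
    IntermediateField.adjoin ℚ {Complex.exp (2 * Real.pi * Complex.I / n)}

/-- the averages vanish -/
lemma tw_avg (hS : ∀ (L : Type) [Field L] [NumberField L], S L → Ab L) {E : Type} [Field E] [NumberField E]
    (hno : ∀ (L : Type) [Field L] [NumberField L], S L → ¬ Nonempty (L →+* E)) {W : (ℂ ≃+* ℂ) → ℤ} (hW : Tw S W) :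
    ∃ N0 : ℕ, 0 < N0 ∧ ∀ (N : ℕ) [NeZero N], N0 ∣ N → ∀ (K : Type) [Field K] [NumberField K]
      [IsCyclotomicExtension {N} ℚ K] (e : E →+* K) (ζ : K) (t : (ZMod N)ˣ → K →+* ℂ), IsEmb ζ t →
      ∀ (h : (ZMod N)ˣ → (ℂ ≃+* ℂ)), (∀ u x, h u (t 1 x) = t u x) → ∀ g, ∑ u ∈ fixers N e, W (g * h u) = 0 := by
  induction hW with
  | zero => exact ⟨1, one_pos, fun N _ _ K _ _ _ e ζ t ht h hh g => by simp⟩
  | add hW hW' ih ih' =>
    obtain ⟨N0, h0, h1⟩ := ih
    obtain ⟨N0', h0', h1'⟩ := ih'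
    refine ⟨N0 * N0', Nat.mul_pos h0 h0', fun N _ hN K _ _ _ e ζ t ht h hh g => ?_⟩
    rw [sum_add_distrib, h1 N ((dvd_mul_right _ _).trans hN) K e ζ t ht h hh g,
      h1' N ((dvd_mul_left _ _).trans hN) K e ζ t ht h hh g, add_zero]
  | of L hL σ w hw =>
    obtain ⟨n, hn, s, hs⟩ := hS L hL
    refine ⟨n, hn, fun N _ hN K _ _ _ e ζ t ht h hh g => ?_⟩
    obtain ⟨k, rfl⟩ := hN
    have hk : 0 < k := Nat.pos_of_ne_zero fun h0 => NeZero.ne (n * k) (by rw [h0, mul_zero])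
    obtain ⟨l⟩ := emb_of_mem ht s fun x => adjoin_le hn hk (hs x)
    obtain ⟨v, rfl⟩ := ext_emb ht l σ
    obtain ⟨u0, hu0, y, hy⟩ := exists_moving (d := n * k) l e (hno L hL)
    obtain ⟨τ, -, hτ⟩ := exists_tau (d := n * k) l
    have hκ : τ u0 ≠ 1 := by
      intro h1
      apply hy
      rw [← hτ, h1]
      rfl
    have hu0' : u0 ∈ fixers (n * k) e := mem_fixers.mpr hu0
    set ρ : L →+* ℂ := (g : ℂ →+* ℂ).comp ((t v).comp l) with hρ
    have hhv : ∀ u x, h u (t v x) = t v (gal (n * k) K u x) := by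
      intro u x
      have h1 : t v x = t 1 (gal (n * k) K v x) := by rw [t_gal ht, one_mul]
      rw [h1, hh, t_gal ht, t_gal ht, mul_comm]
    have h1 : ∀ u, w (((g * h u : ℂ ≃+* ℂ) : ℂ →+* ℂ).comp ((t v).comp l)) =
        w (ρ.comp ((τ u : L ≃ₐ[ℚ] L) : L →+* L)) := by
      intro u
      refine congrArg w ?_
      ext x
      change g (h u (t v (l x))) = g (t v (l (τ u x)))
      rw [hhv, hτ]
    simp only [h1]
    have h2 : ∀ i : ℕ, ∑ u ∈ fixers (n * k) e, w (ρ.comp ((τ u : L ≃ₐ[ℚ] L) : L →+* L)) =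
        ∑ u ∈ fixers (n * k) e, w (ρ.comp ((τ (u * u0 ^ i) : L ≃ₐ[ℚ] L) : L →+* L)) := by
      intro i
      symm
      refine Finset.sum_equiv (Equiv.mulRight (u0 ^ i)) (fun u => ?_) (fun u _ => rfl)
      rw [Equiv.coe_mulRight]
      exact fixers_mul (fixers_pow hu0' i)
    have h3 : (orderOf (τ u0) : ℤ) * ∑ u ∈ fixers (n * k) e, w (ρ.comp ((τ u : L ≃ₐ[ℚ] L) : L →+* L)) = 0 := by
      calc (orderOf (τ u0) : ℤ) * ∑ u ∈ fixers (n * k) e, w (ρ.comp ((τ u : L ≃ₐ[ℚ] L) : L →+* L)) =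
            ∑ i ∈ range (orderOf (τ u0)), ∑ u ∈ fixers (n * k) e,
              w (ρ.comp ((τ (u * u0 ^ i) : L ≃ₐ[ℚ] L) : L →+* L)) := by
            rw [sum_congr rfl fun i _ => (h2 i).symm, sum_const, card_range, nsmul_eq_mul]
        _ = ∑ u ∈ fixers (n * k) e, ∑ i ∈ range (orderOf (τ u0)),
              w ((ρ.comp ((τ u : L ≃ₐ[ℚ] L) : L →+* L)).comp (((τ u0) ^ i : L ≃ₐ[ℚ] L) : L →+* L)) := by
            rw [sum_comm]
            refine sum_congr rfl fun u _ => sum_congr rfl fun i _ => congrArg w ?_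
            ext x
            rw [map_mul, map_pow]
            rfl
        _ = 0 := sum_eq_zero fun u _ => hw (τ u0) hκ _
    have h4 : 0 < orderOf (τ u0) := orderOf_pos _
    have h5 : (orderOf (τ u0) : ℤ) ≠ 0 := by exact_mod_cast h4.ne'
    exact (mul_eq_zero.mp h3).resolve_left h5

theorem period_clsS (hS : ∀ (L : Type) [Field L] [NumberField L], S L → Ab L) {E : Type} [Field E] [NumberField E]
    (hE : Ab E) (hno : ∀ (L : Type) [Field L] [NumberField L], S L → ¬ Nonempty (L →+* E))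
    (X : DiagData) (hX : DiagS S X)
    {k : ℕ} (hm' : X.m = 2 * k) (f : E →ₗ[ℚ] X.B) (P : (E →+* ℂ) → ℂ) (hfi : Function.Injective f)
    (hhodge : ∀ σ, vec f σ ∈ X.part k) (hdeR : ∀ σ, P σ • vec f σ ∈ X.deR) (hne : ∀ σ, P σ ≠ 0) (σ : E →+* ℂ) :
    ∃ u ∈ Qb, u ≠ 0 ∧ P σ = u * (Real.pi : ℂ) ^ k := by
  have hpi : (Real.pi : ℂ) ≠ 0 := by exact_mod_cast Real.pi_ne_zero
  have hdr : ∀ σ, ∀ β : X.A, P σ * X.w.repr (vec f σ) β / X.per β ∈ Qb := by
    intro σ β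
    have h2 := hdeR σ β
    rw [map_smul, Finsupp.smul_apply, smul_eq_mul] at h2
    exact h2
  obtain ⟨σ1⟩ : Nonempty (E →+* ℂ) := inferInstance
  obtain ⟨α, hα⟩ : ∃ α, X.w.repr (vec f σ1) α ≠ 0 := by
    by_contra hcon
    push Not at hcon
    exact vec_ne_zero f hfi σ1 (X.w.repr.injective (by ext α; rw [hcon α, map_zero]; rfl))
  have hg0 : ∀ g : ℂ ≃+* ℂ, X.w.repr (vec f ((g : ℂ →+* ℂ).comp σ1)) (X.act g α) ≠ 0 := by
    intro g
    rw [← gact_vec, repr_gact]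
    intro h
    exact hα ((map_eq_zero g).mp h)
  have htyp : ∀ g : ℂ ≃+* ℂ, X.typ (X.act g α) = k := by
    intro g
    by_contra hcon
    exact hg0 g (hhodge _ _ hcon)
  have hPper : ∀ (g : ℂ ≃+* ℂ) (Φ : ℂ → ℂ), Fn Φ → Φ (P ((g : ℂ →+* ℂ).comp σ1)) = Φ (X.per (X.act g α)) := by
    intro g Φ hΦ
    have h1 := hdr ((g : ℂ →+* ℂ).comp σ1) (X.act g α)
    have h2 := repr_vec_mem X hX.1 f ((g : ℂ →+* ℂ).comp σ1) (X.act g α)
    have h3 := hne ((g : ℂ →+* ℂ).comp σ1)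
    have h4 := X.per_ne (X.act g α)
    have h5 := hΦ.alg _ h1
    rw [hΦ.div _ _ (mul_ne_zero h3 (hg0 g)) h4, hΦ.mul _ _ h3 (hg0 g), hΦ.alg _ h2] at h5
    linear_combination h5
  obtain ⟨W, hW, n0, hn0, hn⟩ := hX.2 α
  have : NeZero n0 := ⟨hn0.ne'⟩
  obtain ⟨ε, hε⟩ := hn n0 (dvd_refl _)
  have hko : ∀ u : (ZMod n0)ˣ, ∑ a, ε a * (saw ((u : ZMod n0) * a) : ℂ) = 0 := by
    intro u
    obtain ⟨g, hg⟩ := exists_cyc_aut n0 u
    have h1 := (hε g u hg).1
    rw [← h1]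
    simp only [htyp g, hm']
    push_cast
    ring
  have key : ∀ (g : ℂ ≃+* ℂ) (Φ : ℂ → ℂ), Fn Φ → Φ (P ((g : ℂ →+* ℂ).comp σ1)) =
      k * Φ (Real.pi : ℝ) + W g * Φ (T0 : ℝ) := by
    intro g Φ hΦ
    obtain ⟨u, hu⟩ := exists_cyc_unit g n0
    have h1 := (hε g u hu).2 Φ hΦ
    rw [ko_all hko hΦ u] at h1
    rw [hPper g Φ hΦ]
    have h2 : ((X.m : ℕ) : ℂ) = 2 * k := by rw [hm']; push_cast; ring
    rw [h2] at h1
    linear_combination h1
  -- the cyclotomic field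
  obtain ⟨N0, hN0, havg⟩ := tw_avg hS hno hW
  obtain ⟨nE, hnE, s, hs⟩ := hE
  have hN : NeZero (nE * N0) := ⟨(Nat.mul_pos hnE hN0).ne'⟩
  obtain ⟨K, _, _, _, e', ζ, t, ht⟩ := exists_cyc (d := nE * N0) s fun x => adjoin_le hnE hN0 (hs x)
  obtain ⟨v, rfl⟩ := ext_emb ht e' σ1
  set e : E →+* K := ((gal (nE * N0) K v : K ≃ₐ[ℚ] K) : K →+* K).comp e' with he
  have h1e : (t v).comp e' = (t 1).comp e := by
    ext x
    change t v (e' x) = t 1 (gal (nE * N0) K v (e' x))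
    rw [t_gal ht, one_mul]
  choose h hh using fun u => ext_aut (K := K) (t := t) 1 u
  have hh' : ∀ u x, h u (t 1 x) = t u x := fun u x => by rw [hh, t_gal ht, one_mul]
  obtain ⟨Φ0, hΦ0, hΦT⟩ := exists_fn T0_trans
  have hw0 : ∀ g : ℂ ≃+* ℂ, W g = 0 := by
    intro g
    have h1 : ∀ u ∈ fixers (nE * N0) e, W (g * h u) = W g := by
      intro u hu
      have h2 := key g Φ0 hΦ0
      have h3 := key (g * h u) Φ0 hΦ0
      have e1 : ((g * h u : ℂ ≃+* ℂ) : ℂ →+* ℂ).comp ((t v).comp e') = (g : ℂ →+* ℂ).comp ((t v).comp e') := by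
        rw [h1e]
        ext x
        change g (h u (t 1 (e x))) = g (t 1 (e x))
        rw [hh, mem_fixers.mp hu x]
      rw [e1, h2] at h3
      have h4 := add_left_cancel h3
      have h5 := mul_right_cancel₀ hΦT h4
      exact_mod_cast h5.symm
    have h2 := havg (nE * N0) (dvd_mul_left _ _) K e ζ t ht h hh' g
    rw [sum_congr rfl h1, sum_const, nsmul_eq_mul] at h2
    rcases mul_eq_zero.mp h2 with h3 | h3
    · exfalso
      have h4 : 0 < (fixers (nE * N0) e).card := Finset.card_pos.mpr ⟨1, by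
        rw [mem_fixers]; intro x; rw [map_one]; rfl⟩
      have h5 : ((fixers (nE * N0) e).card : ℤ) ≠ 0 := by exact_mod_cast h4.ne'
      exact h5 h3
    · exact h3
  obtain ⟨u, rfl⟩ := ext_emb ht e σ
  have h1 : ((h u : ℂ ≃+* ℂ) : ℂ →+* ℂ).comp ((t v).comp e') = (t u).comp e := by
    rw [h1e]
    ext x
    exact hh' u (e x)
  refine alg_of_fn (hne _) (pow_ne_zero _ hpi) fun Φ hΦ => ?_
  have h2 := key (h u) Φ hΦ
  rw [h1, hw0] at h2
  rw [h2, hΦ.pow _ hpi]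
  simp

lemma period_in (hS : ∀ (L : Type) [Field L] [NumberField L], S L → Ab L) {E : Type} [Field E] [NumberField E]
    (hE : Ab E) (hno : ∀ (L : Type) [Field L] [NumberField L], S L → ¬ Nonempty (L →+* E))
    (X : DiagData) (hX : DiagS S X) {B : Type} [AddCommGroup B] [Module ℚ B] (j : B →ₗ[ℚ] X.B)
    (hj : Function.Injective j) (D : Set (ℂ ⊗[ℚ] B)) (V : ℤ → Submodule ℂ (ℂ ⊗[ℚ] B))
    (hD : ∀ x ∈ D, j.baseChange ℂ x ∈ X.deR) (hV : ∀ p, ∀ x ∈ V p, j.baseChange ℂ x ∈ X.part p)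
    {k : ℕ} (hm' : X.m = 2 * k) (f : E →ₗ[ℚ] B) (P : (E →+* ℂ) → ℂ) (hfi : Function.Injective f)
    (hhodge : ∀ σ, vec f σ ∈ V k) (hdeR : ∀ σ, P σ • vec f σ ∈ D) (hne : ∀ σ, P σ ≠ 0) (σ : E →+* ℂ) :
    ∃ u ∈ Qb, u ≠ 0 ∧ P σ = u * (Real.pi : ℂ) ^ k := by
  refine period_clsS hS hE hno X hX hm' (j ∘ₗ f) P ?_ (fun σ => ?_) (fun σ => ?_) hne σ
  · rw [LinearMap.coe_comp]
    exact hj.comp hfi
  · rw [← vec_map]
    exact hV k _ (hhodge σ)
  · rw [← vec_map, ← map_smul]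
    exact hD _ (hdeR σ)

theorem hodge_clsS (hS : ∀ (L : Type) [Field L] [NumberField L], S L → Ab L) {E : Type} [Field E] [NumberField E]
    (hE : Ab E) (hno : ∀ (L : Type) [Field L] [NumberField L], S L → ¬ Nonempty (L →+* E)) :
    GDS.HodgeClassesDeRham (ClsS S) E := by
  rw [← GDS.hodge_old]
  rintro _ ⟨M, ⟨X, hX, j, hj⟩, rfl⟩ T k hm hp
  obtain ⟨f, P, hf, hsurj, hper⟩ := toLine T _ hp
  have hm' : X.m = 2 * k := hj.weight.symm.trans hm
  have hPk := period_in hS hE hno X hX (B := M.B) j hj.inj M.D M.V hj.deRham hj.hodge hm' f P hf.inj hf.hodge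
    (fun σ => (M.mem_sp _).mp (hf.dr σ)) hf.ne
  intro x hx
  obtain ⟨a, rfl⟩ := hsurj x hx
  exact hodge_of_period hf hPk a

end Pool.Agent.T2h95.GD
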