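import Pool.Agent.T2h95.GD.ClsFermat

/-!
The class contains Hodge classes over `L` with transcendental periods.
-/

set_option autoImplicit false

open Finset
open scoped TensorProduct

namespace Pool.Agent.T2h95.GD

section

variable {d : ℕ} [NeZero d] {K : Type} [Field K] [NumberField K] [IsCyclotomicExtension {d} ℚ K]
  {ζ : K} {t : (ZMod d)ˣ → K →+* ℂ} {L : Type} [Field L] [NumberField L]

/-- the automorphisms of `L` act transitively on the embeddings -/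
lemma trans_emb (ht : IsEmb ζ t) (l : L →+* K) (σ σ' : L →+* ℂ) : ∃ τ : L ≃ₐ[ℚ] L, σ' = σ.comp (τ : L →+* L) := by
  obtain ⟨u, rfl⟩ := ext_emb ht l σ
  obtain ⟨v, rfl⟩ := ext_emb ht l σ'
  obtain ⟨τ, -, hτ⟩ := exists_tau (d := d) l
  refine ⟨τ (u⁻¹ * v), ?_⟩
  ext x
  change t v (l x) = t u (l (τ (u⁻¹ * v) x))
  rw [hτ, t_gal ht, mul_inv_cancel_left]

/-- complex conjugation -/
lemma exists_conj (ht : IsEmb ζ t) (l : L →+* K) (hL : NumberField.IsTotallyComplex L) :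
    ∃ c : L ≃ₐ[ℚ] L, (∀ (σ : L →+* ℂ) (x : L), σ (c x) = (starRingEnd ℂ) (σ x)) ∧ orderOf c = 2 := by
  obtain ⟨τ, -, hτ⟩ := exists_tau (d := d) l
  have hc : ∀ (σ : L →+* ℂ) (x : L), σ (τ (-1) x) = (starRingEnd ℂ) (σ x) := by
    intro σ x
    obtain ⟨u, rfl⟩ := ext_emb ht l σ
    change t u (l (τ (-1) x)) = cj (t u) (l x)
    rw [hτ, t_gal ht, cj_t ht, mul_neg, mul_one]
  refine ⟨τ (-1), hc, orderOf_eq_prime ?_ ?_⟩
  · rw [← map_pow]
    have : ((-1 : (ZMod d)ˣ)) ^ 2 = 1 := by simp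
    rw [this, map_one]
  · intro h1
    obtain ⟨σ⟩ : Nonempty (L →+* ℂ) := inferInstance
    have hcx := hL.isComplex (NumberField.InfinitePlace.mk σ)
    rw [NumberField.InfinitePlace.isComplex_mk_iff] at hcx
    apply hcx
    rw [NumberField.ComplexEmbedding.isReal_iff]
    ext x
    have h2 := hc σ x
    rw [h1] at h2
    exact h2.symm

theorem not_hodge (ht : IsEmb ζ t) (l : L →+* K) (hcyc : IsCyclic (L ≃ₐ[ℚ] L)) (hL : NumberField.IsTotallyComplex L)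
    (σ0 : L →+* ℂ) : ¬ GDS.HodgeClassesDeRham (Cls σ0) L := by
  obtain ⟨c, hc, hord⟩ := exists_conj ht l hL
  obtain ⟨w, hw, σ1, hσ1⟩ := exists_prim (trans_emb ht l) σ0
  have hT : (T0 : ℂ) ≠ 0 := by exact_mod_cast T0_ne
  have hwbar : ∀ σ, w σ + w (cj σ) = 0 := by
    intro σ
    have hc1 : c ≠ 1 := by
      rintro rfl
      rw [orderOf_one] at hord
      omega
    have h1 := hw c hc1 σ
    rw [hord, sum_range_succ, sum_range_one] at h1
    have e1 : σ.comp ((c ^ 0 : L ≃ₐ[ℚ] L) : L →+* L) = σ := by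
      ext x; rfl
    have e2 : σ.comp ((c ^ 1 : L ≃ₐ[ℚ] L) : L →+* L) = cj σ := by
      ext x
      rw [pow_one]
      exact hc σ x
    rw [e1, e2] at h1
    exact h1
  let Y : LineD L :=
    { c := (c : L →+* L)
      hc := hc
      m := 0
      typ := fun _ => ((0 : ℕ) : ℤ)
      per := fun σ => (T0 : ℂ) ^ w σ
      per_ne := fun σ => zpow_ne_zero _ hT
      typ_bar := fun σ => by simp
      per_bar := fun σ => ⟨1, one_mem _, by rw [← zpow_add₀ hT, hwbar]; simp⟩ }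
  have hCls : Cls σ0 Y.toDiag.toHdR := by
    refine cls_of_line Y fun σ => ?_
    obtain ⟨τ, rfl⟩ := trans_emb ht l σ0 σ
    refine ⟨_, hw.twist τ, 1, one_pos, fun n _ _ => ⟨0, fun g u _ => ⟨?_, fun Φ hΦ => ?_⟩⟩⟩
    · simp [Y]
    · have h1 : Y.per ((g : ℂ →+* ℂ).comp (σ0.comp (τ : L →+* L))) =
        (T0 : ℂ) ^ w (((g : ℂ →+* ℂ).comp σ0).comp (τ : L →+* L)) := rfl
      simp only [h1]
      rw [hΦ.zpow _ hT]
      have h2 : Y.m = 0 := rfl
      rw [h2]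
      simp
  intro h
  have h' : HodgeClassesDeRham (GDS.oldClass (Cls σ0)) L := GDS.hodge_old.mpr h
  have hline : IsLine Y.toDiag.toHdR.toOld (F := L) (LinearMap.id : L →ₗ[ℚ] L) Y.per (fun _ => ((0 : ℕ) : ℤ)) := Y.isLine
  obtain ⟨u, hu, hu0, h1⟩ := period_of_hodge h' ⟨_, hCls, rfl⟩ (by rfl) hline σ1
  obtain ⟨Φ, hΦ, hΦT⟩ := exists_fn T0_trans
  have h2 : (T0 : ℂ) ^ w σ1 = u * (Real.pi : ℂ) ^ 0 := h1
  rw [pow_zero, mul_one] at h2
  have h3 := congrArg Φ h2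
  rw [hΦ.zpow _ hT, hΦ.alg _ hu] at h3
  rcases mul_eq_zero.mp h3 with h4 | h4
  · exact hσ1 (by exact_mod_cast h4)
  · exact hΦT h4

end

end Pool.Agent.T2h95.GD
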