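import Pool.Agent.T2h95.GD.Defs

/-!
Eigenvectors of number fields in complexified rational vector spaces.
-/

set_option autoImplicit false

open scoped TensorProduct

namespace Pool.Agent.T2h95.GD

section basis

variable (F : Type) [Field F] [NumberField F]

/-- a basis of `F` -/
noncomputable def bas : Module.Basis (Fin (Module.finrank ℚ F)) ℚ F := Module.finBasis ℚ F

/-- the dual basis for the trace form -/
noncomputable def dbas : Module.Basis (Fin (Module.finrank ℚ F)) ℚ F :=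
  (Algebra.traceForm ℚ F).dualBasis (traceForm_nondegenerate ℚ F) (bas F)

variable {F}

lemma sum_emb (x : F) : ∑ σ : F →+* ℂ, σ x = ((Algebra.trace ℚ F x : ℚ) : ℂ) := by
  have h := trace_eq_sum_embeddings (K := ℚ) (L := F) ℂ (x := x)
  have h2 : (algebraMap ℚ ℂ) (Algebra.trace ℚ F x) = ((Algebra.trace ℚ F x : ℚ) : ℂ) := rfl
  rw [← h2, h]
  exact Fintype.sum_equiv (RingHom.equivRatAlgHom F ℂ) _ _ fun σ => rfl

lemma card_emb : Fintype.card (F →+* ℂ) = Module.finrank ℚ F := NumberField.Embeddings.card F ℂ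

lemma expand (a : F) : ∑ i, Algebra.trace ℚ F (a * bas F i) • dbas F i = a := by
  conv_rhs => rw [← (dbas F).sum_repr a]
  refine Finset.sum_congr rfl fun i _ => ?_
  congr 1
  unfold dbas
  rw [LinearMap.BilinForm.dualBasis_repr_apply]
  rfl

lemma trace_bas (i j : Fin (Module.finrank ℚ F)) :
    Algebra.trace ℚ F (dbas F j * bas F i) = if i = j then 1 else 0 := by
  have h := LinearMap.BilinForm.apply_dualBasis_left (B := Algebra.traceForm ℚ F)
    (traceForm_nondegenerate ℚ F) (bas F) j i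
  rw [Algebra.traceForm_apply] at h
  exact h

lemma key1 [DecidableEq (F →+* ℂ)] (σ τ : F →+* ℂ) :
    ∑ i, σ (bas F i) * τ (dbas F i) = if σ = τ then 1 else 0 := by
  classical
  let A : Matrix (Fin (Module.finrank ℚ F)) (F →+* ℂ) ℂ := Matrix.of fun i σ => σ (dbas F i)
  let B : Matrix (F →+* ℂ) (Fin (Module.finrank ℚ F)) ℂ := Matrix.of fun σ i => σ (bas F i)
  have hAB : A * B = 1 := by
    ext i j
    rw [Matrix.mul_apply]
    simp only [A, B, Matrix.of_apply]
    have : ∑ σ : F →+* ℂ, σ (dbas F i) * σ (bas F j) = ∑ σ : F →+* ℂ, σ (dbas F i * bas F j) :=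
      Finset.sum_congr rfl fun σ _ => (map_mul σ _ _).symm
    rw [this, sum_emb, trace_bas, Matrix.one_apply]
    by_cases h : i = j
    · simp [h]
    · simp [h, Ne.symm h]
  have hBA : B * A = 1 := (Matrix.mul_eq_one_comm_of_card_eq _ _ _ (by
    rw [Fintype.card_fin, card_emb])).mp hAB
  have := congrFun (congrFun hBA σ) τ
  rw [Matrix.mul_apply, Matrix.one_apply] at this
  exact this

end basis

section vec

variable {F : Type} [Field F] [NumberField F] {B : Type} [AddCommGroup B] [Module ℚ B]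

/-- the component in the line `σ` of the image of `1` -/
noncomputable def vec (f : F →ₗ[ℚ] B) (σ : F →+* ℂ) : ℂ ⊗[ℚ] B := ∑ i, σ (bas F i) ⊗ₜ[ℚ] f (dbas F i)

lemma rat_tmul (q : ℚ) (x : B) : ((q : ℂ)) ⊗ₜ[ℚ] x = (1 : ℂ) ⊗ₜ[ℚ] (q • x) := by
  rw [TensorProduct.tmul_smul, TensorProduct.smul_tmul']
  congr 1
  rw [Rat.smul_def, mul_one]

lemma one_tmul (f : F →ₗ[ℚ] B) (a : F) : (1 : ℂ) ⊗ₜ[ℚ] f a = ∑ σ : F →+* ℂ, σ a • vec f σ := by
  unfold vec
  simp only [Finset.smul_sum, TensorProduct.smul_tmul', smul_eq_mul]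
  rw [Finset.sum_comm]
  conv_lhs => rw [← expand a, map_sum, TensorProduct.tmul_sum]
  refine Finset.sum_congr rfl fun i _ => ?_
  rw [← TensorProduct.sum_tmul]
  have : ∑ σ : F →+* ℂ, σ a * σ (bas F i) = ((Algebra.trace ℚ F (a * bas F i) : ℚ) : ℂ) := by
    rw [← sum_emb]
    exact Finset.sum_congr rfl fun σ _ => (map_mul σ _ _).symm
  rw [this, rat_tmul, map_smul]

lemma vec_unique (f : F →ₗ[ℚ] B) (w : (F →+* ℂ) → ℂ ⊗[ℚ] B)
    (h : ∀ a, (1 : ℂ) ⊗ₜ[ℚ] f a = ∑ σ : F →+* ℂ, σ a • w σ) (σ : F →+* ℂ) : vec f σ = w σ := by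
  classical
  unfold vec
  have h1 : ∀ i, σ (bas F i) ⊗ₜ[ℚ] f (dbas F i) = ∑ τ : F →+* ℂ, (σ (bas F i) * τ (dbas F i)) • w τ := by
    intro i
    have : σ (bas F i) ⊗ₜ[ℚ] f (dbas F i) = σ (bas F i) • ((1 : ℂ) ⊗ₜ[ℚ] f (dbas F i)) := by
      rw [TensorProduct.smul_tmul', smul_eq_mul, mul_one]
    rw [this, h, Finset.smul_sum]
    simp only [smul_smul]
  simp only [h1]
  rw [Finset.sum_comm]
  simp only [← Finset.sum_smul, key1]
  simp

lemma vec_map {B' : Type} [AddCommGroup B'] [Module ℚ B'] (f : F →ₗ[ℚ] B) (g : B →ₗ[ℚ] B') (σ : F →+* ℂ) :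
    g.baseChange ℂ (vec f σ) = vec (g ∘ₗ f) σ := by
  unfold vec
  simp [map_sum]

lemma vec_mul (f : F →ₗ[ℚ] B) (a : F) (σ : F →+* ℂ) :
    vec (f ∘ₗ LinearMap.mulLeft ℚ a) σ = σ a • vec f σ := by
  refine vec_unique _ (fun τ => τ a • vec f τ) (fun b => ?_) σ
  rw [LinearMap.comp_apply, LinearMap.mulLeft_apply, one_tmul]
  refine Finset.sum_congr rfl fun τ _ => ?_
  rw [map_mul, smul_smul, mul_comm]

/-- complex conjugate embedding -/
noncomputable def cj (σ : F →+* ℂ) : F →+* ℂ := (starRingEnd ℂ).comp σ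

omit [NumberField F] in
lemma cj_apply (σ : F →+* ℂ) (a : F) : cj σ a = (starRingEnd ℂ) (σ a) := rfl

lemma conjC_tmul (z : ℂ) (x : B) : conjC B (z ⊗ₜ[ℚ] x) = ((starRingEnd ℂ) z) ⊗ₜ[ℚ] x := rfl

lemma conjC_smul (z : ℂ) (x : ℂ ⊗[ℚ] B) : conjC B (z • x) = (starRingEnd ℂ) z • conjC B x := by
  induction x using TensorProduct.induction_on with
  | zero => simp
  | tmul w y => rw [TensorProduct.smul_tmul', conjC_tmul, conjC_tmul, TensorProduct.smul_tmul', smul_eq_mul,
      smul_eq_mul, map_mul]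
  | add x y hx hy => rw [smul_add, map_add, hx, hy, map_add, smul_add]

lemma vec_conj (f : F →ₗ[ℚ] B) (σ : F →+* ℂ) : conjC B (vec f σ) = vec f (cj σ) := by
  unfold vec
  rw [map_sum]
  rfl

lemma vec_equiv (f : F →ₗ[ℚ] B) (τ : F ≃ₐ[ℚ] F) (σ : F →+* ℂ) :
    vec (f ∘ₗ τ.symm.toLinearMap) σ = vec f (σ.comp (τ : F →+* F)) := by
  refine vec_unique _ (fun σ => vec f (σ.comp (τ : F →+* F))) (fun a => ?_) σ
  rw [LinearMap.comp_apply, one_tmul]
  symm
  refine Fintype.sum_equiv (⟨fun σ => σ.comp (τ : F →+* F), fun σ => σ.comp (τ.symm : F →+* F), ?_, ?_⟩ :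
    (F →+* ℂ) ≃ (F →+* ℂ)) _ _ fun σ => ?_
  · intro σ; ext x; simp
  · intro σ; ext x; simp
  · simp

lemma vec_restrict {E : Type} [Field E] [NumberField E] [DecidableEq (E →+* ℂ)] (i : E →ₐ[ℚ] F) (f : F →ₗ[ℚ] B)
    (s : E →+* ℂ) :
    vec (f ∘ₗ i.toLinearMap) s = ∑ σ : F →+* ℂ with σ.comp (i : E →+* F) = s, vec f σ := by
  refine vec_unique _ (fun s => ∑ σ : F →+* ℂ with σ.comp (i : E →+* F) = s, vec f σ) (fun a => ?_) s
  rw [LinearMap.comp_apply, one_tmul, ← Finset.sum_fiberwise (s := Finset.univ) (g := fun σ : F →+* ℂ => σ.comp (i : E →+* F))]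
  refine Finset.sum_congr rfl fun s _ => ?_
  rw [Finset.smul_sum]
  refine Finset.sum_congr rfl fun σ hσ => ?_
  rw [Finset.mem_filter] at hσ
  rw [← hσ.2]
  rfl

lemma linearIndependent_vec (f : F →ₗ[ℚ] B) (hf : Function.Injective f) : LinearIndependent ℂ (vec f) := by
  have h1 : ⊤ ≤ Submodule.span ℂ (Set.range (vec (LinearMap.id : F →ₗ[ℚ] F))) := by
    intro x _
    induction x using TensorProduct.induction_on with
    | zero => exact zero_mem _
    | tmul z a =>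
      have : z ⊗ₜ[ℚ] a = z • ((1 : ℂ) ⊗ₜ[ℚ] (LinearMap.id : F →ₗ[ℚ] F) a) := by
        rw [TensorProduct.smul_tmul', smul_eq_mul, mul_one]; rfl
      rw [this, one_tmul]
      refine Submodule.smul_mem _ _ (Submodule.sum_mem _ fun σ _ => Submodule.smul_mem _ _ ?_)
      exact Submodule.subset_span ⟨σ, rfl⟩
    | add x y hx hy => exact add_mem (hx trivial) (hy trivial)
  have h2 : LinearIndependent ℂ (vec (LinearMap.id : F →ₗ[ℚ] F)) := by
    refine linearIndependent_of_top_le_span_of_card_eq_finrank h1 ?_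
    rw [Module.finrank_baseChange, card_emb]
  have h3 : Function.Injective (f.baseChange ℂ) := by
    exact Module.Flat.lTensor_preserves_injective_linearMap (M := ℂ) f hf
  have h4 := h2.map' (f.baseChange ℂ) (LinearMap.ker_eq_bot.mpr h3)
  have h5 : (⇑(f.baseChange ℂ) ∘ vec (LinearMap.id : F →ₗ[ℚ] F)) = vec f := by
    funext σ
    rw [Function.comp_apply, vec_map]
    rfl
  rw [h5] at h4
  exact h4

lemma vec_ne_zero (f : F →ₗ[ℚ] B) (hf : Function.Injective f) (σ : F →+* ℂ) : vec f σ ≠ 0 :=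
  (linearIndependent_vec f hf).ne_zero σ

end vec

end Pool.Agent.T2h95.GD
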